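import Pool.Agent.Lib_helper74.FS.Stmts

/-!
# Polygons with fixed span (MP_f6626d_co): module CHOICE (choice of the force)
-/

set_option autoImplicit false

namespace Pool.Agent.FS.CHOICE

open Finset Pool.Agent.AreaLaw

/-- the level of the vertex number `k` -/
def g (n : ℕ) (s : Fin (2 * n) → Fin 4) (k : ℕ) : ℤ := (pos n s k).1 + (pos n s k).2

lemma pos_zero (n : ℕ) (s : Fin (2 * n) → Fin 4) : pos n s 0 = 0 := by
  unfold pos
  simp

lemma pos_succ (n : ℕ) (s : Fin (2 * n) → Fin 4) (k : ℕ) (hk : k < 2 * n) :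
    pos n s (k + 1) = pos n s k + step (s ⟨k, hk⟩) := by
  classical
  unfold pos
  have h1 : Finset.univ.filter (fun i : Fin (2 * n) => i.val < k + 1) =
      insert ⟨k, hk⟩ (Finset.univ.filter (fun i : Fin (2 * n) => i.val < k)) := by
    ext i
    simp only [mem_filter, mem_univ, true_and, mem_insert, Fin.ext_iff]
    omega
  rw [h1, Finset.sum_insert (by simp), add_comm]

lemma step_lev (a : Fin 4) : |(step a).1 + (step a).2| ≤ 1 := by
  fin_cases a <;> simp [step]

lemma g_step (n : ℕ) (s : Fin (2 * n) → Fin 4) (k : ℕ) (hk : k < 2 * n) :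
    |g n s (k + 1) - g n s k| ≤ 1 := by
  unfold g
  rw [pos_succ n s k hk]
  have h1 := step_lev (s ⟨k, hk⟩)
  have h2 : (pos n s k + step (s ⟨k, hk⟩)).1 + (pos n s k + step (s ⟨k, hk⟩)).2 -
      ((pos n s k).1 + (pos n s k).2) = (step (s ⟨k, hk⟩)).1 + (step (s ⟨k, hk⟩)).2 := by
    rw [Prod.fst_add, Prod.snd_add]
    ring
  rw [h2]
  exact h1

lemma g_diff (n : ℕ) (s : Fin (2 * n) → Fin 4) (i : ℕ) : ∀ d : ℕ, i + d ≤ 2 * n →
    |g n s (i + d) - g n s i| ≤ d := by
  intro d
  induction d with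
  | zero => intro _; simp
  | succ d ih =>
    intro h
    have h1 := ih (by omega)
    have h2 := g_step n s (i + d) (by omega)
    have h3 : g n s (i + (d + 1)) - g n s i =
        (g n s (i + d + 1) - g n s (i + d)) + (g n s (i + d) - g n s i) := by
      rw [← add_assoc]
      ring
    rw [h3]
    refine (abs_add_le _ _).trans ?_
    push_cast
    linarith

/-- the span is at most `n` -/
lemma span_le (n : ℕ) (s : Fin (2 * n) → Fin 4) (hs : s ∈ SAP n) : span n s ≤ n := by
  classical
  unfold SAP at hs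
  rw [mem_filter] at hs
  have hcl : pos n s (2 * n) = 0 := hs.2.1
  have hg0 : g n s 0 = 0 := by unfold g; rw [pos_zero]; rfl
  have hgn : g n s (2 * n) = 0 := by unfold g; rw [hcl]; rfl
  have key : ∀ i j : ℕ, i ≤ j → j ≤ 2 * n → |g n s i - g n s j| ≤ n := by
    intro i j hij hj
    have h1 := g_diff n s i (j - i) (by omega)
    rw [Nat.add_sub_cancel' hij, abs_le] at h1
    have h2 := g_diff n s 0 i (by omega)
    rw [zero_add, hg0, sub_zero, abs_le] at h2
    have h3 := g_diff n s j (2 * n - j) (by omega)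
    rw [Nat.add_sub_cancel' hj, hgn, abs_le] at h3
    have e1 : ((j - i : ℕ) : ℤ) = (j : ℤ) - i := by omega
    have e2 : ((2 * n - j : ℕ) : ℤ) = 2 * (n : ℤ) - j := by omega
    rw [e1] at h1
    rw [e2] at h3
    rw [abs_le]
    constructor <;> omega
  unfold span
  apply Finset.sup_le
  rintro ⟨i, j⟩ hij
  rw [mem_product, mem_range, mem_range] at hij
  show (g n s i - g n s j).toNat ≤ n
  rcases le_total i j with h | h
  · have := abs_le.1 (key i j h hij.2.le)
    omega
  · have := abs_le.1 (key j i h hij.1.le)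
    omega

/-- a polygon of maximal span -/
def ext (n : ℕ) : Fin (2 * n) → Fin 4 := fun i =>
  if i.val < n - 1 then 0 else if i.val = n - 1 then 1 else if i.val < 2 * n - 1 then 2 else 3

lemma ext_pos (n : ℕ) (hn : 1 ≤ n) (k : ℕ) (hk : k ≤ 2 * n) : pos n (ext n) k =
    if k ≤ n - 1 then ((k : ℤ), (0 : ℤ)) else
      if k ≤ 2 * n - 1 then (2 * (n : ℤ) - 1 - k, (1 : ℤ)) else ((0 : ℤ), (0 : ℤ)) := by
  induction k with
  | zero =>
    rw [pos_zero, if_pos (Nat.zero_le _)]
    rfl
  | succ k ih =>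
    rw [pos_succ n (ext n) k (by omega), ih (by omega)]
    have e0 : step 0 = (1, 0) := rfl
    have e1 : step 1 = (0, 1) := rfl
    have e2 : step 2 = (-1, 0) := rfl
    have e3 : step 3 = (0, -1) := rfl
    unfold ext
    by_cases h1 : k < n - 1
    · rw [if_pos (by omega), if_pos h1, if_pos (by omega), e0]
      simp
    · by_cases h2 : k = n - 1
      · rw [if_pos (by omega), if_neg h1, if_pos h2, if_neg (by omega), if_pos (by omega), e1]
        rw [Prod.mk_add_mk, Prod.mk.injEq]
        constructor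
        · push_cast
          omega
        · rfl
      · by_cases h3 : k < 2 * n - 1
        · rw [if_neg (by omega), if_pos (by omega), if_neg h1, if_neg h2, if_pos h3,
            if_neg (by omega), if_pos (by omega), e2]
          rw [Prod.mk_add_mk, Prod.mk.injEq]
          constructor
          · push_cast
            ring
          · rfl
        · rw [if_neg (by omega), if_pos (by omega), if_neg h1, if_neg h2, if_neg h3,
            if_neg (by omega), if_neg (by omega), e3]
          rw [Prod.mk_add_mk, Prod.mk.injEq]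
          constructor
          · omega
          · rfl

lemma ext_mem (n : ℕ) (hn : 1 ≤ n) : ext n ∈ SAP n := by
  classical
  unfold SAP
  rw [mem_filter]
  refine ⟨mem_univ _, ?_, ?_⟩
  · rw [ext_pos n hn (2 * n) le_rfl, if_neg (by omega), if_neg (by omega)]
    rfl
  · intro j k hjk h
    have hj := j.2
    have hk := k.2
    have hjk' : j.val ≠ k.val := fun h' => hjk (Fin.ext h')
    rw [ext_pos n hn j.val hj.le, ext_pos n hn k.val hk.le] at h
    split_ifs at h <;> rw [Prod.mk.injEq] at h <;> omega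

lemma ext_span (n : ℕ) (hn : 1 ≤ n) : n ≤ span n (ext n) := by
  unfold span
  have h1 := Finset.le_sup (f := fun k : ℕ × ℕ =>
      ((pos n (ext n) k.1).1 + (pos n (ext n) k.1).2 -
        ((pos n (ext n) k.2).1 + (pos n (ext n) k.2).2)).toNat)
    (s := Finset.range (2 * n) ×ˢ Finset.range (2 * n)) (b := (n, 0))
    (mem_product.2 ⟨mem_range.2 (by omega), mem_range.2 (by omega)⟩)
  refine le_trans ?_ h1
  simp only
  rw [ext_pos n hn n (by omega), ext_pos n hn 0 (by omega), if_neg (by omega), if_pos (by omega),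
    if_pos (by omega)]
  simp only [Nat.cast_zero, add_zero, sub_zero]
  omega

lemma card_SAP_le (n : ℕ) : ((SAP n).card : ℝ) ≤ 4 ^ (2 * n) := by
  have h1 : (SAP n).card ≤ 4 ^ (2 * n) := by
    refine (Finset.card_le_univ _).trans (le_of_eq ?_)
    rw [Fintype.card_fun, Fintype.card_fin, Fintype.card_fin]
  exact_mod_cast h1

/-- centred sum -/
noncomputable def FF (n : ℕ) (h f : ℝ) : ℝ :=
  ∑ s ∈ SAP n, Real.exp (f * span n s) * ((span n s : ℝ) - h)

lemma FF_cont (n : ℕ) (h : ℝ) : Continuous (FF n h) := by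
  unfold FF
  fun_prop

lemma FF_low (e : ℝ) (he : 0 < e) (n h : ℕ) (hn : 8 / e ^ 2 ≤ n)
    (hc : (((SAP n).filter (fun s => h ≤ span n s)).card : ℝ) ≤
      Real.exp (-(e * n)) * (SAP n).card) : FF n h (e / 2) ≤ 0 := by
  classical
  by_contra hpos
  push Not at hpos
  set w : (Fin (2 * n) → Fin 4) → ℝ := fun s => Real.exp (e / 2 * span n s) with hw
  have hw1 : ∀ s, 1 ≤ w s := fun s => Real.one_le_exp (by positivity)
  have hn0 : (0 : ℝ) ≤ n := Nat.cast_nonneg _
  set A := (SAP n).filter (fun s => h ≤ span n s) with hA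
  set B := (SAP n).filter (fun s => ¬ h ≤ span n s) with hB
  have hsplit : ∀ φ : (Fin (2 * n) → Fin 4) → ℝ, ∑ s ∈ SAP n, φ s = ∑ s ∈ A, φ s + ∑ s ∈ B, φ s :=
    fun φ => (Finset.sum_filter_add_sum_filter_not (SAP n) (fun s => h ≤ span n s) φ).symm
  have h1 : FF n h (e / 2) ≤ n * ∑ s ∈ A, w s - ∑ s ∈ B, w s := by
    unfold FF
    rw [hsplit, Finset.mul_sum, sub_eq_add_neg, ← Finset.sum_neg_distrib]
    refine add_le_add (Finset.sum_le_sum fun s hs => ?_) (Finset.sum_le_sum fun s hs => ?_)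
    · rw [hA, mem_filter] at hs
      have h2 : (span n s : ℝ) ≤ n := by exact_mod_cast span_le n s hs.1
      have h3 : (0 : ℝ) ≤ h := Nat.cast_nonneg _
      rw [mul_comm]
      exact mul_le_mul_of_nonneg_right (by linarith) (by linarith [hw1 s])
    · rw [hB, mem_filter, not_le] at hs
      have h2 : (span n s : ℝ) + 1 ≤ h := by exact_mod_cast hs.2
      have h3 := hw1 s
      have h4 : Real.exp (e / 2 * span n s) = w s := rfl
      rw [h4]
      nlinarith
  have h2 : ∑ s ∈ A, w s ≤ Real.exp (e / 2 * n) * A.card := by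
    calc ∑ s ∈ A, w s ≤ ∑ s ∈ A, Real.exp (e / 2 * n) := by
          refine Finset.sum_le_sum fun s hs => ?_
          rw [hA, mem_filter] at hs
          have h2 : (span n s : ℝ) ≤ n := by exact_mod_cast span_le n s hs.1
          exact Real.exp_le_exp.2 (mul_le_mul_of_nonneg_left h2 (by positivity))
      _ = Real.exp (e / 2 * n) * A.card := by rw [Finset.sum_const, nsmul_eq_mul, mul_comm]
  have h3 : ((SAP n).card : ℝ) ≤ ∑ s ∈ A, w s + ∑ s ∈ B, w s := by
    rw [← hsplit]
    calc ((SAP n).card : ℝ) = ∑ s ∈ SAP n, (1 : ℝ) := by simp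
      _ ≤ _ := Finset.sum_le_sum fun s _ => hw1 s
  have h4 : ((SAP n).card : ℝ) < (n + 1) * ∑ s ∈ A, w s := by linarith
  have h5 : (n + 1) * ∑ s ∈ A, w s ≤
      (n + 1) * (Real.exp (e / 2 * n) * (Real.exp (-(e * n)) * (SAP n).card)) := by
    refine mul_le_mul_of_nonneg_left (h2.trans ?_) (by linarith)
    exact mul_le_mul_of_nonneg_left hc (Real.exp_pos _).le
  have h6 : Real.exp (e / 2 * n) * (Real.exp (-(e * n)) * (SAP n).card) =
      Real.exp (-(e / 2 * n)) * (SAP n).card := by
    rw [← mul_assoc, ← Real.exp_add]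
    congr 2
    ring
  rw [h6] at h5
  have h7 : (n : ℝ) + 1 ≤ Real.exp (e / 2 * n) := by
    have h8 := Real.quadratic_le_exp_of_nonneg (x := e / 2 * n) (by positivity)
    have h9 : (n : ℝ) ≤ (e / 2 * n) ^ 2 / 2 := by
      rw [div_le_iff₀ (by positivity)] at hn
      nlinarith
    have h10 : 0 ≤ e / 2 * n := by positivity
    linarith
  have h8 : ((n : ℝ) + 1) * Real.exp (-(e / 2 * n)) ≤ 1 := by
    rw [Real.exp_neg]
    rw [mul_inv_le_iff₀ (Real.exp_pos _)]
    linarith
  have h9 : (0 : ℝ) ≤ (SAP n).card := Nat.cast_nonneg _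
  nlinarith

lemma FF_high (e : ℝ) (he : 0 < e) (n h : ℕ) (hn : 1 ≤ n) (f : ℝ) (hf : 2 * Real.log 4 / e ≤ f)
    (hh : (h : ℝ) ≤ (1 - e) * n) : 0 ≤ FF n h f := by
  classical
  have hlog : 1 < Real.log 4 := by
    rw [Real.lt_log_iff_exp_lt (by norm_num)]
    have := Real.exp_one_lt_d9
    linarith
  have hf0 : 0 < f := lt_of_lt_of_le (by positivity) hf
  have hn1 : (1 : ℝ) ≤ n := by exact_mod_cast hn
  have hterm : ∀ s, -(Real.exp (f * h) / f) ≤
      Real.exp (f * span n s) * ((span n s : ℝ) - h) := by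
    intro s
    have h1 := Real.add_one_le_exp (f * ((h : ℝ) - span n s))
    have h2 : f * ((h : ℝ) - span n s) ≤ Real.exp (f * ((h : ℝ) - span n s)) := by linarith
    have h3 : Real.exp (f * h) = Real.exp (f * span n s) * Real.exp (f * ((h : ℝ) - span n s)) := by
      rw [← Real.exp_add]
      congr 1
      ring
    have h4 : Real.exp (f * span n s) * ((h : ℝ) - span n s) ≤ Real.exp (f * h) / f := by
      rw [le_div_iff₀ hf0, h3]
      have := mul_le_mul_of_nonneg_left h2 (Real.exp_pos (f * span n s)).le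
      linarith
    linarith
  have hmem := ext_mem n hn
  have hspan : (span n (ext n) : ℝ) = n := by
    have := le_antisymm (span_le n _ hmem) (ext_span n hn)
    exact_mod_cast this
  have h1 : FF n h f = Real.exp (f * n) * ((n : ℝ) - h) +
      ∑ s ∈ (SAP n).erase (ext n), Real.exp (f * span n s) * ((span n s : ℝ) - h) := by
    unfold FF
    rw [← Finset.add_sum_erase _ _ hmem, hspan]
  have h2 : -((4 : ℝ) ^ (2 * n) * (Real.exp (f * h) / f)) ≤
      ∑ s ∈ (SAP n).erase (ext n), Real.exp (f * span n s) * ((span n s : ℝ) - h) := by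
    calc -((4 : ℝ) ^ (2 * n) * (Real.exp (f * h) / f))
        ≤ -((((SAP n).erase (ext n)).card : ℝ) * (Real.exp (f * h) / f)) := by
          apply neg_le_neg
          refine mul_le_mul_of_nonneg_right ?_ (by positivity)
          refine le_trans ?_ (card_SAP_le n)
          exact_mod_cast Finset.card_le_card (Finset.erase_subset _ _)
      _ = ∑ s ∈ (SAP n).erase (ext n), -(Real.exp (f * h) / f) := by
          rw [Finset.sum_const, nsmul_eq_mul]
          ring
      _ ≤ _ := Finset.sum_le_sum fun s _ => hterm s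
  have h3 : (4 : ℝ) ^ (2 * n) * Real.exp (f * h) ≤ Real.exp (f * n) := by
    have h4 : (4 : ℝ) ^ (2 * n) = Real.exp (2 * n * Real.log 4) := by
      have h5 : (4 : ℝ) = Real.exp (Real.log 4) := (Real.exp_log (by norm_num)).symm
      conv_lhs => rw [h5]
      rw [← Real.exp_nat_mul]
      push_cast
      rfl
    rw [h4, ← Real.exp_add]
    apply Real.exp_le_exp.2
    rw [div_le_iff₀ he] at hf
    nlinarith
  have h4 : 1 / f ≤ (n : ℝ) - h := by
    have h5 : 1 / f ≤ e := by
      rw [div_le_iff₀ hf0]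
      rw [div_le_iff₀ he] at hf
      nlinarith
    nlinarith
  have h5 : Real.exp (f * n) * (1 / f) ≤ Real.exp (f * n) * ((n : ℝ) - h) :=
    mul_le_mul_of_nonneg_left h4 (Real.exp_pos _).le
  have h6 : (4 : ℝ) ^ (2 * n) * (Real.exp (f * h) / f) ≤ Real.exp (f * n) * (1 / f) := by
    rw [← mul_div_assoc, ← mul_div_assoc, mul_one]
    exact div_le_div_of_nonneg_right h3 hf0.le
  rw [h1]
  linarith

end Pool.Agent.FS.CHOICE

namespace Pool.Agent.FS

open Finset Pool.Agent.AreaLaw CHOICE

theorem CHOICE_thm : CHOICE_Stmt := by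
  intro e he
  refine ⟨max (e / 2) (2 * Real.log 4 / e), le_max_left _ _, ⌈8 / e ^ 2⌉₊ + 1, ?_⟩
  intro n hn h hc hh
  have hn1 : 1 ≤ n := by omega
  have hn2 : 8 / e ^ 2 ≤ (n : ℝ) := by
    refine (Nat.le_ceil _).trans ?_
    exact_mod_cast (show ⌈8 / e ^ 2⌉₊ ≤ n by omega)
  have h1 := FF_low e he n h hn2 hc
  have h2 := FF_high e he n h hn1 (max (e / 2) (2 * Real.log 4 / e)) (le_max_right _ _) hh
  obtain ⟨f, hf, hf0⟩ := intermediate_value_Icc (le_max_left (e / 2) (2 * Real.log 4 / e))
    (FF_cont n h).continuousOn ⟨h1, h2⟩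
  refine ⟨f, hf.1, hf.2, ?_⟩
  unfold Cen
  unfold FF at hf0
  rw [hf0, abs_zero]
  unfold forceZ
  exact Finset.sum_nonneg fun s _ => (Real.exp_pos _).le

end Pool.Agent.FS
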