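import Pool.Agent.Lib_helper74.FS.Stmts

/-!
# Polygons with fixed span (MP_f6626d_co): module CLS
-/

set_option autoImplicit false

namespace Pool.Agent.FS
namespace CLS

open Finset Filter Topology MeasureTheory
open Pool.Agent.Lib27 Pool.Agent.SapR Pool.Agent.Gap Pool.Agent.AreaLaw Pool.Agent.FL

/-! ### Averages -/

section abs

variable {α : Type}

/-- weighted average -/
noncomputable def av (P : Finset α) (w ψ : α → ℝ) : ℝ := (∑ q ∈ P, w q * ψ q) / ∑ q ∈ P, w q

lemma av_mono (P : Finset α) (w ψ χ : α → ℝ) (hw : ∀ q ∈ P, 0 ≤ w q)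
    (h : ∀ q ∈ P, ψ q ≤ χ q) : av P w ψ ≤ av P w χ := by
  unfold av
  exact div_le_div_of_nonneg_right
    (Finset.sum_le_sum fun q hq => mul_le_mul_of_nonneg_left (h q hq) (hw q hq))
    (Finset.sum_nonneg hw)

lemma av_add (P : Finset α) (w ψ χ : α → ℝ) :
    av P w (fun q => ψ q + χ q) = av P w ψ + av P w χ := by
  unfold av
  rw [← add_div, ← Finset.sum_add_distrib]
  congr 1
  exact Finset.sum_congr rfl fun _ _ => by ring

lemma av_mul (P : Finset α) (w : α → ℝ) (c : ℝ) (ψ : α → ℝ) :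
    av P w (fun q => c * ψ q) = c * av P w ψ := by
  unfold av
  rw [← mul_div_assoc, Finset.mul_sum]
  congr 1
  exact Finset.sum_congr rfl fun _ _ => by ring

lemma av_one_le (P : Finset α) (w : α → ℝ) : av P w (fun _ => 1) ≤ 1 := by
  unfold av
  simp only [mul_one]
  exact div_self_le_one _

lemma av_nonneg (P : Finset α) (w ψ : α → ℝ) (hw : ∀ q ∈ P, 0 ≤ w q)
    (h : ∀ q ∈ P, 0 ≤ ψ q) : 0 ≤ av P w ψ := by
  unfold av
  exact div_nonneg (Finset.sum_nonneg fun q hq => mul_nonneg (hw q hq) (h q hq))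
    (Finset.sum_nonneg hw)

lemma av_close (P : Finset α) (w ψ χ d : α → ℝ) (hw : ∀ q ∈ P, 0 ≤ w q)
    (h : ∀ q ∈ P, |ψ q - χ q| ≤ d q) : |av P w ψ - av P w χ| ≤ av P w d := by
  have h1 : av P w ψ ≤ av P w χ + av P w d := by
    rw [← av_add]
    exact av_mono P w _ _ hw fun q hq => by
      have := (abs_le.1 (h q hq)).2
      linarith
  have h2 : av P w χ ≤ av P w ψ + av P w d := by
    rw [← av_add]
    exact av_mono P w _ _ hw fun q hq => by
      have := (abs_le.1 (h q hq)).1
      linarith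
  rw [abs_le]
  constructor <;> linarith

/-- truncation -/
noncomputable def tr (R a : ℝ) : ℝ := min (|a| / R) 1

lemma tr_abs (R : ℝ) (hR : 1 ≤ R) (a : ℝ) : |tr R a| ≤ 1 := by
  unfold tr
  have h1 : 0 ≤ |a| / R := div_nonneg (abs_nonneg _) (by linarith)
  rw [abs_of_nonneg (le_min h1 zero_le_one)]
  exact min_le_right _ _

lemma tr_lip (R : ℝ) (hR : 1 ≤ R) : LipschitzWith 1 (tr R) := by
  refine LipschitzWith.of_dist_le_mul fun a b => ?_
  rw [Real.dist_eq, Real.dist_eq, NNReal.coe_one, one_mul]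
  unfold tr
  refine (abs_min_sub_min_le_max _ _ _ _).trans ?_
  rw [sub_self, abs_zero, max_eq_left (abs_nonneg _), ← sub_div, abs_div,
    abs_of_pos (show (0 : ℝ) < R by linarith)]
  have h1 := abs_abs_sub_abs_le_abs_sub a b
  have h2 : |(|a| - |b|)| / R ≤ |(|a| - |b|)| := div_le_self (abs_nonneg _) hR
  linarith

lemma tr_le (R : ℝ) (hR : 1 ≤ R) (a : ℝ) (ha : 0 ≤ a) : R * tr R a ≤ a := by
  unfold tr
  rw [abs_of_nonneg ha]
  have h1 : R * min (a / R) 1 ≤ R * (a / R) :=
    mul_le_mul_of_nonneg_left (min_le_left _ _) (by linarith)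
  rwa [mul_div_cancel₀ _ (by linarith : R ≠ 0)] at h1

lemma le_tr (R : ℝ) (hR : 1 ≤ R) (a : ℝ) (ha : 0 ≤ a) : a ≤ R * tr R a + R⁻¹ * a ^ 2 := by
  unfold tr
  rw [abs_of_nonneg ha]
  have hR0 : 0 < R := by linarith
  rcases le_total (a / R) 1 with h | h
  · rw [min_eq_left h, mul_div_cancel₀ _ hR0.ne']
    have : 0 ≤ R⁻¹ * a ^ 2 := by positivity
    linarith
  · rw [min_eq_right h]
    rw [le_div_iff₀ hR0, one_mul] at h
    have h1 : R⁻¹ * (a * R) ≤ R⁻¹ * a ^ 2 := by
      refine mul_le_mul_of_nonneg_left ?_ (by positivity)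
      nlinarith
    have h2 : R⁻¹ * (a * R) = a := by
      field_simp
    linarith

theorem abs_main (P Q : ℕ → Finset α) (w v X Y : ℕ → α → ℝ)
    (hw : ∀ n, ∀ q ∈ P n, 0 ≤ w n q) (hv : ∀ n, ∀ q ∈ Q n, 0 ≤ v n q) (hX : ∀ n q, 0 ≤ X n q)
    (h2 : Tendsto (fun n => av (P n) (w n) (fun q => |Y n q - X n q|)) atTop (𝓝 0))
    (h2' : Tendsto (fun n => av (Q n) (v n) (fun q => |Y n q - X n q|)) atTop (𝓝 0))
    (h3 : ∃ C, ∀ᶠ n in atTop, av (P n) (w n) (fun q => X n q ^ 2) ≤ C ∧
      av (Q n) (v n) (fun q => X n q ^ 2) ≤ C)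
    (h4 : ∀ φ : ℝ → ℝ, (∀ a, |φ a| ≤ 1) → LipschitzWith 1 φ →
      Tendsto (fun n => av (P n) (w n) (fun q => φ (X n q)) -
        av (Q n) (v n) (fun q => φ (X n q))) atTop (𝓝 0))
    (h5 : ∃ c, 0 < c ∧ ∀ᶠ n in atTop, c ≤ av (Q n) (v n) (X n)) :
    (∀ φ : ℝ → ℝ, (∀ a, |φ a| ≤ 1) → LipschitzWith 1 φ →
      Tendsto (fun n => av (P n) (w n) (fun q => φ (Y n q)) -
        av (Q n) (v n) (fun q => φ (Y n q))) atTop (𝓝 0)) ∧
    Tendsto (fun n => av (P n) (w n) (Y n) - av (Q n) (v n) (Y n)) atTop (𝓝 0) ∧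
    ∃ c, 0 < c ∧ ∀ᶠ n in atTop, c ≤ av (Q n) (v n) (Y n) ∧ av (Q n) (v n) (Y n) ≤ c⁻¹ := by
  have hsum : ∀ (u : ℕ → ℝ), Tendsto u atTop (𝓝 0) → Tendsto (fun n =>
      av (P n) (w n) (fun q => |Y n q - X n q|) + |u n| +
        av (Q n) (v n) (fun q => |Y n q - X n q|)) atTop (𝓝 0) := by
    intro u hu
    have h := (h2.add hu.abs).add h2'
    simpa using h
  refine ⟨?_, ?_, ?_⟩
  · intro φ hφ1 hφ2
    refine squeeze_zero_norm (fun n => ?_) (hsum _ (h4 φ hφ1 hφ2))
    rw [Real.norm_eq_abs]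
    have hl : ∀ q, |φ (Y n q) - φ (X n q)| ≤ |Y n q - X n q| := by
      intro q
      have := hφ2.dist_le_mul (Y n q) (X n q)
      rwa [Real.dist_eq, Real.dist_eq, NNReal.coe_one, one_mul] at this
    have e1 := av_close (P n) (w n) (fun q => φ (Y n q)) (fun q => φ (X n q))
      (fun q => |Y n q - X n q|) (hw n) fun q _ => hl q
    have e2 := av_close (Q n) (v n) (fun q => φ (Y n q)) (fun q => φ (X n q))
      (fun q => |Y n q - X n q|) (hv n) fun q _ => hl q
    rw [abs_le] at *
    have e3 := abs_le.1 (le_refl |av (P n) (w n) (fun q => φ (X n q)) -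
      av (Q n) (v n) (fun q => φ (X n q))|)
    constructor <;> linarith [e1.1, e1.2, e2.1, e2.2, e3.1, e3.2]
  · -- the means
    have hXX : Tendsto (fun n => av (P n) (w n) (X n) - av (Q n) (v n) (X n)) atTop (𝓝 0) := by
      obtain ⟨C, hC⟩ := h3
      rw [Metric.tendsto_atTop]
      intro ε hε
      set R : ℝ := max 1 (2 * (|C| + 1) / ε) with hR
      have hR1 : 1 ≤ R := le_max_left _ _
      have hR0 : 0 < R := by linarith
      have hR2 : R⁻¹ * (|C| + 1) ≤ ε / 2 := by
        have h : 2 * (|C| + 1) / ε ≤ R := le_max_right _ _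
        rw [div_le_iff₀ hε] at h
        rw [inv_mul_le_iff₀ hR0]
        linarith
      have h6 := h4 (tr R) (tr_abs R hR1) (tr_lip R hR1)
      rw [Metric.tendsto_atTop] at h6
      obtain ⟨N1, hN1⟩ := h6 (ε / (2 * R)) (by positivity)
      obtain ⟨N2, hN2⟩ := eventually_atTop.1 hC
      refine ⟨max N1 N2, fun n hn => ?_⟩
      have h7 := hN1 n (le_trans (le_max_left _ _) hn)
      obtain ⟨h8, h9⟩ := hN2 n (le_trans (le_max_right _ _) hn)
      rw [Real.dist_eq, sub_zero] at h7 ⊢
      have key : ∀ (T : Finset α) (u : α → ℝ), (∀ q ∈ T, 0 ≤ u q) →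
          av T u (fun q => X n q ^ 2) ≤ C →
          R * av T u (fun q => tr R (X n q)) ≤ av T u (X n) ∧
          av T u (X n) ≤ R * av T u (fun q => tr R (X n q)) + R⁻¹ * (|C| + 1) - R⁻¹ := by
        intro T u hu hT
        constructor
        · rw [← av_mul]
          exact av_mono T u _ _ hu fun q _ => tr_le R hR1 _ (hX n q)
        · have h10 : av T u (X n) ≤ R * av T u (fun q => tr R (X n q)) +
              R⁻¹ * av T u (fun q => X n q ^ 2) := by
            rw [← av_mul, ← av_mul, ← av_add]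
            exact av_mono T u _ _ hu fun q _ => le_tr R hR1 _ (hX n q)
          have h11 : R⁻¹ * av T u (fun q => X n q ^ 2) ≤ R⁻¹ * |C| :=
            mul_le_mul_of_nonneg_left (hT.trans (le_abs_self C)) (by positivity)
          linarith
      obtain ⟨k1, k2⟩ := key (P n) (w n) (hw n) h8
      obtain ⟨k3, k4⟩ := key (Q n) (v n) (hv n) h9
      have hRi : 0 < R⁻¹ := by positivity
      have h12 : R * |av (P n) (w n) (fun q => tr R (X n q)) -
          av (Q n) (v n) (fun q => tr R (X n q))| < ε / 2 := by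
        have := mul_lt_mul_of_pos_left h7 hR0
        have e : R * (ε / (2 * R)) = ε / 2 := by
          field_simp
        rwa [e] at this
      have h13 := abs_le.1 (le_refl |av (P n) (w n) (fun q => tr R (X n q)) -
          av (Q n) (v n) (fun q => tr R (X n q))|)
      have h14 := mul_le_mul_of_nonneg_left h13.1 hR0.le
      have h15 := mul_le_mul_of_nonneg_left h13.2 hR0.le
      rw [abs_lt]
      constructor <;> nlinarith
    refine squeeze_zero_norm (fun n => ?_) (hsum _ hXX)
    rw [Real.norm_eq_abs]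
    have e1 := av_close (P n) (w n) (Y n) (X n) (fun q => |Y n q - X n q|) (hw n)
      fun q _ => le_rfl
    have e2 := av_close (Q n) (v n) (Y n) (X n) (fun q => |Y n q - X n q|) (hv n)
      fun q _ => le_rfl
    rw [abs_le] at *
    have e3 := abs_le.1 (le_refl |av (P n) (w n) (X n) - av (Q n) (v n) (X n)|)
    constructor <;> linarith [e1.1, e1.2, e2.1, e2.2, e3.1, e3.2]
  · obtain ⟨C, hC⟩ := h3
    obtain ⟨c, hc, hcn⟩ := h5
    have hsm : ∀ᶠ n in atTop, av (Q n) (v n) (fun q => |Y n q - X n q|) < min (c / 2) 1 :=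
      h2'.eventually (gt_mem_nhds (lt_min (by positivity) one_pos))
    refine ⟨min (c / 2) (2 + |C|)⁻¹, lt_min (by positivity) (by positivity), ?_⟩
    filter_upwards [hC, hcn, hsm] with n h6 h7 h8
    have e2 := abs_le.1 (av_close (Q n) (v n) (Y n) (X n) (fun q => |Y n q - X n q|) (hv n)
      fun q _ => le_rfl)
    have h9 := lt_min_iff.1 h8
    have h10 : av (Q n) (v n) (X n) ≤ 1 + |C| := by
      have h11 : av (Q n) (v n) (X n) ≤ av (Q n) (v n) (fun _ => 1) +
          av (Q n) (v n) (fun q => X n q ^ 2) := by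
        rw [← av_add]
        refine av_mono _ _ _ _ (hv n) fun q _ => ?_
        nlinarith [sq_nonneg (X n q - 1), hX n q]
      have h12 := av_one_le (Q n) (v n)
      have h13 := le_abs_self C
      linarith [h6.2]
    constructor
    · exact (min_le_left _ _).trans (by linarith [e2.1])
    · have h14 : (2 + |C|) ≤ (min (c / 2) (2 + |C|)⁻¹)⁻¹ := by
        rw [le_inv_comm₀ (by positivity) (lt_min (by positivity) (by positivity))]
        exact min_le_right _ _
      refine le_trans ?_ h14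
      linarith [e2.2]

end abs

/-! ### The span is at most `n` -/

lemma lev_step (p : ℤ × ℤ) (d : Fin 4) :
    lev (p + dv d) ≤ lev p + 1 ∧ lev p ≤ lev (p + dv d) + 1 := by
  fin_cases d <;> simp [dv, lev] <;> omega

lemma lev_le (w : Wd) : ∀ p q : ℤ × ℤ, q ∈ vt p w →
    2 * lev q ≤ w.length + lev p + lev (ep p w) := by
  induction w with
  | nil =>
    intro p q hq
    rw [vt_nil, List.mem_singleton] at hq
    subst hq
    simp only [ep, List.length_nil]
    push_cast
    omega
  | cons d s ih =>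
    intro p q hq
    rw [vt_cons, List.mem_cons] at hq
    have h1 := lev_step p d
    rcases hq with rfl | hq
    · have h0 : q + dv d ∈ vt (q + dv d) s := by
        cases s with
        | nil => rw [vt_nil]; exact List.mem_singleton.2 rfl
        | cons e s => rw [vt_cons]; exact List.mem_cons_self
      have h2 := ih (q + dv d) (q + dv d) h0
      simp only [ep, List.length_cons]
      push_cast
      omega
    · have h2 := ih (p + dv d) q hq
      simp only [ep, List.length_cons]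
      push_cast
      omega

lemma hgt_le_half {x : ℤ} {w : Wd} (hw : Arch x w) : 2 * hgt w ≤ w.length := by
  have h1 : hgt w ≤ w.length / 2 := by
    unfold hgt
    refine Finset.sup_le fun q hq => ?_
    rw [List.mem_toFinset] at hq
    have h2 := lev_le w 0 q hq
    rw [hw.2.1] at h2
    have h3 : lev (0 : ℤ × ℤ) = 0 := rfl
    have h4 : lev ((-x, x) : ℤ × ℤ) = 0 := by
      show -x + x = 0
      omega
    rw [h3, h4] at h2
    omega
  omega

lemma sp_le (n : ℕ) (q : QI) (hq : q ∈ Omn n) : sp q ≤ n := by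
  classical
  obtain ⟨x, M, T, w⟩ := q
  unfold Omn M41.Om at hq
  rw [mem_sigma, mem_sigma, mem_product] at hq
  obtain ⟨h1, h2, h3, h4⟩ := hq
  simp only at h1 h2 h3 h4
  rw [CapSet, mem_filter, mem_words] at h3
  rw [ArchSet, mem_filter, mem_words] at h4
  have h5 := hgt_le_half h3.2.1
  have h6 := hgt_le_half h4.2.1
  rw [mem_range] at h2
  rw [mem_Icc] at h1
  show hgt w + hgt T ≤ n
  omega

/-! ### The classes -/

/-- weighted sum over the words of span `k` -/
noncomputable def V (n : ℕ) (s : ℝ) (k : ℕ) (ψ : QI → ℝ) : ℝ :=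
  ∑ q ∈ (Omn n).filter (fun q => sp q = k), wtq n s q * ψ q

lemma wtq_eq (n : ℕ) (s : ℝ) (q : QI) : wtq n s q = s ^ (n - sp q) := rfl

/-- the number of spans in the class -/
def mm (b : Bool) (n h : ℕ) : ℕ := bif b then 1 else n + 1 - h

open Classical in
lemma W_eq (n h : ℕ) (s : ℝ) (b : Bool) (ψ : QI → ℝ) :
    s ^ (n - h) * ∑ q ∈ (Omn n).filter (fun q => inC b h (sp q)), ψ q =
      ∑ i ∈ range (mm b n h), s ^ i * V n s (h + i) ψ := by
  cases b with
  | true =>
    have e1 : mm true n h = 1 := rfl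
    rw [e1, Finset.sum_range_one, pow_zero, one_mul, add_zero, V, Finset.mul_sum]
    have e2 : (Omn n).filter (fun q => inC true h (sp q)) =
        (Omn n).filter (fun q => sp q = h) := by
      refine Finset.filter_congr fun q _ => ?_
      simp [inC]
    rw [e2]
    refine Finset.sum_congr rfl fun q hq => ?_
    rw [wtq_eq, (mem_filter.1 hq).2]
  | false =>
    have e1 : mm false n h = n + 1 - h := rfl
    rw [e1]
    have e3 : ∀ i ∈ range (n + 1 - h), s ^ i * V n s (h + i) ψ =
        s ^ (n - h) * ∑ q ∈ ((Omn n).filter (fun q => inC false h (sp q))).filter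
          (fun q => sp q - h = i), ψ q := by
      intro i hi
      rw [mem_range] at hi
      rw [V, Finset.mul_sum, Finset.mul_sum]
      have e2 : ((Omn n).filter (fun q => inC false h (sp q))).filter (fun q => sp q - h = i) =
          (Omn n).filter (fun q => sp q = h + i) := by
        rw [Finset.filter_filter]
        refine Finset.filter_congr fun q _ => ?_
        simp only [inC]
        constructor
        · rintro ⟨h1 | h1, h2⟩
          · exact absurd h1.1 (by simp)
          · omega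
        · intro h1
          exact ⟨Or.inr ⟨trivial, by omega⟩, by omega⟩
      rw [e2]
      refine Finset.sum_congr rfl fun q hq => ?_
      rw [wtq_eq, (mem_filter.1 hq).2, ← mul_assoc, ← pow_add]
      congr 2
      omega
    rw [Finset.sum_congr rfl e3, ← Finset.mul_sum]
    congr 1
    symm
    refine Finset.sum_fiberwise_of_maps_to (fun q hq => ?_) ψ
    obtain ⟨h1, h2⟩ := mem_filter.1 hq
    have h3 := sp_le n q h1
    rcases h2 with h2 | h2
    · exact absurd h2.1 (by simp)
    · rw [mem_range]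
      omega

/-- the constant for the geometric sums -/
noncomputable def KK (s1 : ℝ) : ℝ := ∑' i : ℕ, s1 ^ i * (1 + i)

lemma summ (s1 : ℝ) (h0 : 0 ≤ s1) (h1 : s1 < 1) : Summable (fun i : ℕ => s1 ^ i * (1 + (i : ℝ))) := by
  have h2 : ‖s1‖ < 1 := by rwa [Real.norm_eq_abs, abs_of_nonneg h0]
  have h3 := summable_geometric_of_norm_lt_one h2
  have h4 := summable_pow_mul_geometric_of_norm_lt_one 1 h2
  have h5 := h3.add h4
  refine h5.congr fun i => ?_
  rw [pow_one]
  ring

lemma geo (s s1 : ℝ) (hs : 0 < s) (h : s ≤ s1) (h1 : s1 < 1) (m : ℕ) (B : ℝ) (hB : 0 ≤ B)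
    (u : ℕ → ℝ) (hu : ∀ i, u i ≤ B * (1 + (i : ℝ))) :
    ∑ i ∈ range m, s ^ i * u i ≤ KK s1 * B := by
  have h2 : ∑ i ∈ range m, s ^ i * u i ≤ ∑ i ∈ range m, B * (s1 ^ i * (1 + (i : ℝ))) := by
    refine Finset.sum_le_sum fun i _ => ?_
    calc s ^ i * u i ≤ s ^ i * (B * (1 + (i : ℝ))) :=
          mul_le_mul_of_nonneg_left (hu i) (by positivity)
      _ ≤ s1 ^ i * (B * (1 + (i : ℝ))) :=
          mul_le_mul_of_nonneg_right (pow_le_pow_left₀ hs.le h i) (by positivity)
      _ = _ := by ring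
  rw [← Finset.mul_sum] at h2
  have h3 := (summ s1 (by linarith) h1).sum_le_tsum (range m) fun i _ => by
    have : 0 ≤ s1 := by linarith
    positivity
  have h4 := mul_le_mul_of_nonneg_left h3 hB
  rw [mul_comm]
  exact h2.trans h4

/-! ### One `n` -/

lemma V_nonneg (n : ℕ) (s : ℝ) (hs : 0 < s) (k : ℕ) (ψ : QI → ℝ) (h : ∀ q, 0 ≤ ψ q) :
    0 ≤ V n s k ψ :=
  Finset.sum_nonneg fun q _ => mul_nonneg (by rw [wtq_eq]; positivity) (h q)

lemma V_mono (n : ℕ) (s : ℝ) (hs : 0 < s) (k : ℕ) (ψ χ : QI → ℝ) (h : ∀ q, ψ q ≤ χ q) :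
    V n s k ψ ≤ V n s k χ :=
  Finset.sum_le_sum fun q _ => mul_le_mul_of_nonneg_left (h q) (by rw [wtq_eq]; positivity)

open Classical in
lemma av_class (n h : ℕ) (s : ℝ) (hs : 0 < s) (b : Bool) (ψ : QI → ℝ) :
    av ((Omn n).filter (fun q => inC b h (sp q))) (fun _ => 1) ψ =
      (∑ i ∈ range (mm b n h), s ^ i * V n s (h + i) ψ) /
        ∑ i ∈ range (mm b n h), s ^ i * V n s (h + i) (fun _ => 1) := by
  rw [← W_eq, ← W_eq, mul_div_mul_left _ _ (pow_ne_zero _ hs.ne')]
  unfold av
  simp only [one_mul]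

/-- lower bound of the class -/
lemma W_one_ge (n h : ℕ) (s : ℝ) (hs : 0 < s) (b : Bool) (hV : 0 < V n s h (fun _ => 1)) :
    V n s h (fun _ => 1) ≤ ∑ i ∈ range (mm b n h), s ^ i * V n s (h + i) (fun _ => 1) := by
  have h1 : 1 ≤ mm b n h := by
    cases b with
    | true => exact le_rfl
    | false =>
      show 1 ≤ n + 1 - h
      by_contra hc
      apply hV.ne'
      unfold V
      rw [Finset.sum_eq_zero]
      intro q hq
      obtain ⟨h2, h3⟩ := mem_filter.1 hq
      have := sp_le n q h2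
      omega
  have h2 := Finset.single_le_sum (f := fun i => s ^ i * V n s (h + i) (fun _ => 1))
    (fun i _ => mul_nonneg (pow_nonneg hs.le i) (V_nonneg n s hs _ _ fun _ => zero_le_one))
    (mem_range.2 (show 0 < mm b n h by omega))
  simpa using h2

open Classical in
/-- bound of an average over a class -/
lemma av_le (n h : ℕ) (s s1 : ℝ) (hs : 0 < s) (hss : s ≤ s1) (h1 : s1 < 1) (b : Bool)
    (ψ : QI → ℝ) (B D : ℝ) (hB : 0 ≤ B) (hD : 0 < D) (hψ : ∀ k, V n s k ψ ≤ B)
    (hV : D ≤ V n s h (fun _ => 1)) :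
    av ((Omn n).filter (fun q => inC b h (sp q))) (fun _ => 1) ψ ≤ KK s1 * B / D := by
  rw [av_class n h s hs]
  have h2 := W_one_ge n h s hs b (lt_of_lt_of_le hD hV)
  have h3 : 0 ≤ KK s1 * B := by
    have := geo s s1 hs hss h1 0 B hB (fun _ => 0) (fun i => by positivity)
    simpa using this
  have h4 := geo s s1 hs hss h1 (mm b n h) B hB (fun i => V n s (h + i) ψ) (fun i => by
    have h5 := hψ (h + i)
    have h6 : (0 : ℝ) ≤ i := Nat.cast_nonneg i
    nlinarith)
  exact div_le_div₀ h3 h4 hD (hV.trans h2)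

open Classical in
/-- comparison of the average over a class with the average over one span -/
lemma av_comp (n h : ℕ) (s s1 : ℝ) (hs : 0 < s) (hss : s ≤ s1) (h1 : s1 < 1) (b : Bool)
    (ψ : QI → ℝ) (hψ : ∀ q, |ψ q| ≤ 1) (B D : ℝ) (hB : 0 ≤ B) (hD : 0 < D)
    (h2 : ∀ i : ℕ, |V n s (h + i) ψ - V n s h ψ| ≤ B * (1 + (i : ℝ)))
    (h3 : ∀ i : ℕ, |V n s (h + i) (fun _ => 1) - V n s h (fun _ => 1)| ≤ B * (1 + (i : ℝ)))
    (hV : D ≤ V n s h (fun _ => 1)) :
    |av ((Omn n).filter (fun q => inC b h (sp q))) (fun _ => 1) ψ -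
      V n s h ψ / V n s h (fun _ => 1)| ≤ 2 * (KK s1 * B) / D := by
  rw [av_class n h s hs]
  set S : ℝ := ∑ i ∈ range (mm b n h), s ^ i with hS
  set E : ℝ := KK s1 * B with hE
  have hE0 : 0 ≤ E := by
    have := geo s s1 hs hss h1 0 B hB (fun _ => 0) (fun i => by positivity)
    simpa using this
  have hU := W_one_ge n h s hs b (lt_of_lt_of_le hD hV)
  have key : ∀ χ : QI → ℝ, (∀ i : ℕ, |V n s (h + i) χ - V n s h χ| ≤ B * (1 + (i : ℝ))) →
      |∑ i ∈ range (mm b n h), s ^ i * V n s (h + i) χ - S * V n s h χ| ≤ E := by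
    intro χ hχ
    rw [hS, Finset.sum_mul, ← Finset.sum_sub_distrib]
    have e : ∀ i ∈ range (mm b n h), s ^ i * V n s (h + i) χ - s ^ i * V n s h χ =
        s ^ i * (V n s (h + i) χ - V n s h χ) := fun i _ => by ring
    rw [Finset.sum_congr rfl e, abs_le]
    constructor
    · have h5 := geo s s1 hs hss h1 (mm b n h) B hB (fun i => -(V n s (h + i) χ - V n s h χ))
        (fun i => by have := (abs_le.1 (hχ i)).1; linarith)
      have h6 : ∑ i ∈ range (mm b n h), s ^ i * -(V n s (h + i) χ - V n s h χ) =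
          -∑ i ∈ range (mm b n h), s ^ i * (V n s (h + i) χ - V n s h χ) := by
        rw [← Finset.sum_neg_distrib]
        exact Finset.sum_congr rfl fun i _ => by ring
      rw [h6] at h5
      linarith
    · exact geo s s1 hs hss h1 (mm b n h) B hB _ (fun i => (le_abs_self _).trans (hχ i))
  have k1 := key ψ h2
  have k2 := key (fun _ => 1) h3
  set Wψ : ℝ := ∑ i ∈ range (mm b n h), s ^ i * V n s (h + i) ψ with hWψ
  set W1 : ℝ := ∑ i ∈ range (mm b n h), s ^ i * V n s (h + i) (fun _ => 1) with hW1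
  set U1 : ℝ := V n s h (fun _ => 1) with hU1
  set Uψ : ℝ := V n s h ψ with hUψ
  have hU1p : 0 < U1 := lt_of_lt_of_le hD hV
  have hW1p : 0 < W1 := lt_of_lt_of_le hU1p hU
  have hUU : |Uψ| ≤ U1 := by
    rw [abs_le, hUψ, hU1]
    constructor
    · have e : -V n s h (fun _ => 1) = V n s h (fun _ => -1) := by
        unfold V
        rw [← Finset.sum_neg_distrib]
        exact Finset.sum_congr rfl fun q _ => by ring
      rw [e]
      exact V_mono n s hs h _ _ fun q => (abs_le.1 (hψ q)).1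
    · exact V_mono n s hs h _ _ fun q => (abs_le.1 (hψ q)).2
  have e1 : Wψ / W1 - Uψ / U1 = (Wψ - S * Uψ) / W1 - (Uψ / U1) * ((W1 - S * U1) / W1) := by
    field_simp
    ring
  have e2 : |(Wψ - S * Uψ) / W1| ≤ E / D := by
    rw [abs_div, abs_of_pos hW1p]
    exact div_le_div₀ hE0 k1 hD (hV.trans hU)
  have e3 : |(W1 - S * U1) / W1| ≤ E / D := by
    rw [abs_div, abs_of_pos hW1p]
    exact div_le_div₀ hE0 k2 hD (hV.trans hU)
  have e4 : |Uψ / U1| ≤ 1 := by
    rw [abs_div, abs_of_pos hU1p]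
    exact (div_le_one hU1p).2 hUU
  rw [e1]
  refine (abs_sub _ _).trans ?_
  rw [abs_mul]
  have e5 : |Uψ / U1| * |(W1 - S * U1) / W1| ≤ 1 * (E / D) :=
    mul_le_mul e4 e3 (abs_nonneg _) zero_le_one
  have e6 : 2 * E / D = E / D + E / D := by ring
  rw [e6]
  linarith

/-! ### Assembly -/

lemma log_div_sqrt : Tendsto (fun n : ℕ => Real.log n / Real.sqrt n) atTop (𝓝 0) := by
  have h1 := (isLittleO_log_rpow_atTop (show (0 : ℝ) < 1 / 2 by norm_num)).tendsto_div_nhds_zero
  have h2 := h1.comp tendsto_natCast_atTop_atTop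
  refine h2.congr fun n => ?_
  show Real.log n / (n : ℝ) ^ ((1 : ℝ) / 2) = _
  rw [← Real.sqrt_eq_rpow]

lemma inv_sqrt : Tendsto (fun n : ℕ => 1 / Real.sqrt n) atTop (𝓝 0) := by
  have h2 := (Real.tendsto_sqrt_atTop.comp tendsto_natCast_atTop_atTop).inv_tendsto_atTop
  refine h2.congr fun n => ?_
  show (Real.sqrt n)⁻¹ = _
  rw [one_div]

lemma inv_sqrt_sqrt : Tendsto (fun n : ℕ => 1 / Real.sqrt (Real.sqrt n)) atTop (𝓝 0) := by
  have h2 := (Real.tendsto_sqrt_atTop.comp
    (Real.tendsto_sqrt_atTop.comp tendsto_natCast_atTop_atTop)).inv_tendsto_atTop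
  refine h2.congr fun n => ?_
  show (Real.sqrt (Real.sqrt n))⁻¹ = _
  rw [one_div]

lemma dq_ra (n : ℕ) (q : QI) :
    |(|(dq q : ℝ)| / sc n) - ra n q| ≤ |(dq q : ℝ) - (arq n q : ℝ)| / sc n := by
  have hsc : 0 ≤ sc n := by
    unfold sc
    positivity
  unfold ra
  rw [← sub_div, abs_div, abs_of_nonneg hsc]
  refine div_le_div_of_nonneg_right ?_ hsc
  have h1 : (arq n q : ℝ) = |(arq n q : ℝ)| := (abs_of_nonneg (Nat.cast_nonneg _)).symm
  calc |(|(dq q : ℝ)| - (arq n q : ℝ))| = |(|(dq q : ℝ)| - |(arq n q : ℝ)|)| := by rw [← h1]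
    _ ≤ _ := abs_abs_sub_abs_le_abs_sub _ _

lemma av_card {α : Type} (P : Finset α) (ψ : α → ℝ) :
    av P (fun _ => 1) ψ = (∑ q ∈ P, ψ q) / P.card := by
  unfold av
  simp

lemma ra_nonneg (n : ℕ) (q : QI) : 0 ≤ ra n q := by
  unfold ra sc
  positivity

open Classical in
theorem main (hEQ : EQ_Stmt) (hLOC : LOC_Stmt) (hARM : ARM_Stmt) (hZB : ZB_Stmt) :
    CLS_Stmt := by
  intro f0 f1 hf0 hf01 f h hf hcen b
  obtain ⟨⟨c1, hc1, hE1⟩, hE2⟩ := hEQ f0 f1 hf0 hf01 f h hf hcen
  set s0 : ℝ := Real.exp (-f1) with hs0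
  set s1 : ℝ := Real.exp (-f0) with hs1
  have hs0p : 0 < s0 := Real.exp_pos _
  have hs01 : s0 ≤ s1 := Real.exp_le_exp.2 (by linarith)
  have hs1l : s1 < 1 := by
    rw [hs1, Real.exp_lt_one_iff]
    linarith
  have hs1p : 0 < s1 := Real.exp_pos _
  obtain ⟨⟨C2, hC2, N2, hL⟩, _⟩ := hLOC s0 s1 hs0p hs01 hs1l
  obtain ⟨C3, hC3, N3, hA⟩ := hARM s1 hs1p hs1l
  obtain ⟨C4, θ, hC4, _, _, N4, hZ⟩ := hZB s1 hs1p hs1l
  have hsn : ∀ n, 0 < Real.exp (-(f n)) ∧ s0 ≤ Real.exp (-(f n)) ∧ Real.exp (-(f n)) ≤ s1 :=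
    fun n => ⟨Real.exp_pos _, Real.exp_le_exp.2 (by linarith [(hf n).2]),
      Real.exp_le_exp.2 (by linarith [(hf n).1])⟩
  set s : ℕ → ℝ := fun n => Real.exp (-(f n)) with hsdef
  have hZp : ∀ n, N4 ≤ n → 0 < Zq n (s n) := by
    intro n hn
    obtain ⟨rho, _, _, h5, _, h6, _⟩ := hZ n hn (s n) (hsn n).1 (hsn n).2.2
    by_contra hc
    push Not at hc
    have h7 : 0 ≤ sc n * rho ^ n := by
      have : 0 ≤ rho := by linarith
      unfold sc
      positivity
    have h8 := mul_nonpos_of_nonneg_of_nonpos h7 hc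
    have h9 : 0 < C4⁻¹ := by positivity
    linarith
  -- good n
  have hgood : ∀ᶠ n in atTop, 1 ≤ n ∧ N2 ≤ n ∧ N3 ≤ n ∧ 0 < Zq n (s n) ∧
      c1 / Real.sqrt n * Zq n (s n) ≤ V n (s n) (h n) (fun _ => 1) := by
    filter_upwards [eventually_ge_atTop 1, eventually_ge_atTop N2, eventually_ge_atTop N3,
      eventually_ge_atTop N4, hE1] with n h1 h2 h3 h4 h5
    exact ⟨h1, h2, h3, hZp n h4, h5⟩
  set K : ℝ := KK s1 with hK
  have hK0 : 0 ≤ K := by
    have := geo s1 s1 hs1p le_rfl hs1l 0 1 zero_le_one (fun _ => 0) (fun i => by positivity)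
    simpa using this
  -- per n facts
  have hsq : ∀ n : ℕ, 1 ≤ n → 0 < Real.sqrt n := fun n hn =>
    Real.sqrt_pos.2 (by exact_mod_cast hn)
  have hscp : ∀ n : ℕ, 1 ≤ n → 0 < sc n := fun n hn => by
    have := hsq n hn
    have h2 : (0 : ℝ) < n := by exact_mod_cast hn
    unfold sc
    positivity
  refine ⟨⟨c1, hc1, ?_⟩, ?_⟩
  · filter_upwards [hgood] with n hn
    obtain ⟨hn1, hn2, hn3, hZn, hVn⟩ := hn
    have hD : 0 < c1 / Real.sqrt n * Zq n (s n) := by
      have := hsq n hn1
      positivity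
    have h1 := W_one_ge n (h n) (s n) (hsn n).1 b (lt_of_lt_of_le hD hVn)
    rw [← W_eq n (h n) (s n) b (fun _ => 1)] at h1
    simp only [Finset.sum_const, nsmul_eq_mul, mul_one] at h1
    exact hVn.trans h1
  · have hmain := abs_main
      (fun n => (Omn n).filter (fun q => inC b (h n) (sp q))) (fun n => Omn n)
      (fun _ _ => 1) (fun n => wtq n (s n)) (fun n => ra n) (fun n q => |(dq q : ℝ)| / sc n)
      (fun _ _ _ => zero_le_one) (fun n q _ => by
        rw [wtq_eq]
        exact pow_nonneg (hsn n).1.le _) (fun n q => ra_nonneg n q) ?_ ?_ ?_ ?_ ?_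
    · obtain ⟨r1, r2, c, hc, r3⟩ := hmain
      refine ⟨fun φ h1 h2 => ?_, ?_, c, hc, ?_⟩
      · refine (r1 φ h1 h2).congr fun n => ?_
        rw [av_card]
        rfl
      · refine r2.congr fun n => ?_
        rw [av_card]
        rfl
      · exact r3
    · -- class averages of the error
      have hlim : Tendsto (fun n : ℕ => K * C2 / c1 * (Real.log n / Real.sqrt n)) atTop (𝓝 0) := by
        have := log_div_sqrt.const_mul (K * C2 / c1)
        rwa [mul_zero] at this
      refine squeeze_zero' (Eventually.of_forall fun n =>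
        av_nonneg _ _ _ (fun _ _ => zero_le_one) fun _ _ => abs_nonneg _) ?_ hlim
      filter_upwards [hgood] with n hn
      obtain ⟨hn1, hn2, hn3, hZn, hVn⟩ := hn
      have hq := hsq n hn1
      have hscn := hscp n hn1
      have hnr : (0 : ℝ) < n := by exact_mod_cast hn1
      have hlog : 0 ≤ Real.log n := Real.log_nonneg (by exact_mod_cast hn1)
      have hD : 0 < c1 / Real.sqrt n * Zq n (s n) := by positivity
      obtain ⟨_, g2, _⟩ := hL n hn2 (s n) (hsn n).2.1 (hsn n).2.2
      have h1 := av_le n (h n) (s n) s1 (hsn n).1 (hsn n).2.2 hs1l b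
        (fun q => |(|(dq q : ℝ)| / sc n) - ra n q|)
        (C2 * (Real.sqrt n * Real.log n) * Zq n (s n) / sc n) (c1 / Real.sqrt n * Zq n (s n))
        (by positivity) hD (fun k => by
          have h2 : V n (s n) k (fun q => |(|(dq q : ℝ)| / sc n) - ra n q|) ≤
              V n (s n) k (fun q => |(dq q : ℝ) - (arq n q : ℝ)| / sc n) :=
            V_mono n (s n) (hsn n).1 k _ _ fun q => dq_ra n q
          have h3 : V n (s n) k (fun q => |(dq q : ℝ) - (arq n q : ℝ)| / sc n) =
              (∑ q ∈ (Omn n).filter (fun q => sp q = k),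
                wtq n (s n) q * |(dq q : ℝ) - (arq n q : ℝ)|) / sc n := by
            unfold V
            rw [Finset.sum_div]
            exact Finset.sum_congr rfl fun q _ => by ring
          rw [h3] at h2
          exact h2.trans (div_le_div_of_nonneg_right (g2 k) hscn.le)) hVn
      refine h1.trans (le_of_eq ?_)
      rw [← hK]
      unfold sc
      have hnn : (n : ℝ) = Real.sqrt n * Real.sqrt n := (Real.mul_self_sqrt hnr.le).symm
      field_simp
      rw [Real.sq_sqrt hnr.le]
      ring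
    · -- force averages of the error
      have hlim : Tendsto (fun n : ℕ => C3 * (Real.log n / Real.sqrt n)) atTop (𝓝 0) := by
        have := log_div_sqrt.const_mul C3
        rwa [mul_zero] at this
      refine squeeze_zero' (Eventually.of_forall fun n =>
        av_nonneg _ _ _ (fun q _ => by
          rw [wtq_eq]
          exact pow_nonneg (hsn n).1.le _) fun _ _ => abs_nonneg _) ?_ hlim
      filter_upwards [hgood] with n hn
      obtain ⟨hn1, hn2, hn3, hZn, hVn⟩ := hn
      have hq := hsq n hn1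
      have hscn := hscp n hn1
      have hnr : (0 : ℝ) < n := by exact_mod_cast hn1
      obtain ⟨_, _, g3⟩ := hA n hn3 (s n) (hsn n).1 (hsn n).2.2
      have h1 : av (Omn n) (wtq n (s n)) (fun q => |(|(dq q : ℝ)| / sc n) - ra n q|) ≤
          av (Omn n) (wtq n (s n)) (fun q => (sc n)⁻¹ * |(dq q : ℝ) - (arq n q : ℝ)|) :=
        av_mono _ _ _ _ (fun q _ => by
          rw [wtq_eq]
          exact pow_nonneg (hsn n).1.le _) fun q _ => by
          calc _ ≤ |(dq q : ℝ) - (arq n q : ℝ)| / sc n := dq_ra n q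
            _ = _ := by rw [div_eq_inv_mul]
      rw [av_mul] at h1
      refine h1.trans ?_
      have h2 : av (Omn n) (wtq n (s n)) (fun q => |(dq q : ℝ) - (arq n q : ℝ)|) ≤
          C3 * (n * Real.log n) := by
        show (∑ q ∈ Omn n, wtq n (s n) q * |(dq q : ℝ) - (arq n q : ℝ)|) / Zq n (s n) ≤ _
        rw [div_le_iff₀ hZn]
        exact g3
      have h3 := mul_le_mul_of_nonneg_left h2 (inv_nonneg.2 hscn.le)
      refine h3.trans (le_of_eq ?_)
      unfold sc
      field_simp
    · -- second moments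
      refine ⟨max (K * C2 / c1) C3, ?_⟩
      filter_upwards [hgood] with n hn
      obtain ⟨hn1, hn2, hn3, hZn, hVn⟩ := hn
      have hq := hsq n hn1
      have hD : 0 < c1 / Real.sqrt n * Zq n (s n) := by positivity
      obtain ⟨g1, _, _⟩ := hL n hn2 (s n) (hsn n).2.1 (hsn n).2.2
      obtain ⟨g3, _, _⟩ := hA n hn3 (s n) (hsn n).1 (hsn n).2.2
      constructor
      · refine le_trans ?_ (le_max_left _ _)
        have h1 := av_le n (h n) (s n) s1 (hsn n).1 (hsn n).2.2 hs1l b
          (fun q => ra n q ^ 2) (C2 / Real.sqrt n * Zq n (s n)) (c1 / Real.sqrt n * Zq n (s n))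
          (by positivity) hD (fun k => by
            refine le_trans ?_ (g1 k)
            exact V_mono n (s n) (hsn n).1 k _ (fun q => 1 + ra n q ^ 2) fun q => by
              show ra n q ^ 2 ≤ 1 + ra n q ^ 2
              linarith) hVn
        refine h1.trans (le_of_eq ?_)
        rw [← hK]
        field_simp
      · refine le_trans ?_ (le_max_right _ _)
        show (∑ q ∈ Omn n, wtq n (s n) q * ra n q ^ 2) / Zq n (s n) ≤ _
        rw [div_le_iff₀ hZn]
        exact g3
    · -- bounded Lipschitz functions of the area functional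
      intro φ hφ1 hφ2
      have hlim : Tendsto (fun n : ℕ => 2 * K * C2 / c1 *
          (1 / Real.sqrt (Real.sqrt n) + 1 / Real.sqrt n)) atTop (𝓝 0) := by
        have := (inv_sqrt_sqrt.add inv_sqrt).const_mul (2 * K * C2 / c1)
        rwa [add_zero, mul_zero] at this
      have hfirst : Tendsto (fun n : ℕ =>
          av ((Omn n).filter (fun q => inC b (h n) (sp q))) (fun _ => 1) (fun q => φ (ra n q)) -
            V n (s n) (h n) (fun q => φ (ra n q)) / V n (s n) (h n) (fun _ => 1))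
          atTop (𝓝 0) := by
        refine squeeze_zero_norm' ?_ hlim
        filter_upwards [hgood] with n hn
        obtain ⟨hn1, hn2, hn3, hZn, hVn⟩ := hn
        have hq := hsq n hn1
        have hqq : 0 < Real.sqrt (Real.sqrt n) := Real.sqrt_pos.2 hq
        have hnr : (0 : ℝ) < n := by exact_mod_cast hn1
        have hD : 0 < c1 / Real.sqrt n * Zq n (s n) := by positivity
        obtain ⟨_, _, g3⟩ := hL n hn2 (s n) (hsn n).2.1 (hsn n).2.2
        set B : ℝ := C2 * (1 / (Real.sqrt n * Real.sqrt (Real.sqrt n)) + 1 / n) * Zq n (s n)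
          with hB
        have hB0 : 0 ≤ B := by positivity
        have hcmp : ∀ χ : ℝ → ℝ, (∀ a, |χ a| ≤ 1) → LipschitzWith 1 χ → ∀ i : ℕ,
            |V n (s n) (h n + i) (fun q => χ (ra n q)) - V n (s n) (h n) (fun q => χ (ra n q))| ≤
              B * (1 + (i : ℝ)) := by
          intro χ h1 h2 i
          refine (g3 (h n + i) (h n) χ h1 h2).trans ?_
          have e1 : |((h n + i : ℕ) : ℝ) - (h n : ℝ)| = i := by
            push_cast
            rw [add_sub_cancel_left]
            exact abs_of_nonneg (Nat.cast_nonneg _)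
          rw [e1, hB]
          have h3 : 1 / (Real.sqrt n * Real.sqrt (Real.sqrt n)) + (i : ℝ) / n ≤
              (1 / (Real.sqrt n * Real.sqrt (Real.sqrt n)) + 1 / n) * (1 + (i : ℝ)) := by
            have h4 : 0 ≤ 1 / (Real.sqrt n * Real.sqrt (Real.sqrt n)) := by positivity
            have h5 : (0 : ℝ) ≤ i := Nat.cast_nonneg _
            have h6 : 0 ≤ 1 / (n : ℝ) := by positivity
            have h7 : (i : ℝ) / n = 1 / n * i := by ring
            rw [h7]
            nlinarith
          have h8 := mul_le_mul_of_nonneg_left h3 (mul_nonneg hC2.le hZn.le)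
          calc _ = C2 * Zq n (s n) *
                (1 / (Real.sqrt n * Real.sqrt (Real.sqrt n)) + (i : ℝ) / n) := by ring
            _ ≤ _ := h8
            _ = _ := by ring
        have h1 := av_comp n (h n) (s n) s1 (hsn n).1 (hsn n).2.2 hs1l b
          (fun q => φ (ra n q)) (fun q => hφ1 _) B (c1 / Real.sqrt n * Zq n (s n)) hB0 hD
          (hcmp φ hφ1 hφ2)
          (hcmp (fun _ => 1) (fun _ => by rw [abs_one]) (LipschitzWith.const' 1)) hVn
        rw [Real.norm_eq_abs]
        refine h1.trans (le_of_eq ?_)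
        rw [hB, ← hK]
        have hnn : (n : ℝ) = Real.sqrt n * Real.sqrt n := (Real.mul_self_sqrt hnr.le).symm
        have e2 : 1 / (n : ℝ) = 1 / Real.sqrt n * (1 / Real.sqrt n) := by
          rw [div_mul_div_comm, one_mul, ← hnn]
        rw [e2]
        field_simp
      have hsecond := hE2 φ hφ1 hφ2
      have := hfirst.add hsecond
      rw [add_zero] at this
      refine this.congr fun n => ?_
      show (av ((Omn n).filter (fun q => inC b (h n) (sp q))) (fun _ => 1)
          (fun q => φ (ra n q)) -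
            V n (s n) (h n) (fun q => φ (ra n q)) / V n (s n) (h n) (fun _ => 1)) +
          (V n (s n) (h n) (fun q => φ (ra n q)) / V n (s n) (h n) (fun _ => 1) -
            av (Omn n) (wtq n (s n)) (fun q => φ (ra n q))) = _
      ring
    · refine ⟨C3⁻¹, by positivity, ?_⟩
      filter_upwards [hgood] with n hn
      obtain ⟨hn1, hn2, hn3, hZn, hVn⟩ := hn
      obtain ⟨_, g2, _⟩ := hA n hn3 (s n) (hsn n).1 (hsn n).2.2
      show _ ≤ (∑ q ∈ Omn n, wtq n (s n) q * ra n q) / Zq n (s n)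
      rw [le_div_iff₀ hZn]
      exact g2

end CLS

theorem CLS_thm (hEQ : EQ_Stmt) (hLOC : LOC_Stmt) (hARM : ARM_Stmt) (hZB : ZB_Stmt) : CLS_Stmt :=
  CLS.main hEQ hLOC hARM hZB

end Pool.Agent.FS
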