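import Pool.Agent.Lib_helper74.FS.Stmts
import Pool.Agent.Lib_helper89.FL.FinB
import Pool.Agent.Lib_helper89.FL.HG

/-!
# Polygons with fixed span (MP_f6626d_co): equivalence of the ensembles (module FS_EQ)
-/

set_option autoImplicit false

namespace Pool.Agent.FS.EQ

open Finset Filter Topology MeasureTheory
open Pool.Agent.Lib27 Pool.Agent.SapR Pool.Agent.Gap Pool.Agent.AreaLaw Pool.Agent.FL
open Pool.Agent.FS

/-! ### Elementary facts -/

lemma sp_le (n : ℕ) (q : QI) (hq : q ∈ Omn n) : sp q ≤ n := height_le hg n q hq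

lemma wtq_nonneg (n : ℕ) (s : ℝ) (hs : 0 ≤ s) (q : QI) : 0 ≤ wtq n s q := by
  unfold wtq
  positivity

lemma Zq_nonneg (n : ℕ) (s : ℝ) (hs : 0 ≤ s) : 0 ≤ Zq n s :=
  Finset.sum_nonneg fun q _ => wtq_nonneg n s hs q

lemma ra_nonneg (n : ℕ) (q : QI) : 0 ≤ ra n q := by
  unfold ra sc
  positivity

/-- tilting of the weights -/
lemma wtq_tilt (n : ℕ) (s u a : ℝ) (q : QI) (hq : q ∈ Omn n) :
    wtq n s q * Real.exp (u * ((sp q : ℝ) - a)) =
      Real.exp (u * ((n : ℝ) - a)) * wtq n (s * Real.exp (-u)) q := by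
  have h1 := sp_le n q hq
  have h2 : wtq n (s * Real.exp (-u)) q = wtq n s q * Real.exp (-u) ^ (n - sp q) := by
    unfold wtq sp
    rw [mul_pow]
  rw [h2, ← Real.exp_nat_mul, Nat.cast_sub h1]
  have h3 : Real.exp (u * ((sp q : ℝ) - a)) =
      Real.exp (u * ((n : ℝ) - a)) * Real.exp (((n : ℝ) - sp q) * -u) := by
    rw [← Real.exp_add]
    congr 1
    ring
  rw [h3]
  ring

/-- the tilt identity for the Laplace transform -/
lemma lap_tilt (n : ℕ) (s t a lam : ℝ) (hs : 0 < s) (hZ : 0 < Zq n s) :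
    ∑ q ∈ Omn n, wtq n s q * (Real.exp (t * (((sp q : ℝ) - a) / Real.sqrt n)) *
      Real.exp (-(lam * ra n q))) =
    (∑ q ∈ Omn n, wtq n s q * Real.exp (t * (((sp q : ℝ) - a) / Real.sqrt n))) *
      lapQ n (s * Real.exp (-(t / Real.sqrt n))) lam := by
  obtain ⟨u, hu⟩ : ∃ u, u = t / Real.sqrt n := ⟨_, rfl⟩
  have hX : ∀ q : QI, t * (((sp q : ℝ) - a) / Real.sqrt n) = u * ((sp q : ℝ) - a) := by
    intro q
    rw [hu]
    ring
  simp only [hX, ← hu]
  obtain ⟨s', hs'⟩ : ∃ s', s' = s * Real.exp (-u) := ⟨_, rfl⟩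
  have hs'0 : 0 < s' := by rw [hs']; positivity
  have e1 : ∑ q ∈ Omn n, wtq n s q * Real.exp (u * ((sp q : ℝ) - a)) =
      Real.exp (u * ((n : ℝ) - a)) * Zq n s' := by
    unfold Zq
    rw [mul_sum]
    refine sum_congr rfl fun q hq => ?_
    rw [wtq_tilt n s u a q hq, hs']
  have e2 : ∑ q ∈ Omn n, wtq n s q * (Real.exp (u * ((sp q : ℝ) - a)) *
      Real.exp (-(lam * ra n q))) =
      Real.exp (u * ((n : ℝ) - a)) * ∑ q ∈ Omn n, wtq n s' q * Real.exp (-(lam * ra n q)) := by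
    rw [mul_sum]
    refine sum_congr rfl fun q hq => ?_
    rw [← mul_assoc, wtq_tilt n s u a q hq, hs']
    ring
  have hZ' : 0 < Zq n s' := by
    have h1 : ∃ q ∈ Omn n, 0 < wtq n s q := by
      by_contra hc
      push Not at hc
      exact absurd hZ (not_lt.2 (Finset.sum_nonpos hc))
    obtain ⟨q, hq, _⟩ := h1
    refine Finset.sum_pos' (fun q _ => wtq_nonneg n s' hs'0.le q) ⟨q, hq, ?_⟩
    unfold wtq
    positivity
  rw [← hs', e1, e2]
  unfold lapQ
  field_simp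

/-- grouping by the span -/
lemma sum_group (n M : ℕ) (hM : n < M) (s : ℝ) (g : ℕ → ℝ) (φ : ℝ → ℝ) :
    ∑ q ∈ Omn n, wtq n s q * (g (sp q) * φ (ra n q)) = ∑ k ∈ range M, g k * U n s k φ := by
  rw [← Finset.sum_fiberwise_of_maps_to (s := Omn n) (t := range M) (g := sp)
    (fun q hq => mem_range.2 ((sp_le n q hq).trans_lt hM))]
  refine sum_congr rfl fun k _ => ?_
  unfold U
  rw [mul_sum]
  refine sum_congr rfl fun q hq => ?_
  rw [(mem_filter.1 hq).2]
  ring

/-- the hat function -/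
noncomputable def chi (d x : ℝ) : ℝ := max 0 (1 - |x| / d)

lemma chi_nonneg (d x : ℝ) : 0 ≤ chi d x := le_max_left _ _

lemma chi_le_one (d x : ℝ) (hd : 0 < d) : chi d x ≤ 1 := by
  refine max_le zero_le_one ?_
  have : 0 ≤ |x| / d := by positivity
  linarith

lemma chi_abs (d x : ℝ) (hd : 0 < d) : |chi d x| ≤ 1 := by
  rw [abs_of_nonneg (chi_nonneg d x)]
  exact chi_le_one d x hd

lemma chi_continuous (d : ℝ) : Continuous (chi d) := by
  unfold chi
  fun_prop

lemma chi_supp (d x : ℝ) (hd : 0 < d) (h : chi d x ≠ 0) : |x| ≤ d := by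
  by_contra hc
  push Not at hc
  apply h
  unfold chi
  refine max_eq_left ?_
  have : 1 ≤ |x| / d := by
    rw [le_div_iff₀ hd]
    linarith
  linarith

lemma chi_half (d x : ℝ) (hd : 0 < d) (h : |x| ≤ d / 2) : 1 / 2 ≤ chi d x := by
  refine le_trans ?_ (le_max_right _ _)
  have : |x| / d ≤ 1 / 2 := by
    rw [div_le_iff₀ hd]
    linarith
  linarith

/-- lower bound for the sum of the hat function over the spans -/
lemma sum_chi (d : ℝ) (hd : 0 < d) (hd1 : d ≤ 1) (n h : ℕ) (hn : 1 ≤ n) :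
    d * Real.sqrt n / 4 ≤
      ∑ k ∈ range (2 * n + h + 1), chi d (((k : ℝ) - h) / Real.sqrt n) := by
  have hn1 : (1 : ℝ) ≤ n := by exact_mod_cast hn
  have hs : 0 < Real.sqrt n := Real.sqrt_pos.2 (by linarith)
  have hsn : Real.sqrt n ≤ n := by
    rw [Real.sqrt_le_left (by linarith)]
    nlinarith
  obtain ⟨m, hm⟩ : ∃ m : ℕ, m = ⌊d * Real.sqrt n / 2⌋₊ := ⟨_, rfl⟩
  have hpos : 0 ≤ d * Real.sqrt n / 2 := by positivity
  have hm1 : (m : ℝ) ≤ d * Real.sqrt n / 2 := by rw [hm]; exact Nat.floor_le hpos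
  have hm2 : d * Real.sqrt n / 2 < (m : ℝ) + 1 := by rw [hm]; exact Nat.lt_floor_add_one _
  have hmn : m ≤ n := by
    have : (m : ℝ) ≤ n := by nlinarith
    exact_mod_cast this
  have hinj : Set.InjOn (fun j => h + j) (range (m + 1) : Set ℕ) := by
    intro a _ b _ hab
    simpa using hab
  have hsub : (range (m + 1)).image (fun j => h + j) ⊆ range (2 * n + h + 1) := by
    intro k hk
    rw [mem_image] at hk
    obtain ⟨j, hj, rfl⟩ := hk
    rw [mem_range] at hj ⊢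
    omega
  calc d * Real.sqrt n / 4 ≤ ∑ j ∈ range (m + 1), (1 / 2 : ℝ) := by
        rw [Finset.sum_const, card_range, nsmul_eq_mul]
        push_cast
        linarith
    _ ≤ ∑ j ∈ range (m + 1), chi d ((((h + j : ℕ) : ℝ) - h) / Real.sqrt n) := by
        refine Finset.sum_le_sum fun j hj => ?_
        refine chi_half d _ hd ?_
        push_cast
        rw [add_sub_cancel_left, abs_of_nonneg (by positivity), div_le_iff₀ hs]
        have : (j : ℝ) ≤ m := by
          rw [mem_range] at hj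
          exact_mod_cast Nat.lt_succ_iff.1 hj
        linarith
    _ = ∑ k ∈ (range (m + 1)).image (fun j => h + j), chi d (((k : ℝ) - h) / Real.sqrt n) := by
        rw [Finset.sum_image hinj]
    _ ≤ _ := Finset.sum_le_sum_of_subset_of_nonneg hsub fun _ _ _ => chi_nonneg _ _

/-- the second moment from the exponential moments -/
lemma sq_le_exp (x : ℝ) : x ^ 2 ≤ 2 * (Real.exp (1 * x) + Real.exp (-1 * x)) := by
  rw [one_mul, neg_one_mul]
  have h1 := Real.quadratic_le_exp_of_nonneg (abs_nonneg x)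
  have h2 : Real.exp |x| ≤ Real.exp x + Real.exp (-x) := by
    rcases abs_cases x with ⟨h, _⟩ | ⟨h, _⟩
    · rw [h]; linarith [Real.exp_pos (-x)]
    · rw [h]; linarith [Real.exp_pos x]
  have h4 : |x| ^ 2 = x ^ 2 := sq_abs x
  have h5 := abs_nonneg x
  nlinarith

/-- the shifted weights stay in a compact interval -/
lemma shift_bound (t s0 s1 : ℝ) (hs0 : 0 < s0) (hs1 : s1 < 1) (h01 : s0 ≤ s1) :
    ∃ N : ℕ, ∀ n : ℕ, N ≤ n → ∀ s : ℝ, s0 ≤ s → s ≤ s1 →
      s0 / 2 ≤ s * Real.exp (-(t / Real.sqrt n)) ∧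
      s * Real.exp (-(t / Real.sqrt n)) ≤ (1 + s1) / 2 := by
  have hlim : Tendsto (fun n : ℕ => Real.exp (-(t / Real.sqrt n))) atTop (𝓝 1) := by
    have h1 : Tendsto (fun n : ℕ => Real.sqrt (n : ℝ)) atTop atTop :=
      Real.tendsto_sqrt_atTop.comp tendsto_natCast_atTop_atTop
    have h2 : Tendsto (fun n : ℕ => -(t / Real.sqrt n)) atTop (𝓝 (-0)) :=
      (h1.const_div_atTop t).neg
    rw [neg_zero] at h2
    have := (Real.continuous_exp.tendsto 0).comp h2
    rwa [Real.exp_zero] at this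
  have h1 : ∀ᶠ n : ℕ in atTop, 1 / 2 < Real.exp (-(t / Real.sqrt n)) :=
    hlim.eventually (lt_mem_nhds (by norm_num))
  have hs1' : 0 < s1 := hs0.trans_le h01
  have h2 : ∀ᶠ n : ℕ in atTop, Real.exp (-(t / Real.sqrt n)) < (1 + s1) / (2 * s1) := by
    refine hlim.eventually (gt_mem_nhds ?_)
    rw [lt_div_iff₀ (by positivity)]
    linarith
  obtain ⟨N, hN⟩ := eventually_atTop.1 (h1.and h2)
  refine ⟨N, fun n hn s hs hs' => ?_⟩
  obtain ⟨h3, h4⟩ := hN n hn
  have hE := Real.exp_pos (-(t / Real.sqrt n))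
  constructor
  · nlinarith
  · have h5 : s1 * Real.exp (-(t / Real.sqrt n)) ≤ (1 + s1) / 2 := by
      have := mul_le_mul_of_nonneg_left h4.le hs1'.le
      refine this.trans (le_of_eq ?_)
      field_simp
    nlinarith

lemma shift_close (t s : ℝ) (hs : 0 < s) (hs1 : s ≤ 1) (n : ℕ) (hn : 1 ≤ n) :
    |s - s * Real.exp (-(t / Real.sqrt n))| ≤ |t| * Real.exp |t| / Real.sqrt n := by
  have hn1 : (1 : ℝ) ≤ n := by exact_mod_cast hn
  have hsq : 1 ≤ Real.sqrt n := by rw [Real.one_le_sqrt]; exact hn1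
  have hsq0 : 0 < Real.sqrt n := by linarith
  obtain ⟨u, hu⟩ : ∃ u, u = -(t / Real.sqrt n) := ⟨_, rfl⟩
  have hu1 : |u| = |t| / Real.sqrt n := by
    rw [hu, abs_neg, abs_div, abs_of_pos hsq0]
  have hu2 : |u| ≤ |t| := by
    rw [hu1, div_le_iff₀ hsq0]
    nlinarith [abs_nonneg t]
  have h1 : |Real.exp u - 1| ≤ |u| * Real.exp |u| := by
    rcases le_total 0 u with h | h
    · rw [abs_of_nonneg h, abs_of_nonneg (by linarith [Real.add_one_le_exp u])]
      have h2 := Real.add_one_le_exp (-u)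
      have h3 : Real.exp (-u) * Real.exp u = 1 := by
        rw [← Real.exp_add]; simp
      nlinarith [Real.exp_pos u]
    · have h2 := Real.add_one_le_exp u
      have h3 : Real.exp u ≤ 1 := Real.exp_le_one_iff.2 h
      rw [abs_of_nonpos h, abs_of_nonpos (by linarith)]
      have h4 : 1 ≤ Real.exp (-u) := Real.one_le_exp (by linarith)
      nlinarith
  rw [← hu]
  have h5 : |s - s * Real.exp u| = s * |Real.exp u - 1| := by
    rw [show s - s * Real.exp u = -(s * (Real.exp u - 1)) by ring, abs_neg, abs_mul,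
      abs_of_pos hs]
  rw [h5]
  have h6 : |Real.exp u - 1| ≤ |t| / Real.sqrt n * Real.exp |t| := by
    refine h1.trans ?_
    rw [hu1]
    rw [hu1] at hu2
    have : Real.exp (|t| / Real.sqrt n) ≤ Real.exp |t| := Real.exp_le_exp.2 hu2
    exact mul_le_mul_of_nonneg_left this (by positivity)
  have h7 : 0 ≤ |Real.exp u - 1| := abs_nonneg _
  calc s * |Real.exp u - 1| ≤ 1 * |Real.exp u - 1| := by nlinarith
    _ ≤ |t| / Real.sqrt n * Real.exp |t| := by rw [one_mul]; exact h6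
    _ = |t| * Real.exp |t| / Real.sqrt n := by ring

/-! ### The main argument -/

section Main

variable {f0 f1 : ℝ} {f : ℕ → ℝ} {h : ℕ → ℕ}

/-- exponential moments -/
lemma expm (hEXPM : EXPM_Stmt) (h0 : 0 < f0) (h01 : f0 ≤ f1) (hf : ∀ n, f0 ≤ f n ∧ f n ≤ f1)
    (hC : ∀ᶠ n in atTop, Cen n (f n) (h n)) (t : ℝ) : ∃ C : ℝ, 0 < C ∧ ∀ᶠ n in atTop,
      ∑ q ∈ Omn n, wtq n (Real.exp (-(f n))) q *
        Real.exp (t * (((sp q : ℝ) - h n) / Real.sqrt n)) ≤ C * Zq n (Real.exp (-(f n))) := by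
  obtain ⟨C, hC0, N, hN⟩ := hEXPM f0 f1 t h0 h01
  refine ⟨C, hC0, ?_⟩
  filter_upwards [hC, eventually_ge_atTop N] with n h1 h2
  exact hN n h2 (f n) (hf n).1 (hf n).2 (h n) h1

/-- second moment -/
lemma second (hEXPM : EXPM_Stmt) (h0 : 0 < f0) (h01 : f0 ≤ f1) (hf : ∀ n, f0 ≤ f n ∧ f n ≤ f1)
    (hC : ∀ᶠ n in atTop, Cen n (f n) (h n)) : ∃ K : ℝ, 0 < K ∧ ∀ᶠ n : ℕ in atTop,
      ∑ q ∈ Omn n, wtq n (Real.exp (-(f n))) q * ((sp q : ℝ) - h n) ^ 2 ≤
        K * n * Zq n (Real.exp (-(f n))) := by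
  obtain ⟨C, hC0, h1⟩ := expm hEXPM h0 h01 hf hC 1
  obtain ⟨C', hC0', h2⟩ := expm hEXPM h0 h01 hf hC (-1)
  refine ⟨2 * (C + C'), by positivity, ?_⟩
  filter_upwards [h1, h2, eventually_ge_atTop 1] with n h3 h4 h5
  have hn : (0 : ℝ) < n := by exact_mod_cast h5
  have h6 : ∀ q ∈ Omn n, wtq n (Real.exp (-(f n))) q * ((sp q : ℝ) - h n) ^ 2 ≤
      n * (2 * (wtq n (Real.exp (-(f n))) q *
        Real.exp (1 * (((sp q : ℝ) - h n) / Real.sqrt n)) +
      wtq n (Real.exp (-(f n))) q *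
        Real.exp (-1 * (((sp q : ℝ) - h n) / Real.sqrt n)))) := by
    intro q _
    have h7 := sq_le_exp (((sp q : ℝ) - h n) / Real.sqrt n)
    have h8 := wtq_nonneg n (Real.exp (-(f n))) (Real.exp_pos _).le q
    rw [div_pow, Real.sq_sqrt hn.le, div_le_iff₀ hn] at h7
    have h9 := mul_le_mul_of_nonneg_left h7 h8
    refine h9.trans (le_of_eq ?_)
    ring
  refine (Finset.sum_le_sum h6).trans ?_
  rw [← mul_sum, ← mul_sum, sum_add_distrib]
  have h10 : n * (2 * (∑ q ∈ Omn n, wtq n (Real.exp (-(f n))) q *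
        Real.exp (1 * (((sp q : ℝ) - h n) / Real.sqrt n)) +
      ∑ q ∈ Omn n, wtq n (Real.exp (-(f n))) q *
        Real.exp (-1 * (((sp q : ℝ) - h n) / Real.sqrt n)))) ≤
      n * (2 * (C * Zq n (Real.exp (-(f n))) + C' * Zq n (Real.exp (-(f n))))) := by
    refine mul_le_mul_of_nonneg_left ?_ hn.le
    linarith
  refine h10.trans (le_of_eq ?_)
  ring

/-- positivity of the total weight -/
lemma Zpos (hZB : ZB_Stmt) (h0 : 0 < f0) (hf : ∀ n, f0 ≤ f n ∧ f n ≤ f1) :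
    ∀ᶠ n in atTop, 0 < Zq n (Real.exp (-(f n))) := by
  have hs1 : Real.exp (-f0) < 1 := Real.exp_lt_one_iff.2 (by linarith)
  obtain ⟨C, θ, hC, _, _, N, hN⟩ := hZB (Real.exp (-f0)) (Real.exp_pos _) hs1
  filter_upwards [eventually_ge_atTop N, eventually_ge_atTop 1] with n h1 h2
  obtain ⟨rho, hcr, _, h3, _, h4, _⟩ := hN n h1 (Real.exp (-(f n))) (Real.exp_pos _)
    (Real.exp_le_exp.2 (by linarith [(hf n).1]))
  have h5 : 0 < C⁻¹ := inv_pos.2 hC
  by_contra hc
  have h6 : 0 ≤ Zq n (Real.exp (-(f n))) := Zq_nonneg n _ (Real.exp_pos _).le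
  have h7 : Zq n (Real.exp (-(f n))) = 0 := le_antisymm (not_lt.1 hc) h6
  rw [h7, mul_zero] at h4
  linarith

/-- the lower bound for the weight of the words of span `h n` -/
lemma lower (hLOC : LOC_Stmt) (hEXPM : EXPM_Stmt) (h0 : 0 < f0) (h01 : f0 ≤ f1)
    (hf : ∀ n, f0 ≤ f n ∧ f n ≤ f1) (hC : ∀ᶠ n in atTop, Cen n (f n) (h n)) :
    ∃ c : ℝ, 0 < c ∧ ∀ᶠ n : ℕ in atTop, c / Real.sqrt n * Zq n (Real.exp (-(f n))) ≤
      U n (Real.exp (-(f n))) (h n) (fun _ => 1) := by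
  obtain ⟨K, hK, h1⟩ := second hEXPM h0 h01 hf hC
  have hs1 : Real.exp (-f0) < 1 := Real.exp_lt_one_iff.2 (by linarith)
  obtain ⟨_, h2⟩ := hLOC (Real.exp (-f1)) (Real.exp (-f0)) (Real.exp_pos _)
    (Real.exp_le_exp.2 (by linarith)) hs1
  obtain ⟨c, hc, N, hN⟩ := h2 K hK
  refine ⟨c, hc, ?_⟩
  filter_upwards [h1, eventually_ge_atTop N] with n h3 h4
  exact hN n h4 (Real.exp (-(f n))) (Real.exp_le_exp.2 (by linarith [(hf n).2]))
    (Real.exp_le_exp.2 (by linarith [(hf n).1])) (h n) h3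

/-- asymptotic independence of the rescaled span and area -/
lemma indep (hIND : IND_Stmt) (hEXPM : EXPM_Stmt) (hLAPC : LAPC_Stmt) (hARM : ARM_Stmt)
    (hZB : ZB_Stmt) (h0 : 0 < f0) (h01 : f0 ≤ f1) (hf : ∀ n, f0 ≤ f n ∧ f n ≤ f1)
    (hC : ∀ᶠ n in atTop, Cen n (f n) (h n)) (g φ : ℝ → ℝ) (hg : Continuous g)
    (hφ : Continuous φ) (hg1 : ∀ x, |g x| ≤ 1) (hφ1 : ∀ x, |φ x| ≤ 1) :
    Tendsto (fun n : ℕ =>
      (∑ q ∈ Omn n, wtq n (Real.exp (-(f n))) q *
        (g (((sp q : ℝ) - h n) / Real.sqrt n) * φ (ra n q))) / Zq n (Real.exp (-(f n))) -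
      (∑ q ∈ Omn n, wtq n (Real.exp (-(f n))) q *
        (g (((sp q : ℝ) - h n) / Real.sqrt n))) / Zq n (Real.exp (-(f n))) *
      ((∑ q ∈ Omn n, wtq n (Real.exp (-(f n))) q * φ (ra n q)) / Zq n (Real.exp (-(f n)))))
      atTop (𝓝 0) := by
  have hZ := Zpos hZB h0 hf
  have hs1 : Real.exp (-f0) < 1 := Real.exp_lt_one_iff.2 (by linarith)
  have hs01 : Real.exp (-f1) ≤ Real.exp (-f0) := Real.exp_le_exp.2 (by linarith)
  have key := hIND (fun _ => QI) Omn
    (fun n q => wtq n (Real.exp (-(f n))) q / Zq n (Real.exp (-(f n))))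
    (fun n q => ((sp q : ℝ) - h n) / Real.sqrt n) (fun n q => ra n q)
    (fun n q => div_nonneg (wtq_nonneg n _ (Real.exp_pos _).le q)
      (Zq_nonneg n _ (Real.exp_pos _).le))
    (fun n q => ra_nonneg n q) ?_ ?_ ?_ ?_ g φ hg hφ hg1 hφ1
  · refine key.congr fun n => ?_
    simp only [div_mul_eq_mul_div, ← Finset.sum_div]
  · filter_upwards [hZ] with n hn
    rw [← Finset.sum_div]
    exact div_self hn.ne'
  · intro t
    obtain ⟨C, _, h1⟩ := expm hEXPM h0 h01 hf hC t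
    refine ⟨C, ?_⟩
    filter_upwards [h1, hZ] with n h2 h3
    simp only [div_mul_eq_mul_div]
    rw [← Finset.sum_div, div_le_iff₀ h3]
    exact h2
  · obtain ⟨C, hC0, N, hN⟩ := hARM (Real.exp (-f0)) (Real.exp_pos _) hs1
    refine ⟨1 + C, ?_⟩
    filter_upwards [hZ, eventually_ge_atTop N] with n h3 h4
    obtain ⟨h5, _, _⟩ := hN n h4 (Real.exp (-(f n))) (Real.exp_pos _)
      (Real.exp_le_exp.2 (by linarith [(hf n).1]))
    simp only [div_mul_eq_mul_div]
    rw [← Finset.sum_div, div_le_iff₀ h3]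
    have h6 : ∑ q ∈ Omn n, wtq n (Real.exp (-(f n))) q * ra n q ≤
        ∑ q ∈ Omn n, (wtq n (Real.exp (-(f n))) q + wtq n (Real.exp (-(f n))) q * ra n q ^ 2) := by
      refine Finset.sum_le_sum fun q _ => ?_
      have h7 := wtq_nonneg n (Real.exp (-(f n))) (Real.exp_pos _).le q
      have h8 : ra n q ≤ 1 + ra n q ^ 2 := by nlinarith [sq_nonneg (ra n q - 1)]
      nlinarith [mul_le_mul_of_nonneg_left h8 h7]
    refine h6.trans ?_
    rw [sum_add_distrib]
    have h9 : ∑ q ∈ Omn n, wtq n (Real.exp (-(f n))) q = Zq n (Real.exp (-(f n))) := rfl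
    rw [h9]
    linarith
  · intro t lam hlam
    obtain ⟨C, hC0, h1⟩ := expm hEXPM h0 h01 hf hC t
    obtain ⟨N, hN⟩ := shift_bound t (Real.exp (-f1)) (Real.exp (-f0)) (Real.exp_pos _) hs1 hs01
    have hfb : ∀ n, Real.exp (-f1) ≤ Real.exp (-(f n)) ∧ Real.exp (-(f n)) ≤ Real.exp (-f0) :=
      fun n => ⟨Real.exp_le_exp.2 (by linarith [(hf n).2]),
        Real.exp_le_exp.2 (by linarith [(hf n).1])⟩
    have hL := hLAPC (Real.exp (-f1) / 2) ((1 + Real.exp (-f0)) / 2) (|t| * Real.exp |t|) lam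
      (by positivity) (by linarith [Real.exp_pos (-f1)]) (by linarith) (by positivity) hlam
      (fun n => if N ≤ n then Real.exp (-(f n)) * Real.exp (-(t / Real.sqrt n)) else
        Real.exp (-(f n)))
      (fun n => Real.exp (-(f n)))
      (fun n => by

        split_ifs with hn
        · exact hN n hn _ (hfb n).1 (hfb n).2
        · constructor
          · linarith [(hfb n).1, Real.exp_pos (-f1)]
          · linarith [(hfb n).2])
      (fun n => ⟨by linarith [(hfb n).1, Real.exp_pos (-f1)], by linarith [(hfb n).2]⟩)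
      (fun n hn => by

        split_ifs with hn'
        · rw [abs_sub_comm]
          exact shift_close t _ (Real.exp_pos _) (by linarith [(hfb n).2]) n hn
        · rw [sub_self, abs_zero]
          positivity)
    have hb : ∀ᶠ n in atTop, |(∑ q ∈ Omn n, wtq n (Real.exp (-(f n))) q *
        Real.exp (t * (((sp q : ℝ) - h n) / Real.sqrt n))) / Zq n (Real.exp (-(f n)))| ≤ C := by
      filter_upwards [h1, hZ] with n h2 h3
      rw [abs_of_nonneg (div_nonneg (Finset.sum_nonneg fun q _ =>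
        mul_nonneg (wtq_nonneg n _ (Real.exp_pos _).le q) (Real.exp_pos _).le) h3.le),
        div_le_iff₀ h3]
      exact h2
    have hprod : Tendsto (fun n => (∑ q ∈ Omn n, wtq n (Real.exp (-(f n))) q *
        Real.exp (t * (((sp q : ℝ) - h n) / Real.sqrt n))) / Zq n (Real.exp (-(f n))) *
        (lapQ n (if N ≤ n then Real.exp (-(f n)) * Real.exp (-(t / Real.sqrt n)) else
        Real.exp (-(f n))) lam - lapQ n (Real.exp (-(f n))) lam)) atTop (𝓝 0) := by
      refine squeeze_zero_norm' (a := fun n => C * |lapQ n (if N ≤ n then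
        Real.exp (-(f n)) * Real.exp (-(t / Real.sqrt n)) else
        Real.exp (-(f n))) lam - lapQ n (Real.exp (-(f n))) lam|) ?_ ?_
      · filter_upwards [hb] with n h4
        rw [norm_mul, Real.norm_eq_abs, Real.norm_eq_abs]
        exact mul_le_mul_of_nonneg_right h4 (abs_nonneg _)
      · have := (hL.abs).const_mul C
        simpa using this
    refine hprod.congr' ?_
    filter_upwards [hZ, eventually_ge_atTop N] with n h3 h4
    rw [if_pos h4]
    have h5 := lap_tilt n (Real.exp (-(f n))) t (h n) lam (Real.exp_pos _) h3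
    simp only [div_mul_eq_mul_div]
    rw [← Finset.sum_div, ← Finset.sum_div, ← Finset.sum_div, h5]
    unfold lapQ
    ring

/-- localisation to the span `h` -/
lemma localise (C Z d : ℝ) (hZ : 0 ≤ Z) (hd : 0 < d) (n h : ℕ) (hn : 1 ≤ n) (s : ℝ) (φ : ℝ → ℝ)
    (hφ : ∀ h' : ℕ, |U n s h' φ - U n s h φ| ≤
      C * (1 / (Real.sqrt n * Real.sqrt (Real.sqrt n)) + |(h' : ℝ) - h| / n) * Z) (hC : 0 ≤ C) :
    |∑ q ∈ Omn n, wtq n s q * (chi d (((sp q : ℝ) - h) / Real.sqrt n) * φ (ra n q)) -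
      (∑ k ∈ range (2 * n + h + 1), chi d (((k : ℝ) - h) / Real.sqrt n)) * U n s h φ| ≤
    (∑ k ∈ range (2 * n + h + 1), chi d (((k : ℝ) - h) / Real.sqrt n)) *
      (C / Real.sqrt n * (1 / Real.sqrt (Real.sqrt n) + d) * Z) := by
  have hn0 : (0 : ℝ) < n := by exact_mod_cast hn
  have hs : 0 < Real.sqrt n := Real.sqrt_pos.2 hn0
  have hss : 0 < Real.sqrt (Real.sqrt n) := Real.sqrt_pos.2 hs
  rw [sum_group n (2 * n + h + 1) (by omega) s
    (fun k => chi d (((k : ℝ) - h) / Real.sqrt n)) φ, sum_mul, sum_mul, ← sum_sub_distrib]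
  refine (Finset.abs_sum_le_sum_abs _ _).trans (Finset.sum_le_sum fun k _ => ?_)
  rw [← mul_sub, abs_mul, abs_of_nonneg (chi_nonneg _ _)]
  by_cases hk : chi d (((k : ℝ) - h) / Real.sqrt n) = 0
  · rw [hk, zero_mul, zero_mul]
  refine mul_le_mul_of_nonneg_left ?_ (chi_nonneg _ _)
  refine (hφ k).trans ?_
  have h1 := chi_supp d _ hd hk
  rw [abs_div, abs_of_pos hs, div_le_iff₀ hs] at h1
  have h2 : |(k : ℝ) - h| / n ≤ d / Real.sqrt n := by
    rw [div_le_div_iff₀ hn0 hs]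
    have h3 : Real.sqrt n * Real.sqrt n = n := Real.mul_self_sqrt hn0.le
    nlinarith
  have h4 : C / Real.sqrt n * (1 / Real.sqrt (Real.sqrt n) + d) =
      C * (1 / (Real.sqrt n * Real.sqrt (Real.sqrt n)) + d / Real.sqrt n) := by
    field_simp
  rw [h4]
  refine mul_le_mul_of_nonneg_right ?_ hZ
  refine mul_le_mul_of_nonneg_left ?_ hC
  linarith

/-- the quantitative comparison -/
lemma compare (c C Z d δ S A B E u v η : ℝ) (n : ℝ) (hn : 0 < n) (hc : 0 < c) (hZ : 0 < Z)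
    (hd : 0 < d) (hS : d * n / 4 ≤ S) (hη : η = C / n) (hη0 : 0 ≤ η) (hE : |E| ≤ 1)
    (hA : |A - S * u| ≤ S * (η * Z)) (hB : |B - S * v| ≤ S * (η * Z))
    (hδ : |A / Z - B / Z * E| ≤ δ) (hv : c / n * Z ≤ v) :
    |u / v - E| ≤ 4 * δ / (c * d) + 2 * C / c := by
  have hS0 : 0 < S := lt_of_lt_of_le (by positivity) hS
  have hv0 : 0 < v := lt_of_lt_of_le (by positivity) hv
  have hδ0 : 0 ≤ δ := (abs_nonneg _).trans hδ
  have h1 : |A - B * E| ≤ δ * Z := by
    have : A / Z - B / Z * E = (A - B * E) / Z := by field_simp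
    rw [this, abs_div, abs_of_pos hZ, div_le_iff₀ hZ] at hδ
    exact hδ
  have h2 : |S * (u - v * E)| ≤ δ * Z + 2 * (S * (η * Z)) := by
    have h3 : S * (u - v * E) = (A - B * E) - (A - S * u) + (B - S * v) * E := by ring
    rw [h3]
    have h4 : |(B - S * v) * E| ≤ S * (η * Z) := by
      rw [abs_mul]
      calc |B - S * v| * |E| ≤ |B - S * v| * 1 := mul_le_mul_of_nonneg_left hE (abs_nonneg _)
        _ ≤ _ := by rw [mul_one]; exact hB
    calc |(A - B * E) - (A - S * u) + (B - S * v) * E|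
        ≤ |(A - B * E) - (A - S * u)| + |(B - S * v) * E| := abs_add_le _ _
      _ ≤ (|A - B * E| + |A - S * u|) + |(B - S * v) * E| := by
          gcongr
          exact abs_sub _ _
      _ ≤ _ := by linarith
  rw [abs_mul, abs_of_pos hS0] at h2
  have h5 : |u - v * E| ≤ δ * Z / S + 2 * (η * Z) := by
    have h6 : |u - v * E| = S * |u - v * E| / S := by field_simp
    rw [h6]
    have h7 : δ * Z / S + 2 * (η * Z) = (δ * Z + 2 * (S * (η * Z))) / S := by field_simp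
    rw [h7]
    exact div_le_div_of_nonneg_right h2 hS0.le
  have h8 : δ * Z / S ≤ 4 * (δ * Z) / (d * n) := by
    rw [div_le_div_iff₀ hS0 (by positivity)]
    have : 0 ≤ δ * Z := by positivity
    nlinarith
  have h9 : u / v - E = (u - v * E) / v := by field_simp
  rw [h9, abs_div, abs_of_pos hv0]
  have h10 : |u - v * E| ≤ 4 * (δ * Z) / (d * n) + 2 * (η * Z) := by linarith
  have h11 : 0 ≤ 4 * (δ * Z) / (d * n) + 2 * (η * Z) := by positivity
  calc |u - v * E| / v ≤ (4 * (δ * Z) / (d * n) + 2 * (η * Z)) / v :=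
        div_le_div_of_nonneg_right h10 hv0.le
    _ ≤ (4 * (δ * Z) / (d * n) + 2 * (η * Z)) / (c / n * Z) :=
        div_le_div_of_nonneg_left h11 (by positivity) hv
    _ = 4 * δ / (c * d) + 2 * C / c := by
        rw [hη]
        field_simp

end Main

/-- FS_EQ : equivalence of the ensembles. -/
theorem _root_.Pool.Agent.FS.EQ_thm (hLOC : LOC_Stmt) (hIND : IND_Stmt) (hEXPM : EXPM_Stmt)
    (hLAPC : LAPC_Stmt) (hARM : ARM_Stmt) (hZB : ZB_Stmt) : EQ_Stmt := by
  intro f0 f1 h0 h01 f h hf hC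
  obtain ⟨c, hc, hlow⟩ := lower hLOC hEXPM h0 h01 hf hC
  refine ⟨⟨c, hc, hlow⟩, fun φ hφ1 hφL => ?_⟩
  have hs1 : Real.exp (-f0) < 1 := Real.exp_lt_one_iff.2 (by linarith)
  obtain ⟨⟨C, hC0, N, hN⟩, _⟩ := hLOC (Real.exp (-f1)) (Real.exp (-f0)) (Real.exp_pos _)
    (Real.exp_le_exp.2 (by linarith)) hs1
  have hZ := Zpos hZB h0 hf
  have hsq : Tendsto (fun n : ℕ => 1 / Real.sqrt (Real.sqrt n)) atTop (𝓝 0) := by
    have h1 : Tendsto (fun n : ℕ => Real.sqrt (Real.sqrt (n : ℝ))) atTop atTop :=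
      Real.tendsto_sqrt_atTop.comp (Real.tendsto_sqrt_atTop.comp tendsto_natCast_atTop_atTop)
    exact h1.const_div_atTop 1
  rw [Metric.tendsto_atTop]
  suffices H : ∀ ε : ℝ, 0 < ε → ∀ᶠ n : ℕ in atTop,
      |U n (Real.exp (-(f n))) (h n) φ / U n (Real.exp (-(f n))) (h n) (fun _ => 1) -
        (∑ q ∈ Omn n, wtq n (Real.exp (-(f n))) q * φ (ra n q)) / Zq n (Real.exp (-(f n)))| < ε by
    intro ε hε
    obtain ⟨M, hM⟩ := eventually_atTop.1 (H ε hε)
    refine ⟨M, fun n hn => ?_⟩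
    rw [Real.dist_eq, sub_zero]
    exact hM n hn
  intro ε hε
  obtain ⟨d, hd⟩ : ∃ d, d = min 1 (ε * c / (8 * C)) := ⟨_, rfl⟩
  have hd0 : 0 < d := by rw [hd]; positivity
  have hd1 : d ≤ 1 := by rw [hd]; exact min_le_left _ _
  have hd2 : 2 * C / c * d ≤ ε / 4 := by
    have : d ≤ ε * c / (8 * C) := by rw [hd]; exact min_le_right _ _
    calc 2 * C / c * d ≤ 2 * C / c * (ε * c / (8 * C)) :=
          mul_le_mul_of_nonneg_left this (by positivity)
      _ = ε / 4 := by field_simp; norm_num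
  have hind := indep hIND hEXPM hLAPC hARM hZB h0 h01 hf hC (chi d) φ (chi_continuous d)
    hφL.continuous (fun x => chi_abs d x hd0) hφ1
  have hind' : ∀ᶠ n : ℕ in atTop,
      |(∑ q ∈ Omn n, wtq n (Real.exp (-(f n))) q *
        (chi d (((sp q : ℝ) - h n) / Real.sqrt n) * φ (ra n q))) / Zq n (Real.exp (-(f n))) -
      (∑ q ∈ Omn n, wtq n (Real.exp (-(f n))) q *
        (chi d (((sp q : ℝ) - h n) / Real.sqrt n))) / Zq n (Real.exp (-(f n))) *
      ((∑ q ∈ Omn n, wtq n (Real.exp (-(f n))) q * φ (ra n q)) / Zq n (Real.exp (-(f n))))| ≤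
        ε * (c * d) / 16 := by
    have h1 := (Metric.tendsto_atTop.1 hind) (ε * (c * d) / 16) (by positivity)
    obtain ⟨M, hM⟩ := h1
    filter_upwards [eventually_ge_atTop M] with n hn
    have := hM n hn
    rw [Real.dist_eq, sub_zero] at this
    exact this.le
  have hsq' : ∀ᶠ n : ℕ in atTop, 2 * C / c * (1 / Real.sqrt (Real.sqrt n)) < ε / 4 := by
    have h1 := hsq.const_mul (2 * C / c)
    rw [mul_zero] at h1
    exact h1.eventually (gt_mem_nhds (by positivity))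
  filter_upwards [hlow, hZ, hind', hsq', eventually_ge_atTop N, eventually_ge_atTop 1]
    with n h1 h2 h3 h4 h5 h6
  have hn0 : (0 : ℝ) < n := by exact_mod_cast h6
  have hsn : 0 < Real.sqrt n := Real.sqrt_pos.2 hn0
  obtain ⟨_, _, h7⟩ := hN n h5 (Real.exp (-(f n))) (Real.exp_le_exp.2 (by linarith [(hf n).2]))
    (Real.exp_le_exp.2 (by linarith [(hf n).1]))
  have h8 := localise C (Zq n (Real.exp (-(f n)))) d h2.le hd0 n (h n) h6 (Real.exp (-(f n))) φ
    (fun h' => h7 h' (h n) φ hφ1 hφL) hC0.le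
  have h9 := localise C (Zq n (Real.exp (-(f n)))) d h2.le hd0 n (h n) h6 (Real.exp (-(f n)))
    (fun _ => 1) (fun h' => h7 h' (h n) (fun _ => 1) (fun _ => by simp)
      (LipschitzWith.const' (1 : ℝ))) hC0.le
  have hE : |(∑ q ∈ Omn n, wtq n (Real.exp (-(f n))) q * φ (ra n q)) /
      Zq n (Real.exp (-(f n)))| ≤ 1 := by
    rw [abs_div, abs_of_pos h2, div_le_one h2]
    refine (Finset.abs_sum_le_sum_abs _ _).trans ?_
    unfold Zq
    refine Finset.sum_le_sum fun q _ => ?_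
    have h10 := wtq_nonneg n (Real.exp (-(f n))) (Real.exp_pos _).le q
    rw [abs_mul, abs_of_nonneg h10]
    calc _ ≤ wtq n (Real.exp (-(f n))) q * 1 := mul_le_mul_of_nonneg_left (hφ1 _) h10
      _ = _ := mul_one _
  simp only [mul_one] at h9
  have h10 := compare c (C * (1 / Real.sqrt (Real.sqrt n) + d)) (Zq n (Real.exp (-(f n)))) d
    (ε * (c * d) / 16) _ _ _ _ _ _ (C / Real.sqrt n * (1 / Real.sqrt (Real.sqrt n) + d))
    (Real.sqrt n) hsn hc h2 hd0 (sum_chi d hd0 hd1 n (h n) h6) (by ring)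
    (by positivity) hE h8 h9 h3 h1
  refine h10.trans_lt ?_
  have h11 : 4 * (ε * (c * d) / 16) / (c * d) = ε / 4 := by
    field_simp
    norm_num
  have h12 : 2 * (C * (1 / Real.sqrt (Real.sqrt n) + d)) / c =
      2 * C / c * (1 / Real.sqrt (Real.sqrt n)) + 2 * C / c * d := by ring
  rw [h11, h12]
  linarith

end Pool.Agent.FS.EQ
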