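import Pool.Agent.Lib_helper74.FS.Stmts
import Pool.Agent.Lib_helper89.FL.FinB

/-!
# Polygons with fixed span (MP_f6626d_co), module EXPM: exponential moments of the span
-/

set_option autoImplicit false

namespace Pool.Agent.FS.EXPM

open Finset Filter Topology MeasureTheory
open Pool.Agent.Lib27 Pool.Agent.SapR Pool.Agent.Gap Pool.Agent.AreaLaw Pool.Agent.FL

lemma exp_le_quad (x : ℝ) : Real.exp x ≤ 1 + x + x ^ 2 * Real.exp |x| := by
  have h1 : Real.exp x - 1 ≤ x * Real.exp x := by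
    have h := Real.add_one_le_exp (-x)
    have h2 := mul_le_mul_of_nonneg_right h (Real.exp_pos x).le
    rw [← Real.exp_add, neg_add_cancel, Real.exp_zero] at h2
    linarith
  have h3 : 1 ≤ Real.exp |x| := Real.one_le_exp (abs_nonneg x)
  rcases le_total 0 x with hx | hx
  · rw [abs_of_nonneg hx]
    nlinarith [mul_le_mul_of_nonneg_left h1 hx]
  · have h4 : 1 + x ≤ Real.exp x := by linarith [Real.add_one_le_exp x]
    have h5 : x * (Real.exp x - 1) ≤ x ^ 2 := by nlinarith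
    have h6 : x ^ 2 ≤ x ^ 2 * Real.exp |x| := by nlinarith [sq_nonneg x]
    nlinarith

lemma one_side {ι : Type*} (P : Finset ι) (m d : ι → ℕ) (hm : ∀ i ∈ P, 1 ≤ m i)
    (hd : ∀ i ∈ P, d i ≤ m i) {ρ s ρ' : ℝ} (u : ℝ) (hρ : 0 < ρ) (hs : 0 < s) (hρ' : 0 < ρ')
    (h1 : ∑ i ∈ P, ρ ^ m i * s ^ d i = 1)
    (h2 : ∑ i ∈ P, ρ' ^ m i * (s * Real.exp (-u)) ^ d i = 1) :
    -(u ^ 2 * ∑ i ∈ P, ρ ^ m i * s ^ d i * ((m i : ℝ) ^ 2 * Real.exp (|u| * m i))) ≤
      Real.log (ρ' / ρ) * ∑ i ∈ P, ρ ^ m i * s ^ d i * m i -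
        u * ∑ i ∈ P, ρ ^ m i * s ^ d i * d i := by
  set a := Real.log (ρ' / ρ) with ha
  have hρa : ρ' = ρ * Real.exp a := by
    rw [ha, Real.exp_log (div_pos hρ' hρ)]
    field_simp
  have hterm : ∀ i ∈ P, ρ' ^ m i * (s * Real.exp (-u)) ^ d i =
      ρ ^ m i * s ^ d i * Real.exp (a * m i - u * d i) := by
    intro i _
    rw [hρa, mul_pow, mul_pow, ← Real.exp_nat_mul, ← Real.exp_nat_mul, sub_eq_add_neg,
      Real.exp_add]
    have e1 : (m i : ℝ) * a = a * m i := by ring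
    have e2 : (d i : ℝ) * -u = -(u * d i) := by ring
    rw [e1, e2]
    ring
  have hp : ∀ i ∈ P, 0 < ρ ^ m i * s ^ d i := fun i _ => by positivity
  rw [Finset.sum_congr rfl hterm] at h2
  have hne : P.Nonempty := by
    by_contra hE
    rw [Finset.not_nonempty_iff_eq_empty] at hE
    rw [hE] at h1
    simp at h1
  have hlow : ¬ ∀ i ∈ P, a * m i - u * d i < 0 := by
    intro h
    have : ∑ i ∈ P, ρ ^ m i * s ^ d i * Real.exp (a * m i - u * d i) <
        ∑ i ∈ P, ρ ^ m i * s ^ d i := by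
      refine Finset.sum_lt_sum_of_nonempty hne fun i hi => ?_
      have h3 : Real.exp (a * m i - u * d i) < 1 := Real.exp_lt_one_iff.2 (h i hi)
      nlinarith [hp i hi]
    linarith
  have hup : ¬ ∀ i ∈ P, 0 < a * m i - u * d i := by
    intro h
    have : ∑ i ∈ P, ρ ^ m i * s ^ d i <
        ∑ i ∈ P, ρ ^ m i * s ^ d i * Real.exp (a * m i - u * d i) := by
      refine Finset.sum_lt_sum_of_nonempty hne fun i hi => ?_
      have h3 : 1 < Real.exp (a * m i - u * d i) := Real.one_lt_exp_iff.2 (h i hi)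
      nlinarith [hp i hi]
    linarith
  have hmr : ∀ i ∈ P, (1 : ℝ) ≤ m i := fun i hi => by exact_mod_cast hm i hi
  have hdr : ∀ i ∈ P, (d i : ℝ) ≤ m i := fun i hi => by exact_mod_cast hd i hi
  have hd0 : ∀ i ∈ P, (0 : ℝ) ≤ d i := fun i _ => Nat.cast_nonneg _
  have habs : ∀ i ∈ P, |a * m i - u * d i| ≤ |u| * m i := by
    rcases le_total 0 u with hu | hu
    · have ha0 : 0 ≤ a := by
        by_contra hc
        push Not at hc
        exact hlow fun i hi => by nlinarith [hmr i hi, hd0 i hi]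
      have hau : a ≤ u := by
        by_contra hc
        push Not at hc
        exact hup fun i hi => by nlinarith [hmr i hi, hd0 i hi, hdr i hi]
      intro i hi
      rw [abs_of_nonneg hu, abs_le]
      have := hmr i hi
      have := hd0 i hi
      have := hdr i hi
      constructor <;> nlinarith
    · have ha0 : a ≤ 0 := by
        by_contra hc
        push Not at hc
        exact hup fun i hi => by nlinarith [hmr i hi, hd0 i hi]
      have hau : u ≤ a := by
        by_contra hc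
        push Not at hc
        exact hlow fun i hi => by nlinarith [hmr i hi, hd0 i hi, hdr i hi]
      intro i hi
      rw [abs_of_nonpos hu, abs_le]
      have := hmr i hi
      have := hd0 i hi
      have := hdr i hi
      constructor <;> nlinarith
  have hkey : ∑ i ∈ P, ρ ^ m i * s ^ d i * Real.exp (a * m i - u * d i) ≤
      ∑ i ∈ P, (ρ ^ m i * s ^ d i + (a * (ρ ^ m i * s ^ d i * m i) -
        u * (ρ ^ m i * s ^ d i * d i)) +
        u ^ 2 * (ρ ^ m i * s ^ d i * ((m i : ℝ) ^ 2 * Real.exp (|u| * m i)))) := by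
    refine Finset.sum_le_sum fun i hi => ?_
    have h3 := exp_le_quad (a * m i - u * d i)
    have h4 : (a * m i - u * d i) ^ 2 * Real.exp |a * m i - u * d i| ≤
        (|u| * m i) ^ 2 * Real.exp (|u| * m i) := by
      have h5 := habs i hi
      have h6 : (a * m i - u * d i) ^ 2 ≤ (|u| * m i) ^ 2 := by
        rw [← sq_abs (a * m i - u * d i)]
        exact pow_le_pow_left₀ (abs_nonneg _) h5 2
      exact mul_le_mul h6 (Real.exp_le_exp.2 h5) (Real.exp_pos _).le (by positivity)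
    have h7 : (|u| * m i) ^ 2 = u ^ 2 * (m i : ℝ) ^ 2 := by rw [mul_pow, sq_abs]
    rw [h7] at h4
    have h8 : Real.exp (a * m i - u * d i) ≤
        1 + (a * m i - u * d i) + u ^ 2 * (m i : ℝ) ^ 2 * Real.exp (|u| * m i) := by linarith
    have h9 := mul_le_mul_of_nonneg_left h8 (hp i hi).le
    calc _ ≤ _ := h9
      _ = _ := by ring
  rw [h2, Finset.sum_add_distrib, Finset.sum_add_distrib, Finset.sum_sub_distrib, h1,
    ← Finset.mul_sum, ← Finset.mul_sum, ← Finset.mul_sum] at hkey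
  linarith

/-- the second difference of the logarithm of the critical weight -/
lemma second_diff {ι : Type*} (P : Finset ι) (m d : ι → ℕ) (hm : ∀ i ∈ P, 1 ≤ m i)
    (hd : ∀ i ∈ P, d i ≤ m i) {ρ s ρp ρm : ℝ} (u M : ℝ) (hρ : 0 < ρ) (hs : 0 < s) (hρp : 0 < ρp)
    (hρm : 0 < ρm) (h1 : ∑ i ∈ P, ρ ^ m i * s ^ d i = 1)
    (h2 : ∑ i ∈ P, ρp ^ m i * (s * Real.exp (-u)) ^ d i = 1)
    (h3 : ∑ i ∈ P, ρm ^ m i * (s * Real.exp u) ^ d i = 1)
    (hM : ∑ i ∈ P, ρ ^ m i * s ^ d i * ((m i : ℝ) ^ 2 * Real.exp (|u| * m i)) ≤ M) :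
    ρ ^ 2 ≤ Real.exp (2 * u ^ 2 * M) * (ρp * ρm) := by
  have ha := one_side P m d hm hd u hρ hs hρp h1 h2
  have hb := one_side P m d hm hd (-u) hρ hs hρm h1 (by rw [neg_neg]; exact h3)
  rw [abs_neg, neg_sq] at hb
  have hmbar : 1 ≤ ∑ i ∈ P, ρ ^ m i * s ^ d i * m i := by
    rw [← h1]
    refine Finset.sum_le_sum fun i hi => ?_
    have h4 : (1 : ℝ) ≤ m i := by exact_mod_cast hm i hi
    have h5 : 0 < ρ ^ m i * s ^ d i := by positivity
    nlinarith
  set a := Real.log (ρp / ρ) with hadef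
  set b := Real.log (ρm / ρ) with hbdef
  set mb := ∑ i ∈ P, ρ ^ m i * s ^ d i * m i
  have hu2 : 0 ≤ u ^ 2 := sq_nonneg u
  have hM2 := mul_le_mul_of_nonneg_left hM hu2
  have hsum : -(2 * u ^ 2 * M) ≤ (a + b) * mb := by
    have : (a + b) * mb = (a * mb - u * ∑ i ∈ P, ρ ^ m i * s ^ d i * d i) +
      (b * mb - -u * ∑ i ∈ P, ρ ^ m i * s ^ d i * d i) := by ring
    rw [this]
    linarith
  have hM0 : 0 ≤ M := le_trans (Finset.sum_nonneg fun i _ => by positivity) hM
  have hab : -(2 * u ^ 2 * M) ≤ a + b := by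
    rcases le_total 0 (a + b) with h | h
    · have : 0 ≤ 2 * u ^ 2 * M := by positivity
      linarith
    · nlinarith
  have h6 : Real.exp (-(2 * u ^ 2 * M)) ≤ ρp / ρ * (ρm / ρ) := by
    calc Real.exp (-(2 * u ^ 2 * M)) ≤ Real.exp (a + b) := Real.exp_le_exp.2 hab
      _ = _ := by
        rw [Real.exp_add, hadef, hbdef, Real.exp_log (div_pos hρp hρ),
          Real.exp_log (div_pos hρm hρ)]
  have h7 : ρp / ρ * (ρm / ρ) = (ρp * ρm) / ρ ^ 2 := by field_simp
  rw [h7, le_div_iff₀ (by positivity)] at h6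
  have h8 := mul_le_mul_of_nonneg_left h6 (Real.exp_pos (2 * u ^ 2 * M)).le
  rw [← mul_assoc, ← Real.exp_add, add_neg_cancel, Real.exp_zero, one_mul] at h8
  exact h8

/-- moments from the tails -/
lemma tail_sum {C θ : ℝ} (hC : 0 < C) (hθ : 0 < θ) (hθ1 : θ < 1) :
    ∃ u0 M : ℝ, 0 < u0 ∧ ∀ (n : ℕ) (s rho u : ℝ), 0 < rho → 0 < s → |u| ≤ u0 →
      Tails C θ n s rho →
      ∑ p ∈ Pc (2 * n - 1), rho ^ hl p * s ^ (hl p - htn p) *
        ((hl p : ℝ) ^ 2 * Real.exp (|u| * hl p)) ≤ M := by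
  classical
  have hlog : Real.log θ < 0 := Real.log_neg hθ hθ1
  set u0 : ℝ := -Real.log θ / 2 with hu0
  set r : ℝ := θ * Real.exp u0 with hr
  have hr0 : 0 < r := by positivity
  have hr1 : r < 1 := by
    have : r = Real.exp (Real.log θ / 2) := by
      rw [hr]
      nth_rewrite 1 [← Real.exp_log hθ]
      rw [← Real.exp_add]
      congr 1
      rw [hu0]
      ring
    rw [this]
    exact Real.exp_lt_one_iff.2 (by linarith)
  have hsum : Summable (fun n : ℕ => (n : ℝ) ^ 2 * r ^ n) :=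
    summable_pow_mul_geometric_of_norm_lt_one 2 (by rwa [Real.norm_of_nonneg hr0.le])
  refine ⟨u0, C * ∑' n : ℕ, (n : ℝ) ^ 2 * r ^ n, by rw [hu0]; linarith, ?_⟩
  intro n s rho u hrho hs hu hT
  rw [← Finset.sum_fiberwise_of_maps_to (s := Pc (2 * n - 1)) (t := (Pc (2 * n - 1)).image hl)
    (g := hl) (fun i hi => Finset.mem_image_of_mem _ hi)]
  have h1 : ∀ k ∈ (Pc (2 * n - 1)).image hl,
      ∑ p ∈ (Pc (2 * n - 1)).filter (fun p => hl p = k), rho ^ hl p * s ^ (hl p - htn p) *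
        ((hl p : ℝ) ^ 2 * Real.exp (|u| * hl p)) ≤ C * ((k : ℝ) ^ 2 * r ^ k) := by
    intro k _
    have h2 : ∑ p ∈ (Pc (2 * n - 1)).filter (fun p => hl p = k),
        rho ^ hl p * s ^ (hl p - htn p) * ((hl p : ℝ) ^ 2 * Real.exp (|u| * hl p)) =
        (∑ p ∈ (Pc (2 * n - 1)).filter (fun p => hl p = k), rho ^ k * s ^ (k - htn p)) *
          ((k : ℝ) ^ 2 * Real.exp (|u| * k)) := by
      rw [Finset.sum_mul]
      refine Finset.sum_congr rfl fun p hp => ?_
      rw [(Finset.mem_filter.1 hp).2]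
    rw [h2]
    have h3 := hT.1 k
    have h4 : Real.exp (|u| * k) ≤ Real.exp u0 ^ k := by
      rw [← Real.exp_nat_mul, mul_comm]
      apply Real.exp_le_exp.2
      exact mul_le_mul_of_nonneg_left hu (Nat.cast_nonneg k)
    calc _ ≤ (C * θ ^ k) * ((k : ℝ) ^ 2 * Real.exp (|u| * k)) := by
          apply mul_le_mul_of_nonneg_right _ (by positivity)
          convert h3 using 1
      _ ≤ (C * θ ^ k) * ((k : ℝ) ^ 2 * Real.exp u0 ^ k) := by gcongr
      _ = C * ((k : ℝ) ^ 2 * r ^ k) := by rw [hr, mul_pow]; ring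
  refine (Finset.sum_le_sum h1).trans ?_
  rw [← Finset.mul_sum]
  apply mul_le_mul_of_nonneg_left _ hC.le
  exact hsum.sum_le_tsum _ (fun _ _ => by positivity)

/-- change of the force -/
lemma tilt (hHG : HG_Stmt) (n : ℕ) (f u m : ℝ) :
    ∑ q ∈ Omn n, wtq n (Real.exp (-f)) q * Real.exp (u * ((sp q : ℝ) - m)) =
      Real.exp (u * (n - m)) * Zq n (Real.exp (-(f + u))) := by
  unfold Zq
  rw [Finset.mul_sum]
  refine Finset.sum_congr rfl fun q hq => ?_
  have h1 : sp q ≤ n := height_le hHG n q hq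
  have h2 : wtq n (Real.exp (-f)) q = Real.exp (-f) ^ (n - sp q) := rfl
  have h3 : wtq n (Real.exp (-(f + u))) q = Real.exp (-(f + u)) ^ (n - sp q) := rfl
  rw [h2, h3, ← Real.exp_nat_mul, ← Real.exp_nat_mul, ← Real.exp_add, ← Real.exp_add,
    Nat.cast_sub h1]
  congr 1
  ring

/-- the weight of the words without cut -/
noncomputable def NCs (n : ℕ) (s : ℝ) : ℝ := ∑ w ∈ NoCut n, s ^ (n - spn w)

lemma forceZ_eq (hHG : HG_Stmt) (hTR : TR_Stmt) (n : ℕ) (hn : 1 ≤ n) (f : ℝ) :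
    forceZ f n = Real.exp (f * n) * (4 * n * Zq n (Real.exp (-f)) + NCs n (Real.exp (-f))) := by
  have hexp : ∀ b : ℕ, b ≤ n → Real.exp (f * b) = Real.exp (f * n) * Real.exp (-f) ^ (n - b) := by
    intro b hb
    rw [← Real.exp_nat_mul, ← Real.exp_add]
    congr 1
    rw [Nat.cast_sub hb]
    ring
  have h1 := hTR n hn (fun _ b => Real.exp (f * b))
  unfold forceZ
  rw [h1]
  unfold Zq NCs
  rw [mul_add]
  congr 1
  · have h2 : ∑ q ∈ M41.Om (2 * n - 1) n, Real.exp (f * ((hgt q.2.2.2 + hgt q.2.2.1 : ℕ) : ℝ)) =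
        Real.exp (f * n) * ∑ q ∈ Omn n, wtq n (Real.exp (-f)) q := by
      rw [Finset.mul_sum]
      refine Finset.sum_congr rfl fun q hq => ?_
      exact hexp _ (height_le hHG n q hq)
    rw [h2]
    ring
  · rw [Finset.mul_sum]
    refine Finset.sum_congr rfl fun w hw => ?_
    have hw' : w ∈ W n := by
      classical
      exact (Finset.mem_filter.1 hw).1
    exact hexp _ (spn_le n w hw')

lemma jensen (n : ℕ) (f u m : ℝ) (hu : |u| ≤ 1 / 2) (h : Cen n f m) :
    Real.exp (-(u * m)) * forceZ f n ≤ 2 * forceZ (f - u) n := by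
  unfold Cen at h
  have h1 : forceZ (f - u) n = Real.exp (-(u * m)) *
      ∑ s ∈ SAP n, Real.exp (f * span n s) * Real.exp (-(u * ((span n s : ℝ) - m))) := by
    unfold forceZ
    rw [Finset.mul_sum]
    refine Finset.sum_congr rfl fun s _ => ?_
    rw [← Real.exp_add, ← Real.exp_add]
    congr 1
    ring
  have h2 : forceZ f n - u * ∑ s ∈ SAP n, Real.exp (f * span n s) * ((span n s : ℝ) - m) ≤
      ∑ s ∈ SAP n, Real.exp (f * span n s) * Real.exp (-(u * ((span n s : ℝ) - m))) := by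
    unfold forceZ
    rw [Finset.mul_sum, ← Finset.sum_sub_distrib]
    refine Finset.sum_le_sum fun s _ => ?_
    have h3 := Real.add_one_le_exp (-(u * ((span n s : ℝ) - m)))
    have h4 := mul_le_mul_of_nonneg_left h3 (Real.exp_pos (f * span n s)).le
    calc _ = Real.exp (f * span n s) * (-(u * ((span n s : ℝ) - m)) + 1) := by ring
      _ ≤ _ := h4
  have hF : 0 ≤ forceZ f n := Finset.sum_nonneg fun s _ => (Real.exp_pos _).le
  have h5 : u * ∑ s ∈ SAP n, Real.exp (f * span n s) * ((span n s : ℝ) - m) ≤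
      1 / 2 * forceZ f n := by
    refine (le_abs_self _).trans ?_
    rw [abs_mul]
    exact mul_le_mul hu h (abs_nonneg _) (by norm_num)
  rw [h1]
  have h6 : forceZ f n ≤
      2 * ∑ s ∈ SAP n, Real.exp (f * span n s) * Real.exp (-(u * ((span n s : ℝ) - m))) := by
    linarith
  have h7 := mul_le_mul_of_nonneg_left h6 (Real.exp_pos (-(u * m))).le
  linarith

end Pool.Agent.FS.EXPM

namespace Pool.Agent.FS

open Finset Filter Topology MeasureTheory
open Pool.Agent.Lib27 Pool.Agent.SapR Pool.Agent.Gap Pool.Agent.AreaLaw Pool.Agent.FL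
open EXPM

theorem EXPM_thm (hZB : ZB_Stmt) (hTR : TR_Stmt) (hHG : HG_Stmt) : EXPM_Stmt := by
  intro f0 f1 t hf0 hf01
  obtain ⟨C, θ, hC, hθ, hθ1, N, hN⟩ := hZB (Real.exp (-(f0 / 2))) (Real.exp_pos _)
    (Real.exp_lt_one_iff.2 (by linarith))
  obtain ⟨u0, M, hu0, hM⟩ := tail_sum hC hθ hθ1
  have hsumθ : Summable (fun n : ℕ => (n : ℝ) ^ 2 * θ ^ n) :=
    summable_pow_mul_geometric_of_norm_lt_one 2 (by rwa [Real.norm_of_nonneg hθ.le])
  set K : ℝ := ∑' n : ℕ, (n : ℝ) ^ 2 * θ ^ n with hK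
  have hK0 : 0 ≤ K := tsum_nonneg fun n => by positivity
  have hKn : ∀ n : ℕ, sc n * θ ^ n ≤ K := by
    intro n
    refine le_trans ?_ (hsumθ.le_tsum n (fun _ _ => by positivity))
    apply mul_le_mul_of_nonneg_right _ (by positivity)
    unfold sc
    rw [sq]
    apply mul_le_mul_of_nonneg_left _ (Nat.cast_nonneg n)
    rcases Nat.eq_zero_or_pos n with h | h
    · rw [h]; simp
    · rw [Real.sqrt_le_left (Nat.cast_nonneg n)]
      have : (1 : ℝ) ≤ n := by exact_mod_cast h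
      nlinarith
  set δ : ℝ := min (min (f0 / 2) u0) (1 / 2) with hδ
  have hδ0 : 0 < δ := by
    rw [hδ]
    exact lt_min (lt_min (by linarith) hu0) (by norm_num)
  have hδ1 : δ ≤ f0 / 2 := (min_le_left _ _).trans (min_le_left _ _)
  have hδ2 : δ ≤ u0 := (min_le_left _ _).trans (min_le_right _ _)
  have hδ3 : δ ≤ 1 / 2 := min_le_right _ _
  set C2 : ℝ := 4 * C + C * K with hC2
  have hC20 : 0 < C2 := by positivity
  set B : ℝ := Real.exp (2 * t ^ 2 * M) with hB
  refine ⟨C ^ 3 * C2 * B / 2, by positivity, max (max N 1) (⌈(|t| / δ) ^ 2⌉₊ + 1), ?_⟩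
  intro n hn f hf hf' m hcen
  have hnN : N ≤ n := (le_max_left _ _).trans ((le_max_left _ _).trans hn)
  have hn1 : 1 ≤ n := (le_max_right _ _).trans ((le_max_left _ _).trans hn)
  have hnt : ⌈(|t| / δ) ^ 2⌉₊ + 1 ≤ n := (le_max_right _ _).trans hn
  have hn0 : (0 : ℝ) < n := by exact_mod_cast hn1
  have hsq : 0 < Real.sqrt n := Real.sqrt_pos.2 hn0
  have hntr : (|t| / δ) ^ 2 ≤ n := by
    have h1 := Nat.le_ceil ((|t| / δ) ^ 2)
    have h2 : ((⌈(|t| / δ) ^ 2⌉₊ + 1 : ℕ) : ℝ) ≤ n := by exact_mod_cast hnt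
    push_cast at h2
    linarith
  set u : ℝ := t / Real.sqrt n with hu
  have huδ : |u| ≤ δ := by
    rw [hu, abs_div, abs_of_pos hsq, div_le_iff₀ hsq]
    have h1 : |t| / δ ≤ Real.sqrt n := Real.le_sqrt_of_sq_le hntr
    rw [div_le_iff₀ hδ0] at h1
    linarith
  have hu2 : u ^ 2 * n = t ^ 2 := by
    rw [hu, div_pow, Real.sq_sqrt hn0.le]
    field_simp
  have hub := abs_le.1 huδ
  -- the three weights
  set s := Real.exp (-f) with hs
  set sp' := Real.exp (-(f + u)) with hsp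
  set sm := Real.exp (-(f - u)) with hsm
  have hs0 : 0 < s := Real.exp_pos _
  obtain ⟨ρ, hcr, hT, hρ1, hρ2, hZl, hZu⟩ := hN n hnN s hs0
    (Real.exp_le_exp.2 (by linarith))
  obtain ⟨ρp, hcrp, hTp, hρp1, hρp2, hZlp, hZup⟩ := hN n hnN sp' (Real.exp_pos _)
    (Real.exp_le_exp.2 (by linarith [hub.1, hub.2]))
  obtain ⟨ρm, hcrm, hTm, hρm1, hρm2, hZlm, hZum⟩ := hN n hnN sm (Real.exp_pos _)
    (Real.exp_le_exp.2 (by linarith [hub.1, hub.2]))
  have hρ0 := hcr.1
  have hρp0 := hcrp.1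
  have hρm0 := hcrm.1
  have hsc0 : 0 < sc n := by unfold sc; positivity
  -- second difference
  have hsd : ρ ^ 2 ≤ Real.exp (2 * u ^ 2 * M) * (ρp * ρm) := by
    refine second_diff (Pc (2 * n - 1)) hl (fun p => hl p - htn p) ?_ ?_ u M hρ0 hs0 hρp0 hρm0
      hcr.2 ?_ ?_ ?_
    · intro p hp
      exact (hHG.2.2 _ p hp).1.trans (hHG.2.2 _ p hp).2
    · intro p _
      exact Nat.sub_le _ _
    · have : s * Real.exp (-u) = sp' := by
        rw [hs, hsp, ← Real.exp_add]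
        congr 1
        ring
      rw [this]
      exact hcrp.2
    · have : s * Real.exp u = sm := by
        rw [hs, hsm, ← Real.exp_add]
        congr 1
        ring
      rw [this]
      exact hcrm.2
    · exact hM n s ρ u hρ0 hs0 (huδ.trans hδ2) hT
  have hsdn : ρ ^ (2 * n) ≤ B * (ρp ^ n * ρm ^ n) := by
    have h1 := pow_le_pow_left₀ (by positivity) hsd n
    rw [← pow_mul, mul_pow, ← Real.exp_nat_mul, mul_pow] at h1
    have h2 : (n : ℝ) * (2 * u ^ 2 * M) = 2 * t ^ 2 * M := by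
      rw [← hu2]; ring
    rw [h2] at h1
    exact h1
  -- the left side
  have hE : ∑ q ∈ Omn n, wtq n s q * Real.exp (t * (((sp q : ℝ) - m) / Real.sqrt n)) =
      Real.exp (u * (n - m)) * Zq n sp' := by
    rw [← tilt hHG n f u m]
    refine Finset.sum_congr rfl fun q _ => ?_
    congr 2
    rw [hu]
    ring
  have hJ := jensen n f u m (huδ.trans hδ3) hcen
  rw [forceZ_eq hHG hTR n hn1 f, forceZ_eq hHG hTR n hn1 (f - u)] at hJ
  set Z0 := Zq n s with hZ0
  set Zp := Zq n sp' with hZp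
  set Zm := Zq n sm with hZm
  set F0 := 4 * n * Z0 + NCs n s with hF0
  set Fm := 4 * n * Zm + NCs n sm with hFm
  have hJ2 : Real.exp (u * (n - m)) * F0 ≤ 2 * Fm := by
    have h1 := mul_le_mul_of_nonneg_left hJ (Real.exp_pos (-((f - u) * n))).le
    have h2 : Real.exp (-((f - u) * n)) * (Real.exp (-(u * m)) * (Real.exp (f * n) * F0)) =
        Real.exp (u * (n - m)) * F0 := by
      rw [← mul_assoc, ← mul_assoc, ← Real.exp_add, ← Real.exp_add]
      congr 2
      ring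
    have h3 : Real.exp (-((f - u) * n)) * (2 * (Real.exp ((f - u) * n) * Fm)) = 2 * Fm := by
      have : Real.exp (-((f - u) * n)) * (2 * (Real.exp ((f - u) * n) * Fm)) =
        (Real.exp (-((f - u) * n)) * Real.exp ((f - u) * n)) * (2 * Fm) := by ring
      rw [this, ← Real.exp_add, neg_add_cancel, Real.exp_zero, one_mul]
    rw [h2, h3] at h1
    exact h1
  have hNC0 : 0 ≤ NCs n s := Finset.sum_nonneg fun w _ => by positivity
  have hZ0pos : 0 < Z0 := by
    have h1 : 0 < C⁻¹ := by positivity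
    have h2 : 0 < sc n * ρ ^ n * Z0 := lt_of_lt_of_le h1 hZl
    exact pos_of_mul_pos_right h2 (by positivity)
  have hZpnn : 0 ≤ Zp := by
    rw [hZp]
    exact Finset.sum_nonneg fun q _ => pow_nonneg (Real.exp_pos _).le _
  have hFmb : sc n * ρm ^ n * Fm ≤ n * C2 := by
    have h1 := hTm.2.2
    rw [← Finset.mul_sum] at h1
    have h2 : ρm ^ n * NCs n sm ≤ C * n * θ ^ n := h1
    have h3 : sc n * ρm ^ n * Fm = 4 * n * (sc n * ρm ^ n * Zm) + sc n * (ρm ^ n * NCs n sm) := by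
      rw [hFm]; ring
    rw [h3]
    have h4 : 4 * (n : ℝ) * (sc n * ρm ^ n * Zm) ≤ 4 * n * C := by
      apply mul_le_mul_of_nonneg_left hZum (by positivity)
    have h5 : sc n * (ρm ^ n * NCs n sm) ≤ sc n * (C * n * θ ^ n) :=
      mul_le_mul_of_nonneg_left h2 hsc0.le
    have h6 : sc n * (C * n * θ ^ n) ≤ C * n * K := by
      have := mul_le_mul_of_nonneg_left (hKn n) (by positivity : 0 ≤ C * (n : ℝ))
      linarith
    rw [hC2]
    linarith
  have hFm0 : 0 ≤ Fm := by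
    rw [hFm]
    have h1 : 0 ≤ Zm := Finset.sum_nonneg fun q _ => pow_nonneg (Real.exp_pos _).le _
    have h2 : 0 ≤ NCs n sm := Finset.sum_nonneg fun w _ => by positivity
    positivity
  -- combination
  have hcomb : Zp * Fm ≤ C ^ 3 * C2 * B * n * Z0 ^ 2 := by
    have hpos : 0 < sc n ^ 2 * (ρp ^ n * ρm ^ n) := by positivity
    refine le_of_mul_le_mul_left ?_ hpos
    have h1 : sc n ^ 2 * (ρp ^ n * ρm ^ n) * (Zp * Fm) =
        (sc n * ρp ^ n * Zp) * (sc n * ρm ^ n * Fm) := by ring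
    rw [h1]
    have h2 : (sc n * ρp ^ n * Zp) * (sc n * ρm ^ n * Fm) ≤ C * (n * C2) :=
      mul_le_mul hZup hFmb (by positivity) hC.le
    refine h2.trans ?_
    have h3 : C⁻¹ ^ 2 ≤ (sc n * ρ ^ n * Z0) ^ 2 := pow_le_pow_left₀ (by positivity) hZl 2
    have h4 : (sc n * ρ ^ n * Z0) ^ 2 = sc n ^ 2 * ρ ^ (2 * n) * Z0 ^ 2 := by
      rw [mul_pow, mul_pow, ← pow_mul, mul_comm n 2]
    rw [h4] at h3
    have h5 : sc n ^ 2 * ρ ^ (2 * n) * Z0 ^ 2 ≤ sc n ^ 2 * (B * (ρp ^ n * ρm ^ n)) * Z0 ^ 2 := by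
      gcongr
    have h6 : 1 ≤ C ^ 2 * (sc n ^ 2 * (B * (ρp ^ n * ρm ^ n)) * Z0 ^ 2) := by
      have h7 := mul_le_mul_of_nonneg_left (h3.trans h5) (by positivity : 0 ≤ C ^ 2)
      have h8 : C ^ 2 * C⁻¹ ^ 2 = 1 := by
        field_simp
      rw [h8] at h7
      exact h7
    have h9 : C * (n * C2) ≤ C * (n * C2) *
        (C ^ 2 * (sc n ^ 2 * (B * (ρp ^ n * ρm ^ n)) * Z0 ^ 2)) :=
      le_mul_of_one_le_right (by positivity) h6
    refine h9.trans (le_of_eq ?_)
    ring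
  rw [hE]
  have hF0b : 4 * n * Z0 ≤ F0 := by rw [hF0]; linarith
  have hex : 0 < Real.exp (u * (n - m)) := Real.exp_pos _
  have hfin : (4 * n * Z0) * (Real.exp (u * (n - m)) * Zp) ≤
      (4 * n * Z0) * (C ^ 3 * C2 * B / 2 * Z0) := by
    calc (4 * n * Z0) * (Real.exp (u * (n - m)) * Zp) ≤ F0 * (Real.exp (u * (n - m)) * Zp) :=
          mul_le_mul_of_nonneg_right hF0b (by positivity)
      _ = (Real.exp (u * (n - m)) * F0) * Zp := by ring
      _ ≤ (2 * Fm) * Zp := mul_le_mul_of_nonneg_right hJ2 hZpnn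
      _ = 2 * (Zp * Fm) := by ring
      _ ≤ 2 * (C ^ 3 * C2 * B * n * Z0 ^ 2) := by linarith
      _ = (4 * n * Z0) * (C ^ 3 * C2 * B / 2 * Z0) := by ring
  exact le_of_mul_le_mul_left hfin (by positivity)

end Pool.Agent.FS
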