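import Pool.Agent.Lib_helper74.FS.MainPre
import Pool.Agent.Lib_helper74.FS.EXPM
import Pool.Agent.Lib_helper74.FS.EQ
import Pool.Agent.Lib_helper74.FS.CLS

/-!
The area law of self-avoiding polygons with fixed span.
-/

set_option autoImplicit false

namespace Pool.Agent.FS

open Finset Filter Topology MeasureTheory
open Pool.Agent.Lib27 Pool.Agent.SapR Pool.Agent.Gap Pool.Agent.AreaLaw Pool.Agent.FL

/-- asymptotic equivalence of fixed span and force -/
theorem eq_main : EQ_Stmt :=
  EQ_thm loc_main (IND_thm MGF_thm) (EXPM_thm zb_main (tr K1H.k1h) hg) lapc_main arm_main zb_main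

/-- The area law of self-avoiding polygons with fixed span. -/
theorem fs_main : FINAL_FS_Stmt := main_of (CLS_thm eq_main loc_main arm_main zb_main)

end Pool.Agent.FS
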