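import Pool.Agent.Lib_helper74.FS.Stmts

/-!
# Polygons with fixed span (MP_f6626d_co): module BIN, local estimates for the binomial weights
-/

set_option autoImplicit false

namespace Pool.Agent.FS

open Finset Filter Topology MeasureTheory

namespace BIN

/-- binomial weights -/
noncomputable def be (k : ℕ) (p : ℝ) (n : ℕ) : ℝ :=
  (k.choose n : ℝ) * p ^ n * (1 - p) ^ (k - n)

lemma bp_nat (k : ℕ) (p : ℝ) (n : ℕ) : bp k p (n : ℤ) = be k p n := by
  unfold bp be
  by_cases h : n ≤ k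
  · rw [if_pos ⟨by positivity, by exact_mod_cast h⟩, Int.toNat_natCast]
  · rw [if_neg (by rintro ⟨_, h2⟩; exact h (by exact_mod_cast h2)),
      Nat.choose_eq_zero_of_lt (by omega)]
    simp

lemma bp_neg (k : ℕ) (p : ℝ) (j : ℤ) (h : j < 0) : bp k p j = 0 := by
  unfold bp
  exact if_neg (by omega)

lemma bp_nonneg (k : ℕ) (p : ℝ) (j : ℤ) (h0 : 0 ≤ p) (h1 : p ≤ 1) : 0 ≤ bp k p j := by
  unfold bp
  have h2 : 0 ≤ 1 - p := by linarith
  split_ifs <;> positivity

/-! ### the Fourier integral -/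

lemma int_exp (n : ℤ) : ∫ t in (-Real.pi)..Real.pi, Complex.exp ((n : ℂ) * Complex.I * t) =
    if n = 0 then 2 * (Real.pi : ℂ) else 0 := by
  by_cases hn : n = 0
  · subst hn
    rw [if_pos rfl]
    simp only [Int.cast_zero, zero_mul, Complex.exp_zero]
    rw [intervalIntegral.integral_const]
    simp only [sub_neg_eq_add, Complex.real_smul, mul_one]
    push_cast
    ring
  · rw [if_neg hn]
    have hc : (n : ℂ) * Complex.I ≠ 0 := mul_ne_zero (by exact_mod_cast hn) Complex.I_ne_zero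
    rw [integral_exp_mul_complex hc]
    have h1 : (n : ℂ) * Complex.I * (Real.pi : ℝ) =
        (n : ℂ) * Complex.I * ((-Real.pi : ℝ) : ℂ) + n * (2 * Real.pi * Complex.I) := by
      push_cast
      ring
    rw [h1, Complex.exp_add, Complex.exp_int_mul_two_pi_mul_I, mul_one, sub_self, zero_div]

/-- the Fourier kernel -/
noncomputable def ker (k : ℕ) (p : ℝ) (j : ℤ) (t : ℝ) : ℂ :=
  ((1 - p : ℂ) + p * Complex.exp (Complex.I * t)) ^ k * Complex.exp ((-(j : ℤ) : ℂ) * Complex.I * t)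

lemma ker_cont (k : ℕ) (p : ℝ) (j : ℤ) : Continuous (ker k p j) := by
  unfold ker
  fun_prop

lemma four (k : ℕ) (p : ℝ) (j : ℤ) :
    ∫ t in (-Real.pi)..Real.pi, ker k p j t = 2 * (Real.pi : ℂ) * (bp k p j : ℝ) := by
  have h1 : ∀ t : ℝ, ker k p j t = ∑ m ∈ range (k + 1),
      ((be k p m : ℝ) : ℂ) * Complex.exp (((m : ℤ) - j : ℤ) * Complex.I * t) := by
    intro t
    unfold ker
    rw [add_comm (1 - p : ℂ), add_pow, Finset.sum_mul]
    refine Finset.sum_congr rfl fun m _ => ?_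
    have h2 : Complex.exp ((((m : ℤ) - j : ℤ) : ℂ) * Complex.I * t) =
        Complex.exp (Complex.I * t) ^ m * Complex.exp ((-(j : ℤ) : ℂ) * Complex.I * t) := by
      rw [← Complex.exp_nat_mul, ← Complex.exp_add]
      congr 1
      push_cast
      ring
    rw [h2, mul_pow]
    unfold be
    push_cast
    ring
  simp only [h1]
  rw [intervalIntegral.integral_finsetSum (fun m _ => by
    apply Continuous.intervalIntegrable
    fun_prop)]
  have h3 : ∀ m ∈ range (k + 1), ∫ t in (-Real.pi)..Real.pi,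
      ((be k p m : ℝ) : ℂ) * Complex.exp (((m : ℤ) - j : ℤ) * Complex.I * t) =
      if (m : ℤ) = j then 2 * (Real.pi : ℂ) * (be k p m : ℝ) else 0 := by
    intro m _
    rw [intervalIntegral.integral_const_mul, int_exp]
    by_cases h : (m : ℤ) = j
    · rw [if_pos h, if_pos (by omega)]
      ring
    · rw [if_neg h, if_neg (by omega), mul_zero]
  rw [Finset.sum_congr rfl h3]
  by_cases hj : 0 ≤ j ∧ j ≤ k
  · obtain ⟨n, rfl⟩ := Int.eq_ofNat_of_zero_le hj.1
    rw [Finset.sum_eq_single n]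
    · rw [if_pos rfl, bp_nat]
    · intro m _ hm
      rw [if_neg (by intro h; exact hm (by exact_mod_cast h))]
    · intro h
      exact absurd (Finset.mem_range.mpr (by omega)) h
  · have h4 : bp k p j = 0 := if_neg hj
    rw [h4, Finset.sum_eq_zero]
    · simp
    · intro m hm
      rw [Finset.mem_range] at hm
      rw [if_neg (by omega)]

lemma norm_base (p t : ℝ) (hp0 : 0 ≤ p) (hp1 : p ≤ 1) (ht : |t| ≤ Real.pi) :
    ‖(1 - p : ℂ) + p * Complex.exp (Complex.I * t)‖ ≤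
      Real.exp (-(2 * p * (1 - p) / Real.pi ^ 2) * t ^ 2) := by
  have h1 : ‖(1 - p : ℂ) + p * Complex.exp (Complex.I * t)‖ ^ 2 =
      1 - 2 * p * (1 - p) * (1 - Real.cos t) := by
    rw [← Complex.normSq_eq_norm_sq, Complex.normSq_apply]
    have h2 : ((1 - p : ℂ) + p * Complex.exp (Complex.I * t)).re = 1 - p + p * Real.cos t := by
      rw [mul_comm Complex.I, Complex.exp_mul_I]
      simp [← Complex.ofReal_cos, ← Complex.ofReal_sin]
    have h3 : ((1 - p : ℂ) + p * Complex.exp (Complex.I * t)).im = p * Real.sin t := by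
      rw [mul_comm Complex.I, Complex.exp_mul_I]
      simp [← Complex.ofReal_cos, ← Complex.ofReal_sin]
    rw [h2, h3]
    linear_combination p ^ 2 * Real.sin_sq_add_cos_sq t
  have h4 := Real.cos_le_one_sub_mul_cos_sq ht
  have h5 : ‖(1 - p : ℂ) + p * Complex.exp (Complex.I * t)‖ ^ 2 ≤
      Real.exp (-(2 * p * (1 - p) / Real.pi ^ 2) * t ^ 2) ^ 2 := by
    rw [h1, ← Real.exp_nat_mul]
    refine le_trans ?_ (Real.add_one_le_exp _)
    have h6 : 0 ≤ p * (1 - p) := mul_nonneg hp0 (by linarith)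
    have h7 : 2 / Real.pi ^ 2 * t ^ 2 ≤ 1 - Real.cos t := by linarith
    have h8 := mul_le_mul_of_nonneg_left h7 h6
    have h9 : ((2 : ℕ) : ℝ) * (-(2 * p * (1 - p) / Real.pi ^ 2) * t ^ 2) =
        - (2 * (p * (1 - p) * (2 / Real.pi ^ 2 * t ^ 2))) := by
      push_cast
      ring
    rw [h9]
    linarith
  exact (pow_le_pow_iff_left₀ (norm_nonneg _) (Real.exp_pos _).le two_ne_zero).mp h5

lemma norm_ker (k : ℕ) (p b t : ℝ) (j : ℤ) (hp0 : 0 ≤ p) (hp1 : p ≤ 1)
    (hb : b ≤ 2 * p * (1 - p) / Real.pi ^ 2) (ht : |t| ≤ Real.pi) :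
    ‖ker k p j t‖ ≤ Real.exp (-(b * k) * t ^ 2) := by
  unfold ker
  rw [norm_mul, norm_pow]
  have h1 : ‖Complex.exp ((-(j : ℤ) : ℂ) * Complex.I * t)‖ = 1 := by
    have h2 : (-(j : ℤ) : ℂ) * Complex.I * t = Complex.I * ((-(j : ℝ) * t : ℝ) : ℂ) := by
      push_cast
      ring
    rw [h2, Complex.norm_exp_I_mul_ofReal]
  rw [h1, mul_one]
  have h3 := norm_base p t hp0 hp1 ht
  have h4 : Real.exp (-(2 * p * (1 - p) / Real.pi ^ 2) * t ^ 2) ≤ Real.exp (-b * t ^ 2) := by
    apply Real.exp_le_exp.mpr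
    nlinarith [sq_nonneg t]
  calc ‖(1 - p : ℂ) + p * Complex.exp (Complex.I * t)‖ ^ k
      ≤ (Real.exp (-b * t ^ 2)) ^ k := pow_le_pow_left₀ (norm_nonneg _) (h3.trans h4) k
    _ = Real.exp (-(b * k) * t ^ 2) := by
        rw [← Real.exp_nat_mul]
        congr 1
        ring

lemma gauss_le (a : ℝ) (ha : 0 < a) :
    ∫ t in (-Real.pi)..Real.pi, Real.exp (-a * t ^ 2) ≤ Real.sqrt (Real.pi / a) := by
  rw [← integral_gaussian a, intervalIntegral.integral_of_le (by linarith [Real.pi_pos])]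
  exact setIntegral_le_integral (integrable_exp_neg_mul_sq ha)
    (Eventually.of_forall fun t => (Real.exp_pos _).le)

lemma mul_exp_le (a t : ℝ) (ha : 0 < a) :
    |t| * Real.exp (-a * t ^ 2) ≤ (1 / Real.sqrt a) * Real.exp (-(a / 2) * t ^ 2) := by
  have hs : 0 < Real.sqrt a := Real.sqrt_pos.mpr ha
  have hss : Real.sqrt a ^ 2 = a := Real.sq_sqrt ha.le
  have h1 : Real.sqrt a * |t| ≤ Real.exp ((a / 2) * t ^ 2) := by
    refine le_trans ?_ (Real.add_one_le_exp _)
    have h2 : (a / 2) * t ^ 2 = (Real.sqrt a * |t|) ^ 2 / 2 := by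
      rw [mul_pow, hss, sq_abs]
      ring
    rw [h2]
    nlinarith [sq_nonneg (Real.sqrt a * |t| - 1)]
  have h3 : Real.exp (-a * t ^ 2) = Real.exp (-(a / 2) * t ^ 2) * Real.exp (-(a / 2) * t ^ 2) := by
    rw [← Real.exp_add]
    congr 1
    ring
  have h4 : Real.exp ((a / 2) * t ^ 2) * Real.exp (-(a / 2) * t ^ 2) = 1 := by
    rw [← Real.exp_add]
    ring_nf
    exact Real.exp_zero
  have h5 : |t| ≤ Real.exp ((a / 2) * t ^ 2) / Real.sqrt a := by
    rw [le_div_iff₀ hs]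
    linarith
  have he : 0 < Real.exp (-(a / 2) * t ^ 2) := Real.exp_pos _
  calc |t| * Real.exp (-a * t ^ 2)
      ≤ Real.exp ((a / 2) * t ^ 2) / Real.sqrt a *
        (Real.exp (-(a / 2) * t ^ 2) * Real.exp (-(a / 2) * t ^ 2)) := by
        rw [h3]
        exact mul_le_mul_of_nonneg_right h5 (mul_pos he he).le
    _ = (Real.exp ((a / 2) * t ^ 2) * Real.exp (-(a / 2) * t ^ 2)) / Real.sqrt a *
        Real.exp (-(a / 2) * t ^ 2) := by ring
    _ = _ := by rw [h4]

lemma gauss1_le (a : ℝ) (ha : 0 < a) :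
    ∫ t in (-Real.pi)..Real.pi, |t| * Real.exp (-a * t ^ 2) ≤ Real.sqrt (2 * Real.pi) / a := by
  have h1 : ∫ t in (-Real.pi)..Real.pi, |t| * Real.exp (-a * t ^ 2) ≤
      ∫ t in (-Real.pi)..Real.pi, (1 / Real.sqrt a) * Real.exp (-(a / 2) * t ^ 2) := by
    apply intervalIntegral.integral_mono_on (by linarith [Real.pi_pos])
    · apply Continuous.intervalIntegrable
      fun_prop
    · apply Continuous.intervalIntegrable
      fun_prop
    · intro t _
      exact mul_exp_le a t ha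
  refine h1.trans ?_
  rw [intervalIntegral.integral_const_mul]
  have h2 := gauss_le (a / 2) (by positivity)
  have hs : 0 < Real.sqrt a := Real.sqrt_pos.mpr ha
  calc (1 / Real.sqrt a) * ∫ t in (-Real.pi)..Real.pi, Real.exp (-(a / 2) * t ^ 2)
      ≤ (1 / Real.sqrt a) * Real.sqrt (Real.pi / (a / 2)) :=
        mul_le_mul_of_nonneg_left h2 (by positivity)
    _ = Real.sqrt (2 * Real.pi) / a := by
        have h3 : Real.pi / (a / 2) = (2 * Real.pi) / a := by field_simp
        rw [h3, Real.sqrt_div (by positivity)]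
        have hss : Real.sqrt a * Real.sqrt a = a := Real.mul_self_sqrt ha.le
        rw [div_mul_div_comm, one_mul, hss]

/-- first estimate -/
lemma bp_le (k : ℕ) (p b : ℝ) (j : ℤ) (hp0 : 0 ≤ p) (hp1 : p ≤ 1) (hb0 : 0 < b)
    (hb : b ≤ 2 * p * (1 - p) / Real.pi ^ 2) (hk : 1 ≤ k) :
    bp k p j ≤ (1 / Real.sqrt b) / Real.sqrt k := by
  have hk' : (0 : ℝ) < k := by exact_mod_cast hk
  have hpi : (0 : ℝ) ≤ Real.pi := Real.pi_pos.le
  have h1 : ‖∫ t in (-Real.pi)..Real.pi, ker k p j t‖ ≤ Real.sqrt (Real.pi / (b * k)) := by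
    refine (intervalIntegral.norm_integral_le_of_norm_le (by linarith)
      (Eventually.of_forall fun t ht => ?_) (g := fun t => Real.exp (-(b * k) * t ^ 2)) ?_).trans
      (gauss_le (b * k) (by positivity))
    · exact norm_ker k p b t j hp0 hp1 hb (abs_le.mpr ⟨ht.1.le, ht.2⟩)
    · apply Continuous.intervalIntegrable
      fun_prop
  rw [four, norm_mul, norm_mul, Complex.norm_real, Complex.norm_real, Complex.norm_ofNat,
    Real.norm_of_nonneg hpi, Real.norm_of_nonneg (bp_nonneg k p j hp0 hp1)] at h1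
  have h2 : Real.sqrt (Real.pi / (b * k)) = Real.sqrt Real.pi * ((1 / Real.sqrt b) / Real.sqrt k) := by
    rw [Real.sqrt_div hpi, Real.sqrt_mul hb0.le]
    field_simp
  rw [h2] at h1
  have h3 : Real.sqrt Real.pi ≤ 2 * Real.pi := by
    have h4 : Real.sqrt Real.pi ^ 2 = Real.pi := Real.sq_sqrt hpi
    nlinarith [Real.sqrt_nonneg Real.pi, Real.pi_gt_three, sq_nonneg (Real.sqrt Real.pi - 1)]
  have h5 : 0 ≤ (1 / Real.sqrt b) / Real.sqrt k := by positivity
  have h6 : 2 * Real.pi * bp k p j ≤ 2 * Real.pi * ((1 / Real.sqrt b) / Real.sqrt k) :=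
    h1.trans (mul_le_mul_of_nonneg_right h3 h5)
  exact le_of_mul_le_mul_left h6 (by positivity)

/-- second estimate -/
lemma bp_diff (k : ℕ) (p b : ℝ) (j : ℤ) (hp0 : 0 ≤ p) (hp1 : p ≤ 1) (hb0 : 0 < b)
    (hb : b ≤ 2 * p * (1 - p) / Real.pi ^ 2) (hk : 1 ≤ k) :
    |bp k p (j + 1) - bp k p j| ≤ (1 / b) / k := by
  have hk' : (0 : ℝ) < k := by exact_mod_cast hk
  have hpi : (0 : ℝ) ≤ Real.pi := Real.pi_pos.le
  have h0 : 2 * (Real.pi : ℂ) * ((bp k p (j + 1) - bp k p j : ℝ) : ℂ) =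
      ∫ t in (-Real.pi)..Real.pi, (ker k p (j + 1) t - ker k p j t) := by
    rw [intervalIntegral.integral_sub ((ker_cont k p (j + 1)).intervalIntegrable _ _)
      ((ker_cont k p j).intervalIntegrable _ _), four, four]
    push_cast
    ring
  have h1 : ‖∫ t in (-Real.pi)..Real.pi, (ker k p (j + 1) t - ker k p j t)‖ ≤
      Real.sqrt (2 * Real.pi) / (b * k) := by
    refine (intervalIntegral.norm_integral_le_of_norm_le (by linarith)
      (Eventually.of_forall fun t ht => ?_)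
      (g := fun t => |t| * Real.exp (-(b * k) * t ^ 2)) ?_).trans
      (gauss1_le (b * k) (by positivity))
    · have h2 : ker k p (j + 1) t - ker k p j t =
          (Complex.exp (Complex.I * ((-t : ℝ) : ℂ)) - 1) * ker k p j t := by
        unfold ker
        have h3 : Complex.exp ((-((j + 1 : ℤ) : ℤ) : ℂ) * Complex.I * t) =
            Complex.exp (Complex.I * ((-t : ℝ) : ℂ)) *
              Complex.exp ((-(j : ℤ) : ℂ) * Complex.I * t) := by
          rw [← Complex.exp_add]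
          congr 1
          push_cast
          ring
        rw [h3]
        ring
      rw [h2, norm_mul]
      have h4 : ‖Complex.exp (Complex.I * ((-t : ℝ) : ℂ)) - 1‖ ≤ |t| := by
        have := Real.norm_exp_I_mul_ofReal_sub_one_le (x := -t)
        rwa [norm_neg, Real.norm_eq_abs] at this
      exact mul_le_mul h4 (norm_ker k p b t j hp0 hp1 hb (abs_le.mpr ⟨ht.1.le, ht.2⟩))
        (norm_nonneg _) (abs_nonneg _)
    · apply Continuous.intervalIntegrable
      fun_prop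
  rw [← h0, norm_mul, norm_mul, Complex.norm_real, Complex.norm_real, Complex.norm_ofNat,
    Real.norm_of_nonneg hpi, Real.norm_eq_abs] at h1
  have h3 : Real.sqrt (2 * Real.pi) ≤ 2 * Real.pi := by
    have h4 : Real.sqrt (2 * Real.pi) ^ 2 = 2 * Real.pi := Real.sq_sqrt (by positivity)
    nlinarith [Real.sqrt_nonneg (2 * Real.pi), Real.pi_gt_three,
      sq_nonneg (Real.sqrt (2 * Real.pi) - 1)]
  have h5 : Real.sqrt (2 * Real.pi) / (b * k) ≤ 2 * Real.pi * ((1 / b) / k) := by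
    have h6 : 2 * Real.pi * ((1 / b) / k) = (2 * Real.pi) / (b * k) := by field_simp
    rw [h6]
    gcongr
  exact le_of_mul_le_mul_left (h1.trans h5) (by positivity)

/-- the identity behind the third estimate -/
lemma be_id (K n : ℕ) (p : ℝ) :
    ((n + 1 : ℕ) - p * (K + 1 : ℕ)) * be (K + 1) p (n + 1) =
      p * (1 - p) * (K + 1 : ℕ) * (be K p n - be K p (n + 1)) := by
  have h1 : ((n + 1 : ℕ) : ℝ) * be (K + 1) p (n + 1) = (K + 1 : ℕ) * p * be K p n := by
    unfold be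
    have h2 : ((K + 1 : ℕ) : ℝ) * (K.choose n : ℝ) =
        ((K + 1).choose (n + 1) : ℝ) * ((n + 1 : ℕ) : ℝ) := by
      exact_mod_cast Nat.add_one_mul_choose_eq K n
    rw [Nat.add_sub_add_right, pow_succ]
    linear_combination (-(p ^ n * p * (1 - p) ^ (K - n))) * h2
  have h3 : be (K + 1) p (n + 1) = p * be K p n + (1 - p) * be K p (n + 1) := by
    unfold be
    rw [Nat.choose_succ_succ, Nat.add_sub_add_right]
    by_cases h : n + 1 ≤ K
    · have h4 : K - n = (K - (n + 1)) + 1 := by omega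
      rw [h4, pow_succ, pow_succ]
      push_cast
      ring
    · rw [Nat.choose_eq_zero_of_lt (by omega : K < n + 1)]
      push_cast
      ring
  have h5 : p * ((K + 1 : ℕ) : ℝ) * be (K + 1) p (n + 1) =
      p * ((K + 1 : ℕ) : ℝ) * (p * be K p n + (1 - p) * be K p (n + 1)) := by rw [← h3]
  linear_combination h1 - h5

lemma bp_id (K : ℕ) (p : ℝ) (j : ℤ) :
    ((j : ℝ) - p * (K + 1 : ℕ)) * bp (K + 1) p j =
      p * (1 - p) * (K + 1 : ℕ) * (bp K p (j - 1) - bp K p j) := by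
  rcases lt_trichotomy j 0 with h | h | h
  · rw [bp_neg _ _ _ h, bp_neg _ _ _ h, bp_neg _ _ _ (by omega : j - 1 < 0)]
    ring
  · subst h
    rw [bp_neg K p (0 - 1) (by omega)]
    have h1 : bp (K + 1) p 0 = (1 - p) ^ (K + 1) := by
      have := bp_nat (K + 1) p 0
      rw [Nat.cast_zero] at this
      rw [this]
      unfold be
      simp
    have h2 : bp K p 0 = (1 - p) ^ K := by
      have := bp_nat K p 0
      rw [Nat.cast_zero] at this
      rw [this]
      unfold be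
      simp
    rw [h1, h2, pow_succ]
    push_cast
    ring
  · obtain ⟨n, rfl⟩ : ∃ n : ℕ, j = (n : ℤ) + 1 := ⟨(j - 1).toNat, by omega⟩
    have h1 : ((n : ℤ) + 1) = ((n + 1 : ℕ) : ℤ) := by push_cast; ring
    have h2 : ((n : ℤ) + 1 - 1) = (n : ℤ) := by ring
    rw [h2, h1, bp_nat, bp_nat, bp_nat]
    have h3 := be_id K n p
    push_cast at h3 ⊢
    linarith

lemma bp_zero_le (p : ℝ) (i : ℤ) : |bp 0 p i| ≤ 1 := by
  unfold bp
  split_ifs with h
  · have : i = 0 := by
      have := h.1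
      have := h.2
      push_cast at this
      omega
    subst this
    simp
  · simp

/-- third estimate -/
lemma bp_mom (k : ℕ) (p b : ℝ) (j : ℤ) (hp0 : 0 ≤ p) (hp1 : p ≤ 1) (hb0 : 0 < b)
    (hb : b ≤ 2 * p * (1 - p) / Real.pi ^ 2) (hk : 1 ≤ k) :
    bp k p j * |(j : ℝ) - p * k| ≤ 2 / b + 2 := by
  obtain ⟨K, rfl⟩ : ∃ K, k = K + 1 := ⟨k - 1, by omega⟩
  have h1 : bp (K + 1) p j * |(j : ℝ) - p * (K + 1 : ℕ)| =
      p * (1 - p) * (K + 1 : ℕ) * |bp K p (j - 1) - bp K p j| := by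
    have h2 := congrArg (fun x => |x|) (bp_id K p j)
    simp only [abs_mul] at h2
    rw [abs_of_nonneg (bp_nonneg _ p j hp0 hp1), abs_of_nonneg hp0,
      abs_of_nonneg (by linarith : (0 : ℝ) ≤ 1 - p), Nat.abs_cast] at h2
    linarith
  rw [h1]
  have hq : p * (1 - p) ≤ 1 := by nlinarith
  have hq0 : 0 ≤ p * (1 - p) := mul_nonneg hp0 (by linarith)
  rcases Nat.eq_zero_or_pos K with hK | hK
  · subst hK
    have h3 : |bp 0 p (j - 1) - bp 0 p j| ≤ 2 := by
      have h4 := bp_zero_le p (j - 1)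
      have h5 := bp_zero_le p j
      calc |bp 0 p (j - 1) - bp 0 p j| ≤ |bp 0 p (j - 1)| + |bp 0 p j| := abs_sub _ _
        _ ≤ 2 := by linarith
    have h6 : 0 < 2 / b := by positivity
    push_cast
    nlinarith [abs_nonneg (bp 0 p (j - 1) - bp 0 p j)]
  · have h3 := bp_diff K p b (j - 1) hp0 hp1 hb0 hb hK
    rw [sub_add_cancel, abs_sub_comm] at h3
    have hK' : (1 : ℝ) ≤ K := by exact_mod_cast hK
    have h4 : ((K + 1 : ℕ) : ℝ) * ((1 / b) / K) ≤ 2 / b := by
      push_cast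
      rw [div_div, mul_one_div, div_le_div_iff₀ (by positivity) hb0]
      nlinarith
    calc p * (1 - p) * (K + 1 : ℕ) * |bp K p (j - 1) - bp K p j|
        ≤ 1 * (K + 1 : ℕ) * ((1 / b) / K) := by
          refine mul_le_mul (mul_le_mul_of_nonneg_right hq (by positivity)) h3 (abs_nonneg _)
            (by positivity)
      _ ≤ 2 / b + 2 := by
          rw [one_mul]
          linarith

/-! ### the lower bound -/

lemma fac_le (n : ℕ) (hn : n ≠ 0) :
    (n.factorial : ℝ) ≤ Real.exp 1 * Real.sqrt n * ((n : ℝ) / Real.exp 1) ^ n := by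
  obtain ⟨m, rfl⟩ := Nat.exists_eq_succ_of_ne_zero hn
  have h1 : Stirling.stirlingSeq (m + 1) ≤ Stirling.stirlingSeq 1 :=
    Stirling.stirlingSeq'_antitone (Nat.zero_le m)
  rw [Stirling.stirlingSeq_one] at h1
  unfold Stirling.stirlingSeq at h1
  have hpos : 0 < Real.sqrt (2 * ((m + 1 : ℕ) : ℝ)) * (((m + 1 : ℕ) : ℝ) / Real.exp 1) ^ (m + 1) := by
    positivity
  rw [div_le_iff₀ hpos] at h1
  refine h1.trans (le_of_eq ?_)
  rw [Real.sqrt_mul (by norm_num)]
  have h2 : Real.sqrt 2 ≠ 0 := by positivity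
  field_simp

lemma choose_ge (j i : ℕ) (hj : j ≠ 0) (hi : i ≠ 0) :
    Real.sqrt (2 * Real.pi) / (Real.exp 1 ^ 2) *
      (Real.sqrt ((j + i : ℕ) : ℝ) / (Real.sqrt j * Real.sqrt i)) *
      (((j + i : ℕ) : ℝ) ^ (j + i) / ((j : ℝ) ^ j * (i : ℝ) ^ i)) ≤ ((j + i).choose j : ℝ) := by
  have h1 := Stirling.le_factorial_stirling (j + i)
  have h2 := fac_le j hj
  have h3 := fac_le i hi
  have hj' : (0 : ℝ) < j := by exact_mod_cast Nat.pos_of_ne_zero hj
  have hi' : (0 : ℝ) < i := by exact_mod_cast Nat.pos_of_ne_zero hi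
  have h4 : (((j + i).choose j : ℕ) : ℝ) * ((j.factorial : ℝ) * (i.factorial : ℝ)) =
      ((j + i).factorial : ℝ) := by
    have := Nat.choose_mul_factorial_mul_factorial (Nat.le_add_right j i)
    rw [Nat.add_sub_cancel_left] at this
    rw [← mul_assoc]
    exact_mod_cast this
  have h5 : (0 : ℝ) < (j.factorial : ℝ) * (i.factorial : ℝ) := by positivity
  have h6 : ((j + i).choose j : ℝ) = ((j + i).factorial : ℝ) / ((j.factorial : ℝ) * (i.factorial : ℝ)) := by
    rw [eq_div_iff h5.ne', h4]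
  rw [h6, le_div_iff₀ h5]
  have h7 : (j.factorial : ℝ) * (i.factorial : ℝ) ≤
      (Real.exp 1 * Real.sqrt j * ((j : ℝ) / Real.exp 1) ^ j) *
        (Real.exp 1 * Real.sqrt i * ((i : ℝ) / Real.exp 1) ^ i) :=
    mul_le_mul h2 h3 (by positivity) (by positivity)
  refine le_trans (mul_le_mul_of_nonneg_left h7 (by positivity)) ?_
  refine le_trans (le_of_eq ?_) h1
  have e1 : Real.sqrt (2 * Real.pi * ((j + i : ℕ) : ℝ)) =
      Real.sqrt (2 * Real.pi) * Real.sqrt ((j + i : ℕ) : ℝ) := Real.sqrt_mul (by positivity) _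
  rw [e1, div_pow, div_pow, div_pow, pow_add (Real.exp 1)]
  have hsj : Real.sqrt j ≠ 0 := by positivity
  have hsi : Real.sqrt i ≠ 0 := by positivity
  have hjj : (j : ℝ) ^ j ≠ 0 := by positivity
  have hii : (i : ℝ) ^ i ≠ 0 := by positivity
  have he : Real.exp 1 ≠ 0 := (Real.exp_pos 1).ne'
  field_simp

lemma pow_ge (x : ℝ) (hx : 0 < x) (n : ℕ) : Real.exp ((n : ℝ) * (1 - x⁻¹)) ≤ x ^ n := by
  have h1 : x ^ n = Real.exp ((n : ℝ) * Real.log x) := by
    rw [Real.exp_nat_mul, Real.exp_log hx]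
  rw [h1]
  exact Real.exp_le_exp.mpr (mul_le_mul_of_nonneg_left (Real.one_sub_inv_le_log_of_pos hx)
    (by positivity))

lemma be_ge (j i : ℕ) (p : ℝ) (hj : j ≠ 0) (hi : i ≠ 0) (hp0 : 0 < p) (hp1 : p < 1) :
    (2 / (Real.exp 1 ^ 2)) / Real.sqrt ((j + i : ℕ) : ℝ) *
      Real.exp (-(((j : ℝ) - p * (j + i : ℕ)) ^ 2 / (p * (1 - p) * (j + i : ℕ)))) ≤
      be (j + i) p j := by
  have hj' : (0 : ℝ) < j := by exact_mod_cast Nat.pos_of_ne_zero hj
  have hi' : (0 : ℝ) < i := by exact_mod_cast Nat.pos_of_ne_zero hi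
  have hq : 0 < 1 - p := by linarith
  set k : ℝ := ((j + i : ℕ) : ℝ) with hk
  have hkk : k = (j : ℝ) + i := by rw [hk]; push_cast; ring
  have hk0 : 0 < k := by rw [hkk]; positivity
  unfold be
  rw [Nat.add_sub_cancel_left]
  have h1 := choose_ge j i hj hi
  rw [← hk] at h1
  have h2 : Real.exp (-(((j : ℝ) - p * k) ^ 2 / (p * (1 - p) * k))) ≤
      (p * k / j) ^ j * ((1 - p) * k / i) ^ i := by
    have h3 := pow_ge (p * k / j) (by positivity) j
    have h4 := pow_ge ((1 - p) * k / i) (by positivity) i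
    refine le_trans (le_of_eq ?_) (mul_le_mul h3 h4 (Real.exp_pos _).le (by positivity))
    rw [← Real.exp_add]
    congr 1
    have hi2 : (i : ℝ) = k - j := by rw [hkk]; ring
    rw [inv_div, inv_div]
    field_simp
    rw [hi2]
    ring
  have h5 : (p * k / j) ^ j * ((1 - p) * k / i) ^ i =
      (k ^ (j + i) / ((j : ℝ) ^ j * (i : ℝ) ^ i)) * (p ^ j * (1 - p) ^ i) := by
    rw [div_pow, div_pow, mul_pow, mul_pow, pow_add]
    field_simp
  have h6 : (2 / (Real.exp 1 ^ 2)) / Real.sqrt k ≤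
      Real.sqrt (2 * Real.pi) / (Real.exp 1 ^ 2) * (Real.sqrt k / (Real.sqrt j * Real.sqrt i)) := by
    have hsk : 0 < Real.sqrt k := Real.sqrt_pos.mpr hk0
    have hsj : 0 < Real.sqrt j := Real.sqrt_pos.mpr hj'
    have hsi : 0 < Real.sqrt i := Real.sqrt_pos.mpr hi'
    have h7 : (2 : ℝ) ≤ Real.sqrt (2 * Real.pi) := by
      apply Real.le_sqrt_of_sq_le
      nlinarith [Real.pi_gt_three]
    have h8 : 1 / Real.sqrt k ≤ Real.sqrt k / (Real.sqrt j * Real.sqrt i) := by
      rw [div_le_div_iff₀ hsk (by positivity), one_mul, Real.mul_self_sqrt hk0.le, hkk]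
      have e1 : Real.sqrt j ^ 2 = j := Real.sq_sqrt hj'.le
      have e2 : Real.sqrt i ^ 2 = i := Real.sq_sqrt hi'.le
      nlinarith [sq_nonneg (Real.sqrt j - Real.sqrt i)]
    calc (2 / (Real.exp 1 ^ 2)) / Real.sqrt k = (2 / (Real.exp 1 ^ 2)) * (1 / Real.sqrt k) := by
          ring
      _ ≤ _ := by
        refine mul_le_mul ?_ h8 (by positivity) (by positivity)
        gcongr
  calc (2 / (Real.exp 1 ^ 2)) / Real.sqrt k *
        Real.exp (-(((j : ℝ) - p * k) ^ 2 / (p * (1 - p) * k)))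
      ≤ (Real.sqrt (2 * Real.pi) / (Real.exp 1 ^ 2) *
          (Real.sqrt k / (Real.sqrt j * Real.sqrt i))) *
        ((k ^ (j + i) / ((j : ℝ) ^ j * (i : ℝ) ^ i)) * (p ^ j * (1 - p) ^ i)) := by
        rw [← h5]
        exact mul_le_mul h6 h2 (Real.exp_pos _).le (by positivity)
    _ = (Real.sqrt (2 * Real.pi) / (Real.exp 1 ^ 2) *
          (Real.sqrt k / (Real.sqrt j * Real.sqrt i)) *
          (k ^ (j + i) / ((j : ℝ) ^ j * (i : ℝ) ^ i))) * (p ^ j * (1 - p) ^ i) := by ring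
    _ ≤ ((j + i).choose j : ℝ) * (p ^ j * (1 - p) ^ i) :=
        mul_le_mul_of_nonneg_right h1 (by positivity)
    _ = _ := by ring

end BIN

theorem BIN_thm : BIN_Stmt := by
  intro p0 p1 hp0 hp01 hp1
  have hpi : 0 < Real.pi := Real.pi_pos
  have hq1 : 0 < 1 - p1 := by linarith
  set b : ℝ := 2 * p0 * (1 - p1) / Real.pi ^ 2 with hb
  have hb0 : 0 < b := by positivity
  have hbp : ∀ p : ℝ, p0 ≤ p → p ≤ p1 → b ≤ 2 * p * (1 - p) / Real.pi ^ 2 := by
    intro p h1 h2
    rw [hb]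
    have : p0 * (1 - p1) ≤ p * (1 - p) := mul_le_mul h1 (by linarith) hq1.le (by linarith)
    gcongr
    linarith
  refine ⟨⟨1 / Real.sqrt b + 1 / b + (2 / b + 2), by positivity, ?_⟩, ?_⟩
  · intro p h1 h2 k j hk
    have hk' : (1 : ℝ) ≤ k := by exact_mod_cast hk
    have hk0 : (0 : ℝ) < k := by linarith
    have hpp0 : 0 ≤ p := by linarith
    have hpp1 : p ≤ 1 := by linarith
    have hB := hbp p h1 h2
    have e1 : 0 < 1 / Real.sqrt b := by positivity
    have e2 : 0 < 1 / b := by positivity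
    have e3 : 0 < 2 / b + 2 := by positivity
    refine ⟨?_, ?_, ?_⟩
    · refine (BIN.bp_le k p b j hpp0 hpp1 hb0 hB hk).trans ?_
      gcongr
      linarith
    · refine (BIN.bp_diff k p b j hpp0 hpp1 hb0 hB hk).trans ?_
      gcongr
      linarith
    · refine (BIN.bp_mom k p b j hpp0 hpp1 hb0 hB hk).trans ?_
      linarith
  · intro R hR
    obtain ⟨k0, hk0⟩ := exists_nat_gt ((R / p0) ^ 2 + (R / (1 - p1)) ^ 2)
    refine ⟨(2 / (Real.exp 1 ^ 2)) * Real.exp (-(R ^ 2 / (p0 * (1 - p1)))), k0, by positivity, ?_⟩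
    intro p h1 h2 k j hk hj
    have hkk : (R / p0) ^ 2 + (R / (1 - p1)) ^ 2 < (k : ℝ) :=
      lt_of_lt_of_le hk0 (by exact_mod_cast hk)
    have hkpos : (0 : ℝ) < k := lt_of_le_of_lt (by positivity) hkk
    have hs : 0 < Real.sqrt k := Real.sqrt_pos.mpr hkpos
    have hss : Real.sqrt k * Real.sqrt k = k := Real.mul_self_sqrt hkpos.le
    have a1 : R < p0 * Real.sqrt k := by
      have : R / p0 < Real.sqrt k := by
        apply Real.lt_sqrt_of_sq_lt
        nlinarith [sq_nonneg (R / (1 - p1))]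
      rwa [div_lt_iff₀ hp0, mul_comm] at this
    have a2 : R < (1 - p1) * Real.sqrt k := by
      have : R / (1 - p1) < Real.sqrt k := by
        apply Real.lt_sqrt_of_sq_lt
        nlinarith [sq_nonneg (R / p0)]
      rwa [div_lt_iff₀ hq1, mul_comm] at this
    have a3 : R * Real.sqrt k < p0 * k := by
      have := mul_lt_mul_of_pos_right a1 hs
      rwa [mul_assoc, hss] at this
    have a4 : R * Real.sqrt k < (1 - p1) * k := by
      have := mul_lt_mul_of_pos_right a2 hs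
      rwa [mul_assoc, hss] at this
    have hjj := abs_le.mp hj
    have b1 : (0 : ℝ) < j := by nlinarith [hjj.1]
    have b2 : (j : ℝ) < k := by nlinarith [hjj.2]
    have c1 : 0 < j := by exact_mod_cast b1
    have c2 : j < k := by exact_mod_cast b2
    obtain ⟨n, rfl⟩ := Int.eq_ofNat_of_zero_le c1.le
    obtain ⟨i, rfl⟩ : ∃ i : ℕ, k = n + i := ⟨k - n, by omega⟩
    have d1 : n ≠ 0 := by omega
    have d2 : i ≠ 0 := by omega
    rw [BIN.bp_nat]
    have hmain := BIN.be_ge n i p d1 d2 (by linarith) (by linarith)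
    refine le_trans ?_ hmain
    have e1 : ((n : ℝ) - p * ((n + i : ℕ) : ℝ)) ^ 2 / (p * (1 - p) * ((n + i : ℕ) : ℝ)) ≤
        R ^ 2 / (p0 * (1 - p1)) := by
      have e2 : ((n : ℝ) - p * ((n + i : ℕ) : ℝ)) ^ 2 ≤ R ^ 2 * ((n + i : ℕ) : ℝ) := by
        have e3 : ((n : ℝ) - p * ((n + i : ℕ) : ℝ)) ^ 2 ≤
            (R * Real.sqrt ((n + i : ℕ) : ℝ)) ^ 2 := by
          rw [← sq_abs]
          refine pow_le_pow_left₀ (abs_nonneg _) ?_ 2
          exact_mod_cast hj
        rwa [mul_pow, Real.sq_sqrt hkpos.le] at e3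
      have e4 : p0 * (1 - p1) ≤ p * (1 - p) :=
        mul_le_mul h1 (by linarith) hq1.le (by linarith)
      have e5 : 0 < p * (1 - p) := lt_of_lt_of_le (by positivity) e4
      rw [div_le_div_iff₀ (by positivity) (by positivity)]
      have e6 : 0 ≤ R ^ 2 * ((n + i : ℕ) : ℝ) := by positivity
      calc ((n : ℝ) - p * ((n + i : ℕ) : ℝ)) ^ 2 * (p0 * (1 - p1))
          ≤ (R ^ 2 * ((n + i : ℕ) : ℝ)) * (p * (1 - p)) :=
            mul_le_mul e2 e4 (by positivity) e6
        _ = _ := by ring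
    have e7 : Real.exp (-(R ^ 2 / (p0 * (1 - p1)))) ≤
        Real.exp (-(((n : ℝ) - p * ((n + i : ℕ) : ℝ)) ^ 2 /
          (p * (1 - p) * ((n + i : ℕ) : ℝ)))) :=
      Real.exp_le_exp.mpr (by linarith)
    calc (2 / (Real.exp 1 ^ 2)) * Real.exp (-(R ^ 2 / (p0 * (1 - p1)))) /
          Real.sqrt ((n + i : ℕ) : ℝ)
        = (2 / (Real.exp 1 ^ 2)) / Real.sqrt ((n + i : ℕ) : ℝ) *
          Real.exp (-(R ^ 2 / (p0 * (1 - p1)))) := by ring
      _ ≤ _ := mul_le_mul_of_nonneg_left e7 (by positivity)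

end Pool.Agent.FS
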