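import Pool.Agent.Lib_helper74.FS.Stmts

/-!
Module FS_FINAL: the assembly.
-/

set_option autoImplicit false

namespace Pool.Agent.FS

open Finset Filter Topology MeasureTheory
open Pool.Agent.Lib27 Pool.Agent.SapR Pool.Agent.Gap Pool.Agent.AreaLaw Pool.Agent.FL

/-- the force theorem -/
def FORCE_Stmt (μ : Measure ℝ) : Prop := ∀ a : ℝ, 0 < a → ∀ f : ℕ → ℝ, (∀ n, a ≤ f n) →
  ∀ x : ℝ, μ {x} = 0 →
    Tendsto (fun n : ℕ => forceCdf (f n) n x) atTop (𝓝 (μ (Set.Iic x)).toReal)

lemma area_nonneg (n : ℕ) (s : Fin (2 * n) → Fin 4) : 0 ≤ area n s := by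
  unfold area
  positivity

lemma sc_nonneg (n : ℕ) : 0 ≤ sc n := by
  unfold sc
  positivity

lemma sc_pos {n : ℕ} (hn : 1 ≤ n) : 0 < sc n := by
  unfold sc
  have : (0 : ℝ) < n := by exact_mod_cast hn
  positivity

lemma forceZ_nonneg (f : ℝ) (n : ℕ) : 0 ≤ forceZ f n := by
  unfold forceZ
  exact Finset.sum_nonneg fun s _ => (Real.exp_pos _).le

open Classical in
/-- distribution function of a finite set in terms of the rescaled area -/
lemma areaCdf_eq (n : ℕ) (hn : 1 ≤ n) (F : Finset (Fin (2 * n) → Fin 4)) (hF : 0 < F.card)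
    (x : ℝ) : areaCdf n F x = ∑ y ∈ F.filter (fun y => 2 * area n y / sc n ≤
      x * ∑ z ∈ F, (1 / (F.card : ℝ)) * (2 * area n z / sc n)), (1 / (F.card : ℝ)) := by
  have hc : (0 : ℝ) < F.card := by exact_mod_cast hF
  have hs := sc_pos hn
  unfold areaCdf
  rw [Finset.sum_const, nsmul_eq_mul, mul_one_div]
  congr 2
  apply congrArg
  apply Finset.filter_congr
  intro s _
  have e1 : ∑ z ∈ F, (1 / (F.card : ℝ)) * (2 * area n z / sc n) =
      2 / (F.card * sc n) * ∑ z ∈ F, area n z := by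
    rw [Finset.mul_sum]
    refine Finset.sum_congr rfl fun z _ => ?_
    field_simp
  rw [e1]
  have e2 : x * (2 / (F.card * sc n) * ∑ z ∈ F, area n z) =
      (2 / (F.card * sc n)) * (x * ∑ z ∈ F, area n z) := by ring
  have e3 : 2 * area n s / sc n = (2 / (F.card * sc n)) * (area n s * F.card) := by
    field_simp
  rw [e2, e3]
  constructor
  · intro h
    exact mul_le_mul_of_nonneg_left h (by positivity)
  · intro h
    exact le_of_mul_le_mul_left h (by positivity)

open Classical in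
/-- the same for the force -/
lemma forceCdf_eq' (f : ℝ) (n : ℕ) (hn : 1 ≤ n) (hZ : 0 < forceZ f n) (x : ℝ) :
    forceCdf f n x = ∑ y ∈ (SAP n).filter (fun y => 2 * area n y / sc n ≤
      x * ∑ z ∈ SAP n, (Real.exp (f * span n z) / forceZ f n) * (2 * area n z / sc n)),
        Real.exp (f * span n y) / forceZ f n := by
  have hs := sc_pos hn
  unfold forceCdf
  rw [Finset.sum_div]
  apply Finset.sum_congr _ (fun _ _ => rfl)
  apply Finset.filter_congr
  intro s _
  have e1 : ∑ z ∈ SAP n, (Real.exp (f * span n z) / forceZ f n) * (2 * area n z / sc n) =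
      2 / (forceZ f n * sc n) * ∑ z ∈ SAP n, Real.exp (f * span n z) * area n z := by
    rw [Finset.mul_sum]
    refine Finset.sum_congr rfl fun z _ => ?_
    field_simp
  rw [e1]
  have e2 : x * (2 / (forceZ f n * sc n) * ∑ z ∈ SAP n, Real.exp (f * span n z) * area n z) =
      (2 / (forceZ f n * sc n)) * (x * ∑ z ∈ SAP n, Real.exp (f * span n z) * area n z) := by
    ring
  have e3 : 2 * area n s / sc n = (2 / (forceZ f n * sc n)) * (area n s * forceZ f n) := by
    field_simp
  rw [e2, e3]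
  constructor
  · intro h
    exact mul_le_mul_of_nonneg_left h (by positivity)
  · intro h
    exact le_of_mul_le_mul_left h (by positivity)

open Classical in
lemma areaCdf_mono (n : ℕ) (F : Finset (Fin (2 * n) → Fin 4)) : Monotone (areaCdf n F) := by
  intro x y hxy
  unfold areaCdf
  apply div_le_div_of_nonneg_right _ (Nat.cast_nonneg _)
  have : F.filter (fun s => area n s * (F.card : ℝ) ≤ x * ∑ t ∈ F, area n t) ⊆
      F.filter (fun s => area n s * (F.card : ℝ) ≤ y * ∑ t ∈ F, area n t) := by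
    intro s hs
    rw [mem_filter] at hs ⊢
    exact ⟨hs.1, hs.2.trans (mul_le_mul_of_nonneg_right hxy
      (Finset.sum_nonneg fun t _ => area_nonneg n t))⟩
  exact_mod_cast card_le_card this

open Classical in
/-- the class of polygons -/
noncomputable def cls (n : ℕ) (b : Bool) (h : ℕ) : Finset (Fin (2 * n) → Fin 4) :=
  (SAP n).filter (fun s => inC b h (span n s))

open Classical in
/-- convergence for centered sequences -/
theorem conv_cls (hCDF : CDF_Stmt) (hSAPC : SAPC_Stmt) (μ : Measure ℝ)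
    (hμ : IsProbabilityMeasure μ) (hF : FORCE_Stmt μ) (f0 f1 : ℝ) (h0 : 0 < f0) (h1 : f0 ≤ f1)
    (f : ℕ → ℝ) (h : ℕ → ℕ) (hf : ∀ n, f0 ≤ f n ∧ f n ≤ f1)
    (hcen : ∀ᶠ n in atTop, Cen n (f n) (h n)) (b : Bool) (x : ℝ) (hx : μ {x} = 0) :
    Tendsto (fun n : ℕ => areaCdf n (cls n b (h n)) x) atTop (𝓝 (μ (Set.Iic x)).toReal) := by
  obtain ⟨s1, s2, s3, c, hc, s4⟩ := hSAPC f0 f1 h0 h1 f h hf hcen b
  have hZ : ∀ᶠ n : ℕ in atTop, 0 < forceZ (f n) n := by
    filter_upwards [s4] with n hn
    rcases (forceZ_nonneg (f n) n).lt_or_eq with h2 | h2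
    · exact h2
    · rw [← h2, div_zero] at hn
      linarith [hn.1]
  have key := hCDF μ hμ (fun n => Fin (2 * n) → Fin 4) (fun n => Fin (2 * n) → Fin 4)
    (fun n => SAP n) (fun n => cls n b (h n))
    (fun n s => Real.exp (f n * span n s) / forceZ (f n) n) (fun n s => 2 * area n s / sc n)
    (fun n _ => 1 / ((cls n b (h n)).card : ℝ)) (fun n s => 2 * area n s / sc n)
    (fun n s => div_nonneg (Real.exp_pos _).le (forceZ_nonneg _ _)) (fun n s => by positivity)
    (fun n s => div_nonneg (mul_nonneg (by norm_num) (area_nonneg n s)) (sc_nonneg n))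
    (fun n s => div_nonneg (mul_nonneg (by norm_num) (area_nonneg n s)) (sc_nonneg n))
    ?_ ?_ ?_ ?_ ?_ ?_ x hx
  · refine key.congr' ?_
    filter_upwards [s1, eventually_ge_atTop 1] with n h2 h3
    rw [areaCdf_eq n h3 (cls n b (h n)) h2 x]
  · filter_upwards [hZ] with n hn
    rw [← Finset.sum_div]
    exact div_self hn.ne'
  · filter_upwards [s1] with n hn
    have : (0 : ℝ) < (cls n b (h n)).card := by exact_mod_cast hn
    rw [Finset.sum_const, nsmul_eq_mul]
    field_simp
  · refine ⟨c, c⁻¹, hc, ?_⟩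
    filter_upwards [s4] with n hn
    have e1 : ∑ s ∈ SAP n, Real.exp (f n * span n s) / forceZ (f n) n * (2 * area n s / sc n) =
        (∑ s ∈ SAP n, Real.exp (f n * span n s) * (2 * area n s / sc n)) / forceZ (f n) n := by
      rw [Finset.sum_div]
      refine Finset.sum_congr rfl fun s _ => ?_
      ring
    rw [e1]
    exact hn
  · refine s3.congr fun n => ?_
    unfold cls
    congr 1
    · rw [Finset.sum_div]
      refine Finset.sum_congr rfl fun s _ => ?_
      ring
    · rw [Finset.sum_div]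
      refine Finset.sum_congr rfl fun s _ => ?_
      ring
  · intro φ h2 h3
    refine (s2 φ h2 h3).congr fun n => ?_
    unfold cls
    congr 1
    · rw [Finset.sum_div]
      refine Finset.sum_congr rfl fun s _ => ?_
      ring
    · rw [Finset.sum_div]
      refine Finset.sum_congr rfl fun s _ => ?_
      ring
  · intro y hy
    refine (hF f0 h0 f (fun n => (hf n).1) y hy).congr' ?_
    filter_upwards [hZ, eventually_ge_atTop 1] with n h2 h3
    exact forceCdf_eq' (f n) n h3 h2 y

/-- every force is centered at some integer -/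
lemma exists_cen (n : ℕ) (f : ℝ) : ∃ h : ℕ, Cen n f h := by
  rcases (forceZ_nonneg f n).lt_or_eq with hZ | hZ
  · set m : ℝ := (∑ s ∈ SAP n, Real.exp (f * span n s) * (span n s : ℝ)) / forceZ f n with hm
    have hm0 : 0 ≤ m := by
      rw [hm]
      exact div_nonneg (Finset.sum_nonneg fun s _ => by positivity) hZ.le
    refine ⟨⌊m⌋₊, ?_⟩
    unfold Cen
    have e1 : ∑ s ∈ SAP n, Real.exp (f * span n s) * ((span n s : ℝ) - (⌊m⌋₊ : ℝ)) =
        (m - ⌊m⌋₊) * forceZ f n := by
      rw [sub_mul, hm, div_mul_cancel₀ _ hZ.ne', ← hm]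
      unfold forceZ
      rw [Finset.mul_sum, ← Finset.sum_sub_distrib]
      refine Finset.sum_congr rfl fun s _ => ?_
      ring
    rw [e1, abs_mul, abs_of_pos hZ]
    have h1 := Nat.floor_le hm0
    have h2 := Nat.lt_floor_add_one m
    have h3 : |m - ⌊m⌋₊| ≤ 1 := by
      rw [abs_le]
      constructor <;> linarith
    exact mul_le_of_le_one_left hZ.le h3
  · refine ⟨0, ?_⟩
    unfold Cen
    have hE : SAP n = ∅ := by
      by_contra hne
      obtain ⟨s, hs⟩ := Finset.nonempty_iff_ne_empty.2 hne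
      have := Finset.single_le_sum (f := fun s => Real.exp (f * span n s))
        (fun s _ => (Real.exp_pos _).le) hs
      have h2 := Real.exp_pos (f * span n s)
      unfold forceZ at hZ
      rw [← hZ] at this
      linarith
    rw [hE]
    simp [← hZ]

open Classical in
/-- the final theorem from the modules -/
theorem FINAL_of (hCDF : CDF_Stmt) (hDIAG : DIAG_Stmt) (hCH : CHOICE_Stmt)
    (hSAPC : SAPC_Stmt) (μ : Measure ℝ) (hμ : IsProbabilityMeasure μ)
    (hst : ∀ x : ℝ, μ {x} = 0 →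
      Tendsto (fun n : ℕ => areaCdf n (Staircase n) x) atTop (𝓝 (μ (Set.Iic x)).toReal))
    (hF : FORCE_Stmt μ) : FINAL_FS_Stmt := by
  -- the admissible pairs
  set ok : ℝ → ℕ → ℕ → Prop := fun e n h =>
    (((SAP n).filter (fun s => h ≤ span n s)).card : ℝ) ≤
        Real.exp (-(e * n)) * (SAP n).card ∧ (h : ℝ) ≤ (1 - e) * n with hok
  have hanti : ∀ (e e' : ℝ) (n h : ℕ), e' ≤ e → ok e n h → ok e' n h := by
    intro e e' n h he ⟨h1, h2⟩
    have hn : (0 : ℝ) ≤ n := Nat.cast_nonneg n
    refine ⟨h1.trans (mul_le_mul_of_nonneg_right (Real.exp_le_exp.2 ?_) (Nat.cast_nonneg _)),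
      h2.trans ?_⟩
    · nlinarith
    · nlinarith
  have huni : ∀ b : Bool, ∀ e : ℝ, 0 < e → ∀ h : ℕ → ℕ, ∀ x : ℝ, μ {x} = 0 → ∀ d : ℝ, 0 < d →
      ∀ᶠ n in atTop, ok e n (h n) →
        |areaCdf n (cls n b (h n)) x - (μ (Set.Iic x)).toReal| ≤ d := by
    intro b e he h x hx d hd
    obtain ⟨f1, hf1, N, hN⟩ := hCH e he
    have hex : ∀ n : ℕ, ∃ (f : ℝ) (k : ℕ), (e / 2 ≤ f ∧ f ≤ f1) ∧ (N ≤ n → Cen n f k) ∧
        (N ≤ n → ok e n (h n) → k = h n) := by
      intro n
      by_cases hn : N ≤ n ∧ ok e n (h n)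
      · obtain ⟨f, g1, g2, g3⟩ := hN n hn.1 (h n) hn.2.1 hn.2.2
        exact ⟨f, h n, ⟨g1, g2⟩, fun _ => g3, fun _ _ => rfl⟩
      · obtain ⟨k, hk⟩ := exists_cen n (e / 2)
        exact ⟨e / 2, k, ⟨le_rfl, hf1⟩, fun _ => hk, fun g1 g2 => absurd ⟨g1, g2⟩ hn⟩
    choose f k g1 g2 g3 using hex
    have hcen : ∀ᶠ n in atTop, Cen n (f n) (k n) := by
      filter_upwards [eventually_ge_atTop N] with n hn using g2 n hn
    have hconv := conv_cls hCDF hSAPC μ hμ hF (e / 2) f1 (by linarith) hf1 f k g1 hcen b x hx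
    obtain ⟨N', hN'⟩ := Metric.tendsto_atTop.1 hconv d hd
    filter_upwards [eventually_ge_atTop N, eventually_ge_atTop N'] with n hn hn' hokn
    have e1 := hN' n hn'
    rw [g3 n hn hokn, Real.dist_eq] at e1
    exact e1.le
  obtain ⟨e1, he1, hl1, hc1⟩ := hDIAG μ hμ ok (fun n h x => areaCdf n (cls n true h) x)
    (fun n h => areaCdf_mono n _) hanti (huni true)
  obtain ⟨e2, he2, hl2, hc2⟩ := hDIAG μ hμ ok (fun n h x => areaCdf n (cls n false h) x)
    (fun n h => areaCdf_mono n _) hanti (huni false)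
  refine ⟨μ, hμ, hst, fun n => max (e1 n) (e2 n), fun n => lt_max_of_lt_left (he1 n), ?_, ?_⟩
  · have := hl1.max hl2
    simpa using this
  · intro h hh x hx
    have a1 := hc1 h (by
      filter_upwards [hh] with n hn using hanti _ _ _ _ (le_max_left _ _) hn) x hx
    have a2 := hc2 h (by
      filter_upwards [hh] with n hn using hanti _ _ _ _ (le_max_right _ _) hn) x hx
    constructor
    · refine a1.congr fun n => ?_
      congr 1
      unfold cls
      apply Finset.filter_congr
      intro s _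
      unfold inC
      simp
    · refine a2.congr fun n => ?_
      congr 1
      unfold cls
      apply Finset.filter_congr
      intro s _
      unfold inC
      simp

end Pool.Agent.FS
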