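import Pool.Agent.Lib_helper74.FS.Stmts
import Pool.Agent.Lib_helper89.FL.FinB

/-!
# Polygons with fixed span (MP_f6626d_co): module SAPC

From the canonical words to the frozen encoding of polygons; the words without cut are negligible.
-/

set_option autoImplicit false

namespace Pool.Agent.FS.SAPC

open Finset Filter Topology MeasureTheory
open Pool.Agent.Lib27 Pool.Agent.SapR Pool.Agent.Gap Pool.Agent.AreaLaw Pool.Agent.FL

lemma ratio (a S N S0 N0 B : ℝ) (ha : 0 < a) (hN : 0 < N) (hN0 : 0 ≤ N0) (hB : 0 ≤ B)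
    (hS : |S| ≤ B * N) (hS0 : |S0| ≤ B * N0) :
    |(a * S + S0) / (a * N + N0) - S / N| ≤ 2 * B * N0 / (a * N) := by
  have h1 : 0 < a * N := mul_pos ha hN
  have h2 : 0 < a * N + N0 := by linarith
  have h3 : (a * S + S0) / (a * N + N0) - S / N = (S0 - N0 * (S / N)) / (a * N + N0) := by
    field_simp
    ring
  rw [h3, abs_div, abs_of_pos h2]
  have h4 : |S0 - N0 * (S / N)| ≤ 2 * B * N0 := by
    have h5 : |N0 * (S / N)| ≤ B * N0 := by
      rw [abs_mul, abs_of_nonneg hN0, abs_div, abs_of_pos hN]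
      have h6 : |S| / N ≤ B := by
        rw [div_le_iff₀ hN]
        exact hS
      rw [mul_comm B N0]
      exact mul_le_mul_of_nonneg_left h6 hN0
    calc |S0 - N0 * (S / N)| ≤ |S0| + |N0 * (S / N)| := abs_sub _ _
      _ ≤ 2 * B * N0 := by linarith
  have h7 : 0 ≤ 2 * B * N0 := by positivity
  calc |S0 - N0 * (S / N)| / (a * N + N0) ≤ 2 * B * N0 / (a * N + N0) :=
        div_le_div_of_nonneg_right h4 h2.le
    _ ≤ 2 * B * N0 / (a * N) := div_le_div_of_nonneg_left h7 h1 (by linarith)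

lemma area2 (n : ℕ) (s : Fin (2 * n) → Fin 4) :
    2 * area n s = (((|dbl 0 (List.ofFn s)| : ℤ)) : ℝ) := by
  rw [area_eq]
  unfold T
  push_cast
  ring

open Classical in
/-- unweighted sums over a class -/
lemma cls_sum (hTR : TR_Stmt) (n : ℕ) (hn : 1 ≤ n) (P : ℕ → Prop) (g : ℝ → ℝ) :
    ∑ s ∈ (SAP n).filter (fun s => P (span n s)), g (2 * area n s / sc n) =
      4 * n * ∑ q ∈ (Omn n).filter (fun q => P (sp q)), g (|(dq q : ℝ)| / sc n) +
        ∑ w ∈ (NoCut n).filter (fun w => P (spn w)), g (|((dbl 0 w : ℤ) : ℝ)| / sc n) := by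
  have h := hTR n hn (fun a b => if P b then g (((|a| : ℤ) : ℝ) / sc n) else 0)
  simp only [abs_abs] at h
  rw [Finset.sum_filter, Finset.sum_filter, Finset.sum_filter]
  simp only [area2]
  rw [h]
  congr 1
  · congr 1
    refine Finset.sum_congr rfl fun q _ => ?_
    simp only [Int.cast_abs]
    rfl
  · refine Finset.sum_congr rfl fun w _ => ?_
    simp only [Int.cast_abs]

/-- weighted sums -/
lemma force_sum (hHG : HG_Stmt) (hTR : TR_Stmt) (n : ℕ) (hn : 1 ≤ n) (f : ℝ) (g : ℝ → ℝ) :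
    ∑ s ∈ SAP n, Real.exp (f * span n s) * g (2 * area n s / sc n) =
      Real.exp (f * n) * (4 * n * ∑ q ∈ Omn n, wtq n (Real.exp (-f)) q * g (|(dq q : ℝ)| / sc n) +
        ∑ w ∈ NoCut n, Real.exp (-f) ^ (n - spn w) * g (|((dbl 0 w : ℤ) : ℝ)| / sc n)) := by
  have h := hTR n hn (fun a b => Real.exp (f * b) * g (((|a| : ℤ) : ℝ) / sc n))
  simp only [abs_abs] at h
  simp only [area2]
  rw [h]
  have hexp : ∀ b : ℕ, b ≤ n → Real.exp (f * b) = Real.exp (f * n) * Real.exp (-f) ^ (n - b) := by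
    intro b hb
    rw [← Real.exp_nat_mul, ← Real.exp_add]
    congr 1
    rw [Nat.cast_sub hb]
    ring
  rw [mul_add, mul_sum, mul_sum, mul_sum, mul_sum]
  congr 1
  · refine sum_congr rfl fun q hq => ?_
    have h3 := hexp _ (height_le hHG n q hq)
    rw [h3]
    unfold wtq dq
    simp only [Int.cast_abs]
    ring
  · refine sum_congr rfl fun w hw => ?_
    have hw' : w ∈ W n := by
      classical
      exact (Finset.mem_filter.1 hw).1
    have h3 := hexp _ (spn_le n w hw')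
    rw [h3]
    simp only [Int.cast_abs]
    ring

lemma dq_le (n : ℕ) (q : QI) (hq : q ∈ Omn n) : |(dq q : ℝ)| ≤ 4 * (n : ℝ) ^ 2 := by
  classical
  obtain ⟨x, M, T, w⟩ := q
  unfold Omn M41.Om at hq
  rw [mem_sigma, mem_sigma, mem_product] at hq
  obtain ⟨hx, hM, hT, hw⟩ := hq
  simp only at hx hM hT hw
  rw [mem_Icc] at hx
  rw [mem_range] at hM
  have hT' := (M41.mem_CapSet _ _ _ _).1 hT
  have hw' := (M41.mem_ArchSet _ _ _ _).1 hw
  have h1 := H66.abs_dbl_le T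
  have h2 := H66.abs_dbl_le w
  rw [hT'.1] at h1
  rw [hw'.1] at h2
  have hM2 : M ≤ 2 * n := by omega
  have h3 : |dq ⟨x, M, T, w⟩| ≤ 4 * (n : ℤ) ^ 2 := by
    unfold dq
    simp only
    have h4 : |dbl 0 w + dbl 0 T| ≤ |dbl 0 w| + |dbl 0 T| := abs_add_le _ _
    have h5 : (((2 * n - M : ℕ) : ℤ)) = 2 * n - M := by
      rw [Nat.cast_sub hM2]
      push_cast
      ring
    rw [h5] at h2
    have h6 : (M : ℤ) ≤ 2 * n := by exact_mod_cast hM2
    have h7 : (0 : ℤ) ≤ M := Nat.cast_nonneg M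
    nlinarith
  have h8 : ((|dq ⟨x, M, T, w⟩| : ℤ) : ℝ) ≤ ((4 * (n : ℤ) ^ 2 : ℤ) : ℝ) := by exact_mod_cast h3
  push_cast at h8
  exact h8

lemma dbl_le (n : ℕ) (w : Wd) (hw : w ∈ NoCut n) :
    |((dbl 0 w : ℤ) : ℝ)| ≤ 4 * (n : ℝ) ^ 2 := by
  have hw' : w ∈ W n := by
    classical
    exact (Finset.mem_filter.1 hw).1
  have hlen := ((mem_W n w).1 hw').1
  have h6 := H66.abs_dbl_le w
  rw [hlen] at h6
  have h8 : ((|dbl 0 w| : ℤ) : ℝ) ≤ (((2 * n : ℕ) : ℤ) ^ 2 : ℤ) := by exact_mod_cast h6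
  push_cast at h8
  nlinarith

lemma sc_ge (n : ℕ) (hn : 1 ≤ n) : (n : ℝ) ≤ sc n := by
  have h1 : (1 : ℝ) ≤ n := by exact_mod_cast hn
  have h2 : 1 ≤ Real.sqrt n := by
    rw [Real.one_le_sqrt]
    exact h1
  unfold sc
  nlinarith

/-- the size of the rescaled areas -/
lemma scaled_le (n : ℕ) (hn : 1 ≤ n) (y : ℝ) (hy : |y| ≤ 4 * (n : ℝ) ^ 2) :
    0 ≤ |y| / sc n ∧ |y| / sc n ≤ 4 * n := by
  have h1 : (1 : ℝ) ≤ n := by exact_mod_cast hn
  have h2 := sc_ge n hn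
  have h3 : 0 < sc n := by linarith
  refine ⟨by positivity, ?_⟩
  rw [div_le_iff₀ h3]
  nlinarith

lemma abs_sum_le' {ι : Type} (s : Finset ι) (w g : ι → ℝ) (B : ℝ) (hw : ∀ i ∈ s, 0 ≤ w i)
    (hg : ∀ i ∈ s, |g i| ≤ B) : |∑ i ∈ s, w i * g i| ≤ B * ∑ i ∈ s, w i := by
  rw [Finset.mul_sum]
  refine (Finset.abs_sum_le_sum_abs _ _).trans (Finset.sum_le_sum fun i hi => ?_)
  rw [abs_mul, abs_of_nonneg (hw i hi), mul_comm B]
  exact mul_le_mul_of_nonneg_left (hg i hi) (hw i hi)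

/-- the weight of the words without cut -/
noncomputable def Z0 (n : ℕ) (s : ℝ) : ℝ := ∑ w ∈ NoCut n, s ^ (n - spn w)

lemma Z0_nonneg (n : ℕ) (s : ℝ) (hs : 0 < s) : 0 ≤ Z0 n s :=
  Finset.sum_nonneg fun w _ => by positivity

lemma Zq_nonneg (n : ℕ) (s : ℝ) (hs : 0 < s) : 0 ≤ Zq n s := by
  unfold Zq
  refine Finset.sum_nonneg fun q _ => ?_
  unfold wtq
  positivity

lemma Z0_le (C θ : ℝ) (hC : 0 < C) (hθ : 0 < θ) (n : ℕ) (hn : 1 ≤ n) (s rho : ℝ)
    (hrho : 0 < rho) (hT : Tails C θ n s rho) (hZ : C⁻¹ ≤ sc n * rho ^ n * Zq n s) :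
    0 < Zq n s ∧ Z0 n s * Real.sqrt n ≤ C ^ 2 * (n : ℝ) ^ 3 * θ ^ n * Zq n s := by
  have h1 : (1 : ℝ) ≤ n := by exact_mod_cast hn
  have hsc : 0 < sc n := lt_of_lt_of_le (by linarith) (sc_ge n hn)
  have hr : 0 < rho ^ n := pow_pos hrho n
  have hCi : 0 < C⁻¹ := inv_pos.2 hC
  have hZq : 0 < Zq n s := by
    by_contra hneg
    push Not at hneg
    have h2 : sc n * rho ^ n * Zq n s ≤ 0 :=
      mul_nonpos_of_nonneg_of_nonpos (by positivity) hneg
    linarith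
  refine ⟨hZq, ?_⟩
  have h3 := hT.2.2
  rw [← Finset.mul_sum] at h3
  change rho ^ n * Z0 n s ≤ C * n * θ ^ n at h3
  have h4 : 1 ≤ C * (sc n * rho ^ n * Zq n s) := by
    have := mul_le_mul_of_nonneg_left hZ hC.le
    rwa [mul_inv_cancel₀ hC.ne'] at this
  have hsq : Real.sqrt n * Real.sqrt n = n := Real.mul_self_sqrt (by linarith)
  have hsq0 : 0 ≤ Real.sqrt n := Real.sqrt_nonneg _
  have h5 : rho ^ n * (Z0 n s * Real.sqrt n) ≤
      rho ^ n * (C ^ 2 * (n : ℝ) ^ 3 * θ ^ n * Zq n s) := by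
    have h6 : C * n * θ ^ n * Real.sqrt n * 1 ≤
        C * n * θ ^ n * Real.sqrt n * (C * (sc n * rho ^ n * Zq n s)) :=
      mul_le_mul_of_nonneg_left h4 (by positivity)
    calc rho ^ n * (Z0 n s * Real.sqrt n) = (rho ^ n * Z0 n s) * Real.sqrt n := by ring
      _ ≤ (C * n * θ ^ n) * Real.sqrt n := mul_le_mul_of_nonneg_right h3 hsq0
      _ = C * n * θ ^ n * Real.sqrt n * 1 := by ring
      _ ≤ C * n * θ ^ n * Real.sqrt n * (C * (sc n * rho ^ n * Zq n s)) := h6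
      _ = rho ^ n * (C ^ 2 * (n * n * (Real.sqrt n * Real.sqrt n)) * θ ^ n * Zq n s) := by
          unfold sc
          ring
      _ = _ := by
          rw [hsq]
          ring
  exact le_of_mul_le_mul_left h5 hr

open Classical in
/-- comparison for a class -/
lemma cls_cmp (hTR : TR_Stmt) (n : ℕ) (hn : 1 ≤ n) (P : ℕ → Prop) (g : ℝ → ℝ)
    (hg : ∀ y : ℝ, 0 ≤ y → y ≤ 4 * n → |g y| ≤ 4 * n)
    (hN : 0 < (((Omn n).filter (fun q => P (sp q))).card : ℝ)) :
    0 < ((SAP n).filter (fun s => P (span n s))).card ∧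
    |(∑ s ∈ (SAP n).filter (fun s => P (span n s)), g (2 * area n s / sc n)) /
        ((SAP n).filter (fun s => P (span n s))).card -
      (∑ q ∈ (Omn n).filter (fun q => P (sp q)), g (|(dq q : ℝ)| / sc n)) /
        ((Omn n).filter (fun q => P (sp q))).card| ≤
      2 * ((((NoCut n).filter (fun w => P (spn w))).card : ℝ) /
        ((Omn n).filter (fun q => P (sp q))).card) := by
  have h1 := cls_sum hTR n hn P g
  have h2 := cls_sum hTR n hn P (fun _ => 1)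
  simp only [Finset.sum_const, nsmul_eq_mul, mul_one] at h2
  have hn1 : (0 : ℝ) < n := by exact_mod_cast hn
  have hn0 : (0 : ℝ) < 4 * n := by linarith
  constructor
  · have h3 : (0 : ℝ) < ((SAP n).filter (fun s => P (span n s))).card := by
      rw [h2]
      positivity
    exact_mod_cast h3
  · rw [h1, h2]
    have h3 := ratio (4 * n) (∑ q ∈ (Omn n).filter (fun q => P (sp q)), g (|(dq q : ℝ)| / sc n))
      (((Omn n).filter (fun q => P (sp q))).card : ℝ)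
      (∑ w ∈ (NoCut n).filter (fun w => P (spn w)), g (|((dbl 0 w : ℤ) : ℝ)| / sc n))
      (((NoCut n).filter (fun w => P (spn w))).card : ℝ) (4 * n) hn0 hN (Nat.cast_nonneg _)
      hn0.le ?_ ?_
    · refine h3.trans (le_of_eq ?_)
      field_simp
    · have h4 := abs_sum_le' ((Omn n).filter (fun q => P (sp q))) (fun _ => 1)
        (fun q => g (|(dq q : ℝ)| / sc n)) (4 * n) (fun _ _ => zero_le_one) (fun q hq => by
          have h5 := scaled_le n hn (dq q : ℝ) (dq_le n q (Finset.mem_filter.1 hq).1)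
          exact hg _ h5.1 h5.2)
      simpa using h4
    · have h4 := abs_sum_le' ((NoCut n).filter (fun w => P (spn w))) (fun _ => 1)
        (fun w => g (|((dbl 0 w : ℤ) : ℝ)| / sc n)) (4 * n) (fun _ _ => zero_le_one)
        (fun w hw => by
          have h5 := scaled_le n hn ((dbl 0 w : ℤ) : ℝ) (dbl_le n w (Finset.mem_filter.1 hw).1)
          exact hg _ h5.1 h5.2)
      simpa using h4

/-- comparison for the weights -/
lemma force_cmp (hHG : HG_Stmt) (hTR : TR_Stmt) (n : ℕ) (hn : 1 ≤ n) (f : ℝ) (g : ℝ → ℝ)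
    (hg : ∀ y : ℝ, 0 ≤ y → y ≤ 4 * n → |g y| ≤ 4 * n) (hN : 0 < Zq n (Real.exp (-f))) :
    |(∑ s ∈ SAP n, Real.exp (f * span n s) * g (2 * area n s / sc n)) / forceZ f n -
      (∑ q ∈ Omn n, wtq n (Real.exp (-f)) q * g (|(dq q : ℝ)| / sc n)) /
        Zq n (Real.exp (-f))| ≤
      2 * (Z0 n (Real.exp (-f)) / Zq n (Real.exp (-f))) := by
  have h1 := force_sum hHG hTR n hn f g
  have h2 := force_sum hHG hTR n hn f (fun _ => 1)
  simp only [mul_one] at h2
  have hn1 : (0 : ℝ) < n := by exact_mod_cast hn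
  have hn0 : (0 : ℝ) < 4 * n := by linarith
  have hs : 0 < Real.exp (-f) := Real.exp_pos _
  have hZ : forceZ f n = Real.exp (f * n) *
      (4 * n * Zq n (Real.exp (-f)) + Z0 n (Real.exp (-f))) := h2
  rw [h1, hZ, mul_div_mul_left _ _ (Real.exp_pos _).ne']
  have h3 := ratio (4 * n)
    (∑ q ∈ Omn n, wtq n (Real.exp (-f)) q * g (|(dq q : ℝ)| / sc n)) (Zq n (Real.exp (-f)))
    (∑ w ∈ NoCut n, Real.exp (-f) ^ (n - spn w) * g (|((dbl 0 w : ℤ) : ℝ)| / sc n))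
    (Z0 n (Real.exp (-f))) (4 * n) hn0 hN (Z0_nonneg _ _ hs) hn0.le ?_ ?_
  · refine h3.trans (le_of_eq ?_)
    field_simp
  · refine abs_sum_le' (Omn n) _ _ (4 * n) (fun q _ => ?_) (fun q hq => ?_)
    · unfold wtq
      positivity
    · have h5 := scaled_le n hn (dq q : ℝ) (dq_le n q hq)
      exact hg _ h5.1 h5.2
  · refine abs_sum_le' (NoCut n) _ _ (4 * n) (fun q _ => by positivity) (fun w hw => ?_)
    have h5 := scaled_le n hn ((dbl 0 w : ℤ) : ℝ) (dbl_le n w hw)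
    exact hg _ h5.1 h5.2

lemma lim_err (C c θ : ℝ) (hθ : 0 < θ) (hθ1 : θ < 1) :
    Tendsto (fun n : ℕ => 2 * (C ^ 2 * (n : ℝ) ^ 3 * θ ^ n * c)) atTop (𝓝 0) := by
  have e3 : Tendsto (fun n : ℕ => (n : ℝ) ^ 3 * θ ^ n) atTop (𝓝 0) :=
    tendsto_pow_const_mul_const_pow_of_lt_one 3 hθ.le hθ1
  have h := e3.const_mul (2 * C ^ 2 * c)
  rw [mul_zero] at h
  refine h.congr fun n => ?_
  ring

open Classical in
/-- the words without cut in a class are negligible -/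
lemma cls_small (n h : ℕ) (hn : 1 ≤ n) (s C θ c : ℝ) (hs : 0 < s) (hs1 : s ≤ 1) (hc : 0 < c)
    (P : ℕ → Prop) (hP : ∀ k, P k → h ≤ k) (hZq : 0 < Zq n s)
    (hZ0 : Z0 n s * Real.sqrt n ≤ C ^ 2 * (n : ℝ) ^ 3 * θ ^ n * Zq n s)
    (hcls : c / Real.sqrt n * Zq n s ≤ s ^ (n - h) * ((Omn n).filter (fun q => P (sp q))).card) :
    0 < (((Omn n).filter (fun q => P (sp q))).card : ℝ) ∧
    (((NoCut n).filter (fun w => P (spn w))).card : ℝ) /
        ((Omn n).filter (fun q => P (sp q))).card ≤ C ^ 2 * (n : ℝ) ^ 3 * θ ^ n * c⁻¹ := by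
  have hn1 : (0 : ℝ) < n := by exact_mod_cast hn
  have hsq : 0 < Real.sqrt n := Real.sqrt_pos.2 hn1
  obtain ⟨N, hN⟩ : ∃ N : ℝ, N = (((Omn n).filter (fun q => P (sp q))).card : ℝ) := ⟨_, rfl⟩
  obtain ⟨M, hM⟩ : ∃ M : ℝ, M = (((NoCut n).filter (fun w => P (spn w))).card : ℝ) := ⟨_, rfl⟩
  rw [← hN] at hcls ⊢
  rw [← hM]
  have hM0 : 0 ≤ M := by
    rw [hM]
    exact Nat.cast_nonneg _
  have hpw : 0 < s ^ (n - h) := pow_pos hs _
  have h1 : 0 < c / Real.sqrt n * Zq n s := by positivity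
  have hNpos : 0 < N := by
    by_contra hneg
    push Not at hneg
    have : s ^ (n - h) * N ≤ 0 := mul_nonpos_of_nonneg_of_nonpos hpw.le hneg
    linarith
  refine ⟨hNpos, ?_⟩
  have h2 : s ^ (n - h) * M ≤ Z0 n s := by
    rw [hM, mul_comm, ← nsmul_eq_mul]
    unfold Z0
    refine (Finset.card_nsmul_le_sum _ (fun w => s ^ (n - spn w)) _ fun w hw => ?_).trans
      (Finset.sum_le_sum_of_subset_of_nonneg (Finset.filter_subset _ _) fun w _ _ => by positivity)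
    have h3 := hP _ (Finset.mem_filter.1 hw).2
    exact pow_le_pow_of_le_one hs.le hs1 (by omega)
  rw [div_le_iff₀ hNpos]
  have h4 : c * Zq n s ≤ s ^ (n - h) * N * Real.sqrt n := by
    have := mul_le_mul_of_nonneg_right hcls hsq.le
    have e : c / Real.sqrt n * Zq n s * Real.sqrt n = c * Zq n s := by
      field_simp
    rwa [e] at this
  have h5 : M * (c * Zq n s) ≤ C ^ 2 * (n : ℝ) ^ 3 * θ ^ n * Zq n s * N := by
    calc M * (c * Zq n s) ≤ M * (s ^ (n - h) * N * Real.sqrt n) :=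
          mul_le_mul_of_nonneg_left h4 hM0
      _ = (s ^ (n - h) * M) * Real.sqrt n * N := by ring
      _ ≤ Z0 n s * Real.sqrt n * N :=
          mul_le_mul_of_nonneg_right (mul_le_mul_of_nonneg_right h2 hsq.le) hNpos.le
      _ ≤ _ := mul_le_mul_of_nonneg_right hZ0 hNpos.le
  have h6 : (c * Zq n s) * M ≤ (c * Zq n s) * (C ^ 2 * (n : ℝ) ^ 3 * θ ^ n * c⁻¹ * N) := by
    calc (c * Zq n s) * M = M * (c * Zq n s) := by ring
      _ ≤ C ^ 2 * (n : ℝ) ^ 3 * θ ^ n * Zq n s * N := h5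
      _ = (c * c⁻¹) * (C ^ 2 * (n : ℝ) ^ 3 * θ ^ n * Zq n s * N) := by
          rw [mul_inv_cancel₀ hc.ne', one_mul]
      _ = _ := by ring
  exact le_of_mul_le_mul_left h6 (by positivity)

lemma inC_le (b : Bool) (h k : ℕ) (hk : inC b h k) : h ≤ k := by
  rcases hk with ⟨_, hk⟩ | ⟨_, hk⟩
  · exact hk.ge
  · exact hk

end Pool.Agent.FS.SAPC

namespace Pool.Agent.FS

open Finset Filter Topology MeasureTheory
open Pool.Agent.Lib27 Pool.Agent.SapR Pool.Agent.Gap Pool.Agent.AreaLaw Pool.Agent.FL SAPC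

/-- FS_SAPC -/
theorem SAPC_thm (hCLS : CLS_Stmt) (hZB : ZB_Stmt) (hTR : TR_Stmt) (hHG : HG_Stmt) :
    SAPC_Stmt := by
  classical
  intro f0 f1 hf0 hf01 f h hf hcen b
  obtain ⟨⟨c, hc, hlow⟩, hphi, hid, c1, hc1, hmean⟩ := hCLS f0 f1 hf0 hf01 f h hf hcen b
  obtain ⟨C, θ, hC, hθ, hθ1, N, hZB'⟩ := hZB (Real.exp (-f0)) (Real.exp_pos _)
    (by rw [Real.exp_lt_one_iff]; linarith)
  -- the basic estimates
  have hbase : ∀ᶠ n : ℕ in atTop, 1 ≤ n ∧ 0 < Zq n (Real.exp (-(f n))) ∧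
      Z0 n (Real.exp (-(f n))) * Real.sqrt n ≤
        C ^ 2 * (n : ℝ) ^ 3 * θ ^ n * Zq n (Real.exp (-(f n))) := by
    filter_upwards [eventually_ge_atTop (max N 1)] with n hn
    have hn1 : 1 ≤ n := (le_max_right _ _).trans hn
    obtain ⟨rho, hcrit, htails, _, _, hz1, _⟩ := hZB' n ((le_max_left _ _).trans hn)
      (Real.exp (-(f n))) (Real.exp_pos _) (Real.exp_le_exp.2 (by linarith [(hf n).1]))
    exact ⟨hn1, Z0_le C θ hC hθ n hn1 _ rho hcrit.1 htails hz1⟩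
  have hcls : ∀ᶠ n : ℕ in atTop,
      0 < (((Omn n).filter (fun q => inC b (h n) (sp q))).card : ℝ) ∧
      (((NoCut n).filter (fun w => inC b (h n) (spn w))).card : ℝ) /
        ((Omn n).filter (fun q => inC b (h n) (sp q))).card ≤
          C ^ 2 * (n : ℝ) ^ 3 * θ ^ n * c⁻¹ := by
    filter_upwards [hbase, hlow] with n h1 h2
    exact cls_small n (h n) h1.1 _ C θ c (Real.exp_pos _)
      (by rw [Real.exp_le_one_iff]; linarith [(hf n).1]) hc _ (inC_le b (h n)) h1.2.1 h1.2.2 h2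
  have hfor : ∀ᶠ n : ℕ in atTop, Z0 n (Real.exp (-(f n))) / Zq n (Real.exp (-(f n))) ≤
      C ^ 2 * (n : ℝ) ^ 3 * θ ^ n * 1 := by
    filter_upwards [hbase] with n h1
    rw [div_le_iff₀ h1.2.1, mul_one]
    refine le_trans ?_ h1.2.2
    have h2 : (1 : ℝ) ≤ Real.sqrt n := by
      rw [Real.one_le_sqrt]
      exact_mod_cast h1.1
    have h3 := Z0_nonneg n (Real.exp (-(f n))) (Real.exp_pos _)
    nlinarith
  -- the general comparison
  have key : ∀ g : ℝ → ℝ, (∀ n : ℕ, 1 ≤ n → ∀ y : ℝ, 0 ≤ y → y ≤ 4 * n → |g y| ≤ 4 * n) →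
      Tendsto (fun n : ℕ => (∑ q ∈ (Omn n).filter (fun q => inC b (h n) (sp q)),
        g (|(dq q : ℝ)| / sc n)) / ((Omn n).filter (fun q => inC b (h n) (sp q))).card -
      (∑ q ∈ Omn n, wtq n (Real.exp (-(f n))) q * g (|(dq q : ℝ)| / sc n)) /
        Zq n (Real.exp (-(f n)))) atTop (𝓝 0) →
      Tendsto (fun n : ℕ => (∑ s ∈ (SAP n).filter (fun s => inC b (h n) (span n s)),
        g (2 * area n s / sc n)) / ((SAP n).filter (fun s => inC b (h n) (span n s))).card -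
      (∑ s ∈ SAP n, Real.exp (f n * span n s) * g (2 * area n s / sc n)) / forceZ (f n) n)
      atTop (𝓝 0) ∧
      Tendsto (fun n : ℕ =>
        (∑ s ∈ SAP n, Real.exp (f n * span n s) * g (2 * area n s / sc n)) / forceZ (f n) n -
        (∑ q ∈ Omn n, wtq n (Real.exp (-(f n))) q * g (|(dq q : ℝ)| / sc n)) /
        Zq n (Real.exp (-(f n)))) atTop (𝓝 0) := by
    intro g hg hlim
    have t1 : Tendsto (fun n : ℕ => (∑ s ∈ (SAP n).filter (fun s => inC b (h n) (span n s)),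
        g (2 * area n s / sc n)) / ((SAP n).filter (fun s => inC b (h n) (span n s))).card -
        (∑ q ∈ (Omn n).filter (fun q => inC b (h n) (sp q)),
        g (|(dq q : ℝ)| / sc n)) / ((Omn n).filter (fun q => inC b (h n) (sp q))).card)
        atTop (𝓝 0) := by
      refine squeeze_zero_norm' ?_ (lim_err C c⁻¹ θ hθ hθ1)
      filter_upwards [hbase, hcls] with n h1 h2
      have h3 := (cls_cmp hTR n h1.1 (inC b (h n)) g (hg n h1.1) h2.1).2
      rw [Real.norm_eq_abs]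
      exact h3.trans (mul_le_mul_of_nonneg_left h2.2 (by norm_num))
    have t2 : Tendsto (fun n : ℕ =>
        (∑ s ∈ SAP n, Real.exp (f n * span n s) * g (2 * area n s / sc n)) / forceZ (f n) n -
        (∑ q ∈ Omn n, wtq n (Real.exp (-(f n))) q * g (|(dq q : ℝ)| / sc n)) /
        Zq n (Real.exp (-(f n)))) atTop (𝓝 0) := by
      refine squeeze_zero_norm' ?_ (lim_err C 1 θ hθ hθ1)
      filter_upwards [hbase, hfor] with n h1 h2
      have h3 := force_cmp hHG hTR n h1.1 (f n) g (hg n h1.1) h1.2.1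
      rw [Real.norm_eq_abs]
      exact h3.trans (mul_le_mul_of_nonneg_left h2 (by norm_num))
    refine ⟨?_, t2⟩
    have t3 := (t1.add hlim).sub t2
    simp only [add_zero, sub_zero] at t3
    refine t3.congr fun n => ?_
    ring
  have hone : ∀ φ : ℝ → ℝ, (∀ a, |φ a| ≤ 1) →
      ∀ n : ℕ, 1 ≤ n → ∀ y : ℝ, 0 ≤ y → y ≤ 4 * n → |φ y| ≤ 4 * n := by
    intro φ hφ n hn y _ _
    have h1 : (1 : ℝ) ≤ n := by exact_mod_cast hn
    linarith [hφ y]
  have hidb : ∀ n : ℕ, 1 ≤ n → ∀ y : ℝ, 0 ≤ y → y ≤ 4 * n → |y| ≤ 4 * n := by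
    intro n _ y h0 h1
    rw [abs_of_nonneg h0]
    exact h1
  have hk := key (fun y => y) hidb hid
  refine ⟨?_, ?_, hk.1, ?_⟩
  · filter_upwards [hbase, hcls] with n h1 h2
    exact (cls_cmp hTR n h1.1 (inC b (h n)) (fun y => y) (hidb n h1.1) h2.1).1
  · intro φ hφ hL
    exact (key φ (hone φ hφ) (hphi φ hφ hL)).1
  · -- two-sided bound of the mean
    have hk2 := hk.2
    rw [Metric.tendsto_nhds] at hk2
    have h2 := hk2 (min (c1 / 2) 1) (by positivity)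
    obtain ⟨c2, hc2⟩ : ∃ c2, c2 = min (c1 / 2) (c1⁻¹ + 1)⁻¹ := ⟨_, rfl⟩
    have hc20 : 0 < c2 := by
      rw [hc2]
      positivity
    refine ⟨c2, hc20, ?_⟩
    filter_upwards [hmean, h2] with n h3 h4
    rw [Real.dist_eq, sub_zero] at h4
    obtain ⟨X, hX⟩ : ∃ X, X = (∑ s ∈ SAP n, Real.exp (f n * span n s) *
      (2 * area n s / sc n)) / forceZ (f n) n := ⟨_, rfl⟩
    obtain ⟨Y, hY⟩ : ∃ Y, Y = (∑ q ∈ Omn n, wtq n (Real.exp (-(f n))) q *
      (|(dq q : ℝ)| / sc n)) / Zq n (Real.exp (-(f n))) := ⟨_, rfl⟩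
    rw [← hY] at h3
    rw [← hX, ← hY] at h4
    rw [← hX]
    have h5 := abs_lt.1 h4
    have h6 : min (c1 / 2) 1 ≤ c1 / 2 := min_le_left _ _
    have h7 : min (c1 / 2) 1 ≤ 1 := min_le_right _ _
    constructor
    · have h8 : c2 ≤ c1 / 2 := by
        rw [hc2]
        exact min_le_left _ _
      linarith [h3.1]
    · have h8 : c1⁻¹ + 1 ≤ c2⁻¹ := by
        have h9 : c2 ≤ (c1⁻¹ + 1)⁻¹ := by
          rw [hc2]
          exact min_le_right _ _
        have h10 : 0 < c1⁻¹ + 1 := by positivity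
        have h11 := inv_anti₀ hc20 h9
        rwa [inv_inv] at h11
      linarith [h3.2]

end Pool.Agent.FS
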