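import Pool.Agent.Lib_helper74.FS.Stmts

/-!
# FS_KBIG: skeletons with few tokens are negligible
-/

set_option autoImplicit false

namespace Pool.Agent.FS.KBIG

open Finset Filter Topology
open Pool.Agent.Lib27 Pool.Agent.SapR Pool.Agent.Gap Pool.Agent.AreaLaw Pool.Agent.FL

/-- `exp u - 1 ≤ u exp u` -/
lemma exp_sub_one_le (u : ℝ) : Real.exp u - 1 ≤ u * Real.exp u := by
  have h := Real.add_one_le_exp (-u)
  have h1 : Real.exp (-u) * Real.exp u = 1 := by
    rw [← Real.exp_add]; simp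
  nlinarith [Real.exp_pos u]

/-- the sum over the pieces, grouped by the half length -/
lemma pieces {n : ℕ} {s rho C θ κ : ℝ} (hC : 0 < C) (hθ : 0 < θ) (hκ : 0 < κ)
    (hcrit : Crit n s rho) (ht : Tails C θ n s rho) {θ' : ℝ} (hθ' : 0 < θ') (hθ'1 : θ' < 1)
    (hle : Real.exp κ * θ ≤ θ') :
    ∑ p ∈ Pc (2 * n - 1), (rho * Real.exp κ) ^ hl p * s ^ (hl p - htn p) ≤
      1 + C * κ * ∑' m : ℕ, (m : ℝ) * θ' ^ m := by
  have hrho := hcrit.1
  have hsum := hcrit.2
  have hsm : Summable (fun m : ℕ => (m : ℝ) * θ' ^ m) := by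
    have := summable_pow_mul_geometric_of_norm_lt_one (R := ℝ) 1
      (r := θ') (by rw [Real.norm_eq_abs, abs_of_pos hθ']; exact hθ'1)
    simpa using this
  have h1 : ∑ p ∈ Pc (2 * n - 1), (rho * Real.exp κ) ^ hl p * s ^ (hl p - htn p) =
      1 + ∑ p ∈ Pc (2 * n - 1), rho ^ hl p * s ^ (hl p - htn p) * (Real.exp (κ * hl p) - 1) := by
    have h0 : ∑ p ∈ Pc (2 * n - 1), (rho * Real.exp κ) ^ hl p * s ^ (hl p - htn p) =
        ∑ p ∈ Pc (2 * n - 1), (rho ^ hl p * s ^ (hl p - htn p) +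
          rho ^ hl p * s ^ (hl p - htn p) * (Real.exp (κ * hl p) - 1)) := by
      refine Finset.sum_congr rfl fun p _ => ?_
      rw [mul_pow, ← Real.exp_nat_mul, mul_comm (hl p : ℝ) κ]
      ring
    rw [h0, Finset.sum_add_distrib, hsum]
  rw [h1]
  refine (add_le_add_iff_left 1).mpr ?_
  have h2 : ∑ p ∈ Pc (2 * n - 1), rho ^ hl p * s ^ (hl p - htn p) * (Real.exp (κ * hl p) - 1) =
      ∑ m ∈ (Pc (2 * n - 1)).image hl, ∑ p ∈ (Pc (2 * n - 1)).filter (fun p => hl p = m),
        rho ^ hl p * s ^ (hl p - htn p) * (Real.exp (κ * hl p) - 1) := by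
    rw [Finset.sum_fiberwise_of_maps_to]
    intro p hp
    exact Finset.mem_image_of_mem _ hp
  rw [h2]
  calc ∑ m ∈ (Pc (2 * n - 1)).image hl, ∑ p ∈ (Pc (2 * n - 1)).filter (fun p => hl p = m),
        rho ^ hl p * s ^ (hl p - htn p) * (Real.exp (κ * hl p) - 1)
      ≤ ∑ m ∈ (Pc (2 * n - 1)).image hl, C * κ * ((m : ℝ) * θ' ^ m) := by
        refine Finset.sum_le_sum fun m _ => ?_
        have h3 : ∑ p ∈ (Pc (2 * n - 1)).filter (fun p => hl p = m),
            rho ^ hl p * s ^ (hl p - htn p) * (Real.exp (κ * hl p) - 1) =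
            (Real.exp (κ * m) - 1) * ∑ p ∈ (Pc (2 * n - 1)).filter (fun p => hl p = m),
              rho ^ m * s ^ (m - htn p) := by
          rw [Finset.mul_sum]
          refine Finset.sum_congr rfl fun p hp => ?_
          rw [Finset.mem_filter] at hp
          rw [hp.2]
          ring
        rw [h3]
        have h4 := ht.1 m
        have h5 : 0 ≤ Real.exp (κ * m) - 1 := by
          have := Real.add_one_le_exp (κ * m)
          have h6 : 0 ≤ κ * m := by positivity
          linarith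
        calc (Real.exp (κ * m) - 1) * ∑ p ∈ (Pc (2 * n - 1)).filter (fun p => hl p = m),
              rho ^ m * s ^ (m - htn p)
            ≤ (Real.exp (κ * m) - 1) * (C * θ ^ m) := mul_le_mul_of_nonneg_left h4 h5
          _ ≤ (κ * m * Real.exp (κ * m)) * (C * θ ^ m) := by
              refine mul_le_mul_of_nonneg_right (exp_sub_one_le _) (by positivity)
          _ = C * κ * (m * (Real.exp κ * θ) ^ m) := by
              rw [mul_pow, ← Real.exp_nat_mul, mul_comm (m : ℝ) κ]
              ring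
          _ ≤ C * κ * ((m : ℝ) * θ' ^ m) := by
              have h7 : (Real.exp κ * θ) ^ m ≤ θ' ^ m :=
                pow_le_pow_left₀ (by positivity) hle m
              have h8 : 0 ≤ C * κ := by positivity
              have h9 : (0 : ℝ) ≤ m := Nat.cast_nonneg m
              exact mul_le_mul_of_nonneg_left (mul_le_mul_of_nonneg_left h7 h9) h8
    _ = C * κ * ∑ m ∈ (Pc (2 * n - 1)).image hl, ((m : ℝ) * θ' ^ m) := by rw [Finset.mul_sum]
    _ ≤ C * κ * ∑' m : ℕ, (m : ℝ) * θ' ^ m := by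
        refine mul_le_mul_of_nonneg_left ?_ (by positivity)
        refine hsm.sum_le_tsum _ fun m _ => by positivity

/-- the caps -/
lemma caps {n : ℕ} {s rho C θ κ : ℝ} (hs : 0 < s) (hC : 0 < C) (hθ : 0 < θ)
    (hcrit : Crit n s rho) (ht : Tails C θ n s rho) {θ' : ℝ} (hθ' : 0 < θ') (hθ'1 : θ' < 1)
    (hle : Real.exp κ * θ ≤ θ') :
    0 ≤ capK n s (rho * Real.exp κ) ∧ capK n s (rho * Real.exp κ) ≤ C * (1 - θ')⁻¹ := by
  have hrho := hcrit.1
  unfold capK
  refine ⟨?_, ?_⟩
  · refine Finset.sum_nonneg fun m _ => Finset.sum_nonneg fun x _ => Finset.sum_nonneg fun T _ => ?_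
    positivity
  · have hg : Summable (fun m : ℕ => θ' ^ m) := summable_geometric_of_lt_one hθ'.le hθ'1
    calc ∑ m ∈ range (n + 1), ∑ x ∈ Icc (1 : ℤ) m, ∑ T ∈ CapSet (2 * n - 1) x (2 * m),
          (rho * Real.exp κ) ^ m * s ^ (m - hgt T)
        ≤ ∑ m ∈ range (n + 1), C * θ' ^ m := by
          refine Finset.sum_le_sum fun m _ => ?_
          have h1 : ∑ x ∈ Icc (1 : ℤ) m, ∑ T ∈ CapSet (2 * n - 1) x (2 * m),
              (rho * Real.exp κ) ^ m * s ^ (m - hgt T) =
              Real.exp κ ^ m * ∑ x ∈ Icc (1 : ℤ) m, ∑ T ∈ CapSet (2 * n - 1) x (2 * m),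
                rho ^ m * s ^ (m - hgt T) := by
            rw [Finset.mul_sum]
            refine Finset.sum_congr rfl fun x _ => ?_
            rw [Finset.mul_sum]
            refine Finset.sum_congr rfl fun T _ => ?_
            rw [mul_pow]
            ring
          rw [h1]
          calc Real.exp κ ^ m * ∑ x ∈ Icc (1 : ℤ) m, ∑ T ∈ CapSet (2 * n - 1) x (2 * m),
                rho ^ m * s ^ (m - hgt T)
              ≤ Real.exp κ ^ m * (C * θ ^ m) :=
                mul_le_mul_of_nonneg_left (ht.2.1 m) (by positivity)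
            _ = C * (Real.exp κ * θ) ^ m := by rw [mul_pow]; ring
            _ ≤ C * θ' ^ m :=
                mul_le_mul_of_nonneg_left (pow_le_pow_left₀ (by positivity) hle m) hC.le
      _ = C * ∑ m ∈ range (n + 1), θ' ^ m := by rw [Finset.mul_sum]
      _ ≤ C * (1 - θ')⁻¹ := by
          refine mul_le_mul_of_nonneg_left ?_ hC.le
          rw [← tsum_geometric_of_lt_one hθ'.le hθ'1]
          exact hg.sum_le_tsum _ fun m _ => by positivity

lemma wtq_nonneg (n : ℕ) {s : ℝ} (hs : 0 < s) (q : QI) : 0 ≤ wtq n s q := by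
  unfold wtq
  positivity

lemma Zq_nonneg (n : ℕ) {s : ℝ} (hs : 0 < s) : 0 ≤ Zq n s :=
  Finset.sum_nonneg fun q _ => wtq_nonneg n hs q

/-- polynomial against exponential -/
lemma eventually_small (K κ : ℝ) (hκ : 0 < κ) :
    ∃ N : ℕ, ∀ n : ℕ, N ≤ n → K * sc n * Real.exp (-(κ * n)) ≤ 1 := by
  have h1 : Tendsto (fun x : ℝ => x ^ 2 * Real.exp (-(κ * x))) atTop (𝓝 0) := by
    have := Real.tendsto_pow_mul_exp_neg_atTop_nhds_zero 2
    have h2 : Tendsto (fun x : ℝ => κ * x) atTop atTop := tendsto_id.const_mul_atTop hκ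
    have h3 := (this.comp h2).const_mul ((κ ^ 2)⁻¹)
    rw [mul_zero] at h3
    refine h3.congr fun x => ?_
    simp only [Function.comp_apply]
    field_simp
  have h2 := (h1.comp tendsto_natCast_atTop_atTop).const_mul |K|
  rw [mul_zero] at h2
  have h3 := h2.eventually_le_const (show (0 : ℝ) < 1 by norm_num)
  rw [eventually_atTop] at h3
  obtain ⟨N, hN⟩ := h3
  refine ⟨N, fun n hn => ?_⟩
  have h4 := hN n hn
  simp only [Function.comp_apply] at h4
  have h5 : sc n ≤ (n : ℝ) ^ 2 := by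
    unfold sc
    rcases Nat.eq_zero_or_pos n with h | h
    · subst h; simp
    · have h6 : (1 : ℝ) ≤ n := by exact_mod_cast h
      have h7 : Real.sqrt n ≤ n := by
        rw [Real.sqrt_le_left (by linarith)]
        nlinarith
      nlinarith
  have h0 : 0 ≤ sc n := by unfold sc; positivity
  calc K * sc n * Real.exp (-(κ * n)) ≤ |K| * (n : ℝ) ^ 2 * Real.exp (-(κ * n)) := by
        refine mul_le_mul_of_nonneg_right ?_ (Real.exp_pos _).le
        exact mul_le_mul (le_abs_self K) h5 h0 (abs_nonneg K)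
    _ = |K| * ((n : ℝ) ^ 2 * Real.exp (-(κ * n))) := by ring
    _ ≤ 1 := h4

end Pool.Agent.FS.KBIG

namespace Pool.Agent.FS

open Finset Filter Topology
open Pool.Agent.Lib27 Pool.Agent.SapR Pool.Agent.Gap Pool.Agent.AreaLaw Pool.Agent.FL
open KBIG

theorem KBIG_thm (hZB : ZB_Stmt) : KBIG_Stmt := by
  intro s0 s1 hs0 hs01 hs1
  obtain ⟨C, θ, hC, hθ, hθ1, N, hN⟩ := hZB s1 (hs0.trans_le hs01) hs1
  -- the parameters
  set θ' : ℝ := (1 + θ) / 2 with hθ'def
  have hθ' : 0 < θ' := by rw [hθ'def]; linarith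
  have hθ'1 : θ' < 1 := by rw [hθ'def]; linarith
  have hθθ' : θ < θ' := by rw [hθ'def]; linarith
  set S : ℝ := ∑' m : ℕ, (m : ℝ) * θ' ^ m with hSdef
  have hS : 0 ≤ S := tsum_nonneg fun m => by positivity
  set δ : ℝ := (1 / 2) * ((1 / 100) ^ 6 * s0 ^ 2) with hδdef
  have hδ : 0 < δ := by rw [hδdef]; positivity
  set κ : ℝ := min (Real.log (θ' / θ)) (δ / (C * S + 1)) with hκdef
  have hlog : 0 < Real.log (θ' / θ) := Real.log_pos (by rw [one_lt_div hθ]; exact hθθ')
  have hκ : 0 < κ := lt_min hlog (by positivity)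
  have hle : Real.exp κ * θ ≤ θ' := by
    have h1 : Real.exp κ ≤ θ' / θ := by
      rw [← Real.exp_log (show 0 < θ' / θ by positivity)]
      exact Real.exp_le_exp.mpr (min_le_left _ _)
    calc Real.exp κ * θ ≤ θ' / θ * θ := mul_le_mul_of_nonneg_right h1 hθ.le
      _ = θ' := by field_simp
  have hκS : C * κ * S ≤ δ := by
    have h1 : κ ≤ δ / (C * S + 1) := min_le_right _ _
    have h2 : 0 < C * S + 1 := by positivity
    calc C * κ * S = κ * (C * S) := by ring
      _ ≤ δ / (C * S + 1) * (C * S) := mul_le_mul_of_nonneg_right h1 (by positivity)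
      _ ≤ δ / (C * S + 1) * (C * S + 1) := mul_le_mul_of_nonneg_left (by linarith) (by positivity)
      _ = δ := by field_simp
  set C' : ℝ := C * (1 - θ')⁻¹ with hC'def
  obtain ⟨N', hN'⟩ := eventually_small (C' ^ 2 * C) (κ / 2) (by positivity)
  refine ⟨κ / 4, by positivity, max 6 (max N N'), le_max_left _ _, ?_⟩
  intro n hn s hs0s hss1 k σ hσ
  have hnN : N ≤ n := (le_max_left N N').trans ((le_max_right _ _).trans hn)
  have hnN' : N' ≤ n := (le_max_right N N').trans ((le_max_right _ _).trans hn)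
  have hs : 0 < s := hs0.trans_le hs0s
  obtain ⟨rho, hcrit, htails, hr1, hr2, hZ1, hZ2⟩ := hN n hnN s hs hss1
  have hrho := hcrit.1
  have hp := pieces hC hθ hκ hcrit htails hθ' hθ'1 hle
  obtain ⟨hc0, hc1⟩ := caps hs hC hθ hcrit htails hθ' hθ'1 hle
  set rho' : ℝ := rho * Real.exp κ with hrho'def
  have hrho' : 0 < rho' := by positivity
  have hrr : rho ≤ rho' := by
    rw [hrho'def]
    have := Real.add_one_le_exp κ
    nlinarith
  -- the count
  have hcount := hσ.count s (1 / 2) rho' hs (by norm_num) hrho' (by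
    refine hp.trans ?_
    rw [← hSdef]
    have h1 : (1 / 100 : ℝ) ^ 6 ≤ rho' ^ 6 := pow_le_pow_left₀ (by norm_num) (hr1.trans hrr) 6
    have h2 : s0 ^ 2 ≤ s ^ 2 + s ^ 3 := by
      have : s0 ^ 2 ≤ s ^ 2 := pow_le_pow_left₀ hs0.le hs0s 2
      have h3 : 0 < s ^ 3 := by positivity
      linarith
    have h3 : (1 / 100 : ℝ) ^ 6 * s0 ^ 2 ≤ rho' ^ 6 * (s ^ 2 + s ^ 3) :=
      mul_le_mul h1 h2 (by positivity) (by positivity)
    have h4 : δ ≤ (1 - 1 / 2) * (rho' ^ 6 * (s ^ 2 + s ^ 3)) := by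
      rw [hδdef]
      linarith
    linarith)
  have hcap2 : (capK n s rho') ^ 2 ≤ C' ^ 2 := pow_le_pow_left₀ hc0 hc1 2
  have hcount2 := hcount.trans hcap2
  -- the sum over the skeletons with few tokens
  set E : ℝ := ∑ i, s ^ (n - (σ i).H) * ((1 + s) * (1 / 2)) ^ (σ i).l.length with hEdef
  have hE : E ≤ C' ^ 2 * (rho' ^ n)⁻¹ := by
    rw [← div_eq_mul_inv, le_div_iff₀ (by positivity)]
    linarith
  have hfew : ∑ i ∈ univ.filter (fun i : Fin k => ((σ i).l.length : ℝ) < κ / 4 * n),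
      vsk n s (σ i) ≤ Real.exp (κ / 4 * n) * E := by
    rw [hEdef, Finset.mul_sum]
    refine (Finset.sum_le_sum (fun i hi => ?_)).trans
      (Finset.sum_le_sum_of_subset_of_nonneg (Finset.filter_subset _ _) fun i _ _ => ?_)
    · rw [Finset.mem_filter] at hi
      unfold vsk
      have h1 : (1 + s) ^ (σ i).l.length =
          2 ^ (σ i).l.length * ((1 + s) * (1 / 2)) ^ (σ i).l.length := by
        rw [← mul_pow]
        congr 1
        ring
      rw [h1]
      have h2 : (2 : ℝ) ^ (σ i).l.length ≤ Real.exp (κ / 4 * n) := by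
        have h3 : (2 : ℝ) ≤ Real.exp 1 := by
          have := Real.add_one_le_exp (1 : ℝ)
          linarith
        calc (2 : ℝ) ^ (σ i).l.length ≤ Real.exp 1 ^ (σ i).l.length :=
              pow_le_pow_left₀ (by norm_num) h3 _
          _ = Real.exp ((σ i).l.length : ℝ) := by
              rw [← Real.exp_nat_mul, mul_one]
          _ ≤ Real.exp (κ / 4 * n) := Real.exp_le_exp.mpr hi.2.le
      have h4 : 0 ≤ s ^ (n - (σ i).H) * ((1 + s) * (1 / 2)) ^ (σ i).l.length := by positivity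
      calc s ^ (n - (σ i).H) * (2 ^ (σ i).l.length * ((1 + s) * (1 / 2)) ^ (σ i).l.length)
          = 2 ^ (σ i).l.length * (s ^ (n - (σ i).H) * ((1 + s) * (1 / 2)) ^ (σ i).l.length) := by
            ring
        _ ≤ Real.exp (κ / 4 * n) *
            (s ^ (n - (σ i).H) * ((1 + s) * (1 / 2)) ^ (σ i).l.length) :=
            mul_le_mul_of_nonneg_right h2 h4
    · positivity
  have hZ : (rho ^ n)⁻¹ ≤ C * sc n * Zq n s := by
    have h1 : 0 < rho ^ n := by positivity
    rw [inv_le_iff_one_le_mul₀ h1]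
    have h2 : C * C⁻¹ ≤ C * (sc n * rho ^ n * Zq n s) := mul_le_mul_of_nonneg_left hZ1 hC.le
    rw [mul_inv_cancel₀ hC.ne'] at h2
    linarith
  have hZq := Zq_nonneg n (s := s) hs
  have hr' : (rho' ^ n)⁻¹ = Real.exp (-(κ * n)) * (rho ^ n)⁻¹ := by
    rw [hrho'def, mul_pow, mul_inv, ← Real.exp_nat_mul, Real.exp_neg, mul_comm (n : ℝ) κ,
      mul_comm]
  have hsmall := hN' n hnN'
  calc ∑ i ∈ univ.filter (fun i : Fin k => ((σ i).l.length : ℝ) < κ / 4 * n), vsk n s (σ i)
      ≤ Real.exp (κ / 4 * n) * E := hfew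
    _ ≤ Real.exp (κ / 4 * n) * (C' ^ 2 * (rho' ^ n)⁻¹) :=
        mul_le_mul_of_nonneg_left hE (Real.exp_pos _).le
    _ = Real.exp (κ / 4 * n) * (C' ^ 2 * (Real.exp (-(κ * n)) * (rho ^ n)⁻¹)) := by rw [hr']
    _ ≤ Real.exp (κ / 4 * n) * (C' ^ 2 * (Real.exp (-(κ * n)) * (C * sc n * Zq n s))) := by
        gcongr
    _ = Real.exp (-(κ / 4 * n)) *
        ((C' ^ 2 * C * sc n * Real.exp (-(κ / 2 * n))) * Zq n s) := by
        have h1 : Real.exp (κ / 4 * n) * Real.exp (-(κ * n)) =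
            Real.exp (-(κ / 4 * n)) * Real.exp (-(κ / 2 * n)) := by
          rw [← Real.exp_add, ← Real.exp_add]
          congr 1
          ring
        calc Real.exp (κ / 4 * n) * (C' ^ 2 * (Real.exp (-(κ * n)) * (C * sc n * Zq n s)))
            = (Real.exp (κ / 4 * n) * Real.exp (-(κ * n))) * (C' ^ 2 * C * sc n * Zq n s) := by
              ring
          _ = (Real.exp (-(κ / 4 * n)) * Real.exp (-(κ / 2 * n))) *
              (C' ^ 2 * C * sc n * Zq n s) := by rw [h1]
          _ = _ := by ring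
    _ ≤ Real.exp (-(κ / 4 * n)) * (1 * Zq n s) := by
        refine mul_le_mul_of_nonneg_left ?_ (Real.exp_pos _).le
        exact mul_le_mul_of_nonneg_right hsmall hZq
    _ = Real.exp (-(κ / 4 * n)) * Zq n s := by rw [one_mul]

end Pool.Agent.FS
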