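import Pool.Agent.Lib_helper74.FS.Stmts
import Pool.Agent.Lib_helper89.FL.ZBound

/-!
# Module FS_LAPC: asymptotic continuity of the Laplace transforms in `s`
-/

set_option autoImplicit false

namespace Pool.Agent.FS.LAPC

open Finset Filter Topology MeasureTheory
open Pool.Agent.Lib27 Pool.Agent.SapR Pool.Agent.Gap Pool.Agent.AreaLaw Pool.Agent.FL
open Pool.Agent.FL.GFIN Pool.Agent.FL.Bound

/-- the data of `FL.exists_dat` with the concrete kernel -/
lemma exists_datK (hMG : MG_Stmt) (hMG2 : MGI2_Stmt) (hHG : HG_Stmt) (s1 : ℝ) (h0 : 0 < s1)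
    (h1 : s1 < 1) : ∃ C θ : ℝ, 0 < C ∧ 0 < θ ∧ θ < 1 ∧ ∃ N0 : ℕ, 2 ≤ N0 ∧ ∀ n : ℕ, N0 ≤ n →
      ∀ (s : ℝ) (hs : 0 < s), s ≤ s1 → ∃ D : Dat C θ n s, D.G = KW.kern (2 * n - 1) s hs := by
  obtain ⟨C, θ, hC, hθ, hθ1, n0, h⟩ := hMG s1 h0 h1
  refine ⟨max C 100, θ, lt_max_of_lt_left hC, hθ, hθ1, max n0 2, le_max_right _ _, ?_⟩
  intro n hn s hs hs1
  have hn0 : n0 ≤ n := (le_max_left _ _).trans hn
  have hn1 : 1 ≤ n := by
    have : 2 ≤ n := (le_max_right _ _).trans hn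
    omega
  have hcrit := KW.kern_crit hHG (2 * n - 1) s hs
  have htot := KW.kern_level hHG (2 * n - 1) s hs
  have hT := (h n s (KW.kern (2 * n - 1) s hs).rho hn0 hs hs1 (KW.kern (2 * n - 1) s hs).rho_pos
    hcrit).mono (le_max_left C 100) hθ
  have hrho := hMG2.2 n s (KW.kern (2 * n - 1) s hs).rho hn1 hs (hs1.trans h1.le)
    (KW.kern (2 * n - 1) s hs).rho_pos hcrit
  have hCi : (max C 100)⁻¹ ≤ 1 / 100 := by
    rw [← one_div]
    exact one_div_le_one_div_of_le (by norm_num) (le_max_right _ _)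
  refine ⟨⟨KW.kern (2 * n - 1) s hs, KW.wB (2 * n - 1) s,
    ⟨KW.kern_loc _ s hs, hCi.trans hrho.1, ?_⟩,
    ⟨KW.isCap n s hn1 hs, ?_, KW.cap_supp n s, ?_⟩, KW.sol hHG (2 * n - 1) s hs,
    KW.count hHG n hn1 s, hcrit, hT⟩, rfl⟩
  · intro m
    have h2 := hT.1 m
    rw [← Finset.mul_sum] at h2 ⊢
    rw [htot m]
    exact h2
  · refine (hCi.trans (by norm_num)).trans (KW.cap_one n s hn1 hs)
  · intro m
    have h2 := hT.2.1 m
    refine le_trans (le_of_eq ?_) h2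
    refine Finset.sum_congr rfl fun g hg => ?_
    rw [Finset.mem_Icc] at hg
    unfold capW
    rw [if_pos hg.1, Finset.mul_sum]

/-- Laplace transform of the data -/
noncomputable def lp {C θ : ℝ} (D : Dt C θ) (n : ℕ) (lam : ℝ) : ℝ :=
  (closeP D.C0 D.t D.B n).eval (Real.exp (-(epsn lam n))) / (closeP D.C0 D.t D.B n).eval 1

/-- `lapQ` is the Laplace transform of the data -/
lemma lapQ_eq {C θ : ℝ} {n : ℕ} {s : ℝ} (D : Dat C θ n s) (lam : ℝ) :
    lapQ n s lam = lp D.dt n lam := by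
  have key : ∀ y : ℝ, ∑ q ∈ Omn n, wtq n s q * y ^ (arq n q) =
      (closeP (2 * n) (capW n s) D.B n).eval y := by
    intro y
    have h := congrArg (Polynomial.eval y) D.count
    rw [Polynomial.eval_finsetSum] at h
    rw [← h]
    refine Finset.sum_congr rfl fun q _ => ?_
    rw [Polynomial.eval_mul, Polynomial.eval_C, Polynomial.eval_pow, Polynomial.eval_X]
    rfl
  have e1 : lp D.dt n lam = (closeP (2 * n) (capW n s) D.B n).eval (Real.exp (-(epsn lam n))) /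
      (closeP (2 * n) (capW n s) D.B n).eval 1 := rfl
  rw [e1, ← key, ← key]
  unfold lapQ Zq
  congr 1
  · refine Finset.sum_congr rfl fun q _ => ?_
    congr 1
    rw [← Real.exp_nat_mul]
    congr 1
    unfold ra sc epsn
    ring
  · refine Finset.sum_congr rfl fun q _ => ?_
    rw [one_pow, mul_one]

/-- ratio of the area parameters -/
noncomputable def kk (q : ℝ × ℝ × ℝ) : ℝ :=
  q.2.1 / (2 * q.2.2) * (2 * q.2.2 / q.1) ^ (3 / 2 : ℝ)

/-- limit of the Laplace transforms along a sequence with convergent parameters -/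
theorem seq_lap (hLT : GLT_Stmt) {L : ℝ → ℝ} (hL0 : 0 < L 0)
    (hL : ∀ lam : ℝ, 0 ≤ lam → Tendsto (fun n : ℕ => ((n : ℝ) * Real.sqrt n) * (1 / 4 : ℝ) ^ n
        * (closeP 1 cap1 B0 n).eval (Real.exp (-(epsn lam n)))) atTop (𝓝 (L lam)))
    {C θ : ℝ} (hC : 0 < C) (hθ : 0 < θ) (hθ1 : θ < 1) (D : ℕ → Dt C θ) (q : ℝ × ℝ × ℝ)
    (hq1 : 0 < q.1) (hq2 : 0 < q.2.1) (hq3 : 0 < q.2.2)
    (hlim : Tendsto (fun n => par (D n).G) atTop (𝓝 q)) (lam : ℝ) (hlam : 0 ≤ lam) :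
    Tendsto (fun n => lp (D n) n lam) atTop (𝓝 (L (kk q * lam) / L 0)) := by
  obtain ⟨C1, hC1, hLT1⟩ := hLT C θ hC hθ hθ1
  have hKS : KSeq C θ (fun n => (D n).G) q.1 q.2.1 q.2.2 := by
    refine ⟨fun n => (D n).cls, ?_, ?_, ?_⟩
    · exact (continuous_fst.tendsto q).comp hlim
    · exact ((continuous_fst.comp continuous_snd).tendsto q).comp hlim
    · exact ((continuous_snd.comp continuous_snd).tendsto q).comp hlim
  obtain ⟨cr, hcr, hLT'⟩ := hLT1 (fun n => (D n).G) q.1 q.2.1 q.2.2 (fun n => (D n).C0)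
    (fun n => (D n).s) (fun n => (D n).t) (fun n => (D n).B) hKS (fun n => (D n).cs)
    (fun n => (D n).ct) (fun n => (D n).sol) B0 B0_isSol
  have hcr0 : ∀ n, 0 < cr n := fun n => lt_of_lt_of_le (inv_pos.2 hC1) (hcr n).1
  obtain ⟨β, hβ⟩ : ∃ β, β = 2 * q.2.2 / q.1 := ⟨_, rfl⟩
  have hβ0 : 0 < β := by rw [hβ]; positivity
  obtain ⟨k, hk⟩ : ∃ k, k = kk q := ⟨_, rfl⟩
  have hk0 : 0 < k := by rw [hk]; unfold kk; positivity
  have hlam0 : ∀ lam, lamS q.1 q.2.1 q.2.2 lam = k * lam := fun lam => by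
    unfold lamS; rw [hk]; rfl
  -- the scale
  set n0 : ℕ → ℕ := fun n => ⌊β * n⌋₊ with hn0
  have h1 : Tendsto (fun n : ℕ => (n0 n : ℝ) / n) atTop (𝓝 (2 * q.2.2 / q.1)) := by
    rw [← hβ]
    exact (tendsto_nat_floor_mul_div_atTop hβ0.le).comp tendsto_natCast_atTop_atTop
  have h2 : Tendsto n0 atTop atTop :=
    tendsto_nat_floor_atTop.comp (tendsto_natCast_atTop_atTop.const_mul_atTop hβ0)
  have h3 := hLT' n0 h1
  -- the scaled evaluations divided by `cr`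
  have h4 : ∀ lam : ℝ, 0 ≤ lam → Tendsto (fun n : ℕ => ((n : ℝ) * Real.sqrt n) *
      (D n).G.rho ^ n * (closeP (D n).C0 (D n).t (D n).B n).eval (Real.exp (-(epsn lam n))) /
        cr n) atTop (𝓝 (L (k * lam))) := by
    intro lam hlam
    have h5 := h3 lam hlam
    have h6 := (hL (k * lam) (by positivity)).comp h2
    have h8 : Tendsto (fun n : ℕ => (((n : ℝ) * Real.sqrt n) * (D n).G.rho ^ n
          * (closeP (D n).C0 (D n).t (D n).B n).eval (Real.exp (-(epsn lam n)))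
        - cr n * (((n0 n : ℝ) * Real.sqrt (n0 n)) * (1 / 4 : ℝ) ^ (n0 n)
          * (closeP 1 cap1 B0 (n0 n)).eval
            (Real.exp (-(epsn (lamS q.1 q.2.1 q.2.2 lam) (n0 n)))))) / cr n) atTop (𝓝 0) := by
      refine squeeze_zero_norm (a := fun n : ℕ => C1 * |((n : ℝ) * Real.sqrt n) *
          (D n).G.rho ^ n
          * (closeP (D n).C0 (D n).t (D n).B n).eval (Real.exp (-(epsn lam n)))
        - cr n * (((n0 n : ℝ) * Real.sqrt (n0 n)) * (1 / 4 : ℝ) ^ (n0 n)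
          * (closeP 1 cap1 B0 (n0 n)).eval
            (Real.exp (-(epsn (lamS q.1 q.2.1 q.2.2 lam) (n0 n)))))|) (fun n => ?_)
        (by simpa using h5.abs.const_mul C1)
      rw [Real.norm_eq_abs, abs_div, abs_of_pos (hcr0 n), div_eq_inv_mul]
      refine mul_le_mul_of_nonneg_right ?_ (abs_nonneg _)
      rw [inv_le_comm₀ (hcr0 n) hC1]
      exact (hcr n).1
    have h7 := h8.add h6
    rw [zero_add] at h7
    refine h7.congr fun n => ?_
    have hne := (hcr0 n).ne'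
    simp only [Function.comp_apply, hlam0]
    field_simp
    ring
  have h40 := h4 0 le_rfl
  simp only [epsn_zero, neg_zero, Real.exp_zero, mul_zero] at h40
  have hlow : ∀ᶠ n : ℕ in atTop, C1⁻¹ * (L 0 / 2) ≤ ((n : ℝ) * Real.sqrt n) *
      (D n).G.rho ^ n * (closeP (D n).C0 (D n).t (D n).B n).eval 1 := by
    filter_upwards [h40.eventually (lt_mem_nhds (half_lt_self hL0))] with n hn
    rw [lt_div_iff₀ (hcr0 n)] at hn
    refine le_trans ?_ hn.le
    rw [mul_comm]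
    exact mul_le_mul_of_nonneg_left (hcr n).1 (by positivity)
  rw [← hk]
  have h9 := (h4 lam hlam).div h40 hL0.ne'
  refine h9.congr' ?_
  filter_upwards [eventually_ge_atTop 1, hlow] with n hn hlw
  have hn0 : (0 : ℝ) < n := by exact_mod_cast hn
  have hs : 0 < Real.sqrt n := Real.sqrt_pos.2 hn0
  have hq : 0 < (D n).G.rho ^ n := pow_pos (D n).G.rho_pos n
  have hne := (hcr0 n).ne'
  unfold lp
  rw [Pi.div_apply, div_div_div_cancel_right₀ hne, mul_div_mul_left]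
  positivity

/-- the parameters of two close sequences have the same limits -/
lemma par_close {s0 s1 C δ : ℝ} (hs0 : 0 < s0) (hC : 0 < C) {N : ℕ}
    (hP : ∀ n : ℕ, N ≤ n → ∀ (s s' : ℝ) (hs : 0 < s) (hs' : 0 < s'), s0 ≤ s → s ≤ s' →
      s' ≤ s1 → s' - s ≤ δ →
      |(KW.kern (2 * n - 1) s' hs').mbar - (KW.kern (2 * n - 1) s hs).mbar| ≤ C * (s' - s) ∧
      |(KW.kern (2 * n - 1) s' hs').hbar - (KW.kern (2 * n - 1) s hs).hbar| ≤ C * (s' - s) ∧
      |(KW.kern (2 * n - 1) s' hs').sig2 - (KW.kern (2 * n - 1) s hs).sig2| ≤ C * (s' - s))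
    {n : ℕ} (hn : N ≤ n) {s s' : ℝ} (hs : 0 < s) (hs' : 0 < s') (h1 : s0 ≤ s) (h2 : s ≤ s1)
    (h3 : s0 ≤ s') (h4 : s' ≤ s1) (h5 : |s - s'| ≤ δ) :
    dist (par (KW.kern (2 * n - 1) s' hs')) (par (KW.kern (2 * n - 1) s hs)) ≤
      C * |s - s'| := by
  have key : ∀ (a b : ℝ) (ha : 0 < a) (hb : 0 < b), s0 ≤ a → a ≤ b → b ≤ s1 → b - a ≤ δ →
      dist (par (KW.kern (2 * n - 1) b hb)) (par (KW.kern (2 * n - 1) a ha)) ≤
        C * |a - b| := by
    intro a b ha hb g1 g2 g3 g4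
    obtain ⟨p1, p2, p3⟩ := hP n hn a b ha hb g1 g2 g3 g4
    have e : |a - b| = b - a := by
      rw [abs_sub_comm, abs_of_nonneg (by linarith)]
    rw [e]
    unfold par
    rw [Prod.dist_eq, Prod.dist_eq]
    simp only [Real.dist_eq]
    exact max_le p1 (max_le p2 p3)
  rcases le_total s s' with h | h
  · refine key s s' hs hs' h1 h h4 ?_
    rw [abs_sub_comm, abs_of_nonneg (by linarith)] at h5
    exact h5
  · have := key s' s hs' hs h3 h h2 (by
      rw [abs_of_nonneg (by linarith)] at h5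
      exact h5)
    rw [dist_comm, abs_sub_comm] at this
    exact this

end Pool.Agent.FS.LAPC

namespace Pool.Agent.FS

open Finset Filter Topology MeasureTheory
open Pool.Agent.Lib27 Pool.Agent.SapR Pool.Agent.Gap Pool.Agent.AreaLaw Pool.Agent.FL
open Pool.Agent.FL.GFIN Pool.Agent.FL.Bound LAPC

/-- MODULE FS_LAPC -/
theorem LAPC_thm (hPARC : PARC_Stmt) (hLT : GLT_Stmt) (hHG : HG_Stmt) (hMG : MG_Stmt)
    (hMG2 : MGI2_Stmt) (oLT1 : Gap.LT1_Stmt) (oM2 : Gap.M2_Stmt) (oBAL : Gap.BAL_Stmt) :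
    LAPC_Stmt := by
  intro s0 s1 K lam hs0 hs01 hs1 hK hlam s s' hs hs' hss
  have hs1' : 0 < s1 := lt_of_lt_of_le hs0 hs01
  obtain ⟨L, m0, C', hL0, hm0, hC', hL, hexp⟩ := stair_side oLT1 oM2 oBAL
  obtain ⟨C, θ, hC, hθ, hθ1, N0, hN0, hD⟩ := exists_datK hMG hMG2 hHG s1 hs1' hs1
  obtain ⟨CP, δ, hCP, hδ, N, hP⟩ := hPARC s0 s1 hs0 hs01 hs1
  -- the data of a sequence
  have hdata : ∀ u : ℕ → ℝ, (∀ n, s0 ≤ u n ∧ u n ≤ s1) → ∃ E : ℕ → Dt C θ,
      ∀ n, N0 ≤ n → (∀ lam, lapQ n (u n) lam = lp (E n) n lam) ∧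
        ∀ hu : 0 < u n, (E n).G = KW.kern (2 * n - 1) (u n) hu := by
    intro u hu
    have hu0 : ∀ n, 0 < u n := fun n => lt_of_lt_of_le hs0 (hu n).1
    choose D hDG using fun n (hn : N0 ≤ n) => hD n hn (u n) (hu0 n) (hu n).2
    classical
    refine ⟨fun n => if h : N0 ≤ n then (D n h).dt else (D N0 le_rfl).dt, fun n hn => ?_⟩
    simp only [dif_pos hn]
    exact ⟨fun lam => lapQ_eq (D n hn) lam, fun _ => hDG n hn⟩
  obtain ⟨E, hE⟩ := hdata s hs
  obtain ⟨E', hE'⟩ := hdata s' hs'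
  refine tendsto_of_subseq_tendsto fun ns hns => ?_
  obtain ⟨φ, hφ, hφ'⟩ := strictMono_subseq_of_tendsto_atTop hns
  obtain ⟨M, hM⟩ := par_mem hC hθ hθ1
  obtain ⟨q, hq, χ, hχ, hlim⟩ := (isCompact_Icc (a := ((1 : ℝ), (1 : ℝ), C⁻¹))
    (b := (M, M, M))).tendsto_subseq (x := fun k => par (E (ns (φ k))).G)
    (fun k => hM _ (E (ns (φ k))).cls)
  rw [Set.mem_Icc] at hq
  have hq1 : 0 < q.1 := lt_of_lt_of_le one_pos hq.1.1
  have hq2 : 0 < q.2.1 := lt_of_lt_of_le one_pos hq.1.2.1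
  have hq3 : 0 < q.2.2 := lt_of_lt_of_le (inv_pos.2 hC) hq.1.2.2
  set m : ℕ → ℕ := fun k => ns (φ (χ k)) with hm
  have hmm : StrictMono m := hφ'.comp hχ
  have hmt := hmm.tendsto_atTop
  have hlim1 : Tendsto (fun k => par (E (m k)).G) atTop (𝓝 q) := hlim
  -- the second sequence has the same limit
  have hbd : Tendsto (fun k => K / Real.sqrt (m k : ℝ)) atTop (𝓝 0) := by
    have h1 : Tendsto (fun k => Real.sqrt (m k : ℝ)) atTop atTop :=
      Real.tendsto_sqrt_atTop.comp (tendsto_natCast_atTop_atTop.comp hmt)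
    exact h1.const_div_atTop K
  have hlim2 : Tendsto (fun k => par (E' (m k)).G) atTop (𝓝 q) := by
    refine tendsto_of_tendsto_of_dist hlim1 ?_
    refine squeeze_zero' (Eventually.of_forall fun k => dist_nonneg) ?_
      (g := fun k => CP * (K / Real.sqrt (m k : ℝ))) (by simpa using hbd.const_mul CP)
    filter_upwards [hbd.eventually (gt_mem_nhds hδ), hmt.eventually (eventually_ge_atTop N0),
      hmt.eventually (eventually_ge_atTop N), hmt.eventually (eventually_ge_atTop 1)]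
      with k k1 k2 k3 k4
    have hsk := hss (m k) k4
    have hp : 0 < s (m k) := lt_of_lt_of_le hs0 (hs _).1
    have hp' : 0 < s' (m k) := lt_of_lt_of_le hs0 (hs' _).1
    have h1 := par_close hs0 hCP hP k3 hp hp' (hs _).1 (hs _).2 (hs' _).1 (hs' _).2
      (hsk.trans k1.le)
    rw [(hE (m k) k2).2 hp, (hE' (m k) k2).2 hp', dist_comm]
    exact h1.trans (mul_le_mul_of_nonneg_left hsk hCP.le)
  have hfill : ∀ F : ℕ → Dt C θ, Tendsto (fun k => par (F (m k)).G) atTop (𝓝 q) →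
      Tendsto (fun k => lp (F (m k)) (m k) lam) atTop (𝓝 (L (kk q * lam) / L 0)) := by
    intro F hF
    have h1 := seq_lap hLT hL0 hL hC hθ hθ1 (fun n => F (m (lastIdx m n))) q hq1 hq2 hq3
      (hF.comp (lastIdx_tendsto hmm)) lam hlam
    refine (h1.comp hmt).congr fun k => ?_
    simp only [Function.comp_apply, lastIdx_self hmm]
  refine ⟨fun k => φ (χ k), ?_⟩
  have h1 := (hfill E hlim1).sub (hfill E' hlim2)
  rw [sub_self] at h1
  refine h1.congr' ?_
  filter_upwards [hmt.eventually (eventually_ge_atTop N0)] with k hk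
  rw [← (hE (m k) hk).1 lam, ← (hE' (m k) hk).1 lam]

end Pool.Agent.FS
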