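import Pool.Agent.Lib_helper74.FS.Stmts

set_option autoImplicit false

/-!
# FS_LOC: local regularity at fixed span (MP_f6626d_co)
-/

namespace Pool.Agent.FS.LOC

open Finset Filter Topology MeasureTheory
open Pool.Agent.Lib27 Pool.Agent.SapR Pool.Agent.Gap Pool.Agent.AreaLaw Pool.Agent.FL

lemma key {n k : ℕ} {σ : Fin k → Sk} (h : IsSkel n k σ) (s : ℝ) (G : ℤ → ℤ → ℤ → ℝ) :
    ∑ q ∈ Omn n, wtq n s q * G (sp q) (arq n q) (dq q) =
      ∑ i, s ^ (n - (σ i).H) * rs (σ i).l (fun j t => s ^ j * G ((σ i).H - j) ((σ i).A - t)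
        ((σ i).L - t + dlt * j)) := by
  have h1 := h.repr (fun a b c => s ^ (n - a.toNat) * G a b c)
  have h2 : ∀ q ∈ Omn n, wtq n s q * G (sp q) (arq n q) (dq q) =
      s ^ (n - (sp q : ℤ).toNat) * G (sp q) (arq n q) (dq q) := fun q _ => by
    rw [Int.toNat_natCast]; rfl
  rw [sum_congr rfl h2, h1]
  refine sum_congr rfl fun i _ => ?_
  rw [← rs_mul]
  refine rs_congr _ _ _ fun j t hj ht => ?_
  have h3 := h.len_le i
  have h4 := h.H_le i
  rw [← mul_assoc, ← pow_add]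
  congr 2
  omega

/-! ### sums over subsets -/

lemma rs_pow (s : ℝ) (l : List ℕ) : rs l (fun j _ => s ^ j) = (1 + s) ^ l.length := by
  induction l with
  | nil => simp
  | cons y l ih =>
    have h : rs l (fun j t => s ^ (j + 1)) = s * rs l (fun j _ => s ^ j) := by
      rw [← rs_mul]
      refine rs_congr _ _ _ fun j t _ _ => ?_
      ring
    simp only [rs_cons, List.length_cons]
    rw [h, ih]
    ring

lemma rs_powj (s : ℝ) (l : List ℕ) :
    (1 + s) * rs l (fun j _ => s ^ j * j) = l.length * s * (1 + s) ^ l.length := by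
  induction l with
  | nil => simp
  | cons y l ih =>
    have h : rs l (fun j t => s ^ (j + 1) * ((j + 1 : ℕ) : ℝ)) =
        s * rs l (fun j _ => s ^ j * j) + s * rs l (fun j _ => s ^ j) := by
      rw [← rs_mul, ← rs_mul, ← rs_add]
      refine rs_congr _ _ _ fun j t _ _ => ?_
      push_cast
      ring
    simp only [rs_cons, List.length_cons]
    rw [h, rs_pow]
    push_cast
    have e : (1 + s) * (rs l (fun j _ => s ^ j * j) +
        (s * rs l (fun j _ => s ^ j * j) + s * (1 + s) ^ l.length)) =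
        (1 + s) * ((1 + s) * rs l (fun j _ => s ^ j * j) + s * (1 + s) ^ l.length) := by ring
    rw [e, ih]
    ring

/-- variance is nonnegative -/
lemma rs_jensen {s : ℝ} (hs : 0 < s) (l : List ℕ) (a : ℝ) :
    (1 + s) ^ l.length * (a - s / (1 + s) * l.length) ^ 2 ≤
      rs l (fun j _ => s ^ j * (a - j) ^ 2) := by
  have h1 := rs_powj s l
  have h2 := rs_pow s l
  obtain ⟨p, hp⟩ : ∃ p, p = s / (1 + s) := ⟨_, rfl⟩
  have hps : (1 + s) * p = s := by rw [hp]; field_simp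
  rw [← hp]
  have h3 : rs l (fun j _ => s ^ j * j) = p * l.length * (1 + s) ^ l.length := by
    have h4 : (1 + s) * rs l (fun j _ => s ^ j * j) = (1 + s) * (p * l.length * (1 + s) ^ l.length) := by
      rw [h1]
      calc (l.length : ℝ) * s * (1 + s) ^ l.length = s * (l.length * (1 + s) ^ l.length) := by ring
        _ = (1 + s) * p * (l.length * (1 + s) ^ l.length) := by rw [hps]
        _ = _ := by ring
    exact mul_left_cancel₀ (by positivity) h4
  have h5 : rs l (fun j _ => ((a - p * l.length) ^ 2 + 2 * (a - p * l.length) * (p * l.length)) * s ^ j +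
      (- (2 * (a - p * l.length))) * (s ^ j * j)) ≤ rs l (fun j _ => s ^ j * (a - j) ^ 2) := by
    refine rs_mono _ _ _ fun j t _ _ => ?_
    have h6 : 0 ≤ s ^ j * ((j : ℝ) - p * l.length) ^ 2 := by positivity
    nlinarith [h6]
  rw [rs_add l (fun j _ => ((a - p * l.length) ^ 2 + 2 * (a - p * l.length) * (p * l.length)) * s ^ j)
    (fun j _ => (- (2 * (a - p * l.length))) * (s ^ j * j))] at h5
  rw [rs_mul l _ (fun j _ => s ^ j), rs_mul l _ (fun j _ => s ^ j * j), h2, h3] at h5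
  refine le_trans (le_of_eq ?_) h5
  ring

lemma choose_pow {s : ℝ} (hs : 0 < s) {k j : ℕ} (hj : j ≤ k) :
    (k.choose j : ℝ) * s ^ j = (1 + s) ^ k * bp k (s / (1 + s)) (j : ℤ) := by
  have h1 : 1 - s / (1 + s) = 1 / (1 + s) := by field_simp; ring
  unfold bp
  rw [if_pos ⟨by positivity, by exact_mod_cast hj⟩, Int.toNat_natCast, h1, div_pow, div_pow, one_pow]
  have h2 : (1 + s) ^ k = (1 + s) ^ j * (1 + s) ^ (k - j) := by
    rw [← pow_add]; congr 1; omega
  rw [h2]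
  field_simp

lemma bp_nonneg {p : ℝ} (h0 : 0 ≤ p) (h1 : p ≤ 1) (k : ℕ) (j : ℤ) : 0 ≤ bp k p j := by
  unfold bp
  split_ifs
  · have : 0 ≤ 1 - p := by linarith
    positivity
  · exact le_rfl

lemma rs_ind (hS : SMP_Stmt) {s : ℝ} (hs : 0 < s) (l : List ℕ) (m : ℤ) (c : ℝ) :
    rs l (fun j _ => s ^ j * (if (j : ℤ) = m then c else 0)) =
      (1 + s) ^ l.length * (bp l.length (s / (1 + s)) m * c) := by
  rw [(hS l).1 (fun j => s ^ j * (if (j : ℤ) = m then c else 0))]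
  by_cases hm : 0 ≤ m ∧ m ≤ l.length
  · obtain ⟨j0, hj0⟩ : ∃ j0 : ℕ, (j0 : ℤ) = m := ⟨m.toNat, Int.toNat_of_nonneg hm.1⟩
    subst hj0
    have hj : j0 ≤ l.length := by exact_mod_cast hm.2
    rw [sum_eq_single j0]
    · rw [if_pos rfl, ← mul_assoc, choose_pow hs hj]
      ring
    · intro b _ hb
      rw [if_neg (by exact_mod_cast hb)]
      ring
    · intro h
      exact absurd (mem_range.2 (by omega)) h
  · have h0 : bp l.length (s / (1 + s)) m = 0 := by
      unfold bp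
      rw [if_neg hm]
    rw [h0, zero_mul, mul_zero]
    refine sum_eq_zero fun j hj => ?_
    have := mem_range.1 hj
    rw [if_neg (by intro h; apply hm; rw [← h]; constructor <;> omega)]
    ring

/-- deviation of the total of a subset of given size -/
lemma rs_dev (hS : SMP_Stmt) {s : ℝ} (hs : 0 < s) (l : List ℕ) (hl : l ≠ []) (M : ℕ)
    (hM : ∀ y ∈ l, y ≤ M) (m : ℤ) :
    rs l (fun j t => s ^ j * (if (j : ℤ) = m then |(t : ℝ) - s / (1 + s) * l.sum| else 0)) ≤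
      (1 + s) ^ l.length * (bp l.length (s / (1 + s)) m * Real.sqrt ((M : ℝ) * l.sum) +
        bp l.length (s / (1 + s)) m * |(m : ℝ) - s / (1 + s) * l.length| * (l.sum / l.length)) := by
  have hk : (0 : ℝ) < l.length := by
    exact_mod_cast List.length_pos_of_ne_nil hl
  obtain ⟨p, hp⟩ : ∃ p, p = s / (1 + s) := ⟨_, rfl⟩
  rw [← hp]
  by_cases hm : 0 ≤ m ∧ m ≤ l.length
  · obtain ⟨j0, hj0⟩ : ∃ j0 : ℕ, (j0 : ℤ) = m := ⟨m.toNat, Int.toNat_of_nonneg hm.1⟩
    subst hj0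
    have hj : j0 ≤ l.length := by exact_mod_cast hm.2
    have h1 := (hS l).2 M j0 hl hM
    have h2 := rs_ind hS hs l (j0 : ℤ) (|(j0 : ℝ) - p * l.length| * (l.sum / l.length))
    have h3 : rs l (fun j t => s ^ j * (if (j : ℤ) = (j0 : ℤ) then |(t : ℝ) - p * l.sum| else 0)) ≤
        rs l (fun j t => s ^ j0 * (if j = j0 then |(t : ℝ) - (j0 : ℝ) / l.length * l.sum| else 0) +
          s ^ j * (if (j : ℤ) = (j0 : ℤ) then |(j0 : ℝ) - p * l.length| * (l.sum / l.length) else 0)) := by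
      refine rs_mono _ _ _ fun j t _ _ => ?_
      by_cases hjj : j = j0
      · subst hjj
        rw [if_pos rfl, if_pos rfl, if_pos rfl, ← mul_add]
        refine mul_le_mul_of_nonneg_left ?_ (by positivity)
        have h4 : (t : ℝ) - p * l.sum = ((t : ℝ) - (j : ℝ) / l.length * l.sum) +
            ((j : ℝ) - p * l.length) * (l.sum / l.length) := by
          field_simp
          ring
        rw [h4]
        refine (abs_add_le _ _).trans ?_
        rw [abs_mul, abs_of_nonneg (show (0 : ℝ) ≤ l.sum / l.length by positivity)]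
      · rw [if_neg (by exact_mod_cast hjj), if_neg hjj, if_neg (by exact_mod_cast hjj)]
        simp
    refine h3.trans ?_
    rw [rs_add l (fun j t => s ^ j0 * (if j = j0 then |(t : ℝ) - (j0 : ℝ) / l.length * l.sum| else 0))
      (fun j _ => s ^ j * (if (j : ℤ) = (j0 : ℤ) then |(j0 : ℝ) - p * l.length| * (l.sum / l.length) else 0)),
      h2, rs_mul l (s ^ j0) (fun j t => if j = j0 then |(t : ℝ) - (j0 : ℝ) / l.length * l.sum| else 0)]
    have h5 : s ^ j0 * rs l (fun j t => if j = j0 then |(t : ℝ) - (j0 : ℝ) / l.length * l.sum| else 0) ≤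
        s ^ j0 * ((l.length.choose j0 : ℝ) * Real.sqrt ((M : ℝ) * l.sum)) :=
      mul_le_mul_of_nonneg_left h1 (by positivity)
    have h6 := choose_pow hs hj
    rw [← hp] at h6 ⊢
    have h7 : s ^ j0 * ((l.length.choose j0 : ℝ) * Real.sqrt ((M : ℝ) * l.sum)) =
        (1 + s) ^ l.length * (bp l.length p (j0 : ℤ) * Real.sqrt ((M : ℝ) * l.sum)) := by
      calc s ^ j0 * ((l.length.choose j0 : ℝ) * Real.sqrt ((M : ℝ) * l.sum))
          = ((l.length.choose j0 : ℝ) * s ^ j0) * Real.sqrt ((M : ℝ) * l.sum) := by ring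
        _ = _ := by rw [h6]; ring
    rw [h7] at h5
    have h8 : (((j0 : ℤ) : ℝ)) = (j0 : ℝ) := by push_cast; rfl
    rw [h8]
    calc _ ≤ (1 + s) ^ l.length * (bp l.length p (j0 : ℤ) * Real.sqrt ((M : ℝ) * l.sum)) +
        (1 + s) ^ l.length * (bp l.length p (j0 : ℤ) * (|(j0 : ℝ) - p * l.length| * (l.sum / l.length))) :=
          add_le_add h5 le_rfl
      _ = _ := by ring
  · have h0 : bp l.length p m = 0 := by
      unfold bp
      rw [if_neg hm]
    rw [h0]
    simp only [zero_mul, add_zero, mul_zero]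
    refine (rs_mono l _ (fun _ _ => (0 : ℝ)) fun j t hj _ => ?_).trans (le_of_eq (rs_zero l))
    rw [if_neg (by intro h; apply hm; rw [← h]; constructor <;> omega), mul_zero]

lemma bp_lip {p CB : ℝ} {k : ℕ}
    (h : ∀ j : ℤ, |bp k p (j + 1) - bp k p j| ≤ CB / k) (a b : ℤ) :
    |bp k p a - bp k p b| ≤ |(a : ℝ) - b| * (CB / k) := by
  have h1 : ∀ (d : ℕ) (a : ℤ), |bp k p (a + d) - bp k p a| ≤ d * (CB / k) := by
    intro d
    induction d with
    | zero => intro a; simp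
    | succ d ih =>
      intro a
      have h2 := ih a
      have h3 := h (a + d)
      have e : bp k p (a + ((d + 1 : ℕ) : ℤ)) - bp k p a =
          (bp k p (a + d + 1) - bp k p (a + d)) + (bp k p (a + d) - bp k p a) := by
        have : a + ((d + 1 : ℕ) : ℤ) = a + d + 1 := by push_cast; ring
        rw [this]; ring
      rw [e]
      refine (abs_add_le _ _).trans ?_
      push_cast
      linarith
  rcases le_total b a with hab | hab
  · obtain ⟨d, hd⟩ := Int.eq_ofNat_of_zero_le (show 0 ≤ a - b by omega)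
    have h2 := h1 d b
    have e : b + (d : ℤ) = a := by omega
    rw [e] at h2
    have h3 : |(a : ℝ) - b| = d := by
      have : (a : ℝ) - b = d := by
        have := congrArg (fun z : ℤ => (z : ℝ)) hd
        push_cast at this
        exact this
      rw [this]
      exact abs_of_nonneg (by positivity)
    rw [h3]
    exact h2
  · obtain ⟨d, hd⟩ := Int.eq_ofNat_of_zero_le (show 0 ≤ b - a by omega)
    have h2 := h1 d a
    have e : a + (d : ℤ) = b := by omega
    rw [e] at h2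
    have h3 : |(a : ℝ) - b| = d := by
      have : (b : ℝ) - a = d := by
        have := congrArg (fun z : ℤ => (z : ℝ)) hd
        push_cast at this
        exact this
      rw [abs_sub_comm, this]
      exact abs_of_nonneg (by positivity)
    rw [h3, abs_sub_comm]
    exact h2

/-! ### the context -/

structure Ctx (n k : ℕ) (σ : Fin k → Sk) (s c CA CB : ℝ) : Prop where
  sk : IsSkel n k σ
  hn : 3 ≤ n
  hs : 0 < s
  hs1 : s ≤ 1
  hc : 0 < c
  hCA : 0 < CA
  hCB : 0 < CB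
  arm1 : ∑ q ∈ Omn n, wtq n s q * ra n q ^ 2 ≤ CA * Zq n s
  arm3 : ∑ q ∈ Omn n, wtq n s q * |(dq q : ℝ) - (arq n q : ℝ)| ≤ CA * (n * Real.log n) * Zq n s
  kb : ∑ i ∈ univ.filter (fun i : Fin k => ((σ i).l.length : ℝ) < c * n), vsk n s (σ i) ≤
      1 / (n : ℝ) ^ 3 * Zq n s
  bin : ∀ (m : ℕ) (j : ℤ), 1 ≤ m → bp m (s / (1 + s)) j ≤ CB / Real.sqrt m ∧
    |bp m (s / (1 + s)) (j + 1) - bp m (s / (1 + s)) j| ≤ CB / m ∧
    bp m (s / (1 + s)) j * |(j : ℝ) - s / (1 + s) * m| ≤ CB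

variable {n k : ℕ} {σ : Fin k → Sk} {s c CA CB : ℝ}

lemma Ctx.n1 (X : Ctx n k σ s c CA CB) : (3 : ℝ) ≤ n := by exact_mod_cast X.hn

lemma Ctx.vpos (X : Ctx n k σ s c CA CB) (i : Fin k) : 0 ≤ vsk n s (σ i) := by
  unfold vsk
  have := X.hs
  positivity

lemma Ctx.p0 (X : Ctx n k σ s c CA CB) : 0 ≤ s / (1 + s) := by
  have := X.hs
  positivity

lemma Ctx.p1 (X : Ctx n k σ s c CA CB) : s / (1 + s) ≤ 1 := by
  have := X.hs
  rw [div_le_one (by positivity)]
  linarith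

lemma Ctx.Z (X : Ctx n k σ s c CA CB) : Zq n s = ∑ i, vsk n s (σ i) := by
  have h := key X.sk s (fun _ _ _ => 1)
  simp only [mul_one] at h
  unfold Zq
  rw [h]
  refine sum_congr rfl fun i _ => ?_
  rw [rs_pow]
  rfl

lemma Ctx.Zpos (X : Ctx n k σ s c CA CB) : 0 ≤ Zq n s := by
  rw [X.Z]
  exact sum_nonneg fun i _ => X.vpos i

lemma Ctx.scpos (X : Ctx n k σ s c CA CB) : 0 < sc n := by
  have := X.n1
  unfold sc
  have : 0 < Real.sqrt n := Real.sqrt_pos.2 (by linarith)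
  positivity

lemma Ctx.bple (X : Ctx n k σ s c CA CB) (m : ℕ) (j : ℤ) : bp m (s / (1 + s)) j ≤ CB + 1 := by
  have hCB := X.hCB
  rcases Nat.eq_zero_or_pos m with h | h
  · subst h
    unfold bp
    split_ifs with h1
    · have : j.toNat = 0 := by
        have := h1.2
        simp at this
        omega
      rw [this]
      simp
      linarith
    · linarith
  · refine (X.bin m j h).1.trans ?_
    have h1 : (1 : ℝ) ≤ Real.sqrt m := by
      rw [Real.one_le_sqrt]
      exact_mod_cast h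
    have h2 : CB / Real.sqrt m ≤ CB := by
      rw [div_le_iff₀ (by positivity)]
      nlinarith
    linarith

lemma Ctx.bpbig (X : Ctx n k σ s c CA CB) (m : ℕ) (j : ℤ) (hm : c * n ≤ m) :
    bp m (s / (1 + s)) j ≤ CB / (Real.sqrt c * Real.sqrt n) := by
  have hc := X.hc
  have hn := X.n1
  have hCB := X.hCB
  have h1 : 1 ≤ m := by
    by_contra h
    have : m = 0 := by omega
    rw [this] at hm
    have : 0 < c * n := by positivity
    push_cast at hm
    linarith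
  refine (X.bin m j h1).1.trans ?_
  rw [← Real.sqrt_mul hc.le]
  have h2 : Real.sqrt (c * n) ≤ Real.sqrt m := Real.sqrt_le_sqrt hm
  have h3 : 0 < Real.sqrt (c * n) := Real.sqrt_pos.2 (by positivity)
  exact div_le_div_of_nonneg_left hCB.le h3 h2

lemma Ctx.split (X : Ctx n k σ s c CA CB) (f g : Fin k → ℝ) (D : ℝ)
    (hD : 0 ≤ D) (hg : ∀ i, 0 ≤ g i)
    (hbig : ∀ i, c * n ≤ ((σ i).l.length : ℝ) → f i ≤ vsk n s (σ i) * g i)
    (hsmall : ∀ i, f i ≤ vsk n s (σ i) * D) :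
    ∑ i, f i ≤ ∑ i, vsk n s (σ i) * g i + D / (n : ℝ) ^ 3 * Zq n s := by
  have h1 : ∀ i, f i ≤ vsk n s (σ i) * g i +
      (if ((σ i).l.length : ℝ) < c * n then vsk n s (σ i) * D else 0) := by
    intro i
    have hv := X.vpos i
    by_cases h : ((σ i).l.length : ℝ) < c * n
    · rw [if_pos h]
      have := hsmall i
      have := mul_nonneg hv (hg i)
      linarith
    · rw [if_neg h]
      have := hbig i (not_lt.1 h)
      linarith
  refine (sum_le_sum fun i _ => h1 i).trans ?_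
  rw [sum_add_distrib]
  refine add_le_add le_rfl ?_
  rw [← sum_filter, ← sum_mul]
  calc _ ≤ 1 / (n : ℝ) ^ 3 * Zq n s * D := mul_le_mul_of_nonneg_right X.kb hD
    _ = _ := by ring

lemma Ctx.area_ge (X : Ctx n k σ s c CA CB) (i : Fin k) {t : ℕ} (ht : t ≤ (σ i).l.sum) :
    3 / 4 * ((σ i).A : ℝ) ≤ ((((σ i).A : ℤ) - (t : ℤ) : ℤ) : ℝ) ∧
      ((((σ i).A : ℤ) - (t : ℤ) : ℤ) : ℝ) ≤ ((σ i).A : ℝ) := by
  have h1 := X.sk.sum_le i
  have h2 : 4 * (t : ℝ) ≤ ((σ i).A : ℝ) := by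
    have : 4 * t ≤ (σ i).A := by omega
    exact_mod_cast this
  have h3 : (0 : ℝ) ≤ t := by positivity
  push_cast
  constructor <;> linarith

lemma Ctx.sumA (X : Ctx n k σ s c CA CB) :
    ∑ i, vsk n s (σ i) * (((σ i).A : ℝ) / sc n) ^ 2 ≤ 2 * CA * Zq n s := by
  have h := key X.sk s (fun _ b _ => ((b : ℝ) / sc n) ^ 2)
  have h1 := X.arm1
  have h2 : ∑ q ∈ Omn n, wtq n s q * ra n q ^ 2 = ∑ q ∈ Omn n, wtq n s q * ((((arq n q : ℕ) : ℤ) : ℝ) / sc n) ^ 2 := by
    refine sum_congr rfl fun q _ => ?_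
    unfold ra
    push_cast
    rfl
  rw [h2, h] at h1
  have hs := X.hs
  have hsc := X.scpos
  have h3 : ∑ i, vsk n s (σ i) * (9 / 16 * (((σ i).A : ℝ) / sc n) ^ 2) ≤
      ∑ i, s ^ (n - (σ i).H) * rs (σ i).l (fun j t => s ^ j *
        ((((((σ i).A : ℤ) - (t : ℤ) : ℤ)) : ℝ) / sc n) ^ 2) := by
    refine sum_le_sum fun i _ => ?_
    unfold vsk
    rw [mul_assoc]
    refine mul_le_mul_of_nonneg_left ?_ (by positivity)
    rw [← rs_pow, mul_comm, ← rs_mul]
    refine rs_mono _ _ _ fun j t _ ht => ?_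
    obtain ⟨h4, _⟩ := X.area_ge i ht
    rw [mul_comm]
    refine mul_le_mul_of_nonneg_left ?_ (by positivity)
    have h5 : 3 / 4 * (((σ i).A : ℝ) / sc n) ≤ ((((σ i).A : ℤ) - (t : ℤ) : ℤ) : ℝ) / sc n := by
      rw [← mul_div_assoc]
      exact div_le_div_of_nonneg_right h4 hsc.le
    have h6 : (0 : ℝ) ≤ 3 / 4 * (((σ i).A : ℝ) / sc n) := by positivity
    calc 9 / 16 * (((σ i).A : ℝ) / sc n) ^ 2 = (3 / 4 * (((σ i).A : ℝ) / sc n)) ^ 2 := by ring
      _ ≤ _ := pow_le_pow_left₀ h6 h5 2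
  have h4 := h3.trans h1
  have h5 : ∑ i, vsk n s (σ i) * (9 / 16 * (((σ i).A : ℝ) / sc n) ^ 2) =
      9 / 16 * ∑ i, vsk n s (σ i) * (((σ i).A : ℝ) / sc n) ^ 2 := by
    rw [mul_sum]
    exact sum_congr rfl fun i _ => by ring
  rw [h5] at h4
  have h6 : 0 ≤ CA * Zq n s := mul_nonneg X.hCA.le X.Zpos
  linarith

lemma Ctx.sumV (X : Ctx n k σ s c CA CB) :
    ∑ i, vsk n s (σ i) * (1 + (((σ i).A : ℝ) / sc n) ^ 2) ≤ (1 + 2 * CA) * Zq n s := by
  have h := X.sumA
  have h1 := X.Z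
  simp only [mul_add, mul_one, sum_add_distrib]
  rw [← h1]
  linarith

lemma Ctx.small_a (X : Ctx n k σ s c CA CB) (i : Fin k) : (((σ i).A : ℝ) / sc n) ^ 2 ≤ 4 * n := by
  have h1 : ((σ i).A : ℝ) ≤ 2 * (n : ℝ) ^ 2 := by exact_mod_cast X.sk.A_le i
  have hn := X.n1
  have h2 : sc n ^ 2 = (n : ℝ) ^ 3 := by
    unfold sc
    rw [mul_pow, Real.sq_sqrt (by positivity)]
    ring
  rw [div_pow, h2, div_le_iff₀ (by positivity)]
  have h3 : ((σ i).A : ℝ) ^ 2 ≤ (2 * (n : ℝ) ^ 2) ^ 2 := pow_le_pow_left₀ (by positivity) h1 2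
  calc _ ≤ (2 * (n : ℝ) ^ 2) ^ 2 := h3
    _ = _ := by ring

lemma sumif {α : Type*} (S : Finset α) (f : α → ℝ) (P : α → Prop) [DecidablePred P] (g : α → ℝ) :
    ∑ q ∈ S.filter P, f q * g q = ∑ q ∈ S, f q * (if P q then g q else 0) := by
  rw [sum_filter]
  refine sum_congr rfl fun q _ => ?_
  split_ifs <;> simp

/-- sums over the words of span `h` -/
lemma keyh (h : IsSkel n k σ) (s : ℝ) (hh : ℕ) (G : ℤ → ℤ → ℝ) :
    ∑ q ∈ (Omn n).filter (fun q => sp q = hh), wtq n s q * G (arq n q) (dq q) =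
      ∑ i, s ^ (n - (σ i).H) * rs (σ i).l (fun j t => s ^ j *
        (if (j : ℤ) = (σ i).H - hh then G ((σ i).A - t) ((σ i).L - t + dlt * j) else 0)) := by
  have h1 := key h s (fun a b c => if a = (hh : ℤ) then G b c else 0)
  have h2 : ∑ q ∈ (Omn n).filter (fun q => sp q = hh), wtq n s q * G (arq n q) (dq q) =
      ∑ q ∈ Omn n, wtq n s q * (if (sp q : ℤ) = (hh : ℤ) then G (arq n q) (dq q) else 0) := by
    rw [sumif (Omn n) (fun q => wtq n s q) (fun q => sp q = hh) (fun q => G (arq n q) (dq q))]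
    refine sum_congr rfl fun q _ => ?_
    by_cases h3 : sp q = hh
    · rw [if_pos h3, if_pos (by exact_mod_cast h3)]
    · rw [if_neg h3, if_neg (by exact_mod_cast h3)]
  rw [h2, h1]
  refine sum_congr rfl fun i _ => ?_
  congr 1
  refine rs_congr _ _ _ fun j t _ _ => ?_
  by_cases h3 : (j : ℤ) = (σ i).H - hh
  · rw [if_pos h3, if_pos (by omega)]
  · rw [if_neg h3, if_neg (by omega)]

/-! ### part (i) -/

lemma Ctx.part1 (hS : SMP_Stmt) (X : Ctx n k σ s c CA CB) (h : ℕ) :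
    U n s h (fun a => 1 + a ^ 2) ≤
      (CB / Real.sqrt c * (1 + 2 * CA) + 5 * (CB + 1)) / Real.sqrt n * Zq n s := by
  have hn := X.n1
  have hs := X.hs
  have hsc := X.scpos
  have hCB := X.hCB
  have hZ := X.Zpos
  have hc := X.hc
  have hsn : 0 < Real.sqrt n := Real.sqrt_pos.2 (by linarith)
  have hscc : 0 < Real.sqrt c := Real.sqrt_pos.2 hc
  have h1 := keyh X.sk s h (fun b _ => 1 + ((b : ℝ) / sc n) ^ 2)
  have h2 : U n s h (fun a => 1 + a ^ 2) = ∑ q ∈ (Omn n).filter (fun q => sp q = h),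
      wtq n s q * (1 + ((((arq n q : ℕ) : ℤ) : ℝ) / sc n) ^ 2) := by
    unfold U ra
    refine sum_congr rfl fun q _ => ?_
    push_cast
    rfl
  rw [h2, h1]
  have h3 : ∀ i : Fin k, s ^ (n - (σ i).H) * rs (σ i).l (fun j t => s ^ j *
      (if (j : ℤ) = (σ i).H - h then 1 + (((((σ i).A : ℤ) - (t : ℤ) : ℤ) : ℝ) / sc n) ^ 2 else 0)) ≤
      vsk n s (σ i) * (bp (σ i).l.length (s / (1 + s)) ((σ i).H - h) *
        (1 + (((σ i).A : ℝ) / sc n) ^ 2)) := by
    intro i
    unfold vsk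
    rw [mul_assoc]
    refine mul_le_mul_of_nonneg_left ?_ (by positivity)
    rw [← rs_ind hS hs]
    refine rs_mono _ _ _ fun j t _ ht => ?_
    refine mul_le_mul_of_nonneg_left ?_ (by positivity)
    split_ifs with hj
    · obtain ⟨h4, h5⟩ := X.area_ge i ht
      have h6 : (0 : ℝ) ≤ ((((σ i).A : ℤ) - (t : ℤ) : ℤ) : ℝ) :=
        le_trans (by positivity) h4
      have h7 : ((((σ i).A : ℤ) - (t : ℤ) : ℤ) : ℝ) / sc n ≤ ((σ i).A : ℝ) / sc n :=
        div_le_div_of_nonneg_right h5 hsc.le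
      have h8 := pow_le_pow_left₀ (div_nonneg h6 hsc.le) h7 2
      linarith
    · exact le_rfl
  have h4 := X.split (fun i => vsk n s (σ i) * (bp (σ i).l.length (s / (1 + s)) ((σ i).H - h) *
        (1 + (((σ i).A : ℝ) / sc n) ^ 2))) (fun i => CB / (Real.sqrt c * Real.sqrt n) *
        (1 + (((σ i).A : ℝ) / sc n) ^ 2)) ((CB + 1) * (1 + 4 * n)) (by positivity)
        (fun i => by positivity) (fun i hi => by
          refine mul_le_mul_of_nonneg_left ?_ (X.vpos i)
          exact mul_le_mul_of_nonneg_right (X.bpbig _ _ hi) (by positivity))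
        (fun i => by
          refine mul_le_mul_of_nonneg_left ?_ (X.vpos i)
          have h5 := X.small_a i
          exact mul_le_mul (X.bple _ _) (by linarith) (by positivity) (by positivity))
  refine (sum_le_sum fun i _ => h3 i).trans (h4.trans ?_)
  have h5 : ∑ i, vsk n s (σ i) * (CB / (Real.sqrt c * Real.sqrt n) *
        (1 + (((σ i).A : ℝ) / sc n) ^ 2)) = CB / (Real.sqrt c * Real.sqrt n) *
        ∑ i, vsk n s (σ i) * (1 + (((σ i).A : ℝ) / sc n) ^ 2) := by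
    rw [mul_sum]
    exact sum_congr rfl fun i _ => by ring
  rw [h5]
  have h6 : CB / (Real.sqrt c * Real.sqrt n) * ∑ i, vsk n s (σ i) * (1 + (((σ i).A : ℝ) / sc n) ^ 2) ≤
      CB / (Real.sqrt c * Real.sqrt n) * ((1 + 2 * CA) * Zq n s) :=
    mul_le_mul_of_nonneg_left X.sumV (by positivity)
  have h7 : (CB + 1) * (1 + 4 * (n : ℝ)) / (n : ℝ) ^ 3 * Zq n s ≤ 5 * (CB + 1) / Real.sqrt n * Zq n s := by
    refine mul_le_mul_of_nonneg_right ?_ hZ
    rw [div_le_div_iff₀ (by positivity) hsn]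
    have h8 : Real.sqrt n ≤ n := by
      rw [Real.sqrt_le_left (by positivity)]
      nlinarith
    have h9 : (1 + 4 * (n : ℝ)) * Real.sqrt n ≤ 5 * (n : ℝ) ^ 3 := by
      calc (1 + 4 * (n : ℝ)) * Real.sqrt n ≤ (5 * n) * n := mul_le_mul (by linarith) h8 hsn.le (by positivity)
        _ = 5 * (n : ℝ) ^ 2 * 1 := by ring
        _ ≤ 5 * (n : ℝ) ^ 2 * n := mul_le_mul_of_nonneg_left (by linarith) (by positivity)
        _ = _ := by ring
    nlinarith [mul_le_mul_of_nonneg_left h9 (show 0 ≤ CB + 1 by positivity)]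
  refine (add_le_add h6 h7).trans (le_of_eq ?_)
  field_simp

/-! ### part (ii) -/

lemma dq_bound (n : ℕ) (q : QI) (hq : q ∈ Omn n) (hn : 1 ≤ n) : |dq q| ≤ 4 * (n : ℤ) ^ 2 := by
  unfold Omn M41.Om at hq
  rw [Finset.mem_sigma] at hq
  obtain ⟨_, hq⟩ := hq
  rw [Finset.mem_sigma] at hq
  obtain ⟨hM, hq⟩ := hq
  rw [Finset.mem_product] at hq
  obtain ⟨hT, hw⟩ := hq
  have h1 := ((M41.mem_CapSet _ _ _ _).1 hT).1
  have h2 := ((M41.mem_ArchSet _ _ _ _).1 hw).1
  have hM' := Finset.mem_range.1 hM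
  have h3 := H66.abs_dbl_le q.2.2.1
  have h4 := H66.abs_dbl_le q.2.2.2
  have h5 := abs_add_le (dbl 0 q.2.2.2) (dbl 0 q.2.2.1)
  unfold dq
  rw [h1] at h3
  rw [h2] at h4
  have h6 : ((2 * n - q.2.1 : ℕ) : ℤ) = 2 * n - q.2.1 := by omega
  rw [h6] at h4
  have h7 : (0 : ℤ) ≤ q.2.1 := by positivity
  have h8 : (q.2.1 : ℤ) ≤ 2 * n := by omega
  nlinarith [mul_nonneg h7 (sub_nonneg.2 h8)]

lemma Ctx.L_le (X : Ctx n k σ s c CA CB) (i : Fin k) : |((σ i).L : ℝ)| ≤ 4 * (n : ℝ) ^ 2 := by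
  have h := X.sk.all (fun _ _ z => |z| ≤ 4 * (n : ℤ) ^ 2)
    (fun q hq => dq_bound n q hq (by have := X.hn; omega)) i
  exact_mod_cast h

lemma Ctx.sumL (X : Ctx n k σ s c CA CB) :
    ∑ i, vsk n s (σ i) * |((σ i).L : ℝ) - ((σ i).A : ℝ)| ≤
      (CA * (n * Real.log n) + |(dlt : ℝ)| * n) * Zq n s := by
  have h := key X.sk s (fun _ b c => |(c : ℝ) - (b : ℝ)|)
  have h1 := X.arm3
  have h2 : ∑ q ∈ Omn n, wtq n s q * |(dq q : ℝ) - (arq n q : ℝ)| =
      ∑ q ∈ Omn n, wtq n s q * |(dq q : ℝ) - (((arq n q : ℕ) : ℤ) : ℝ)| := by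
    refine sum_congr rfl fun q _ => ?_
    push_cast
    rfl
  rw [h2, h] at h1
  have hs := X.hs
  have h3 : ∑ i, vsk n s (σ i) * (|((σ i).L : ℝ) - ((σ i).A : ℝ)| - |(dlt : ℝ)| * n) ≤
      ∑ i, s ^ (n - (σ i).H) * rs (σ i).l (fun j t => s ^ j *
        |((((σ i).L - (t : ℤ) + dlt * (j : ℤ) : ℤ)) : ℝ) - (((((σ i).A : ℤ) - (t : ℤ) : ℤ)) : ℝ)|) := by
    refine sum_le_sum fun i _ => ?_
    unfold vsk
    rw [mul_assoc]
    refine mul_le_mul_of_nonneg_left ?_ (by positivity)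
    rw [← rs_pow, mul_comm, ← rs_mul]
    refine rs_mono _ _ _ fun j t hj ht => ?_
    rw [mul_comm]
    refine mul_le_mul_of_nonneg_left ?_ (by positivity)
    have hjn : (j : ℝ) ≤ n := by
      have := X.sk.len_le i
      have := X.sk.H_le i
      exact_mod_cast (by omega : j ≤ n)
    push_cast
    have e : ((σ i).L : ℝ) - ((σ i).A : ℝ) =
        (((σ i).L : ℝ) - t + dlt * j - (((σ i).A : ℝ) - t)) - dlt * j := by ring
    have h4 := abs_sub (((σ i).L : ℝ) - t + dlt * j - (((σ i).A : ℝ) - t)) (dlt * j)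
    rw [← e, abs_mul, abs_of_nonneg (show (0 : ℝ) ≤ j by positivity)] at h4
    have h5 : |(dlt : ℝ)| * j ≤ |(dlt : ℝ)| * n := mul_le_mul_of_nonneg_left hjn (abs_nonneg _)
    linarith
  have h4 := h3.trans h1
  simp only [mul_sub, sum_sub_distrib] at h4
  rw [← sum_mul, ← X.Z] at h4
  linarith

lemma Ctx.part2 (hS : SMP_Stmt) (X : Ctx n k σ s c CA CB) (h : ℕ) :
    ∑ q ∈ (Omn n).filter (fun q => sp q = h), wtq n s q * |(dq q : ℝ) - (arq n q : ℝ)| ≤
      (CB / Real.sqrt c * (CA + 2 * |(dlt : ℝ)|) + (CB + 1) * (6 + |(dlt : ℝ)|)) *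
        (Real.sqrt n * Real.log n) * Zq n s := by
  have hn := X.n1
  have hs := X.hs
  have hsc := X.scpos
  have hCB := X.hCB
  have hCA := X.hCA
  have hZ := X.Zpos
  have hc := X.hc
  have hsn : 0 < Real.sqrt n := Real.sqrt_pos.2 (by linarith)
  have hscc : 0 < Real.sqrt c := Real.sqrt_pos.2 hc
  have hlog : 1 ≤ Real.log n := by
    rw [Real.le_log_iff_exp_le (by linarith)]
    have := Real.exp_one_lt_d9
    linarith
  have hd := abs_nonneg (dlt : ℝ)
  have h1 := keyh X.sk s h (fun b c => |(c : ℝ) - (b : ℝ)|)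
  have h2 : ∑ q ∈ (Omn n).filter (fun q => sp q = h), wtq n s q * |(dq q : ℝ) - (arq n q : ℝ)| =
      ∑ q ∈ (Omn n).filter (fun q => sp q = h),
        wtq n s q * |(dq q : ℝ) - (((arq n q : ℕ) : ℤ) : ℝ)| := by
    refine sum_congr rfl fun q _ => ?_
    push_cast
    rfl
  rw [h2, h1]
  have h3 : ∀ i : Fin k, s ^ (n - (σ i).H) * rs (σ i).l (fun j t => s ^ j *
      (if (j : ℤ) = (σ i).H - h then |((((σ i).L - (t : ℤ) + dlt * (j : ℤ) : ℤ)) : ℝ) -
        (((((σ i).A : ℤ) - (t : ℤ) : ℤ)) : ℝ)| else 0)) ≤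
      vsk n s (σ i) * (bp (σ i).l.length (s / (1 + s)) ((σ i).H - h) *
        (|((σ i).L : ℝ) - ((σ i).A : ℝ)| + |(dlt : ℝ)| * n)) := by
    intro i
    unfold vsk
    rw [mul_assoc]
    refine mul_le_mul_of_nonneg_left ?_ (by positivity)
    rw [← rs_ind hS hs]
    refine rs_mono _ _ _ fun j t hj ht => ?_
    refine mul_le_mul_of_nonneg_left ?_ (by positivity)
    have hjn : (j : ℝ) ≤ n := by
      have := X.sk.len_le i
      have := X.sk.H_le i
      exact_mod_cast (by omega : j ≤ n)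
    split_ifs with hjj
    · push_cast
      have e : ((σ i).L : ℝ) - t + dlt * j - (((σ i).A : ℝ) - t) =
          (((σ i).L : ℝ) - ((σ i).A : ℝ)) + dlt * j := by ring
      rw [e]
      refine (abs_add_le _ _).trans ?_
      rw [abs_mul, abs_of_nonneg (show (0 : ℝ) ≤ j by positivity)]
      have h5 : |(dlt : ℝ)| * j ≤ |(dlt : ℝ)| * n := mul_le_mul_of_nonneg_left hjn (abs_nonneg _)
      linarith
    · exact le_rfl
  have h4 := X.split (fun i => vsk n s (σ i) * (bp (σ i).l.length (s / (1 + s)) ((σ i).H - h) *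
        (|((σ i).L : ℝ) - ((σ i).A : ℝ)| + |(dlt : ℝ)| * n)))
        (fun i => CB / (Real.sqrt c * Real.sqrt n) *
        (|((σ i).L : ℝ) - ((σ i).A : ℝ)| + |(dlt : ℝ)| * n))
        ((CB + 1) * ((6 + |(dlt : ℝ)|) * (n : ℝ) ^ 2)) (by positivity)
        (fun i => by positivity) (fun i hi => by
          refine mul_le_mul_of_nonneg_left ?_ (X.vpos i)
          exact mul_le_mul_of_nonneg_right (X.bpbig _ _ hi) (by positivity))
        (fun i => by
          refine mul_le_mul_of_nonneg_left ?_ (X.vpos i)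
          have h5 := X.L_le i
          have h6 : ((σ i).A : ℝ) ≤ 2 * (n : ℝ) ^ 2 := by exact_mod_cast X.sk.A_le i
          have h7 : |((σ i).L : ℝ) - ((σ i).A : ℝ)| ≤ 6 * (n : ℝ) ^ 2 := by
            refine (abs_sub _ _).trans ?_
            rw [abs_of_nonneg (show (0 : ℝ) ≤ ((σ i).A : ℝ) by positivity)]
            linarith
          have h8 : |(dlt : ℝ)| * n ≤ |(dlt : ℝ)| * (n : ℝ) ^ 2 :=
            mul_le_mul_of_nonneg_left (by nlinarith) hd
          exact mul_le_mul (X.bple _ _) (by linarith) (by positivity) (by positivity))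
  refine (sum_le_sum fun i _ => h3 i).trans (h4.trans ?_)
  have h5 : ∑ i, vsk n s (σ i) * (CB / (Real.sqrt c * Real.sqrt n) *
        (|((σ i).L : ℝ) - ((σ i).A : ℝ)| + |(dlt : ℝ)| * n)) = CB / (Real.sqrt c * Real.sqrt n) *
        (∑ i, vsk n s (σ i) * |((σ i).L : ℝ) - ((σ i).A : ℝ)| + |(dlt : ℝ)| * n * Zq n s) := by
    rw [X.Z, mul_add, mul_sum, mul_sum, mul_sum, ← sum_add_distrib]
    exact sum_congr rfl fun i _ => by ring
  rw [h5]
  have h6 : CB / (Real.sqrt c * Real.sqrt n) *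
      (∑ i, vsk n s (σ i) * |((σ i).L : ℝ) - ((σ i).A : ℝ)| + |(dlt : ℝ)| * n * Zq n s) ≤
      CB / (Real.sqrt c * Real.sqrt n) *
        ((CA + 2 * |(dlt : ℝ)|) * (n * Real.log n) * Zq n s) := by
    refine mul_le_mul_of_nonneg_left ?_ (by positivity)
    have h7 := X.sumL
    have h8 : |(dlt : ℝ)| * n * Zq n s ≤ |(dlt : ℝ)| * (n * Real.log n) * Zq n s := by
      refine mul_le_mul_of_nonneg_right ?_ hZ
      refine mul_le_mul_of_nonneg_left ?_ hd
      nlinarith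
    linarith
  have h7 : (CB + 1) * ((6 + |(dlt : ℝ)|) * (n : ℝ) ^ 2) / (n : ℝ) ^ 3 * Zq n s ≤
      (CB + 1) * (6 + |(dlt : ℝ)|) * (Real.sqrt n * Real.log n) * Zq n s := by
    refine mul_le_mul_of_nonneg_right ?_ hZ
    have h8 : (CB + 1) * ((6 + |(dlt : ℝ)|) * (n : ℝ) ^ 2) / (n : ℝ) ^ 3 =
        (CB + 1) * (6 + |(dlt : ℝ)|) * (1 / n) := by
      field_simp
    rw [h8]
    refine mul_le_mul_of_nonneg_left ?_ (by positivity)
    have h9 : 1 / (n : ℝ) ≤ 1 := by
      rw [div_le_one (by linarith)]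
      linarith
    have h10 : 1 ≤ Real.sqrt n := by
      rw [Real.one_le_sqrt]
      linarith
    nlinarith
  refine (add_le_add h6 h7).trans (le_of_eq ?_)
  have h11 : (n : ℝ) = Real.sqrt n * Real.sqrt n := (Real.mul_self_sqrt (by positivity)).symm
  have h12 : CB / (Real.sqrt c * Real.sqrt n) * ((CA + 2 * |(dlt : ℝ)|) * (n * Real.log n) * Zq n s) =
      CB / Real.sqrt c * (CA + 2 * |(dlt : ℝ)|) * (Real.sqrt n * Real.log n) * Zq n s := by
    have : CB / (Real.sqrt c * Real.sqrt n) * (n : ℝ) = CB / Real.sqrt c * Real.sqrt n := by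
      rw [div_mul_eq_mul_div, div_mul_eq_mul_div, div_eq_div_iff (by positivity) (by positivity)]
      calc CB * (n : ℝ) * Real.sqrt c = CB * (Real.sqrt n * Real.sqrt n) * Real.sqrt c := by
            rw [← h11]
        _ = _ := by ring
    calc _ = (CB / (Real.sqrt c * Real.sqrt n) * (n : ℝ)) * ((CA + 2 * |(dlt : ℝ)|) * Real.log n * Zq n s) := by
          ring
      _ = _ := by rw [this]; ring
  rw [h12]
  ring

/-! ### part (iii) -/

lemma rs_abs (l : List ℕ) (F G D : ℕ → ℕ → ℝ)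
    (h : ∀ j t : ℕ, j ≤ l.length → t ≤ l.sum → |F j t - G j t| ≤ D j t) :
    |rs l F - rs l G| ≤ rs l D := by
  rw [abs_le]
  constructor
  · have h1 : rs l G ≤ rs l (fun j t => F j t + D j t) := rs_mono _ _ _ fun j t hj ht => by
      have := (abs_le.1 (h j t hj ht)).1
      linarith
    rw [rs_add] at h1
    linarith
  · have h1 : rs l F ≤ rs l (fun j t => G j t + D j t) := rs_mono _ _ _ fun j t hj ht => by
      have := (abs_le.1 (h j t hj ht)).2
      linarith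
    rw [rs_add] at h1
    linarith

/-- contribution of a skeleton -/
noncomputable def ui (n : ℕ) (s : ℝ) (a : Sk) (h : ℕ) (φ : ℝ → ℝ) : ℝ :=
  s ^ (n - a.H) * rs a.l (fun j t => s ^ j *
    (if (j : ℤ) = a.H - h then φ ((((a.A : ℤ) - (t : ℤ) : ℤ) : ℝ) / sc n) else 0))

lemma Ctx.U_eq (X : Ctx n k σ s c CA CB) (h : ℕ) (φ : ℝ → ℝ) :
    U n s h φ = ∑ i, ui n s (σ i) h φ := by
  have h1 := keyh X.sk s h (fun b _ => φ ((b : ℝ) / sc n))
  have h2 : U n s h φ = ∑ q ∈ (Omn n).filter (fun q => sp q = h),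
      wtq n s q * φ ((((arq n q : ℕ) : ℤ) : ℝ) / sc n) := by
    unfold U ra
    refine sum_congr rfl fun q _ => ?_
    push_cast
    rfl
  rw [h2, h1]
  rfl

lemma Ctx.ui_small (hS : SMP_Stmt) (X : Ctx n k σ s c CA CB) (i : Fin k) (h : ℕ) (φ : ℝ → ℝ)
    (hφ : ∀ a, |φ a| ≤ 1) : |ui n s (σ i) h φ| ≤ vsk n s (σ i) * (CB + 1) := by
  have hs := X.hs
  have h1 := rs_abs (σ i).l (fun j t => s ^ j * (if (j : ℤ) = (σ i).H - h then
    φ (((((σ i).A : ℤ) - (t : ℤ) : ℤ) : ℝ) / sc n) else 0)) (fun _ _ => 0)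
    (fun j _ => s ^ j * (if (j : ℤ) = (σ i).H - h then 1 else 0)) (fun j t _ _ => by
      rw [sub_zero, abs_mul, abs_of_nonneg (show 0 ≤ s ^ j by positivity)]
      refine mul_le_mul_of_nonneg_left ?_ (by positivity)
      split_ifs
      · exact hφ _
      · simp)
  rw [rs_zero, sub_zero, rs_ind hS hs] at h1
  unfold ui
  rw [abs_mul, abs_of_nonneg (show 0 ≤ s ^ (n - (σ i).H) by positivity)]
  unfold vsk
  rw [mul_assoc]
  refine mul_le_mul_of_nonneg_left ?_ (by positivity)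
  refine h1.trans ?_
  rw [mul_one]
  exact mul_le_mul_of_nonneg_left (X.bple _ _) (by positivity)

lemma Ctx.ui_big (hS : SMP_Stmt) (X : Ctx n k σ s c CA CB) (i : Fin k)
    (hi : c * n ≤ ((σ i).l.length : ℝ)) (h : ℕ) (φ : ℝ → ℝ) (hL : LipschitzWith 1 φ) :
    |ui n s (σ i) h φ - vsk n s (σ i) * (bp (σ i).l.length (s / (1 + s)) ((σ i).H - h) *
        φ ((((σ i).A : ℝ) - s / (1 + s) * (σ i).l.sum) / sc n))| ≤
      vsk n s (σ i) * ((CB / Real.sqrt c + CB / c) *
        (1 + (((σ i).A : ℝ) / sc n) ^ 2) / (Real.sqrt n * Real.sqrt (Real.sqrt n))) := by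
  have hn := X.n1
  have hs := X.hs
  have hsc := X.scpos
  have hCB := X.hCB
  have hc := X.hc
  have hsn : 0 < Real.sqrt n := Real.sqrt_pos.2 (by linarith)
  have hssn : 0 < Real.sqrt (Real.sqrt n) := Real.sqrt_pos.2 hsn
  have hscc : 0 < Real.sqrt c := Real.sqrt_pos.2 hc
  have hcn : 0 < c * n := by positivity
  have hlen : (0 : ℝ) < (σ i).l.length := lt_of_lt_of_le hcn hi
  have hl : (σ i).l ≠ [] := by
    intro h0
    rw [h0] at hlen
    simp at hlen
  obtain ⟨m, hm⟩ : ∃ m : ℤ, m = (σ i).H - h := ⟨_, rfl⟩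
  obtain ⟨p, hp⟩ : ∃ p, p = s / (1 + s) := ⟨_, rfl⟩
  have hdev := rs_dev hS hs (σ i).l hl (2 * n + 2) (X.sk.y_le i) m
  rw [← hp] at hdev
  have h1 := rs_abs (σ i).l (fun j t => s ^ j * (if (j : ℤ) = m then
    φ (((((σ i).A : ℤ) - (t : ℤ) : ℤ) : ℝ) / sc n) else 0))
    (fun j _ => s ^ j * (if (j : ℤ) = m then
      φ ((((σ i).A : ℝ) - p * (σ i).l.sum) / sc n) else 0))
    (fun j t => 1 / sc n * (s ^ j * (if (j : ℤ) = m then |(t : ℝ) - p * (σ i).l.sum| else 0)))
    (fun j t _ _ => by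
      rw [← mul_sub, abs_mul, abs_of_nonneg (show 0 ≤ s ^ j by positivity)]
      rw [← mul_assoc, mul_comm (1 / sc n), mul_assoc]
      refine mul_le_mul_of_nonneg_left ?_ (by positivity)
      split_ifs
      · have h2 := hL.dist_le_mul (((((σ i).A : ℤ) - (t : ℤ) : ℤ) : ℝ) / sc n)
          ((((σ i).A : ℝ) - p * (σ i).l.sum) / sc n)
        rw [Real.dist_eq, Real.dist_eq] at h2
        refine h2.trans (le_of_eq ?_)
        simp only [Int.cast_sub, Int.cast_natCast, NNReal.coe_one]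
        rw [one_mul, ← sub_div, abs_div, abs_of_pos hsc]
        rw [show ((σ i).A : ℝ) - t - (((σ i).A : ℝ) - p * (σ i).l.sum) =
          - ((t : ℝ) - p * (σ i).l.sum) by ring, abs_neg]
        ring
      · simp)
  rw [rs_ind hS hs, rs_mul, ← hp] at h1
  have h2 : 1 / sc n * rs (σ i).l (fun j t => s ^ j * (if (j : ℤ) = m then
      |(t : ℝ) - p * (σ i).l.sum| else 0)) ≤ 1 / sc n * ((1 + s) ^ (σ i).l.length *
      (bp (σ i).l.length p m * Real.sqrt (((2 * n + 2 : ℕ) : ℝ) * (σ i).l.sum) +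
        bp (σ i).l.length p m * |(m : ℝ) - p * (σ i).l.length| *
          ((σ i).l.sum / (σ i).l.length))) :=
    mul_le_mul_of_nonneg_left hdev (by positivity)
  have h3 := h1.trans h2
  -- size of the sum of the entries
  have hA0 : (0 : ℝ) ≤ ((σ i).A : ℝ) := by positivity
  have hS4 : 4 * ((σ i).l.sum : ℝ) ≤ ((σ i).A : ℝ) := by exact_mod_cast X.sk.sum_le i
  have hS0 : (0 : ℝ) ≤ ((σ i).l.sum : ℝ) := by positivity
  obtain ⟨a, ha⟩ : ∃ a : ℝ, a = ((σ i).A : ℝ) / sc n := ⟨_, rfl⟩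
  have ha0 : 0 ≤ a := by rw [ha]; positivity
  have hA : ((σ i).A : ℝ) = a * sc n := by rw [ha]; field_simp
  have hbig := X.bpbig (σ i).l.length m hi
  have hlen1 : 1 ≤ (σ i).l.length := by
    have : (0 : ℕ) < (σ i).l.length := by exact_mod_cast hlen
    omega
  have hthird := (X.bin (σ i).l.length m hlen1).2.2
  have hb0 := bp_nonneg X.p0 X.p1 (σ i).l.length m
  rw [← hp] at hbig hthird hb0
  have h4 : Real.sqrt (((2 * n + 2 : ℕ) : ℝ) * (σ i).l.sum) / sc n ≤
      (1 + a ^ 2) / Real.sqrt (Real.sqrt n) := by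
    have h5 : ((2 * n + 2 : ℕ) : ℝ) * (σ i).l.sum ≤ (n : ℝ) * ((σ i).A : ℝ) := by
      have e : ((2 * n + 2 : ℕ) : ℝ) = 2 * n + 2 := by push_cast; ring
      rw [e]
      have h50 : (2 * (n : ℝ) + 2) * ((σ i).l.sum : ℝ) ≤ (4 * n) * ((σ i).l.sum : ℝ) :=
        mul_le_mul_of_nonneg_right (by linarith) hS0
      have h51 : (n : ℝ) * (4 * ((σ i).l.sum : ℝ)) ≤ (n : ℝ) * ((σ i).A : ℝ) :=
        mul_le_mul_of_nonneg_left hS4 (by linarith)
      linarith
    have h6 : Real.sqrt (((2 * n + 2 : ℕ) : ℝ) * (σ i).l.sum) ≤ Real.sqrt ((n : ℝ) * ((σ i).A : ℝ)) :=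
      Real.sqrt_le_sqrt h5
    have hnn : Real.sqrt n * Real.sqrt n = n := Real.mul_self_sqrt (by positivity)
    have h7 : Real.sqrt ((n : ℝ) * ((σ i).A : ℝ)) = Real.sqrt a * (sc n / Real.sqrt (Real.sqrt n)) := by
      have h8 : (n : ℝ) * ((σ i).A : ℝ) = a * (sc n / Real.sqrt (Real.sqrt n)) ^ 2 := by
        rw [hA, div_pow, Real.sq_sqrt hsn.le]
        unfold sc
        rw [eq_comm, ← mul_div_assoc, div_eq_iff hsn.ne']
        nlinarith [hnn]
      rw [h8, Real.sqrt_mul ha0, Real.sqrt_sq (by positivity)]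
    have h9 : Real.sqrt a ≤ 1 + a ^ 2 := by
      rw [Real.sqrt_le_left (by positivity)]
      nlinarith [sq_nonneg (a - 1), sq_nonneg (a ^ 2)]
    rw [h7] at h6
    rw [div_le_iff₀ hsc]
    refine h6.trans ?_
    rw [div_mul_eq_mul_div, ← mul_div_assoc]
    refine div_le_div_of_nonneg_right ?_ hssn.le
    exact mul_le_mul_of_nonneg_right h9 hsc.le
  have h5 : ((σ i).l.sum : ℝ) / (σ i).l.length / sc n ≤ (1 + a ^ 2) / (c * n) := by
    rw [div_div, div_le_div_iff₀ (by positivity) hcn]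
    have h6 : ((σ i).l.sum : ℝ) ≤ (1 + a ^ 2) * sc n := by
      have : a ≤ 1 + a ^ 2 := by nlinarith [sq_nonneg (a - 1)]
      have := mul_le_mul_of_nonneg_right this hsc.le
      rw [← hA] at this
      linarith
    calc ((σ i).l.sum : ℝ) * (c * n) ≤ ((1 + a ^ 2) * sc n) * (σ i).l.length :=
          mul_le_mul h6 hi hcn.le (by positivity)
      _ = _ := by ring
  have h6 : 1 / sc n * ((1 + s) ^ (σ i).l.length *
      (bp (σ i).l.length p m * Real.sqrt (((2 * n + 2 : ℕ) : ℝ) * (σ i).l.sum) +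
        bp (σ i).l.length p m * |(m : ℝ) - p * (σ i).l.length| *
          ((σ i).l.sum / (σ i).l.length))) ≤
      (1 + s) ^ (σ i).l.length * ((CB / Real.sqrt c + CB / c) *
        (1 + a ^ 2) / (Real.sqrt n * Real.sqrt (Real.sqrt n))) := by
    have e : 1 / sc n * ((1 + s) ^ (σ i).l.length *
      (bp (σ i).l.length p m * Real.sqrt (((2 * n + 2 : ℕ) : ℝ) * (σ i).l.sum) +
        bp (σ i).l.length p m * |(m : ℝ) - p * (σ i).l.length| *
          ((σ i).l.sum / (σ i).l.length))) = (1 + s) ^ (σ i).l.length *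
      (bp (σ i).l.length p m * (Real.sqrt (((2 * n + 2 : ℕ) : ℝ) * (σ i).l.sum) / sc n) +
        bp (σ i).l.length p m * |(m : ℝ) - p * (σ i).l.length| *
          ((σ i).l.sum / (σ i).l.length / sc n)) := by
      field_simp
    rw [e]
    refine mul_le_mul_of_nonneg_left ?_ (by positivity)
    have h7 : bp (σ i).l.length p m * (Real.sqrt (((2 * n + 2 : ℕ) : ℝ) * (σ i).l.sum) / sc n) ≤
        CB / (Real.sqrt c * Real.sqrt n) * ((1 + a ^ 2) / Real.sqrt (Real.sqrt n)) :=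
      mul_le_mul hbig h4 (by positivity) (by positivity)
    have h8 : bp (σ i).l.length p m * |(m : ℝ) - p * (σ i).l.length| *
          ((σ i).l.sum / (σ i).l.length / sc n) ≤ CB * ((1 + a ^ 2) / (c * n)) :=
      mul_le_mul hthird h5 (by positivity) hCB.le
    have h9 : CB * ((1 + a ^ 2) / (c * n)) ≤
        CB / c * (1 + a ^ 2) / (Real.sqrt n * Real.sqrt (Real.sqrt n)) := by
      have hle : Real.sqrt (Real.sqrt n) ≤ Real.sqrt n := by
        rw [Real.sqrt_le_left hsn.le]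
        have : 1 ≤ Real.sqrt n := by
          rw [Real.one_le_sqrt]
          linarith
        nlinarith
      have h10 : Real.sqrt n * Real.sqrt (Real.sqrt n) ≤ n := by
        calc _ ≤ Real.sqrt n * Real.sqrt n := mul_le_mul_of_nonneg_left hle hsn.le
          _ = n := Real.mul_self_sqrt (by positivity)
      have e1 : CB * ((1 + a ^ 2) / (c * n)) = CB / c * (1 + a ^ 2) / n := by
        field_simp
      rw [e1]
      exact div_le_div_of_nonneg_left (by positivity) (by positivity) h10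
    refine (add_le_add h7 (h8.trans h9)).trans (le_of_eq ?_)
    field_simp
  have h7 := h3.trans h6
  unfold ui vsk
  rw [← hm, ← hp, ← ha, mul_assoc, mul_assoc, ← mul_sub, abs_mul,
    abs_of_nonneg (show 0 ≤ s ^ (n - (σ i).H) by positivity)]
  exact mul_le_mul_of_nonneg_left h7 (by positivity)

lemma Ctx.part3 (hS : SMP_Stmt) (X : Ctx n k σ s c CA CB) (h h' : ℕ) (φ : ℝ → ℝ)
    (hφ : ∀ a, |φ a| ≤ 1) (hL : LipschitzWith 1 φ) :
    |U n s h φ - U n s h' φ| ≤
      (2 * (CB / Real.sqrt c + CB / c) * (1 + 2 * CA) + CB / c + 2 * (CB + 1)) *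
        (1 / (Real.sqrt n * Real.sqrt (Real.sqrt n)) + |(h : ℝ) - h'| / n) * Zq n s := by
  have hn := X.n1
  have hs := X.hs
  have hsc := X.scpos
  have hCB := X.hCB
  have hCA := X.hCA
  have hZ := X.Zpos
  have hc := X.hc
  have hsn : 0 < Real.sqrt n := Real.sqrt_pos.2 (by linarith)
  have hssn : 0 < Real.sqrt (Real.sqrt n) := Real.sqrt_pos.2 hsn
  have hscc : 0 < Real.sqrt c := Real.sqrt_pos.2 hc
  obtain ⟨r, hr⟩ : ∃ r : ℝ, r = Real.sqrt n * Real.sqrt (Real.sqrt n) := ⟨_, rfl⟩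
  have hr0 : 0 < r := by rw [hr]; positivity
  have hrn : r ≤ n := by
    have hle : Real.sqrt (Real.sqrt n) ≤ Real.sqrt n := by
      rw [Real.sqrt_le_left hsn.le]
      have : 1 ≤ Real.sqrt n := by
        rw [Real.one_le_sqrt]
        linarith
      nlinarith
    rw [hr]
    calc _ ≤ Real.sqrt n * Real.sqrt n := mul_le_mul_of_nonneg_left hle hsn.le
      _ = n := Real.mul_self_sqrt (by positivity)
  obtain ⟨B, hB⟩ : ∃ B : ℝ, B = CB / Real.sqrt c + CB / c := ⟨_, rfl⟩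
  have hB0 : 0 < B := by rw [hB]; positivity
  rw [← hr, ← hB, X.U_eq, X.U_eq, ← sum_sub_distrib]
  refine (abs_sum_le_sum_abs _ _).trans ?_
  have h1 := X.split (fun i => |ui n s (σ i) h φ - ui n s (σ i) h' φ|)
    (fun i => 2 * (B * (1 + (((σ i).A : ℝ) / sc n) ^ 2) / r) + |(h : ℝ) - h'| * (CB / (c * n)))
    (2 * (CB + 1)) (by positivity) (fun i => by positivity)
    (fun i hi => by
      have h2 := X.ui_big hS i hi h φ hL
      have h3 := X.ui_big hS i hi h' φ hL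
      rw [← hr, ← hB] at h2 h3
      have hcn : 0 < c * n := by positivity
      have hlen : (0 : ℝ) < (σ i).l.length := lt_of_lt_of_le hcn hi
      have hlen1 : 1 ≤ (σ i).l.length := by
        have : (0 : ℕ) < (σ i).l.length := by exact_mod_cast hlen
        omega
      have h4 := bp_lip (fun j => (X.bin (σ i).l.length j hlen1).2.1) ((σ i).H - h) ((σ i).H - h')
      obtain ⟨y, hy⟩ : ∃ y : ℝ, y = φ ((((σ i).A : ℝ) - s / (1 + s) * (σ i).l.sum) / sc n) := ⟨_, rfl⟩
      have hy1 : |y| ≤ 1 := by rw [hy]; exact hφ _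
      rw [← hy] at h2 h3
      obtain ⟨b1, hb1⟩ : ∃ b, b = bp (σ i).l.length (s / (1 + s)) ((σ i).H - h) := ⟨_, rfl⟩
      obtain ⟨b2, hb2⟩ : ∃ b, b = bp (σ i).l.length (s / (1 + s)) ((σ i).H - h') := ⟨_, rfl⟩
      rw [← hb1] at h2 h4
      rw [← hb2] at h3 h4
      have h5 : |(((σ i).H - h : ℤ) : ℝ) - (((σ i).H - h' : ℤ) : ℝ)| = |(h : ℝ) - h'| := by
        simp only [Int.cast_sub, Int.cast_natCast]
        rw [show ((σ i).H : ℝ) - h - (((σ i).H : ℝ) - h') = -((h : ℝ) - h') by ring, abs_neg]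
      rw [h5] at h4
      have h6 : CB / ((σ i).l.length : ℝ) ≤ CB / (c * n) :=
        div_le_div_of_nonneg_left hCB.le hcn hi
      have h7 : |b1 - b2| ≤ |(h : ℝ) - h'| * (CB / (c * n)) :=
        h4.trans (mul_le_mul_of_nonneg_left h6 (abs_nonneg _))
      have hv := X.vpos i
      have h8 : |vsk n s (σ i) * (b1 * y) - vsk n s (σ i) * (b2 * y)| ≤
          vsk n s (σ i) * (|(h : ℝ) - h'| * (CB / (c * n))) := by
        rw [← mul_sub, ← sub_mul, abs_mul, abs_mul, abs_of_nonneg hv]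
        refine mul_le_mul_of_nonneg_left ?_ hv
        calc |b1 - b2| * |y| ≤ |b1 - b2| * 1 := mul_le_mul_of_nonneg_left hy1 (abs_nonneg _)
          _ ≤ _ := by rw [mul_one]; exact h7
      have h9 : |ui n s (σ i) h φ - ui n s (σ i) h' φ| ≤
          |ui n s (σ i) h φ - vsk n s (σ i) * (b1 * y)| +
          |vsk n s (σ i) * (b1 * y) - vsk n s (σ i) * (b2 * y)| +
          |ui n s (σ i) h' φ - vsk n s (σ i) * (b2 * y)| := by
        have e : ui n s (σ i) h φ - ui n s (σ i) h' φ =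
          (ui n s (σ i) h φ - vsk n s (σ i) * (b1 * y)) +
          (vsk n s (σ i) * (b1 * y) - vsk n s (σ i) * (b2 * y)) -
          (ui n s (σ i) h' φ - vsk n s (σ i) * (b2 * y)) := by ring
        rw [e]
        refine (abs_sub _ _).trans ?_
        have := abs_add_le (ui n s (σ i) h φ - vsk n s (σ i) * (b1 * y))
          (vsk n s (σ i) * (b1 * y) - vsk n s (σ i) * (b2 * y))
        linarith
      refine h9.trans ?_
      rw [mul_add]
      linarith)
    (fun i => by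
      have h2 := X.ui_small hS i h φ hφ
      have h3 := X.ui_small hS i h' φ hφ
      have h4 := abs_sub (ui n s (σ i) h φ) (ui n s (σ i) h' φ)
      linarith)
  refine h1.trans ?_
  have h2 : ∑ i, vsk n s (σ i) * (2 * (B * (1 + (((σ i).A : ℝ) / sc n) ^ 2) / r) +
      |(h : ℝ) - h'| * (CB / (c * n))) =
      2 * B / r * ∑ i, vsk n s (σ i) * (1 + (((σ i).A : ℝ) / sc n) ^ 2) +
        |(h : ℝ) - h'| * (CB / (c * n)) * Zq n s := by
    rw [X.Z, mul_sum, mul_sum, ← sum_add_distrib]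
    exact sum_congr rfl fun i _ => by ring
  rw [h2]
  have h3 : 2 * B / r * ∑ i, vsk n s (σ i) * (1 + (((σ i).A : ℝ) / sc n) ^ 2) ≤
      2 * B / r * ((1 + 2 * CA) * Zq n s) := mul_le_mul_of_nonneg_left X.sumV (by positivity)
  have h4 : 2 * (CB + 1) / (n : ℝ) ^ 3 * Zq n s ≤ 2 * (CB + 1) / r * Zq n s := by
    refine mul_le_mul_of_nonneg_right ?_ hZ
    refine div_le_div_of_nonneg_left (by positivity) hr0 (hrn.trans ?_)
    calc (n : ℝ) = n * 1 := by ring
      _ ≤ n * (n ^ 2) := mul_le_mul_of_nonneg_left (by nlinarith) (by positivity)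
      _ = _ := by ring
  have h5 : 0 ≤ |(h : ℝ) - h'| / n := by positivity
  have h6 : |(h : ℝ) - h'| * (CB / (c * n)) = CB / c * (|(h : ℝ) - h'| / n) := by
    field_simp
  rw [h6]
  have h7 : (0 : ℝ) < 1 / r := by positivity
  have e1 : 2 * B / r * ((1 + 2 * CA) * Zq n s) = 2 * B * (1 + 2 * CA) * (1 / r) * Zq n s := by
    ring
  have e2 : 2 * (CB + 1) / r * Zq n s = 2 * (CB + 1) * (1 / r) * Zq n s := by ring
  rw [e1] at h3
  rw [e2] at h4
  have h8 : 0 ≤ 2 * B * (1 + 2 * CA) * (|(h : ℝ) - h'| / n) * Zq n s := by positivity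
  have h9 : 0 ≤ CB / c * (1 / r) * Zq n s := by positivity
  have h10 : 0 ≤ 2 * (CB + 1) * (|(h : ℝ) - h'| / n) * Zq n s := by positivity
  calc _ ≤ 2 * B * (1 + 2 * CA) * (1 / r) * Zq n s + CB / c * (|(h : ℝ) - h'| / n) * Zq n s +
        2 * (CB + 1) * (1 / r) * Zq n s := add_le_add (add_le_add h3 le_rfl) h4
    _ ≤ (2 * B * (1 + 2 * CA) * (1 / r) * Zq n s + CB / c * (|(h : ℝ) - h'| / n) * Zq n s +
        2 * (CB + 1) * (1 / r) * Zq n s) +
        (2 * B * (1 + 2 * CA) * (|(h : ℝ) - h'| / n) * Zq n s + CB / c * (1 / r) * Zq n s +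
        2 * (CB + 1) * (|(h : ℝ) - h'| / n) * Zq n s) := by linarith
    _ = _ := by ring

/-! ### part (iv) -/

lemma Ctx.part4 (hS : SMP_Stmt) (X : Ctx n k σ s c CA CB) (K c' : ℝ) (k0 : ℕ) (hK : 0 < K)
    (hc' : 0 < c')
    (hbin : ∀ (m : ℕ) (j : ℤ), k0 ≤ m →
      |(j : ℝ) - s / (1 + s) * m| ≤ 2 * Real.sqrt (K / c) * Real.sqrt m →
        c' / Real.sqrt m ≤ bp m (s / (1 + s)) j)
    (hk0 : (k0 : ℝ) ≤ c * n) (h : ℕ)
    (hv : ∑ q ∈ Omn n, wtq n s q * ((sp q : ℝ) - h) ^ 2 ≤ K * n * Zq n s) :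
    c' / 2 / Real.sqrt n * Zq n s ≤ U n s h (fun _ => 1) := by
  classical
  have hn := X.n1
  have hs := X.hs
  have hsc := X.scpos
  have hZ := X.Zpos
  have hc := X.hc
  have hsn : 0 < Real.sqrt n := Real.sqrt_pos.2 (by linarith)
  obtain ⟨p, hp⟩ : ∃ p, p = s / (1 + s) := ⟨_, rfl⟩
  -- the second moment
  have h1 := key X.sk s (fun a _ _ => ((a : ℝ) - h) ^ 2)
  have h2 : ∑ q ∈ Omn n, wtq n s q * ((sp q : ℝ) - h) ^ 2 =
      ∑ q ∈ Omn n, wtq n s q * ((((sp q : ℕ) : ℤ) : ℝ) - h) ^ 2 := by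
    refine sum_congr rfl fun q _ => ?_
    push_cast
    rfl
  rw [h2, h1] at hv
  have h3 : ∑ i, vsk n s (σ i) * ((((σ i).H : ℝ) - h) - p * (σ i).l.length) ^ 2 ≤
      K * n * Zq n s := by
    refine le_trans (sum_le_sum fun i _ => ?_) hv
    unfold vsk
    rw [mul_assoc]
    refine mul_le_mul_of_nonneg_left ?_ (by positivity)
    rw [hp]
    refine (rs_jensen hs (σ i).l (((σ i).H : ℝ) - h)).trans (le_of_eq ?_)
    refine rs_congr _ _ _ fun j t _ _ => ?_
    simp only [Int.cast_sub, Int.cast_natCast]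
    ring
  -- good skeletons
  obtain ⟨bad, hbad⟩ : ∃ bad : Finset (Fin k), bad = univ.filter (fun i : Fin k =>
    4 * K * n < ((((σ i).H : ℝ) - h) - p * (σ i).l.length) ^ 2) := ⟨_, rfl⟩
  have h4 : ∑ i ∈ bad, vsk n s (σ i) ≤ 1 / 4 * Zq n s := by
    have h5 : ∑ i ∈ bad, vsk n s (σ i) * (4 * K * n) ≤ K * n * Zq n s := by
      refine le_trans ?_ h3
      refine le_trans ?_ (sum_le_sum_of_subset_of_nonneg (subset_univ bad) fun i _ _ =>
        mul_nonneg (X.vpos i) (sq_nonneg _))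
      refine sum_le_sum fun i hi => mul_le_mul_of_nonneg_left ?_ (X.vpos i)
      rw [hbad] at hi
      exact (mem_filter.1 hi).2.le
    rw [← sum_mul] at h5
    have h6 : 0 < K * n := by positivity
    have h7 : (∑ i ∈ bad, vsk n s (σ i)) * 4 * (K * n) ≤ Zq n s * (K * n) := by linarith
    have h8 := le_of_mul_le_mul_right h7 h6
    linarith
  have h5 : ∑ i ∈ univ.filter (fun i : Fin k => ((σ i).l.length : ℝ) < c * n), vsk n s (σ i) ≤
      1 / 4 * Zq n s := by
    refine X.kb.trans (mul_le_mul_of_nonneg_right ?_ hZ)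
    rw [div_le_div_iff₀ (by positivity) (by norm_num)]
    have : (3 : ℝ) ^ 3 ≤ (n : ℝ) ^ 3 := pow_le_pow_left₀ (by norm_num) hn 3
    linarith
  -- lower bound
  have h6 : ∀ i : Fin k, c' / Real.sqrt n * vsk n s (σ i) -
      (c' / Real.sqrt n * (if i ∈ bad then vsk n s (σ i) else 0) +
        c' / Real.sqrt n * (if ((σ i).l.length : ℝ) < c * n then vsk n s (σ i) else 0)) ≤
      ui n s (σ i) h (fun _ => 1) := by
    intro i
    have hui : ui n s (σ i) h (fun _ => 1) =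
        vsk n s (σ i) * bp (σ i).l.length p ((σ i).H - h) := by
      unfold ui vsk
      rw [rs_ind hS hs, ← hp]
      ring
    have hb0 := bp_nonneg X.p0 X.p1 (σ i).l.length ((σ i).H - h)
    rw [← hp] at hb0
    have hv := X.vpos i
    have hcn' : 0 ≤ c' / Real.sqrt n * vsk n s (σ i) := by positivity
    rw [hui]
    by_cases hi1 : i ∈ bad
    · rw [if_pos hi1]
      have : 0 ≤ c' / Real.sqrt n * (if ((σ i).l.length : ℝ) < c * n then vsk n s (σ i) else 0) := by
        split_ifs <;> positivity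
      have := mul_nonneg hv hb0
      linarith
    · by_cases hi2 : ((σ i).l.length : ℝ) < c * n
      · rw [if_neg hi1, if_pos hi2]
        have := mul_nonneg hv hb0
        linarith
      · rw [if_neg hi1, if_neg hi2, mul_zero, add_zero, sub_zero, mul_comm]
        refine mul_le_mul_of_nonneg_left ?_ hv
        have hi3 : c * n ≤ (σ i).l.length := not_lt.1 hi2
        have hcn : 0 < c * n := by positivity
        have hlen : (0 : ℝ) < (σ i).l.length := lt_of_lt_of_le hcn hi3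
        have hk : k0 ≤ (σ i).l.length := by exact_mod_cast hk0.trans hi3
        rw [hbad, mem_filter, not_and, not_lt] at hi1
        have hi4 := hi1 (mem_univ i)
        have h7 : |((((σ i).H - h : ℤ)) : ℝ) - s / (1 + s) * (σ i).l.length| ≤
            2 * Real.sqrt (K / c) * Real.sqrt (σ i).l.length := by
          simp only [Int.cast_sub, Int.cast_natCast]
          rw [← hp, ← Real.sqrt_sq_eq_abs]
          have e : 2 * Real.sqrt (K / c) * Real.sqrt (σ i).l.length =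
              Real.sqrt (4 * (K / c) * (σ i).l.length) := by
            rw [Real.sqrt_mul (by positivity), Real.sqrt_mul (by norm_num)]
            congr 2
            rw [show (4 : ℝ) = 2 ^ 2 by norm_num, Real.sqrt_sq (by norm_num)]
          rw [e]
          refine Real.sqrt_le_sqrt (hi4.trans ?_)
          calc 4 * K * n = 4 * (K / c) * (c * n) := by field_simp
            _ ≤ _ := mul_le_mul_of_nonneg_left hi3 (by positivity)
        have h8 := hbin _ _ hk h7
        rw [← hp] at h8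
        refine le_trans ?_ h8
        have hsl : 0 < Real.sqrt (σ i).l.length := Real.sqrt_pos.2 hlen
        refine div_le_div_of_nonneg_left hc'.le hsl (Real.sqrt_le_sqrt ?_)
        have := X.sk.len_le i
        have := X.sk.H_le i
        exact_mod_cast (by omega : (σ i).l.length ≤ n)
  rw [X.U_eq]
  refine le_trans ?_ (sum_le_sum fun i _ => h6 i)
  rw [sum_sub_distrib, sum_add_distrib, ← mul_sum, ← mul_sum, ← mul_sum, ← X.Z]
  have e1 : ∑ i, (if i ∈ bad then vsk n s (σ i) else 0) = ∑ i ∈ bad, vsk n s (σ i) := by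
    rw [← sum_filter]
    congr 1
    ext i
    simp
  have e2 : ∑ i, (if ((σ i).l.length : ℝ) < c * n then vsk n s (σ i) else 0) =
      ∑ i ∈ univ.filter (fun i : Fin k => ((σ i).l.length : ℝ) < c * n), vsk n s (σ i) := by
    rw [← sum_filter]
  rw [e1, e2]
  have h7 : 0 < c' / Real.sqrt n := by positivity
  have h8 : c' / Real.sqrt n * ∑ i ∈ bad, vsk n s (σ i) ≤ c' / Real.sqrt n * (1 / 4 * Zq n s) :=
    mul_le_mul_of_nonneg_left h4 h7.le
  have h9 : c' / Real.sqrt n * ∑ i ∈ univ.filter (fun i : Fin k => ((σ i).l.length : ℝ) < c * n),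
      vsk n s (σ i) ≤ c' / Real.sqrt n * (1 / 4 * Zq n s) :=
    mul_le_mul_of_nonneg_left h5 h7.le
  have e3 : c' / 2 / Real.sqrt n * Zq n s = c' / Real.sqrt n * Zq n s -
      (c' / Real.sqrt n * (1 / 4 * Zq n s) + c' / Real.sqrt n * (1 / 4 * Zq n s)) := by
    ring
  rw [e3]
  linarith

/-! ### assembly -/

lemma exp_small {c : ℝ} (hc : 0 < c) {n : ℕ} (hn : 24 / c ^ 4 ≤ n) (h1 : 1 ≤ n) :
    Real.exp (-(c * n)) ≤ 1 / (n : ℝ) ^ 3 := by
  have hn1 : (1 : ℝ) ≤ n := by exact_mod_cast h1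
  have h2 := Real.pow_div_factorial_le_exp (c * n) (by positivity) 4
  have h3 : (n : ℝ) ^ 3 ≤ Real.exp (c * n) := by
    refine le_trans ?_ h2
    have e : ((Nat.factorial 4 : ℕ) : ℝ) = 24 := by norm_num [Nat.factorial]
    rw [e, le_div_iff₀ (by norm_num)]
    rw [div_le_iff₀ (by positivity)] at hn
    calc (n : ℝ) ^ 3 * 24 ≤ (n : ℝ) ^ 3 * (n * c ^ 4) := mul_le_mul_of_nonneg_left hn (by positivity)
      _ = _ := by ring
  rw [Real.exp_neg, inv_eq_one_div]
  exact div_le_div_of_nonneg_left (by norm_num) (by positivity) h3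

end Pool.Agent.FS.LOC

namespace Pool.Agent.FS

open Finset Filter Topology MeasureTheory
open Pool.Agent.Lib27 Pool.Agent.SapR Pool.Agent.Gap Pool.Agent.AreaLaw Pool.Agent.FL

theorem LOC_thm (hSK : SKEL_Stmt) (hKB : KBIG_Stmt) (hBIN : BIN_Stmt) (hSMP : SMP_Stmt)
    (hARM : ARM_Stmt) : LOC_Stmt := by
  intro s0 s1 hs0 hs01 hs1
  have hs1' : 0 < s1 := lt_of_lt_of_le hs0 hs01
  obtain ⟨CA, hCA, NA, hA⟩ := hARM s1 hs1' hs1
  obtain ⟨c, hc, NK, hNK6, hKB'⟩ := hKB s0 s1 hs0 hs01 hs1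
  have hp0 : 0 < s0 / (1 + s0) := by positivity
  have hmono : ∀ a b : ℝ, 0 < a → a ≤ b → a / (1 + a) ≤ b / (1 + b) := by
    intro a b ha hab
    have hb : 0 < b := lt_of_lt_of_le ha hab
    rw [div_le_div_iff₀ (by positivity) (by positivity)]
    nlinarith
  have hp1 : s1 / (1 + s1) < 1 := by
    rw [div_lt_one (by positivity)]
    linarith
  obtain ⟨⟨CB, hCB, hb1⟩, hb2⟩ := hBIN (s0 / (1 + s0)) (s1 / (1 + s1)) hp0 (hmono _ _ hs0 hs01) hp1
  obtain ⟨N, hN⟩ : ∃ N : ℕ, N = max (max NA NK) ⌈24 / c ^ 4⌉₊ := ⟨_, rfl⟩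
  have hctx : ∀ n : ℕ, N ≤ n → ∀ s : ℝ, s0 ≤ s → s ≤ s1 → ∃ (k : ℕ) (σ : Fin k → Sk),
      LOC.Ctx n k σ s c CA CB := by
    intro n hn s hs0' hs1''
    have hn1 : NA ≤ n := le_trans (le_trans (le_max_left _ _) (le_max_left _ _)) (hN ▸ hn)
    have hn2 : NK ≤ n := le_trans (le_trans (le_max_right _ _) (le_max_left _ _)) (hN ▸ hn)
    have hn3 : ⌈24 / c ^ 4⌉₊ ≤ n := le_trans (le_max_right _ _) (hN ▸ hn)
    have hn4 : 24 / c ^ 4 ≤ n := (Nat.le_ceil _).trans (by exact_mod_cast hn3)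
    obtain ⟨k, σ, hσ⟩ := hSK n (by omega)
    have hs : 0 < s := lt_of_lt_of_le hs0 hs0'
    obtain ⟨a1, _, a3⟩ := hA n hn1 s hs hs1''
    refine ⟨k, σ, ⟨hσ, by omega, hs, by linarith, hc, hCA, hCB, a1, a3, ?_, ?_⟩⟩
    · refine (hKB' n hn2 s hs0' hs1'' k σ hσ).trans ?_
      refine mul_le_mul_of_nonneg_right (LOC.exp_small hc hn4 (by omega)) ?_
      unfold Zq
      refine sum_nonneg fun q _ => ?_
      unfold wtq
      positivity
    · intro m j hm
      exact hb1 (s / (1 + s)) (hmono _ _ hs0 hs0') (hmono _ _ hs hs1'') m j hm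
  refine ⟨⟨max (max ((CB / Real.sqrt c * (1 + 2 * CA) + 5 * (CB + 1)))
      (CB / Real.sqrt c * (CA + 2 * |(dlt : ℝ)|) + (CB + 1) * (6 + |(dlt : ℝ)|)))
      (2 * (CB / Real.sqrt c + CB / c) * (1 + 2 * CA) + CB / c + 2 * (CB + 1)), ?_, N, ?_⟩, ?_⟩
  · have : 0 < CB / Real.sqrt c * (1 + 2 * CA) + 5 * (CB + 1) := by positivity
    exact lt_of_lt_of_le this ((le_max_left _ _).trans (le_max_left _ _))
  · intro n hn s hs0' hs1''
    obtain ⟨k, σ, X⟩ := hctx n hn s hs0' hs1''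
    have hZ := X.Zpos
    have hnn := X.n1
    have hlog : 0 ≤ Real.log n := Real.log_nonneg (by linarith)
    refine ⟨fun h => ?_, fun h => ?_, fun h h' φ hφ hL => ?_⟩
    · refine (X.part1 hSMP h).trans (mul_le_mul_of_nonneg_right ?_ hZ)
      exact div_le_div_of_nonneg_right ((le_max_left _ _).trans (le_max_left _ _)) (Real.sqrt_nonneg _)
    · refine (X.part2 hSMP h).trans (mul_le_mul_of_nonneg_right ?_ hZ)
      exact mul_le_mul_of_nonneg_right ((le_max_right _ _).trans (le_max_left _ _)) (by positivity)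
    · refine (X.part3 hSMP h h' φ hφ hL).trans (mul_le_mul_of_nonneg_right ?_ hZ)
      exact mul_le_mul_of_nonneg_right (le_max_right _ _) (by positivity)
  · intro K hK
    obtain ⟨c', k0, hc', hb3⟩ := hb2 (2 * Real.sqrt (K / c)) (by positivity)
    refine ⟨c' / 2, by positivity, max N ⌈(k0 : ℝ) / c⌉₊, fun n hn s hs0' hs1'' h hv => ?_⟩
    obtain ⟨k, σ, X⟩ := hctx n ((le_max_left _ _).trans hn) s hs0' hs1''
    have hs : 0 < s := lt_of_lt_of_le hs0 hs0'
    refine X.part4 hSMP K c' k0 hK hc' (fun m j hm hj => ?_) ?_ h hv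
    · exact hb3 (s / (1 + s)) (hmono _ _ hs0 hs0') (hmono _ _ hs hs1'') m j hm hj
    · have h1 : ⌈(k0 : ℝ) / c⌉₊ ≤ n := (le_max_right _ _).trans hn
      have h2 : (k0 : ℝ) / c ≤ n := (Nat.le_ceil _).trans (by exact_mod_cast h1)
      rw [div_le_iff₀ hc] at h2
      linarith

end Pool.Agent.FS
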