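import Pool.Agent.Lib_helper74.FS.Stmts

/-!
# Module FS_SMP (MP_f6626d_co): number and variance of the subsets with `j` elements
-/

set_option autoImplicit false

namespace Pool.Agent.FS.SMP

open Finset

/-- first part -/
lemma rs_card (l : List ℕ) (G : ℕ → ℝ) : rs l (fun j _ => G j) =
    ∑ j ∈ range (l.length + 1), (l.length.choose j : ℝ) * G j := by
  induction l generalizing G with
  | nil => simp
  | cons y l ih =>
    rw [rs_cons, ih G, ih (fun j => G (j + 1)), List.length_cons,
      Finset.sum_range_succ' _ (l.length + 1)]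
    have h1 : ∑ j ∈ range (l.length + 1), ((l.length + 1).choose (j + 1) : ℝ) * G (j + 1) =
        ∑ j ∈ range (l.length + 1), (l.length.choose j : ℝ) * G (j + 1) +
        ∑ j ∈ range (l.length + 1), (l.length.choose (j + 1) : ℝ) * G (j + 1) := by
      rw [← sum_add_distrib]
      apply sum_congr rfl
      intro j _
      rw [Nat.choose_succ_succ]
      push_cast
      ring
    have h2 := Finset.sum_range_succ' (fun j => (l.length.choose j : ℝ) * G j) (l.length + 1)
    have h3 := Finset.sum_range_succ (fun j => (l.length.choose j : ℝ) * G j) (l.length + 1)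
    rw [Nat.choose_eq_zero_of_lt (Nat.lt_succ_self _)] at h3
    simp only [Nat.choose_zero_right, Nat.cast_one, one_mul, Nat.cast_zero, zero_mul,
      add_zero] at h2 h3 ⊢
    linarith

/-- restriction to `j` elements -/
noncomputable def rj (l : List ℕ) (j : ℕ) (g : ℕ → ℝ) : ℝ :=
  rs l (fun i t => if i = j then g t else 0)

lemma rj_nil_succ (j : ℕ) (g : ℕ → ℝ) : rj [] (j + 1) g = 0 := by
  unfold rj
  simp

lemma rj_nil_zero (g : ℕ → ℝ) : rj [] 0 g = g 0 := by
  unfold rj
  simp

lemma rj_cons_zero (y : ℕ) (l : List ℕ) (g : ℕ → ℝ) : rj (y :: l) 0 g = rj l 0 g := by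
  unfold rj
  rw [rs_cons]
  have : rs l (fun j t => if j + 1 = 0 then g (t + y) else 0) = 0 := by
    simp [rs_zero]
  rw [this, add_zero]

lemma rj_cons_succ (y : ℕ) (l : List ℕ) (j : ℕ) (g : ℕ → ℝ) :
    rj (y :: l) (j + 1) g = rj l (j + 1) g + rj l j (fun t => g (t + y)) := by
  unfold rj
  rw [rs_cons]
  simp only [Nat.add_right_cancel_iff]

lemma rj_add (l : List ℕ) (j : ℕ) (g h : ℕ → ℝ) :
    rj l j (fun t => g t + h t) = rj l j g + rj l j h := by
  unfold rj
  rw [← rs_add]
  apply rs_congr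
  intro i t _ _
  split_ifs <;> simp

lemma rj_mul (l : List ℕ) (j : ℕ) (c : ℝ) (g : ℕ → ℝ) :
    rj l j (fun t => c * g t) = c * rj l j g := by
  unfold rj
  rw [← rs_mul]
  apply rs_congr
  intro i t _ _
  split_ifs <;> simp

lemma rj_mono (l : List ℕ) (j : ℕ) (g h : ℕ → ℝ) (hgh : ∀ t, g t ≤ h t) :
    rj l j g ≤ rj l j h := by
  unfold rj
  apply rs_mono
  intro i t _ _
  split_ifs
  · exact hgh t
  · exact le_rfl

lemma rj_one (l : List ℕ) (j : ℕ) : rj l j (fun _ => 1) = (l.length.choose j : ℝ) := by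
  unfold rj
  rw [rs_card l (fun i => if i = j then 1 else 0)]
  simp only [mul_ite, mul_one, mul_zero, sum_ite_eq', mem_range]
  split_ifs with h
  · rfl
  · rw [Nat.choose_eq_zero_of_lt (by omega)]
    simp

/-- `C(k-1, j-1)` -/
def c1 : ℕ → ℕ → ℝ
  | 0, _ => 0
  | _ + 1, 0 => 0
  | k + 1, j + 1 => (k.choose j : ℝ)

/-- `C(k-2, j-2)` -/
def c2 : ℕ → ℕ → ℝ
  | 0, _ => 0
  | _ + 1, 0 => 0
  | k + 1, j + 1 => c1 k j

lemma c1_zero_right (k : ℕ) : c1 k 0 = 0 := by cases k <;> rfl

lemma c2_zero_right (k : ℕ) : c2 k 0 = 0 := by cases k <;> rfl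

lemma c1_pascal (k j : ℕ) : c1 (k + 1) (j + 1) + c1 (k + 1) j = ((k + 1).choose j : ℝ) := by
  cases j with
  | zero => simp [c1]
  | succ j =>
    simp only [c1]
    rw [Nat.choose_succ_succ]
    push_cast
    ring

lemma c2_pascal (k j : ℕ) : c2 (k + 2) (j + 1) + c2 (k + 2) j = c1 (k + 2) j := by
  cases j with
  | zero => simp [c1, c2]
  | succ j =>
    simp only [c2]
    rw [c1_pascal]
    rfl

lemma rj_first (l : List ℕ) (j : ℕ) : rj l j (fun t => (t : ℝ)) = c1 l.length j * (l.sum : ℝ) := by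
  induction l generalizing j with
  | nil =>
    cases j with
    | zero => rw [rj_nil_zero]; simp
    | succ j => rw [rj_nil_succ]; simp
  | cons y l ih =>
    cases j with
    | zero =>
      rw [rj_cons_zero, ih, c1_zero_right, c1_zero_right]
      ring
    | succ j =>
      rw [rj_cons_succ]
      have h1 : rj l j (fun t => ((t + y : ℕ) : ℝ)) =
          rj l j (fun t => (t : ℝ)) + y * (l.length.choose j : ℝ) := by
        rw [← rj_one, ← rj_mul, ← rj_add]
        congr 1
        funext t
        push_cast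
        ring
      rw [h1, ih, ih]
      have h2 : c1 (l.length + 1) (j + 1) = (l.length.choose j : ℝ) := rfl
      rw [List.length_cons, h2, List.sum_cons]
      have h3 : (c1 l.length (j + 1) + c1 l.length j) * (l.sum : ℝ) =
          (l.length.choose j : ℝ) * (l.sum : ℝ) := by
        cases l with
        | nil => simp
        | cons z l => rw [List.length_cons, c1_pascal]
      rw [Nat.cast_add]
      linarith

/-- sum of squares -/
def sq (l : List ℕ) : ℝ := (l.map (fun y => ((y : ℝ)) ^ 2)).sum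

lemma sq_nil : sq [] = 0 := by simp [sq]

lemma sq_cons (y : ℕ) (l : List ℕ) : sq (y :: l) = (y : ℝ) ^ 2 + sq l := by simp [sq]

lemma sq_nonneg' (l : List ℕ) : 0 ≤ sq l := by
  induction l with
  | nil => rw [sq_nil]
  | cons y l ih =>
    rw [sq_cons]
    positivity

lemma rj_second (l : List ℕ) (j : ℕ) : rj l j (fun t => (t : ℝ) ^ 2) =
    c1 l.length j * sq l + c2 l.length j * ((l.sum : ℝ) ^ 2 - sq l) := by
  induction l generalizing j with
  | nil =>
    cases j with
    | zero => rw [rj_nil_zero]; simp [sq_nil]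
    | succ j => rw [rj_nil_succ]; simp [sq_nil]
  | cons y l ih =>
    cases j with
    | zero =>
      rw [rj_cons_zero, ih, c1_zero_right, c1_zero_right, c2_zero_right, c2_zero_right]
      ring
    | succ j =>
      rw [rj_cons_succ]
      have h1 : rj l j (fun t => ((t + y : ℕ) : ℝ) ^ 2) =
          rj l j (fun t => (t : ℝ) ^ 2) + 2 * y * rj l j (fun t => (t : ℝ)) +
            (y : ℝ) ^ 2 * (l.length.choose j : ℝ) := by
        rw [← rj_one, ← rj_mul, ← rj_mul, ← rj_add, ← rj_add]
        congr 1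
        funext t
        push_cast
        ring
      rw [h1, ih, ih, rj_first]
      have h2 : c1 (l.length + 1) (j + 1) = (l.length.choose j : ℝ) := rfl
      have h2' : c2 (l.length + 1) (j + 1) = c1 l.length j := rfl
      rw [List.length_cons, h2, h2', List.sum_cons, sq_cons]
      have h3 : (c1 l.length (j + 1) + c1 l.length j) * sq l =
          (l.length.choose j : ℝ) * sq l := by
        cases l with
        | nil => simp [sq_nil]
        | cons z l => rw [List.length_cons, c1_pascal]
      have h4 : (c2 l.length (j + 1) + c2 l.length j) * ((l.sum : ℝ) ^ 2 - sq l) =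
          c1 l.length j * ((l.sum : ℝ) ^ 2 - sq l) := by
        cases l with
        | nil => simp [sq_nil]
        | cons z l =>
          cases l with
          | nil => simp [sq_nil, sq_cons]
          | cons z' l =>
            rw [List.length_cons, List.length_cons, c2_pascal]
      rw [Nat.cast_add]
      linarith

lemma c1_eq (k j : ℕ) (hk : 0 < k) : c1 k j = (j : ℝ) / k * (k.choose j : ℝ) := by
  obtain ⟨k, rfl⟩ : ∃ k', k = k' + 1 := ⟨k - 1, by omega⟩
  cases j with
  | zero => simp [c1]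
  | succ j =>
    have h1 := Nat.add_one_mul_choose_eq k j
    have h2 : ((k : ℝ) + 1) * (k.choose j : ℝ) = ((k + 1).choose (j + 1) : ℝ) * ((j : ℝ) + 1) := by
      exact_mod_cast h1
    simp only [c1]
    push_cast
    field_simp
    linarith

lemma c2_le (k j : ℕ) (hk : 0 < k) (hj : j ≤ k) :
    c2 k j ≤ ((j : ℝ) / k) ^ 2 * (k.choose j : ℝ) := by
  obtain ⟨k, rfl⟩ : ∃ k', k = k' + 1 := ⟨k - 1, by omega⟩
  cases j with
  | zero => simp [c2]
  | succ j =>
    simp only [c2]
    rcases Nat.eq_zero_or_pos k with h0 | h0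
    · subst h0
      simp only [c1]
      positivity
    · rw [c1_eq k j h0]
      have h1 := c1_eq (k + 1) (j + 1) (Nat.succ_pos k)
      have h2 : c1 (k + 1) (j + 1) = (k.choose j : ℝ) := rfl
      rw [h2] at h1
      have h3 : (((j + 1 : ℕ) : ℝ) / ((k + 1 : ℕ) : ℝ)) ^ 2 * ((k + 1).choose (j + 1) : ℝ) =
          (((j + 1 : ℕ) : ℝ) / ((k + 1 : ℕ) : ℝ)) * (k.choose j : ℝ) := by
        rw [h1]
        ring
      rw [h3]
      apply mul_le_mul_of_nonneg_right _ (Nat.cast_nonneg _)
      have hk' : (0 : ℝ) < k := by exact_mod_cast h0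
      rw [div_le_div_iff₀ hk' (by positivity)]
      have h4 : (j : ℝ) ≤ k := by exact_mod_cast (show j ≤ k by omega)
      push_cast
      nlinarith

lemma sq_le (l : List ℕ) (M : ℕ) (h : ∀ y ∈ l, y ≤ M) : sq l ≤ (M : ℝ) * (l.sum : ℝ) := by
  induction l with
  | nil => simp [sq_nil]
  | cons y l ih =>
    rw [sq_cons, List.sum_cons]
    have h1 := ih (fun z hz => h z (List.mem_cons_of_mem _ hz))
    have h2 : (y : ℝ) ≤ M := by exact_mod_cast h y List.mem_cons_self
    rw [Nat.cast_add]
    nlinarith [(Nat.cast_nonneg y : (0 : ℝ) ≤ y)]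

lemma sq_le_sum_sq (l : List ℕ) : sq l ≤ (l.sum : ℝ) ^ 2 := by
  induction l with
  | nil => simp [sq_nil]
  | cons y l ih =>
    rw [sq_cons, List.sum_cons, Nat.cast_add]
    have h1 : (0 : ℝ) ≤ (l.sum : ℝ) := Nat.cast_nonneg _
    nlinarith [(Nat.cast_nonneg y : (0 : ℝ) ≤ y), mul_nonneg (Nat.cast_nonneg (α := ℝ) y) h1]

/-- the variance -/
lemma var_le (l : List ℕ) (M j : ℕ) (hl : l ≠ []) (h : ∀ y ∈ l, y ≤ M) (hj : j ≤ l.length) :
    rj l j (fun t => ((t : ℝ) - (j : ℝ) / l.length * l.sum) ^ 2) ≤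
      (l.length.choose j : ℝ) * ((M : ℝ) * l.sum) := by
  have hk : 0 < l.length := List.length_pos_of_ne_nil hl
  set r : ℝ := (j : ℝ) / l.length with hr
  set K : ℝ := (l.length.choose j : ℝ) with hK
  have hK0 : 0 ≤ K := Nat.cast_nonneg _
  have hr0 : 0 ≤ r := by positivity
  have hr1 : r ≤ 1 := by
    rw [hr, div_le_one (by exact_mod_cast hk)]
    exact_mod_cast hj
  have h1 : rj l j (fun t => ((t : ℝ) - r * l.sum) ^ 2) =
      rj l j (fun t => (t : ℝ) ^ 2) + (-2 * r * l.sum) * rj l j (fun t => (t : ℝ)) +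
        (r * l.sum) ^ 2 * K := by
    rw [hK, ← rj_one, ← rj_mul, ← rj_mul, ← rj_add, ← rj_add]
    congr 1
    funext t
    ring
  rw [h1, rj_second, rj_first, c1_eq _ _ hk, ← hr, ← hK]
  have h2 := c2_le l.length j hk hj
  rw [← hr, ← hK] at h2
  have h3 := sq_le_sum_sq l
  have h4 := sq_le l M h
  have h5 := sq_nonneg' l
  have h6 : c2 l.length j * ((l.sum : ℝ) ^ 2 - sq l) ≤ r ^ 2 * K * ((l.sum : ℝ) ^ 2 - sq l) :=
    mul_le_mul_of_nonneg_right h2 (by linarith)
  have h7 : r * K * sq l ≤ K * sq l := by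
    have : r * (K * sq l) ≤ 1 * (K * sq l) := mul_le_mul_of_nonneg_right hr1 (by positivity)
    linarith
  have h8 : 0 ≤ r ^ 2 * K * sq l := by positivity
  have h9 : K * sq l ≤ K * ((M : ℝ) * l.sum) := mul_le_mul_of_nonneg_left h4 hK0
  nlinarith

end Pool.Agent.FS.SMP

namespace Pool.Agent.FS

open Finset SMP

theorem SMP_thm : SMP_Stmt := by
  intro l
  refine ⟨rs_card l, ?_⟩
  intro M j hl h
  by_cases hj : j ≤ l.length
  · set X : ℕ → ℝ := fun t => (t : ℝ) - (j : ℝ) / l.length * l.sum with hX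
    have hvar := var_le l M j hl h hj
    set K : ℝ := (l.length.choose j : ℝ) with hK
    have hK0 : 0 ≤ K := Nat.cast_nonneg _
    set D : ℝ := (M : ℝ) * l.sum with hD
    have hD0 : 0 ≤ D := by positivity
    have key : ∀ a : ℝ, 0 < a → rj l j (fun t => |X t|) ≤ 1 / (2 * a) * (K * D) + a / 2 * K := by
      intro a ha
      have h1 : rj l j (fun t => |X t|) ≤
          rj l j (fun t => 1 / (2 * a) * (X t) ^ 2 + a / 2 * 1) := by
        apply rj_mono
        intro t
        have h2 : 0 ≤ (|X t| - a) ^ 2 := sq_nonneg _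
        have h3 : |X t| ^ 2 = X t ^ 2 := sq_abs _
        have h4 : 1 / (2 * a) * (X t) ^ 2 + a / 2 * 1 - |X t| = 1 / (2 * a) * (|X t| - a) ^ 2 := by
          rw [← h3]
          field_simp
          ring
        have h5 : 0 ≤ 1 / (2 * a) * (|X t| - a) ^ 2 := by positivity
        linarith
      rw [rj_add, rj_mul, rj_mul, rj_one] at h1
      have h6 : 1 / (2 * a) * rj l j (fun t => (X t) ^ 2) ≤ 1 / (2 * a) * (K * D) :=
        mul_le_mul_of_nonneg_left hvar (by positivity)
      linarith
    show rj l j (fun t => |X t|) ≤ K * Real.sqrt D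
    rcases hD0.eq_or_lt with h0 | h0
    · rw [← h0, Real.sqrt_zero, mul_zero]
      apply le_of_forall_pos_le_add
      intro ε hε
      have h1 := key (2 * ε / (K + 1)) (by positivity)
      rw [← h0] at h1
      have h2 : 2 * ε / (K + 1) / 2 * K ≤ ε := by
        have : 2 * ε / (K + 1) / 2 * K = ε * (K / (K + 1)) := by ring
        rw [this]
        have h3 : K / (K + 1) ≤ 1 := by
          rw [div_le_one (by positivity)]
          linarith
        nlinarith
      linarith
    · have h1 := key (Real.sqrt D) (Real.sqrt_pos.2 h0)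
      have h2 : Real.sqrt D * Real.sqrt D = D := Real.mul_self_sqrt hD0
      have h3 : 1 / (2 * Real.sqrt D) * (K * D) = K * Real.sqrt D / 2 := by
        have : Real.sqrt D ≠ 0 := (Real.sqrt_pos.2 h0).ne'
        field_simp
        nlinarith
      rw [h3] at h1
      linarith
  · have h1 : rs l (fun i t => if i = j then |(t : ℝ) - (j : ℝ) / l.length * l.sum| else 0) =
        rs l (fun _ _ => 0) := by
      apply rs_congr
      intro i t hi _
      rw [if_neg (by omega)]
    rw [h1, rs_zero]
    positivity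

end Pool.Agent.FS
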