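import Pool.Agent.Lib_helper74.FS.Defs

/-!
# Polygons with fixed span (MP_f6626d_co): statements of the modules (part FS)
-/

set_option autoImplicit false

namespace Pool.Agent.FS

open Finset Filter Topology MeasureTheory
open Pool.Agent.Lib27 Pool.Agent.SapR Pool.Agent.Gap Pool.Agent.AreaLaw Pool.Agent.FL

/-! ### Elementary modules -/

/-- FS_BIN : local estimates for the binomial weights. -/
def BIN_Stmt : Prop := ∀ p0 p1 : ℝ, 0 < p0 → p0 ≤ p1 → p1 < 1 →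
  (∃ C : ℝ, 0 < C ∧ ∀ p : ℝ, p0 ≤ p → p ≤ p1 → ∀ (k : ℕ) (j : ℤ), 1 ≤ k →
    bp k p j ≤ C / Real.sqrt k ∧ |bp k p (j + 1) - bp k p j| ≤ C / k ∧
    bp k p j * |(j : ℝ) - p * k| ≤ C) ∧
  ∀ R : ℝ, 0 < R → ∃ (c : ℝ) (k0 : ℕ), 0 < c ∧ ∀ p : ℝ, p0 ≤ p → p ≤ p1 →
    ∀ (k : ℕ) (j : ℤ), k0 ≤ k → |(j : ℝ) - p * k| ≤ R * Real.sqrt k →
      c / Real.sqrt k ≤ bp k p j

/-- FS_SMP : number and variance of the subsets with `j` elements. -/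
def SMP_Stmt : Prop := ∀ (l : List ℕ),
  (∀ G : ℕ → ℝ, rs l (fun j _ => G j) =
    ∑ j ∈ range (l.length + 1), (l.length.choose j : ℝ) * G j) ∧
  ∀ (M j : ℕ), l ≠ [] → (∀ y ∈ l, y ≤ M) →
    rs l (fun i t => if i = j then |(t : ℝ) - (j : ℝ) / l.length * l.sum| else 0) ≤
      (l.length.choose j : ℝ) * Real.sqrt ((M : ℝ) * l.sum)

/-- FS_MGF : if the exponential moments of `X` are bounded and those of the signed law of `X` with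
density `c` tend to zero, then the signed law tends weakly to zero. -/
def MGF_Stmt : Prop := ∀ (α : ℕ → Type) (P : ∀ n, Finset (α n)) (w X c : ∀ n, α n → ℝ),
  (∀ n x, 0 ≤ w n x) → (∀ n x, |c n x| ≤ 1) → (∀ᶠ n in atTop, ∑ x ∈ P n, w n x = 1) →
  (∀ t : ℝ, ∃ C : ℝ, ∀ᶠ n in atTop, ∑ x ∈ P n, w n x * Real.exp (t * X n x) ≤ C) →
  (∀ t : ℝ, Tendsto (fun n => ∑ x ∈ P n, w n x * (Real.exp (t * X n x) * c n x)) atTop (𝓝 0)) →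
  ∀ g : ℝ → ℝ, Continuous g → (∀ x, |g x| ≤ 1) →
    Tendsto (fun n => ∑ x ∈ P n, w n x * (g (X n x) * c n x)) atTop (𝓝 0)

/-- FS_IND : asymptotic independence (from FS_MGF). -/
def IND_Stmt : Prop := ∀ (α : ℕ → Type) (P : ∀ n, Finset (α n)) (w X A : ∀ n, α n → ℝ),
  (∀ n x, 0 ≤ w n x) → (∀ n x, 0 ≤ A n x) → (∀ᶠ n in atTop, ∑ x ∈ P n, w n x = 1) →
  (∀ t : ℝ, ∃ C : ℝ, ∀ᶠ n in atTop, ∑ x ∈ P n, w n x * Real.exp (t * X n x) ≤ C) →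
  (∃ C : ℝ, ∀ᶠ n in atTop, ∑ x ∈ P n, w n x * A n x ≤ C) →
  (∀ t lam : ℝ, 0 ≤ lam → Tendsto (fun n =>
    ∑ x ∈ P n, w n x * (Real.exp (t * X n x) * Real.exp (-(lam * A n x))) -
      (∑ x ∈ P n, w n x * Real.exp (t * X n x)) *
        ∑ x ∈ P n, w n x * Real.exp (-(lam * A n x))) atTop (𝓝 0)) →
  ∀ g φ : ℝ → ℝ, Continuous g → Continuous φ → (∀ x, |g x| ≤ 1) → (∀ x, |φ x| ≤ 1) →
    Tendsto (fun n => ∑ x ∈ P n, w n x * (g (X n x) * φ (A n x)) -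
      (∑ x ∈ P n, w n x * g (X n x)) * ∑ x ∈ P n, w n x * φ (A n x)) atTop (𝓝 0)

open Classical in
/-- FS_CDF : transfer of the convergence of the distribution functions of `S / E[S]`. -/
def CDF_Stmt : Prop := ∀ (μ : Measure ℝ), IsProbabilityMeasure μ → ∀ (α β : ℕ → Type)
  (P : ∀ n, Finset (α n)) (Q : ∀ n, Finset (β n)) (w S : ∀ n, α n → ℝ) (v T : ∀ n, β n → ℝ),
  (∀ n x, 0 ≤ w n x) → (∀ n x, 0 ≤ v n x) → (∀ n x, 0 ≤ S n x) → (∀ n x, 0 ≤ T n x) →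
  (∀ᶠ n in atTop, ∑ x ∈ P n, w n x = 1) → (∀ᶠ n in atTop, ∑ x ∈ Q n, v n x = 1) →
  (∃ c C : ℝ, 0 < c ∧ ∀ᶠ n in atTop, c ≤ ∑ x ∈ P n, w n x * S n x ∧
    ∑ x ∈ P n, w n x * S n x ≤ C) →
  Tendsto (fun n => ∑ x ∈ Q n, v n x * T n x - ∑ x ∈ P n, w n x * S n x) atTop (𝓝 0) →
  (∀ φ : ℝ → ℝ, (∀ a, |φ a| ≤ 1) → LipschitzWith 1 φ →
    Tendsto (fun n => ∑ x ∈ Q n, v n x * φ (T n x) - ∑ x ∈ P n, w n x * φ (S n x))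
      atTop (𝓝 0)) →
  (∀ x : ℝ, μ {x} = 0 → Tendsto (fun n => ∑ y ∈ (P n).filter
    (fun y => S n y ≤ x * ∑ z ∈ P n, w n z * S n z), w n y) atTop (𝓝 (μ (Set.Iic x)).toReal)) →
  ∀ x : ℝ, μ {x} = 0 → Tendsto (fun n => ∑ y ∈ (Q n).filter
    (fun y => T n y ≤ x * ∑ z ∈ Q n, v n z * T n z), v n y) atTop (𝓝 (μ (Set.Iic x)).toReal)

/-- FS_DIAG : diagonal argument (compare `FL/Diag.lean`). -/
def DIAG_Stmt : Prop := ∀ (μ : Measure ℝ), IsProbabilityMeasure μ →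
  ∀ (ok : ℝ → ℕ → ℕ → Prop) (F : ℕ → ℕ → ℝ → ℝ), (∀ n h, Monotone (F n h)) →
  (∀ (e e' : ℝ) (n h : ℕ), e' ≤ e → ok e n h → ok e' n h) →
  (∀ e : ℝ, 0 < e → ∀ h : ℕ → ℕ, ∀ x : ℝ, μ {x} = 0 → ∀ d : ℝ, 0 < d →
    ∀ᶠ n in atTop, ok e n (h n) → |F n (h n) x - (μ (Set.Iic x)).toReal| ≤ d) →
  ∃ e : ℕ → ℝ, (∀ n, 0 < e n) ∧ Tendsto e atTop (𝓝 0) ∧
    ∀ h : ℕ → ℕ, (∀ᶠ n in atTop, ok (e n) n (h n)) → ∀ x : ℝ, μ {x} = 0 →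
      Tendsto (fun n => F n (h n) x) atTop (𝓝 (μ (Set.Iic x)).toReal)

/-- FS_CHOICE : choice of the force. -/
def CHOICE_Stmt : Prop := ∀ e : ℝ, 0 < e → ∃ f1 : ℝ, e / 2 ≤ f1 ∧ ∃ N : ℕ, ∀ n : ℕ, N ≤ n →
  ∀ h : ℕ, (((SAP n).filter (fun s => h ≤ span n s)).card : ℝ) ≤
      Real.exp (-(e * n)) * (SAP n).card → (h : ℝ) ≤ (1 - e) * n →
    ∃ f : ℝ, e / 2 ≤ f ∧ f ≤ f1 ∧ Cen n f h

/-! ### Bounds for the force model -/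

/-- FS_ZB : critical weight, tails and total weight (from helper89's `Z_bound`, MG, MGI2). -/
def ZB_Stmt : Prop := ∀ s1 : ℝ, 0 < s1 → s1 < 1 → ∃ C θ : ℝ, 0 < C ∧ 0 < θ ∧ θ < 1 ∧ ∃ N : ℕ,
  ∀ n : ℕ, N ≤ n → ∀ s : ℝ, 0 < s → s ≤ s1 → ∃ rho : ℝ, Crit n s rho ∧ Tails C θ n s rho ∧
    1 / 100 ≤ rho ∧ rho ≤ 1 / 4 ∧ C⁻¹ ≤ sc n * rho ^ n * Zq n s ∧ sc n * rho ^ n * Zq n s ≤ C

/-- FS_ARM : moments of the area functional. -/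
def ARM_Stmt : Prop := ∀ s1 : ℝ, 0 < s1 → s1 < 1 → ∃ C : ℝ, 0 < C ∧ ∃ N : ℕ,
  ∀ n : ℕ, N ≤ n → ∀ s : ℝ, 0 < s → s ≤ s1 →
    ∑ q ∈ Omn n, wtq n s q * ra n q ^ 2 ≤ C * Zq n s ∧
    C⁻¹ * Zq n s ≤ ∑ q ∈ Omn n, wtq n s q * ra n q ∧
    ∑ q ∈ Omn n, wtq n s q * |(dq q : ℝ) - (arq n q : ℝ)| ≤ C * (n * Real.log n) * Zq n s

/-- FS_EXPM : exponential moments of the span at scale `sqrt n` (from ZB, TR, HG). -/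
def EXPM_Stmt : Prop := ∀ f0 f1 t : ℝ, 0 < f0 → f0 ≤ f1 → ∃ C : ℝ, 0 < C ∧ ∃ N : ℕ,
  ∀ n : ℕ, N ≤ n → ∀ f : ℝ, f0 ≤ f → f ≤ f1 → ∀ m : ℝ, Cen n f m →
    ∑ q ∈ Omn n, wtq n (Real.exp (-f)) q * Real.exp (t * (((sp q : ℝ) - m) / Real.sqrt n)) ≤
      C * Zq n (Real.exp (-f))

/-- FS_PARC : the three parameters of the kernels are Lipschitz in `s` (from ZB, HG). -/
def PARC_Stmt : Prop := ∀ s0 s1 : ℝ, 0 < s0 → s0 ≤ s1 → s1 < 1 → ∃ C δ : ℝ, 0 < C ∧ 0 < δ ∧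
  ∃ N : ℕ, ∀ n : ℕ, N ≤ n → ∀ (s s' : ℝ) (hs : 0 < s) (hs' : 0 < s'), s0 ≤ s → s ≤ s' →
    s' ≤ s1 → s' - s ≤ δ →
    |(KW.kern (2 * n - 1) s' hs').mbar - (KW.kern (2 * n - 1) s hs).mbar| ≤ C * (s' - s) ∧
    |(KW.kern (2 * n - 1) s' hs').hbar - (KW.kern (2 * n - 1) s hs).hbar| ≤ C * (s' - s) ∧
    |(KW.kern (2 * n - 1) s' hs').sig2 - (KW.kern (2 * n - 1) s hs).sig2| ≤ C * (s' - s)

/-- FS_LAPC : asymptotic continuity of the Laplace transforms in `s` (from PARC, GLT, KW). -/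
def LAPC_Stmt : Prop := ∀ s0 s1 K lam : ℝ, 0 < s0 → s0 ≤ s1 → s1 < 1 → 0 ≤ K → 0 ≤ lam →
  ∀ s s' : ℕ → ℝ, (∀ n, s0 ≤ s n ∧ s n ≤ s1) → (∀ n, s0 ≤ s' n ∧ s' n ≤ s1) →
    (∀ n : ℕ, 1 ≤ n → |s n - s' n| ≤ K / Real.sqrt n) →
    Tendsto (fun n : ℕ => lapQ n (s n) lam - lapQ n (s' n) lam) atTop (𝓝 0)

/-! ### The local regularity -/

/-- FS_SKEL : the skeletons (from HG and the old K2, K4, K5). -/
def SKEL_Stmt : Prop := ∀ n : ℕ, 6 ≤ n → ∃ (k : ℕ) (σ : Fin k → Sk), IsSkel n k σ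

/-- FS_KBIG : skeletons with few tokens are negligible (from ZB). -/
def KBIG_Stmt : Prop := ∀ s0 s1 : ℝ, 0 < s0 → s0 ≤ s1 → s1 < 1 → ∃ c : ℝ, 0 < c ∧ ∃ N : ℕ,
  6 ≤ N ∧ ∀ n : ℕ, N ≤ n → ∀ s : ℝ, s0 ≤ s → s ≤ s1 → ∀ (k : ℕ) (σ : Fin k → Sk),
    IsSkel n k σ →
    ∑ i ∈ univ.filter (fun i : Fin k => ((σ i).l.length : ℝ) < c * n), vsk n s (σ i) ≤
      Real.exp (-(c * n)) * Zq n s

/-- FS_LOC : local regularity at fixed span (from SKEL, KBIG, BIN, SMP, ARM). -/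
def LOC_Stmt : Prop := ∀ s0 s1 : ℝ, 0 < s0 → s0 ≤ s1 → s1 < 1 →
  (∃ C : ℝ, 0 < C ∧ ∃ N : ℕ, ∀ n : ℕ, N ≤ n → ∀ s : ℝ, s0 ≤ s → s ≤ s1 →
    (∀ h : ℕ, U n s h (fun a => 1 + a ^ 2) ≤ C / Real.sqrt n * Zq n s) ∧
    (∀ h : ℕ, ∑ q ∈ (Omn n).filter (fun q => sp q = h),
        wtq n s q * |(dq q : ℝ) - (arq n q : ℝ)| ≤ C * (Real.sqrt n * Real.log n) * Zq n s) ∧
    (∀ (h h' : ℕ) (φ : ℝ → ℝ), (∀ a, |φ a| ≤ 1) → LipschitzWith 1 φ →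
      |U n s h φ - U n s h' φ| ≤
        C * (1 / (Real.sqrt n * Real.sqrt (Real.sqrt n)) + |(h : ℝ) - h'| / n) * Zq n s)) ∧
  ∀ K : ℝ, 0 < K → ∃ c : ℝ, 0 < c ∧ ∃ N : ℕ, ∀ n : ℕ, N ≤ n → ∀ s : ℝ, s0 ≤ s → s ≤ s1 →
    ∀ h : ℕ, ∑ q ∈ Omn n, wtq n s q * ((sp q : ℝ) - h) ^ 2 ≤ K * n * Zq n s →
      c / Real.sqrt n * Zq n s ≤ U n s h (fun _ => 1)

/-! ### Equivalence of the ensembles -/

/-- FS_EQ : fixed span against force (from LOC, IND, EXPM, LAPC, ARM). -/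
def EQ_Stmt : Prop := ∀ f0 f1 : ℝ, 0 < f0 → f0 ≤ f1 → ∀ (f : ℕ → ℝ) (h : ℕ → ℕ),
  (∀ n, f0 ≤ f n ∧ f n ≤ f1) → (∀ᶠ n in atTop, Cen n (f n) (h n)) →
  (∃ c : ℝ, 0 < c ∧ ∀ᶠ n : ℕ in atTop, c / Real.sqrt n * Zq n (Real.exp (-(f n))) ≤
    U n (Real.exp (-(f n))) (h n) (fun _ => 1)) ∧
  ∀ φ : ℝ → ℝ, (∀ a, |φ a| ≤ 1) → LipschitzWith 1 φ →
    Tendsto (fun n : ℕ => U n (Real.exp (-(f n))) (h n) φ /
        U n (Real.exp (-(f n))) (h n) (fun _ => 1) -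
      (∑ q ∈ Omn n, wtq n (Real.exp (-(f n))) q * φ (ra n q)) / Zq n (Real.exp (-(f n))))
      atTop (𝓝 0)

open Classical in
/-- FS_CLS : both classes on the canonical words, shoelace sum instead of the area functional
(from EQ, LOC, ARM). -/
def CLS_Stmt : Prop := ∀ f0 f1 : ℝ, 0 < f0 → f0 ≤ f1 → ∀ (f : ℕ → ℝ) (h : ℕ → ℕ),
  (∀ n, f0 ≤ f n ∧ f n ≤ f1) → (∀ᶠ n in atTop, Cen n (f n) (h n)) → ∀ b : Bool,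
  (∃ c : ℝ, 0 < c ∧ ∀ᶠ n : ℕ in atTop, c / Real.sqrt n * Zq n (Real.exp (-(f n))) ≤
    Real.exp (-(f n)) ^ (n - h n) * ((Omn n).filter (fun q => inC b (h n) (sp q))).card) ∧
  (∀ φ : ℝ → ℝ, (∀ a, |φ a| ≤ 1) → LipschitzWith 1 φ →
    Tendsto (fun n : ℕ => (∑ q ∈ (Omn n).filter (fun q => inC b (h n) (sp q)),
        φ (|(dq q : ℝ)| / sc n)) / ((Omn n).filter (fun q => inC b (h n) (sp q))).card -
      (∑ q ∈ Omn n, wtq n (Real.exp (-(f n))) q * φ (|(dq q : ℝ)| / sc n)) /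
        Zq n (Real.exp (-(f n)))) atTop (𝓝 0)) ∧
  Tendsto (fun n : ℕ => (∑ q ∈ (Omn n).filter (fun q => inC b (h n) (sp q)),
        |(dq q : ℝ)| / sc n) / ((Omn n).filter (fun q => inC b (h n) (sp q))).card -
      (∑ q ∈ Omn n, wtq n (Real.exp (-(f n))) q * (|(dq q : ℝ)| / sc n)) /
        Zq n (Real.exp (-(f n)))) atTop (𝓝 0) ∧
  ∃ c : ℝ, 0 < c ∧ ∀ᶠ n : ℕ in atTop,
    c ≤ (∑ q ∈ Omn n, wtq n (Real.exp (-(f n))) q * (|(dq q : ℝ)| / sc n)) /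
      Zq n (Real.exp (-(f n))) ∧
    (∑ q ∈ Omn n, wtq n (Real.exp (-(f n))) q * (|(dq q : ℝ)| / sc n)) /
      Zq n (Real.exp (-(f n))) ≤ c⁻¹

open Classical in
/-- FS_SAPC : the same for the frozen encoding (from CLS, ZB, TR, HG). -/
def SAPC_Stmt : Prop := ∀ f0 f1 : ℝ, 0 < f0 → f0 ≤ f1 → ∀ (f : ℕ → ℝ) (h : ℕ → ℕ),
  (∀ n, f0 ≤ f n ∧ f n ≤ f1) → (∀ᶠ n in atTop, Cen n (f n) (h n)) → ∀ b : Bool,
  (∀ᶠ n in atTop, 0 < ((SAP n).filter (fun s => inC b (h n) (span n s))).card) ∧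
  (∀ φ : ℝ → ℝ, (∀ a, |φ a| ≤ 1) → LipschitzWith 1 φ →
    Tendsto (fun n : ℕ => (∑ s ∈ (SAP n).filter (fun s => inC b (h n) (span n s)),
        φ (2 * area n s / sc n)) / ((SAP n).filter (fun s => inC b (h n) (span n s))).card -
      (∑ s ∈ SAP n, Real.exp (f n * span n s) * φ (2 * area n s / sc n)) / forceZ (f n) n)
      atTop (𝓝 0)) ∧
  Tendsto (fun n : ℕ => (∑ s ∈ (SAP n).filter (fun s => inC b (h n) (span n s)),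
        2 * area n s / sc n) / ((SAP n).filter (fun s => inC b (h n) (span n s))).card -
      (∑ s ∈ SAP n, Real.exp (f n * span n s) * (2 * area n s / sc n)) / forceZ (f n) n)
      atTop (𝓝 0) ∧
  ∃ c : ℝ, 0 < c ∧ ∀ᶠ n : ℕ in atTop,
    c ≤ (∑ s ∈ SAP n, Real.exp (f n * span n s) * (2 * area n s / sc n)) / forceZ (f n) n ∧
    (∑ s ∈ SAP n, Real.exp (f n * span n s) * (2 * area n s / sc n)) / forceZ (f n) n ≤ c⁻¹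

open Classical in
/-- FS_FINAL : the final theorem. -/
def FINAL_FS_Stmt : Prop := ∃ μ : Measure ℝ, IsProbabilityMeasure μ ∧
  (∀ x : ℝ, μ {x} = 0 →
    Tendsto (fun n : ℕ => areaCdf n (Staircase n) x) atTop (𝓝 (μ (Set.Iic x)).toReal)) ∧
  ∃ e : ℕ → ℝ, (∀ n, 0 < e n) ∧ Tendsto e atTop (𝓝 0) ∧
    ∀ h : ℕ → ℕ, (∀ᶠ n in atTop, (((SAP n).filter (fun s => h n ≤ span n s)).card : ℝ) ≤
        Real.exp (-(e n * n)) * (SAP n).card ∧ (h n : ℝ) ≤ (1 - e n) * n) →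
      ∀ x : ℝ, μ {x} = 0 →
        Tendsto (fun n : ℕ => areaCdf n ((SAP n).filter (fun s => span n s = h n)) x) atTop
          (𝓝 (μ (Set.Iic x)).toReal) ∧
        Tendsto (fun n : ℕ => areaCdf n ((SAP n).filter (fun s => h n ≤ span n s)) x) atTop
          (𝓝 (μ (Set.Iic x)).toReal)

end Pool.Agent.FS
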