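import Pool.Agent.Lib_helper74.FS.Stmts
import Pool.Agent.Lib_helper41.SapR.Diag

/-!
# FS_CDF: transfer of the convergence of the distribution functions of `S / E[S]`
-/

set_option autoImplicit false

namespace Pool.Agent.FS

open Finset Filter Topology MeasureTheory Pool.Agent.SapR.M41

namespace CDF

/-- the truncated ramp -/
noncomputable def rp (η a t : ℝ) : ℝ := max 0 (min η (a + η - t))

lemma rp_nonneg (η a t : ℝ) : 0 ≤ rp η a t := le_max_left _ _

lemma rp_le (η a t : ℝ) (hη : 0 ≤ η) : rp η a t ≤ η := max_le hη (min_le_left _ _)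

lemma rp_eq (η a t : ℝ) (hη : 0 ≤ η) (h : t ≤ a) : rp η a t = η := by
  unfold rp
  rw [min_eq_left (by linarith), max_eq_right hη]

lemma rp_zero (η a t : ℝ) (h : a + η ≤ t) : rp η a t = 0 := by
  unfold rp
  apply max_eq_left
  exact (min_le_right _ _).trans (by linarith)

lemma rp_lip (η a : ℝ) : LipschitzWith 1 (rp η a) := by
  unfold rp
  have h1 : LipschitzWith 1 (fun t : ℝ => a + η - t) := by
    refine LipschitzWith.of_dist_le_mul fun x y => ?_
    rw [Real.dist_eq, Real.dist_eq]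
    have : a + η - x - (a + η - y) = -(x - y) := by ring
    rw [this, abs_neg]
    simp
  exact (h1.const_min η).const_max 0

open Classical in
lemma sum_le_ramp {α : Type} (P : Finset α) (w S : α → ℝ) (hw : ∀ x, 0 ≤ w x) (η a b : ℝ)
    (hη : 0 < η) (hb : b ≤ a) :
    η * ∑ y ∈ P.filter (fun y => S y ≤ b), w y ≤ ∑ y ∈ P, w y * rp η a (S y) := by
  rw [Finset.mul_sum, Finset.sum_filter]
  refine Finset.sum_le_sum fun y _ => ?_
  split_ifs with h
  · rw [rp_eq η a (S y) hη.le (h.trans hb)]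
    linarith
  · exact mul_nonneg (hw y) (rp_nonneg _ _ _)

open Classical in
lemma ramp_le_sum {α : Type} (P : Finset α) (w S : α → ℝ) (hw : ∀ x, 0 ≤ w x) (η a b : ℝ)
    (hη : 0 < η) (hb : a + η ≤ b) :
    ∑ y ∈ P, w y * rp η a (S y) ≤ η * ∑ y ∈ P.filter (fun y => S y ≤ b), w y := by
  rw [Finset.mul_sum, Finset.sum_filter]
  refine Finset.sum_le_sum fun y _ => ?_
  split_ifs with h
  · rw [mul_comm]
    exact mul_le_mul_of_nonneg_right (rp_le _ _ _ hη.le) (hw y)
  · rw [rp_zero η a (S y) (by linarith [not_le.1 h])]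
    simp

end CDF

open CDF in
theorem CDF_thm : CDF_Stmt := by
  classical
  intro μ hμ α β P Q w S v T hw hv _ _ _ _ hmean hdiff hlip hcdf x hx
  obtain ⟨c, C, hc, hmean⟩ := hmean
  set G : ℝ → ℝ := fun y => (μ (Set.Iic y)).toReal with hG
  set m : ℕ → ℝ := fun n => ∑ z ∈ P n, w n z * S n z with hm
  set m' : ℕ → ℝ := fun n => ∑ z ∈ Q n, v n z * T n z with hm'
  rw [Metric.tendsto_atTop]
  intro ε hε
  -- continuity points around `x`
  have hdense : Dense ({x : ℝ | μ {x} ≠ 0}ᶜ) := (countable_atoms μ).dense_compl ℝ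
  obtain ⟨δ, hδ, hball⟩ := Metric.continuousAt_iff.1 (cdf_continuousAt μ x hx) (ε / 4)
    (by linarith)
  obtain ⟨x₁, hx₁t, hx₁⟩ := hdense.exists_between (show x - δ < x by linarith)
  obtain ⟨x₂, hx₂t, hx₂⟩ := hdense.exists_between (show x < x + δ by linarith)
  have hμ₁ : μ {x₁} = 0 := by simpa using hx₁t
  have hμ₂ : μ {x₂} = 0 := by simpa using hx₂t
  have hG₁ : G x - ε / 4 < G x₁ := by
    have h := hball (show dist x₁ x < δ by
      rw [Real.dist_eq, abs_lt]; constructor <;> linarith [hx₁.1, hx₁.2])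
    rw [Real.dist_eq, abs_lt] at h
    simp only [hG]
    linarith [h.1]
  have hG₂ : G x₂ < G x + ε / 4 := by
    have h := hball (show dist x₂ x < δ by
      rw [Real.dist_eq, abs_lt]; constructor <;> linarith [hx₂.1, hx₂.2])
    rw [Real.dist_eq, abs_lt] at h
    simp only [hG]
    linarith [h.2]
  -- the mesh
  set d : ℝ := min (x - x₁) (x₂ - x) with hd
  have hdpos : 0 < d := lt_min (by linarith [hx₁.2]) (by linarith [hx₂.1])
  set η : ℝ := min 1 (d * c / 3) with hη
  have hηpos : 0 < η := lt_min one_pos (by positivity)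
  have hη1 : η ≤ 1 := min_le_left _ _
  have h3η : 3 * η ≤ d * c := by
    have := min_le_right 1 (d * c / 3)
    rw [← hη] at this
    linarith
  obtain ⟨K, hK⟩ := exists_nat_gt ((|x| * (C + 1)) / η + 2)
  -- eventual facts
  have ev1 : ∀ᶠ n in atTop, ∀ k ∈ Finset.Icc (-(K : ℤ)) K,
      |∑ y ∈ Q n, v n y * rp η (η * k) (T n y) - ∑ y ∈ P n, w n y * rp η (η * k) (S n y)| <
        η * (ε / 4) := by
    rw [Filter.eventually_all_finset]
    intro k _
    have h := hlip (rp η (η * k)) (fun t => by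
      rw [abs_of_nonneg (rp_nonneg _ _ _)]
      exact (rp_le _ _ _ hηpos.le).trans hη1) (rp_lip η (η * k))
    rw [Metric.tendsto_atTop] at h
    obtain ⟨N, hN⟩ := h (η * (ε / 4)) (by positivity)
    filter_upwards [eventually_ge_atTop N] with n hn
    have := hN n hn
    rwa [Real.dist_eq, sub_zero] at this
  have ev2 : ∀ᶠ n in atTop, |x| * |m' n - m n| ≤ η := by
    have h := (hdiff.abs).const_mul |x|
    simp only [abs_zero, mul_zero] at h
    exact h.eventually_le_const hηpos
  have ev3 : ∀ᶠ n in atTop, |m' n - m n| ≤ 1 := by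
    have h := hdiff.abs
    simp only [abs_zero] at h
    exact h.eventually_le_const one_pos
  have ev4 : ∀ᶠ n in atTop, ∑ y ∈ (P n).filter (fun y => S n y ≤ x₂ * m n), w n y <
      G x₂ + ε / 4 :=
    (hcdf x₂ hμ₂).eventually_lt_const (by simp only [hG]; linarith)
  have ev5 : ∀ᶠ n in atTop, G x₁ - ε / 4 <
      ∑ y ∈ (P n).filter (fun y => S n y ≤ x₁ * m n), w n y :=
    (hcdf x₁ hμ₁).eventually_const_lt (by simp only [hG]; linarith)
  have ev := ev1.and (ev2.and (ev3.and (ev4.and (ev5.and hmean))))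
  obtain ⟨N, hN⟩ := eventually_atTop.1 ev
  refine ⟨N, fun n hn => ?_⟩
  obtain ⟨e1, e2, e3, e4, e5, e6, e7⟩ := hN n hn
  -- geometry of the thresholds
  have hmn : c ≤ m n := e6
  have hmC : m n ≤ C := e7
  have hxm : |x * m' n - x * m n| ≤ η := by
    rw [← mul_sub, abs_mul]; exact e2
  have hbd : |x * m' n| ≤ |x| * (C + 1) := by
    rw [abs_mul]
    apply mul_le_mul_of_nonneg_left _ (abs_nonneg x)
    rw [abs_le] at e3 ⊢
    constructor <;> linarith [e3.1, e3.2]
  have hdiv : |x * m' n / η| ≤ K - 2 := by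
    rw [abs_div, abs_of_pos hηpos]
    have : |x * m' n| / η ≤ |x| * (C + 1) / η := by gcongr
    linarith
  have hd1 : d ≤ x - x₁ := min_le_left _ _
  have hd2 : d ≤ x₂ - x := min_le_right _ _
  have hdm : d * c ≤ d * m n := mul_le_mul_of_nonneg_left hmn hdpos.le
  have hm0 : 0 ≤ m n := hc.le.trans hmn
  rw [Real.dist_eq, abs_lt]
  constructor
  · -- lower bound
    set k : ℤ := ⌊x * m' n / η⌋ - 1 with hk
    have hfl := Int.floor_le (x * m' n / η)
    have hfl2 := Int.lt_floor_add_one (x * m' n / η)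
    have hkr : (k : ℝ) = ⌊x * m' n / η⌋ - 1 := by rw [hk]; push_cast; ring
    have hk1 : (η * k) + η ≤ x * m' n := by
      rw [hkr]
      have : η * (⌊x * m' n / η⌋ : ℝ) ≤ x * m' n := by
        have h := mul_le_mul_of_nonneg_left hfl hηpos.le
        rwa [mul_div_cancel₀ _ hηpos.ne'] at h
      linarith
    have hk2 : x * m' n - 2 * η ≤ η * k := by
      rw [hkr]
      have h := mul_le_mul_of_nonneg_left hfl2.le hηpos.le
      rw [mul_div_cancel₀ _ hηpos.ne'] at h
      linarith
    have hkK : k ∈ Finset.Icc (-(K : ℤ)) K := by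
      rw [Finset.mem_Icc]
      rw [abs_le] at hdiv
      constructor
      · have : (-(K : ℝ)) ≤ k := by rw [hkr]; linarith [hdiv.1]
        exact_mod_cast this
      · have : (k : ℝ) ≤ K := by rw [hkr]; linarith [hdiv.2]
        exact_mod_cast this
    have h1 := ramp_le_sum (Q n) (v n) (T n) (hv n) η (η * k) (x * m' n) hηpos hk1
    have h2 := sum_le_ramp (P n) (w n) (S n) (hw n) η (η * k) (x₁ * m n) hηpos (by
      rw [abs_le] at hxm
      have : d * m n ≤ (x - x₁) * m n := mul_le_mul_of_nonneg_right hd1 hm0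
      nlinarith [hxm.1, hxm.2])
    have h3 := (abs_lt.1 (e1 k hkK)).1
    have h4 : η * (∑ y ∈ (P n).filter (fun y => S n y ≤ x₁ * m n), w n y - ε / 4) <
        η * ∑ y ∈ (Q n).filter (fun y => T n y ≤ x * m' n), v n y := by
      rw [mul_sub]
      linarith
    have h5 := lt_of_mul_lt_mul_left h4 hηpos.le
    have h6 : G x - ε / 4 < G x₁ := hG₁
    change -ε < ∑ y ∈ (Q n).filter (fun y => T n y ≤ x * m' n), v n y - G x
    linarith
  · -- upper bound
    set k : ℤ := ⌈x * m' n / η⌉ with hk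
    have hcl := Int.le_ceil (x * m' n / η)
    have hcl2 := Int.ceil_lt_add_one (x * m' n / η)
    have hk1 : x * m' n ≤ η * k := by
      have h := mul_le_mul_of_nonneg_left hcl hηpos.le
      rwa [mul_div_cancel₀ _ hηpos.ne'] at h
    have hk2 : η * k ≤ x * m' n + η := by
      have h := mul_le_mul_of_nonneg_left hcl2.le hηpos.le
      rw [mul_add, mul_div_cancel₀ _ hηpos.ne'] at h
      linarith
    have hkK : k ∈ Finset.Icc (-(K : ℤ)) K := by
      rw [Finset.mem_Icc]
      rw [abs_le] at hdiv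
      constructor
      · have : (-(K : ℝ)) ≤ k := by linarith [hdiv.1]
        exact_mod_cast this
      · have : (k : ℝ) ≤ K := by linarith [hdiv.2]
        exact_mod_cast this
    have h1 := sum_le_ramp (Q n) (v n) (T n) (hv n) η (η * k) (x * m' n) hηpos hk1
    have h2 := ramp_le_sum (P n) (w n) (S n) (hw n) η (η * k) (x₂ * m n) hηpos (by
      rw [abs_le] at hxm
      have : d * m n ≤ (x₂ - x) * m n := mul_le_mul_of_nonneg_right hd2 hm0
      nlinarith [hxm.1, hxm.2])
    have h3 := (abs_lt.1 (e1 k hkK)).2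
    have h4 : η * ∑ y ∈ (Q n).filter (fun y => T n y ≤ x * m' n), v n y <
        η * (∑ y ∈ (P n).filter (fun y => S n y ≤ x₂ * m n), w n y + ε / 4) := by
      rw [mul_add]
      linarith
    have h5 := lt_of_mul_lt_mul_left h4 hηpos.le
    have h6 : G x₂ < G x + ε / 4 := hG₂
    change ∑ y ∈ (Q n).filter (fun y => T n y ≤ x * m' n), v n y - G x < ε
    linarith

end Pool.Agent.FS
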