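import Pool.Agent.Lib_helper74.FS.Stmts
import Pool.Agent.Lib_helper89.FL.ZBound
import Pool.Agent.Lib_helper58.SapR.K1

/-!
# Module FS_ARM (MP_f6626d_co): moments of the area functional
-/

set_option autoImplicit false

namespace Pool.Agent.FS.ARM

open Finset Filter Topology
open Pool.Agent.Lib27 Pool.Agent.SapR Pool.Agent.Gap Pool.Agent.AreaLaw Pool.Agent.FL
open Pool.Agent.FL.GFIN

/-! ### lower bound of the mean, uniform over the class -/

/-- normalised mean -/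
noncomputable def Y {C θ : ℝ} (D : Bound.Dt C θ) (n : ℕ) : ℝ :=
  (closeP D.C0 D.t D.B n).derivative.eval 1 /
    (((n : ℝ) * Real.sqrt n) * (closeP D.C0 D.t D.B n).eval 1)

/-- sequences with convergent parameters -/
theorem seq_mean (hLT : GLT_Stmt) (hM2 : GM2_Stmt) (oLT1 : Gap.LT1_Stmt) (oM2 : Gap.M2_Stmt)
    (oBAL : Gap.BAL_Stmt) {C θ : ℝ} (hC : 0 < C) (hθ : 0 < θ) (hθ1 : θ < 1)
    (D : ℕ → Bound.Dt C θ) (q : ℝ × ℝ × ℝ) (h1 : 0 < q.1) (h2 : 0 < q.2.1) (h3 : 0 < q.2.2)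
    (hlim : Tendsto (fun n => par (D n).G) atTop (𝓝 q)) :
    ∃ b : ℝ, 0 < b ∧ Tendsto (fun n => Y (D n) n) atTop (𝓝 b) := by
  obtain ⟨L, m0, C', hL0, hm0, hC', hL, hexp⟩ := stair_side oLT1 oM2 oBAL
  have hKS : KSeq C θ (fun n => (D n).G) q.1 q.2.1 q.2.2 := by
    refine ⟨fun n => (D n).cls, ?_, ?_, ?_⟩
    · exact (continuous_fst.tendsto q).comp hlim
    · exact ((continuous_fst.comp continuous_snd).tendsto q).comp hlim
    · exact ((continuous_snd.comp continuous_snd).tendsto q).comp hlim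
  obtain ⟨b, c, hb, hc, -, hmn, -⟩ := seq_side hLT hM2 hL0 hm0 hL hexp hC hθ hθ1
    (fun n => (D n).G) h1 h2 h3 (fun n => (D n).C0) (fun n => (D n).s) (fun n => (D n).t)
    (fun n => (D n).B) hKS (fun n => (D n).cs) (fun n => (D n).ct) (fun n => (D n).sol)
    (fun n => closeP (D n).C0 (D n).t (D n).B n) (fun n => rfl)
  exact ⟨b, hb, hmn⟩

/-- lower bound of the mean, uniform over the class -/
theorem mean_lower (hLT : GLT_Stmt) (hM2 : GM2_Stmt) (oLT1 : Gap.LT1_Stmt) (oM2 : Gap.M2_Stmt)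
    (oBAL : Gap.BAL_Stmt) {C θ : ℝ} (hC : 0 < C) (hθ : 0 < θ) (hθ1 : θ < 1) :
    ∃ c : ℝ, 0 < c ∧ ∃ n1 : ℕ, ∀ D : Bound.Dt C θ, ∀ n ≥ n1, c ≤ Y D n := by
  by_contra hcon
  push Not at hcon
  have hcon' : ∀ k : ℕ, ∃ (D : Bound.Dt C θ) (n : ℕ), k ≤ n ∧ Y D n < 1 / ((k : ℝ) + 1) := by
    intro k
    obtain ⟨D, n, hn, h⟩ := hcon (1 / ((k : ℝ) + 1)) (by positivity) k
    exact ⟨D, n, hn, h⟩
  choose D ν hν hbad using hcon'
  have hνt : Tendsto ν atTop atTop := tendsto_atTop_mono hν tendsto_id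
  obtain ⟨φ, hφ, hφ'⟩ := strictMono_subseq_of_tendsto_atTop hνt
  obtain ⟨M, hM⟩ := par_mem hC hθ hθ1
  obtain ⟨q, hq, χ, hχ, hlim⟩ := (isCompact_Icc (a := ((1 : ℝ), (1 : ℝ), C⁻¹))
    (b := (M, M, M))).tendsto_subseq (x := fun k => par (D (φ k)).G)
    (fun k => hM _ (D (φ k)).cls)
  rw [Set.mem_Icc] at hq
  have hq1 : 0 < q.1 := lt_of_lt_of_le one_pos hq.1.1
  have hq2 : 0 < q.2.1 := lt_of_lt_of_le one_pos hq.1.2.1
  have hq3 : 0 < q.2.2 := lt_of_lt_of_le (inv_pos.2 hC) hq.1.2.2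
  set m : ℕ → ℕ := fun k => ν (φ (χ k)) with hm
  have hmm : StrictMono m := hφ'.comp hχ
  set E : ℕ → Bound.Dt C θ := fun n => D (φ (χ (lastIdx m n))) with hE
  have hlim' : Tendsto (fun n => par (E n).G) atTop (𝓝 q) :=
    hlim.comp (lastIdx_tendsto hmm)
  obtain ⟨b, hb, h1⟩ := seq_mean hLT hM2 oLT1 oM2 oBAL hC hθ hθ1 E q hq1 hq2 hq3 hlim'
  have h2 : Tendsto (fun k => Y (E (m k)) (m k)) atTop (𝓝 b) := h1.comp hmm.tendsto_atTop
  have h3 : Tendsto (fun k : ℕ => 1 / (((φ (χ k) : ℕ) : ℝ) + 1)) atTop (𝓝 0) :=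
    (tendsto_one_div_add_atTop_nhds_zero_nat (𝕜 := ℝ)).comp
      (hφ.tendsto_atTop.comp hχ.tendsto_atTop)
  have h4 : b ≤ 0 := by
    refine le_of_tendsto_of_tendsto h2 h3 (Eventually.of_forall fun k => ?_)
    have hEk : E (m k) = D (φ (χ k)) := by
      simp only [hE, lastIdx_self hmm]
    simp only [hEk]
    exact (hbad (φ (χ k))).le
  exact absurd hb (not_lt.2 h4)

/-! ### the sums over the words -/

section
variable {C θ : ℝ} {n : ℕ} {s : ℝ} (D : Dat C θ n s)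

theorem sum_zero : Zq n s = (closeP (2 * n) (capW n s) D.B n).eval 1 := by
  have h := congrArg (Polynomial.eval 1) D.count
  rw [Polynomial.eval_finsetSum] at h
  simpa [Zq] using h

theorem sum_one : ∑ q ∈ Omn n, wtq n s q * (arq n q : ℝ) =
    (closeP (2 * n) (capW n s) D.B n).derivative.eval 1 := by
  have h := congrArg (fun p : Polynomial ℝ => (Polynomial.derivative p).eval 1) D.count
  simp only [Polynomial.derivative_sum, Polynomial.derivative_mul, Polynomial.derivative_C,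
    zero_mul, zero_add, Polynomial.eval_finsetSum, Polynomial.eval_mul, Polynomial.eval_C,
    Polynomial.derivative_X_pow, Polynomial.eval_pow, Polynomial.eval_X, one_pow, mul_one] at h
  rw [← h]
  rfl

theorem sum_two : ∑ q ∈ Omn n, wtq n s q * (arq n q : ℝ) ^ 2 =
    (closeP (2 * n) (capW n s) D.B n).derivative.derivative.eval 1 +
      (closeP (2 * n) (capW n s) D.B n).derivative.eval 1 := by
  have h := congrArg (fun p : Polynomial ℝ =>
    (Polynomial.derivative (Polynomial.derivative p)).eval 1) D.count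
  simp only [Polynomial.derivative_sum, Polynomial.derivative_mul, Polynomial.derivative_C,
    zero_mul, zero_add, Polynomial.eval_finsetSum, Polynomial.eval_mul, Polynomial.eval_C,
    Polynomial.derivative_X_pow, Polynomial.eval_pow, Polynomial.eval_X, one_pow, mul_one] at h
  rw [← h, ← sum_one D, ← Finset.sum_add_distrib]
  refine Finset.sum_congr rfl fun q _ => ?_
  change wtq n s q * (arq n q : ℝ) ^ 2 = wtq n s q * ((arq n q : ℝ) * ((arq n q - 1 : ℕ) : ℝ)) +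
    wtq n s q * (arq n q : ℝ)
  rcases Nat.eq_zero_or_pos (arq n q) with h0 | h0
  · rw [h0]; simp
  · have : ((arq n q - 1 : ℕ) : ℝ) = (arq n q : ℝ) - 1 := by
      rw [Nat.cast_sub h0, Nat.cast_one]
    rw [this]; ring

end

/-! ### positivity of the shoelace sum -/

theorem dq_pos {n : ℕ} {q : QI} (hq : q ∈ Omn n) : 0 < dq q := by
  obtain ⟨x, M, T, w⟩ := q
  have hq' : (⟨x, M, T, w⟩ : QI) ∈ (Icc (1 : ℤ) ((2 * n - 1 : ℕ) : ℤ)).sigma
      fun x => (range ((2 * n - 1) + 2)).sigma fun M =>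
        CapSet (2 * n - 1) x M ×ˢ ArchSet (2 * n - 1) x (2 * n - M) := hq
  simp only [mem_sigma, mem_Icc, mem_range, mem_product] at hq'
  obtain ⟨⟨hx1, hx2⟩, hM, hT, hw⟩ := hq'
  have hT' := ((M41.mem_CapSet _ _ _ _).1 hT).2.1
  have hw' := ((M41.mem_ArchSet _ _ _ _).1 hw).2.1
  have h1 := H58.k1pos x w T hx1 hw' hT'
  rw [H58.dbl_glue hw'.2.1 hT'.2.1] at h1
  exact h1

end Pool.Agent.FS.ARM

namespace Pool.Agent.FS

open Finset Filter Topology
open Pool.Agent.Lib27 Pool.Agent.SapR Pool.Agent.Gap Pool.Agent.AreaLaw Pool.Agent.FL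

/-- FS_ARM : moments of the area functional. -/
theorem ARM_thm (hMG : MG_Stmt) (hMG2 : MGI2_Stmt) (hKW : KW_Stmt) (hNEAR : NEAR_Stmt)
    (hLT : GLT_Stmt) (hM2 : GM2_Stmt) (oLT1 : Gap.LT1_Stmt) (oM2 : Gap.M2_Stmt)
    (oBAL : Gap.BAL_Stmt) : ARM_Stmt := by
  intro s1 h0 h1
  obtain ⟨C, θ, hC, hθ, hθ1, N0, hN0, hD⟩ := exists_dat hMG hMG2 hKW s1 h0 h1
  obtain ⟨C1, hC1, n1, hX⟩ := Bound.two_sided hLT oLT1 oM2 oBAL hC hθ hθ1
  obtain ⟨c, hc, n2, hY⟩ := ARM.mean_lower hLT hM2 oLT1 oM2 oBAL hC hθ hθ1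
  obtain ⟨C2, hC2, hM2'⟩ := hM2 C θ hC hθ hθ1
  obtain ⟨C3, hC3, hN⟩ := hNEAR C θ hC hθ hθ1
  refine ⟨C2 * C1 + c⁻¹ + C3 + C3 * C1, by positivity, max (max N0 n1) (max n2 2),
    fun n hn s hs hs1 => ?_⟩
  have hnN0 : N0 ≤ n := (le_max_left _ _).trans ((le_max_left _ _).trans hn)
  have hnn1 : n1 ≤ n := (le_max_right _ _).trans ((le_max_left _ _).trans hn)
  have hnn2 : n2 ≤ n := (le_max_left _ _).trans ((le_max_right _ _).trans hn)
  have hn2 : 2 ≤ n := (le_max_right _ _).trans ((le_max_right _ _).trans hn)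
  obtain ⟨D⟩ := hD n hnN0 s hs hs1
  have hX1 := hX D.dt n hnn1
  rw [D.X_eq] at hX1
  have hY1 := hY D.dt n hnn2
  have hA := hM2' D.G D.cls (2 * n) (capW n s) (capW n s) D.cap D.cap D.B D.sol n
  rw [← ARM.sum_two D] at hA
  have hE := hN n s D.G.rho hn2 hs (hs1.trans h1.le) D.G.rho_pos D.crit D.tails
  -- abbreviations
  obtain ⟨R, hR⟩ : ∃ R, R = D.G.rho ^ n := ⟨_, rfl⟩
  have hR0 : 0 < R := by rw [hR]; exact pow_pos D.G.rho_pos n
  obtain ⟨Z, hZ⟩ : ∃ Z, Z = Zq n s := ⟨_, rfl⟩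
  have hZ' : ∑ q ∈ M41.Om (2 * n - 1) n, wtq n s q = Z := by rw [hZ]; rfl
  obtain ⟨S, hS⟩ : ∃ S, S = sc n := ⟨_, rfl⟩
  have hS' : (n : ℝ) * Real.sqrt n = S := by rw [hS]; rfl
  have hn0 : (0 : ℝ) < n := by
    have : 0 < n := by omega
    exact_mod_cast this
  have hn1 : (1 : ℝ) ≤ n := by
    have : 1 ≤ n := by omega
    exact_mod_cast this
  have hn2' : (2 : ℝ) ≤ n := by exact_mod_cast hn2
  have hsq : 0 < Real.sqrt n := Real.sqrt_pos.2 hn0
  have hsq1 : Real.sqrt n ≤ n := by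
    rw [Real.sqrt_le_left hn0.le]
    nlinarith
  have hS0 : 0 < S := by rw [← hS']; positivity
  rw [hZ', hS', ← hR] at hX1
  obtain ⟨hX1, hX2⟩ := hX1
  have hZ0 : 0 < Z := by
    by_contra hcon
    have h2 : S * R * Z ≤ 0 := mul_nonpos_of_nonneg_of_nonpos (by positivity) (not_lt.1 hcon)
    have h3 : 0 < C1⁻¹ := inv_pos.2 hC1
    linarith
  -- `1 ≤ C1 * (S * R * Z)`
  have hlow : 1 ≤ C1 * (S * R * Z) := by
    have := mul_le_mul_of_nonneg_left hX1 hC1.le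
    rwa [mul_inv_cancel₀ hC1.ne'] at this
  rw [← hZ]
  refine ⟨?_, ?_, ?_⟩
  · -- second moment
    have e1 : ∑ q ∈ Omn n, wtq n s q * ra n q ^ 2 =
        (∑ q ∈ Omn n, wtq n s q * (arq n q : ℝ) ^ 2) / S ^ 2 := by
      rw [Finset.sum_div]
      refine Finset.sum_congr rfl fun q _ => ?_
      unfold ra
      rw [← hS, div_pow, mul_div_assoc]
    rw [e1, div_le_iff₀ (by positivity)]
    rw [← hR, hS'] at hA
    obtain ⟨T, hT⟩ : ∃ T, T = ∑ q ∈ Omn n, wtq n s q * (arq n q : ℝ) ^ 2 := ⟨_, rfl⟩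
    rw [← hT] at hA ⊢
    -- R * T ≤ C2 * S ≤ C2 * S * (C1 * (S*R*Z))
    have e2 : C2 * S ≤ C2 * S * (C1 * (S * R * Z)) := le_mul_of_one_le_right (by positivity) hlow
    have e3 : R * T ≤ R * (C2 * C1 * Z * S ^ 2) := by
      refine hA.trans (e2.trans (le_of_eq ?_))
      ring
    have e4 : T ≤ C2 * C1 * Z * S ^ 2 := le_of_mul_le_mul_left e3 hR0
    refine e4.trans ?_
    have e5 : C2 * C1 ≤ C2 * C1 + c⁻¹ + C3 + C3 * C1 := by
      have : 0 < c⁻¹ := inv_pos.2 hc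
      have : 0 < C3 * C1 := by positivity
      linarith
    gcongr
  · -- mean
    have e1 : ∑ q ∈ Omn n, wtq n s q * ra n q =
        (∑ q ∈ Omn n, wtq n s q * (arq n q : ℝ)) / S := by
      rw [Finset.sum_div]
      refine Finset.sum_congr rfl fun q _ => ?_
      unfold ra
      rw [← hS, mul_div_assoc]
    have e2 : c ≤ (∑ q ∈ Omn n, wtq n s q * (arq n q : ℝ)) / (S * Z) := by
      rw [ARM.sum_one D, hZ, ARM.sum_zero D, ← hS']
      exact hY1
    rw [le_div_iff₀ (by positivity)] at e2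
    rw [e1, le_div_iff₀ hS0]
    have e3 : (C2 * C1 + c⁻¹ + C3 + C3 * C1)⁻¹ ≤ c := by
      rw [inv_le_comm₀ (by positivity) hc]
      have : 0 < C2 * C1 := by positivity
      have : 0 < C3 * C1 := by positivity
      linarith
    calc (C2 * C1 + c⁻¹ + C3 + C3 * C1)⁻¹ * Z * S ≤ c * Z * S := by gcongr
      _ = c * (S * Z) := by ring
      _ ≤ _ := e2
  · -- the shoelace sum
    have e1 : ∑ q ∈ Omn n, wtq n s q * |(dq q : ℝ) - (arq n q : ℝ)| ≤
        C3 * n * Real.log n * Z + C3 / ((n : ℝ) ^ 5 * R) := by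
      rw [hZ', ← hR] at hE
      refine le_trans (le_of_eq ?_) hE
      refine Finset.sum_congr rfl fun q hq => ?_
      have h2 : 0 < dq q := ARM.dq_pos hq
      have h3 : |((dbl 0 q.2.2.2 + dbl 0 q.2.2.1 : ℤ) : ℝ)| = (dq q : ℝ) := by
        have h4 : (0 : ℝ) < ((dq q : ℤ) : ℝ) := by exact_mod_cast h2
        exact abs_of_pos h4
      rw [h3]
      rfl
    refine e1.trans ?_
    have hlog2 : (1 : ℝ) ≤ n * Real.log n := by
      have h3 : Real.log 2 ≤ Real.log n := Real.log_le_log (by norm_num) hn2'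
      have h4 := Real.log_two_gt_d9
      nlinarith
    have e2 : C3 / ((n : ℝ) ^ 5 * R) ≤ C3 * C1 * (n * Real.log n) * Z := by
      rw [div_le_iff₀ (by positivity)]
      have h3 : S ≤ (n : ℝ) ^ 5 := by
        rw [← hS']
        calc (n : ℝ) * Real.sqrt n ≤ (n : ℝ) * n := by gcongr
          _ = (n : ℝ) ^ 2 := by ring
          _ ≤ (n : ℝ) ^ 5 := pow_le_pow_right₀ hn1 (by norm_num)
      calc C3 ≤ C3 * (C1 * (S * R * Z)) := le_mul_of_one_le_right hC3.le hlow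
        _ = C3 * C1 * 1 * Z * (S * R) := by ring
        _ ≤ C3 * C1 * (n * Real.log n) * Z * ((n : ℝ) ^ 5 * R) := by gcongr
    have e3 : 0 ≤ (C2 * C1 + c⁻¹) * (n * Real.log n) * Z := by positivity
    calc C3 * n * Real.log n * Z + C3 / ((n : ℝ) ^ 5 * R)
        ≤ C3 * n * Real.log n * Z + C3 * C1 * (n * Real.log n) * Z := by linarith
      _ ≤ (C2 * C1 + c⁻¹ + C3 + C3 * C1) * (n * Real.log n) * Z := by
        have e4 : (C2 * C1 + c⁻¹ + C3 + C3 * C1) * (n * Real.log n) * Z =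
          (C2 * C1 + c⁻¹) * (n * Real.log n) * Z + (C3 * n * Real.log n * Z +
            C3 * C1 * (n * Real.log n) * Z) := by ring
        rw [e4]
        linarith

end Pool.Agent.FS
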