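import Pool.Agent.Lib_helper74.FS.Tok

/-!
Module FS_SKEL, part 2: skeletons of arches.
-/

set_option autoImplicit false

namespace Pool.Agent.FS.SKEL

open Finset Filter Topology MeasureTheory
open Pool.Agent.Lib27 Pool.Agent.SapR Pool.Agent.Gap Pool.Agent.AreaLaw Pool.Agent.FL

/-! ### sums over multisets -/

noncomputable def ms (g : Sk → ℝ) (M : Multiset Sk) : ℝ := (M.map g).sum

lemma ms_zero (g : Sk → ℝ) : ms g 0 = 0 := rfl

lemma ms_add (g : Sk → ℝ) (M N : Multiset Sk) : ms g (M + N) = ms g M + ms g N := by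
  unfold ms
  rw [Multiset.map_add, Multiset.sum_add]

lemma ms_sum {ι : Type} (g : Sk → ℝ) (S : Finset ι) (N : ι → Multiset Sk) :
    ms g (∑ i ∈ S, N i) = ∑ i ∈ S, ms g (N i) := by
  classical
  induction S using Finset.induction_on with
  | empty => simp [ms_zero]
  | insert a S ha ih => rw [Finset.sum_insert ha, Finset.sum_insert ha, ms_add, ih]

lemma ms_map (g : Sk → ℝ) (f : Sk → Sk) (M : Multiset Sk) :
    ms g (M.map f) = ms (fun a => g (f a)) M := by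
  unfold ms
  rw [Multiset.map_map]
  rfl

lemma ms_val {ι : Type} (g : Sk → ℝ) (S : Finset ι) (f : ι → Sk) :
    ms g (S.val.map f) = ∑ i ∈ S, g (f i) := by
  unfold ms
  rw [Multiset.map_map]
  rfl

lemma ms_mul (c : ℝ) (g : Sk → ℝ) (M : Multiset Sk) : ms (fun a => c * g a) M = c * ms g M := by
  unfold ms
  rw [Multiset.sum_map_mul_left]

lemma ms_add_fun (g g' : Sk → ℝ) (M : Multiset Sk) :
    ms (fun a => g a + g' a) M = ms g M + ms g' M := by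
  unfold ms
  rw [Multiset.sum_map_add]

lemma ms_congr (g g' : Sk → ℝ) (M : Multiset Sk) (h : ∀ a ∈ M, g a = g' a) :
    ms g M = ms g' M := by
  unfold ms
  rw [Multiset.map_congr rfl h]

/-- value of a skeleton -/
noncomputable def ev (F : ℤ → ℤ → ℤ → ℝ) (a : Sk) : ℝ :=
  rs a.l (fun j t => F (a.H - j) (a.A - t) (a.L - t + dlt * j))

/-- caps of half length `m` -/
noncomputable def cf (r : ℕ) (s ρ : ℝ) (m : ℕ) : ℝ :=
  ∑ x ∈ Icc (1 : ℤ) m, ∑ T ∈ CapSet r x (2 * m), ρ ^ m * s ^ (m - hgt T)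

lemma cf_nonneg (r : ℕ) (s ρ : ℝ) (m : ℕ) (hs : 0 < s) (hρ : 0 < ρ) : 0 ≤ cf r s ρ m := by
  unfold cf
  exact Finset.sum_nonneg fun x _ => Finset.sum_nonneg fun T _ => by positivity

/-- the multiset `M` describes the arches of gap `x` with half length `m` -/
structure ASk (r : ℕ) (x : ℤ) (m : ℕ) (M : Multiset Sk) : Prop where
  repr : ∀ F : ℤ → ℤ → ℤ → ℝ, ∑ w ∈ ArchSet r x (2 * m), F (hgt w) (M41.Ar r w) (dbl 0 w) =
    ms (ev F) M
  len_le : ∀ a ∈ M, a.l.length ≤ a.H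
  H_le : ∀ a ∈ M, a.H ≤ m
  y_le : ∀ a ∈ M, ∀ y ∈ a.l, y ≤ 2 * m + 2
  sum_le : ∀ a ∈ M, 4 * a.l.sum ≤ a.A
  A_le : ∀ a ∈ M, a.A ≤ 2 * m ^ 2
  count : ∀ s τ ρ : ℝ, 0 < s → 0 ≤ τ → 0 < ρ →
    ∑ p ∈ Pc r, ρ ^ hl p * s ^ (hl p - htn p) ≤ 1 + (1 - τ) * (ρ ^ 6 * (s ^ 2 + s ^ 3)) →
    ρ ^ m * ms (fun a => s ^ (m - a.H) * ((1 + s) * τ) ^ a.l.length) M ≤
      ∑ m' ∈ range (m + 1), cf r s ρ m'

/-- shift by the piece `p` below gap `x` -/
def shf (x : ℤ) (p : Wd × Wd) (a : Sk) : Sk :=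
  ⟨a.l, a.H + htn p, a.A + (ht p * (2 * x + jump p)).toNat, a.L + (ht p * (2 * x + jump p) + off p)⟩

/-- new token -/
def tok (x : ℤ) (a : Sk) : Sk :=
  ⟨(2 * x + 2).toNat :: a.l, a.H + 4, a.A + 4 * (2 * x + 2).toNat,
    a.L + (4 * (2 * x + 2) + off tk1)⟩

/-- the function seen by the inner arch -/
def inn (x : ℤ) (p : Wd × Wd) (F : ℤ → ℤ → ℤ → ℝ) (a b c : ℤ) : ℝ :=
  F (a + htn p) (b + ht p * (2 * x + jump p)) (c + (ht p * (2 * x + jump p) + off p))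

lemma ev_shf (x : ℤ) (p : Wd × Wd) (F : ℤ → ℤ → ℤ → ℝ) (a : Sk)
    (h0 : 0 ≤ ht p * (2 * x + jump p)) : ev F (shf x p a) = ev (inn x p F) a := by
  unfold ev shf inn
  apply rs_congr
  intro j t _ _
  simp only [Nat.cast_add, Int.toNat_of_nonneg h0]
  congr 1 <;> ring

lemma ev_tok (x : ℤ) (F : ℤ → ℤ → ℤ → ℝ) (a : Sk) (hx : 1 ≤ x) :
    ev F (tok x a) = ev (inn x tk1 F) a + ev (inn x tk2 F) a := by
  have hy : (((2 * x + 2).toNat : ℕ) : ℤ) = 2 * x + 2 := Int.toNat_of_nonneg (by omega)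
  unfold ev tok
  simp only [rs_cons]
  congr 1
  · apply rs_congr
    intro j t _ _
    unfold inn
    rw [tk1_htn, tk1_ht, tk1_jump]
    push_cast
    rw [hy]
    congr 1 <;> ring
  · apply rs_congr
    intro j t _ _
    unfold inn
    rw [tk2_htn, tk2_ht, tk2_jump]
    push_cast
    rw [hy]
    unfold dlt
    congr 1 <;> ring

/-- one step of the recursion -/
lemma step (h : HG_Stmt) (r : ℕ) (x : ℤ) (m : ℕ) (hx : 1 ≤ x) (p : Wd × Wd)
    (hp : p ∈ allowed r x) (F : ℤ → ℤ → ℤ → ℝ) :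
    ∑ w ∈ ArchSet r (x + jump p) (2 * m - (p.1.length + p.2.length)),
      F (hgt (p.1 ++ w ++ p.2)) (M41.Ar r (p.1 ++ w ++ p.2)) (dbl 0 (p.1 ++ w ++ p.2)) =
    ∑ w ∈ ArchSet r (x + jump p) (2 * (m - hl p)),
      inn x p F (hgt w) (M41.Ar r w) (dbl 0 w) := by
  have hp1 := ((M41.mem_allowed _ _ _).1 hp)
  have hlen := KW.len_hl hp1.1
  have hht := KW.ht_eq hp1.1
  have hset : 2 * m - (p.1.length + p.2.length) = 2 * (m - hl p) := by omega
  have h0 : 0 ≤ ht p * (2 * x + jump p) := by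
    apply mul_nonneg
    · rw [hht]; positivity
    · have := hp1.2.2.1
      omega
  apply sum_congr (by rw [hset])
  intro w hw
  rw [← hset] at hw
  have hw' := (M41.mem_ArchSet _ _ _ _).1 hw
  have e1 := h.1 r x (2 * m - (p.1.length + p.2.length)) p w hx hp hw
  have e2 := M41.Ar_step KW.k2' r x (2 * m) hx p hp w hw
  have e3 := H66.k4 x p w ((M41.mem_Pc _ _).1 hp1.1).1.1 hw'.2.1.2.1
  rw [e1, e2, e3]
  unfold inn
  push_cast
  rw [Int.toNat_of_nonneg h0]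
  congr 1
  ring

/-- caps as skeletons -/
def capSk (T : Wd) : Sk := ⟨[], hgt T, 0, dbl 0 T⟩

open Classical in
/-- the other pieces -/
noncomputable def oth (r : ℕ) (x : ℤ) (m : ℕ) : Finset (Wd × Wd) :=
  (allowed r x).filter (fun p => (p ≠ tk1 ∧ p ≠ tk2) ∧ hl p ≤ m)

/-- assembled multiset -/
noncomputable def asm (r : ℕ) (x : ℤ) (m : ℕ) (N : Wd × Wd → Multiset Sk) : Multiset Sk :=
  (CapSet r x (2 * m)).val.map capSk + ∑ p ∈ oth r x m, (N p).map (shf x p) +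
    (if 6 ≤ m then (N tk1).map (tok x) else 0)

lemma mem_asm {r : ℕ} {x : ℤ} {m : ℕ} {N : Wd × Wd → Multiset Sk} {a : Sk}
    (h : a ∈ asm r x m N) : (∃ T ∈ CapSet r x (2 * m), a = capSk T) ∨
      (∃ p ∈ oth r x m, ∃ b ∈ N p, a = shf x p b) ∨
      (6 ≤ m ∧ ∃ b ∈ N tk1, a = tok x b) := by
  unfold asm at h
  rw [Multiset.mem_add, Multiset.mem_add] at h
  rcases h with (h | h) | h
  · left
    rw [Multiset.mem_map] at h
    obtain ⟨T, hT, rfl⟩ := h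
    exact ⟨T, hT, rfl⟩
  · right; left
    rw [Multiset.mem_sum] at h
    obtain ⟨p, hp, h⟩ := h
    rw [Multiset.mem_map] at h
    obtain ⟨b, hb, rfl⟩ := h
    exact ⟨p, hp, b, hb, rfl⟩
  · right; right
    split_ifs at h with h6
    · rw [Multiset.mem_map] at h
      obtain ⟨b, hb, rfl⟩ := h
      exact ⟨h6, b, hb, rfl⟩
    · simp at h

end Pool.Agent.FS.SKEL
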