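import Pool.Agent.Lib_helper74.FS.Arch

/-!
Module FS_SKEL, part 3: the induction for the arches.
-/

set_option autoImplicit false

namespace Pool.Agent.FS.SKEL

open Finset Filter Topology MeasureTheory
open Pool.Agent.Lib27 Pool.Agent.SapR Pool.Agent.Gap Pool.Agent.AreaLaw Pool.Agent.FL

lemma asm_repr (h : HG_Stmt) (r : ℕ) (hr : 10 ≤ r) (x : ℤ) (hx : 1 ≤ x) (m : ℕ)
    (N : Wd × Wd → Multiset Sk)
    (hN : ∀ p : Wd × Wd, p ∈ allowed r x → hl p ≤ m → ASk r (x + jump p) (m - hl p) (N p))
    (F : ℤ → ℤ → ℤ → ℝ) :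
    ∑ w ∈ ArchSet r x (2 * m), F (hgt w) (M41.Ar r w) (dbl 0 w) = ms (ev F) (asm r x m N) := by
  classical
  rw [KW.k2' r x (2 * m) hx (fun w => F (hgt w) (M41.Ar r w) (dbl 0 w))]
  rw [sum_congr rfl (fun p hp => step h r x m hx p hp F)]
  unfold asm
  rw [ms_add, ms_add, ms_val, ms_sum, add_assoc]
  congr 1
  · apply sum_congr rfl
    intro T hT
    rw [M41.Ar_cap KW.k2' r x (2 * m) hx T hT]
    unfold ev capSk
    simp
  · -- split the pieces
    have hsub : oth r x m ⊆ allowed r x := filter_subset _ _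
    have hz : ∀ p ∈ allowed r x, ¬ hl p ≤ m → ∑ w ∈ ArchSet r (x + jump p) (2 * (m - hl p)),
        inn x p F (hgt w) (M41.Ar r w) (dbl 0 w) = 0 := by
      intro p _ hpm
      rw [show m - hl p = 0 by omega, mul_zero, M41.ArchSet_zero, sum_empty]
    have hrest : ∑ p ∈ oth r x m, ms (ev F) ((N p).map (shf x p)) =
        ∑ p ∈ oth r x m, ∑ w ∈ ArchSet r (x + jump p) (2 * (m - hl p)),
          inn x p F (hgt w) (M41.Ar r w) (dbl 0 w) := by
      apply sum_congr rfl
      intro p hp
      have hp' : p ∈ allowed r x ∧ (p ≠ tk1 ∧ p ≠ tk2) ∧ hl p ≤ m := by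
        unfold oth at hp
        exact mem_filter.1 hp
      have hp1 := ((M41.mem_allowed _ _ _).1 hp'.1)
      rw [(hN p hp'.1 hp'.2.2).repr (inn x p F), ms_map]
      apply ms_congr
      intro a _
      apply ev_shf
      apply mul_nonneg
      · rw [KW.ht_eq hp1.1]; positivity
      · have := hp1.2.2.1
        omega
    rw [hrest]
    have h1 := tk1_mem r hr x hx
    have h2 := tk2_mem r hr x hx
    have hsplit : ∑ p ∈ allowed r x, ∑ w ∈ ArchSet r (x + jump p) (2 * (m - hl p)),
        inn x p F (hgt w) (M41.Ar r w) (dbl 0 w) =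
        ∑ p ∈ oth r x m, ∑ w ∈ ArchSet r (x + jump p) (2 * (m - hl p)),
          inn x p F (hgt w) (M41.Ar r w) (dbl 0 w) +
        (∑ w ∈ ArchSet r (x + jump tk1) (2 * (m - hl tk1)),
          inn x tk1 F (hgt w) (M41.Ar r w) (dbl 0 w) +
        ∑ w ∈ ArchSet r (x + jump tk2) (2 * (m - hl tk2)),
          inn x tk2 F (hgt w) (M41.Ar r w) (dbl 0 w)) := by
      rw [← Finset.sum_filter_add_sum_filter_not (allowed r x) (fun p => p ≠ tk1 ∧ p ≠ tk2)]
      congr 1
      · rw [← Finset.sum_filter_add_sum_filter_not ((allowed r x).filter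
          (fun p => p ≠ tk1 ∧ p ≠ tk2)) (fun p => hl p ≤ m)]
        rw [Finset.filter_filter]
        have : ∑ p ∈ ((allowed r x).filter (fun p => p ≠ tk1 ∧ p ≠ tk2)).filter
            (fun p => ¬ hl p ≤ m), ∑ w ∈ ArchSet r (x + jump p) (2 * (m - hl p)),
            inn x p F (hgt w) (M41.Ar r w) (dbl 0 w) = 0 := by
          apply sum_eq_zero
          intro p hp
          rw [mem_filter, mem_filter] at hp
          exact hz p hp.1.1 hp.2
        rw [this, add_zero]
        apply sum_congr _ (fun _ _ => rfl)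
        unfold oth
        ext p
        simp only [mem_filter]
      · have hset : (allowed r x).filter (fun p => ¬ (p ≠ tk1 ∧ p ≠ tk2)) = {tk1, tk2} := by
          ext p
          rw [mem_filter, mem_insert, mem_singleton]
          constructor
          · rintro ⟨_, h3⟩
            by_contra hc
            push Not at hc
            exact h3 hc
          · rintro (rfl | rfl)
            · exact ⟨h1, fun hc => hc.1 rfl⟩
            · exact ⟨h2, fun hc => hc.2 rfl⟩
        rw [hset, sum_pair tk_ne]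
    rw [hsplit]
    congr 1
    split_ifs with h6
    · have hN1 := hN tk1 h1 (by rw [tk1_hl]; exact h6)
      have e1 := hN1.repr (inn x tk1 F)
      have e2 := hN1.repr (inn x tk2 F)
      rw [e1]
      rw [show x + jump tk2 = x + jump tk1 by rw [tk1_jump, tk2_jump],
        show m - hl tk2 = m - hl tk1 by rw [tk1_hl, tk2_hl], e2, ms_map, ← ms_add_fun]
      apply ms_congr
      intro a _
      exact (ev_tok x F a hx).symm
    · rw [hz tk1 h1 (by rw [tk1_hl]; exact h6), hz tk2 h2 (by rw [tk2_hl]; exact h6), ms_zero,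
        add_zero]

lemma asm_inv (h : HG_Stmt) (r : ℕ) (hr : 10 ≤ r) (x : ℤ) (hx : 1 ≤ x) (m : ℕ)
    (N : Wd × Wd → Multiset Sk)
    (hN : ∀ p : Wd × Wd, p ∈ allowed r x → hl p ≤ m → ASk r (x + jump p) (m - hl p) (N p)) :
    (∀ a ∈ asm r x m N, a.l.length ≤ a.H) ∧ (∀ a ∈ asm r x m N, a.H ≤ m) ∧
    (∀ a ∈ asm r x m N, 4 * a.l.sum ≤ a.A) := by
  classical
  have h1 := tk1_mem r hr x hx
  refine ⟨?_, ?_, ?_⟩
  · intro a ha
    rcases mem_asm ha with ⟨T, hT, rfl⟩ | ⟨p, hp, b, hb, rfl⟩ | ⟨h6, b, hb, rfl⟩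
    · unfold capSk
      simp
    · unfold oth at hp
      rw [mem_filter] at hp
      have := (hN p hp.1 hp.2.2).len_le b hb
      unfold shf
      simp only
      omega
    · have := (hN tk1 h1 (by rw [tk1_hl]; exact h6)).len_le b hb
      unfold tok
      simp only [List.length_cons]
      omega
  · intro a ha
    rcases mem_asm ha with ⟨T, hT, rfl⟩ | ⟨p, hp, b, hb, rfl⟩ | ⟨h6, b, hb, rfl⟩
    · unfold capSk
      simp only
      have hT' := (M41.mem_CapSet _ _ _ _).1 hT
      have := h.2.1 x T hx hT'.2.1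
      rw [hT'.1] at this
      omega
    · unfold oth at hp
      rw [mem_filter] at hp
      have h2 := (hN p hp.1 hp.2.2).H_le b hb
      have h3 := h.2.2 r p ((M41.mem_allowed _ _ _).1 hp.1).1
      unfold shf
      simp only
      omega
    · have := (hN tk1 h1 (by rw [tk1_hl]; exact h6)).H_le b hb
      rw [tk1_hl] at this
      unfold tok
      simp only
      omega
  · intro a ha
    rcases mem_asm ha with ⟨T, hT, rfl⟩ | ⟨p, hp, b, hb, rfl⟩ | ⟨h6, b, hb, rfl⟩
    · unfold capSk
      simp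
    · unfold oth at hp
      rw [mem_filter] at hp
      have h2 := (hN p hp.1 hp.2.2).sum_le b hb
      unfold shf
      simp only
      omega
    · have := (hN tk1 h1 (by rw [tk1_hl]; exact h6)).sum_le b hb
      unfold tok
      simp only [List.sum_cons]
      omega

end Pool.Agent.FS.SKEL
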