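import Pool.Agent.Lib_helper74.FS.Arch2

/-!
Module FS_SKEL, part 4: bounds and count.
-/

set_option autoImplicit false

namespace Pool.Agent.FS.SKEL

open Finset Filter Topology MeasureTheory
open Pool.Agent.Lib27 Pool.Agent.SapR Pool.Agent.Gap Pool.Agent.AreaLaw Pool.Agent.FL

lemma ASk.nonempty {r : ℕ} {x : ℤ} {m : ℕ} {M : Multiset Sk} (h : ASk r x m M) {a : Sk}
    (ha : a ∈ M) : (ArchSet r x (2 * m)).Nonempty := by
  have h1 := h.repr (fun _ _ _ => 1)
  have h2 : ∀ b : Sk, 1 ≤ ev (fun _ _ _ => 1) b := by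
    intro b
    unfold ev
    exact rs_ge_zero b.l (fun _ _ => 1) (fun _ _ _ _ => zero_le_one)
  have h3 : 1 ≤ ms (ev (fun _ _ _ => 1)) M := by
    obtain ⟨M', rfl⟩ := Multiset.exists_cons_of_mem ha
    unfold ms
    rw [Multiset.map_cons, Multiset.sum_cons]
    have h4 : 0 ≤ (M'.map (ev (fun _ _ _ => 1))).sum := by
      apply Multiset.sum_nonneg
      intro y hy
      rw [Multiset.mem_map] at hy
      obtain ⟨b, _, rfl⟩ := hy
      linarith [h2 b]
    linarith [h2 a]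
  by_contra hc
  rw [Finset.not_nonempty_iff_eq_empty] at hc
  rw [hc, Finset.sum_empty] at h1
  linarith

/-- the gap is at most the half length -/
lemma gap_le {r : ℕ} {x : ℤ} {m : ℕ} (hx : 1 ≤ x) (h : (ArchSet r x (2 * m)).Nonempty) :
    x ≤ m := by
  obtain ⟨w, hw⟩ := h
  have := (H66.k5cap.2.2 r x (2 * m) w hx hw).2
  push_cast at this
  linarith

lemma glue_nonempty {r : ℕ} {x : ℤ} {m : ℕ} (hx : 1 ≤ x) {p : Wd × Wd} (hp : p ∈ allowed r x)
    (hm : hl p ≤ m) (h : (ArchSet r (x + jump p) (2 * (m - hl p))).Nonempty) :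
    (ArchSet r x (2 * m)).Nonempty := by
  obtain ⟨w, hw⟩ := h
  have hp1 := ((M41.mem_allowed _ _ _).1 hp)
  have hlen := KW.len_hl hp1.1
  have hw' := (M41.mem_ArchSet _ _ _ _).1 hw
  have hl2 : (p.1 ++ w ++ p.2).length = 2 * m := by
    simp only [List.length_append]
    omega
  have hD : M41.Dec r x (p.1 ++ w ++ p.2) (p, w) := by
    refine ⟨hp, ?_, rfl⟩
    rw [hl2]
    rw [show 2 * m - ((p, w).1.1.length + (p, w).1.2.length) = 2 * (m - hl p) by
      simp only; omega]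
    exact hw
  have := (M41.dec_mem KW.k2' r x hx _ _ hD).1
  rw [hl2] at this
  exact ⟨_, this⟩

lemma asm_inv2 (r : ℕ) (hr : 10 ≤ r) (x : ℤ) (hx : 1 ≤ x) (m : ℕ)
    (h : HG_Stmt) (N : Wd × Wd → Multiset Sk)
    (hN : ∀ p : Wd × Wd, p ∈ allowed r x → hl p ≤ m → ASk r (x + jump p) (m - hl p) (N p)) :
    (∀ a ∈ asm r x m N, ∀ y ∈ a.l, y ≤ 2 * m + 2) ∧ (∀ a ∈ asm r x m N, a.A ≤ 2 * m ^ 2) := by
  classical
  have h1 := tk1_mem r hr x hx
  have key : ∀ p ∈ allowed r x, hl p ≤ m → ∀ b ∈ N p, x ≤ m ∧ x + jump p ≤ (m : ℤ) - hl p ∧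
      b.A ≤ 2 * (m - hl p) ^ 2 := by
    intro p hp hpm b hb
    have h2 := (hN p hp hpm).nonempty hb
    have h3 := gap_le ((M41.mem_allowed _ _ _).1 hp).2.2.1 h2
    have h4 := gap_le hx (glue_nonempty hx hp hpm h2)
    refine ⟨h4, ?_, (hN p hp hpm).A_le b hb⟩
    rw [Nat.cast_sub hpm] at h3
    exact h3
  refine ⟨?_, ?_⟩
  · intro a ha y hy
    rcases mem_asm ha with ⟨T, hT, rfl⟩ | ⟨p, hp, b, hb, rfl⟩ | ⟨h6, b, hb, rfl⟩
    · unfold capSk at hy
      simp at hy
    · unfold oth at hp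
      rw [mem_filter] at hp
      have := (hN p hp.1 hp.2.2).y_le b hb y hy
      omega
    · obtain ⟨k1, k2, k3⟩ := key tk1 h1 (by rw [tk1_hl]; exact h6) b hb
      unfold tok at hy
      simp only [List.mem_cons] at hy
      rcases hy with rfl | hy
      · omega
      · have := (hN tk1 h1 (by rw [tk1_hl]; exact h6)).y_le b hb y hy
        omega
  · intro a ha
    have arith : ∀ (k hh : ℕ) (z : ℤ) (A : ℕ), hh ≤ k → 1 ≤ k → k ≤ m → z ≤ 2 * (m : ℤ) - k →
        A ≤ 2 * (m - k) ^ 2 → A + ((hh : ℤ) * z).toNat ≤ 2 * m ^ 2 := by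
      intro k hh z A g1 g2 g3 g4 g5
      have e1 : ((hh : ℤ) * z).toNat ≤ k * (2 * m - k) := by
        rw [Int.toNat_le]
        have e2 : ((k * (2 * m - k) : ℕ) : ℤ) = (k : ℤ) * (2 * m - k) := by
          rw [Nat.cast_mul, Nat.cast_sub (by omega)]
          push_cast
          ring
        rw [e2]
        have e3 : (hh : ℤ) * z ≤ (hh : ℤ) * (2 * m - k) :=
          mul_le_mul_of_nonneg_left g4 (by positivity)
        have e4 : (hh : ℤ) * (2 * m - k) ≤ (k : ℤ) * (2 * m - k) :=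
          mul_le_mul_of_nonneg_right (by exact_mod_cast g1) (by omega)
        linarith
      obtain ⟨d, rfl⟩ := Nat.exists_eq_add_of_le g3
      have e5 : k + d - k = d := by omega
      have e6 : 2 * (k + d) - k = k + 2 * d := by omega
      rw [e5] at g5
      rw [e6] at e1
      nlinarith
    rcases mem_asm ha with ⟨T, hT, rfl⟩ | ⟨p, hp, b, hb, rfl⟩ | ⟨h6, b, hb, rfl⟩
    · unfold capSk
      simp
    · unfold oth at hp
      rw [mem_filter] at hp
      obtain ⟨k1, k2, k3⟩ := key p hp.1 hp.2.2 b hb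
      have hp1 := ((M41.mem_allowed _ _ _).1 hp.1).1
      have hlen := KW.len_hl hp1
      have h3 := h.2.2 r p hp1
      unfold shf
      simp only
      rw [KW.ht_eq hp1]
      exact arith (hl p) (htn p) (2 * x + jump p) b.A h3.2 hlen.2.1 hp.2.2 (by linarith) k3
    · obtain ⟨k1, k2, k3⟩ := key tk1 h1 (by rw [tk1_hl]; exact h6) b hb
      rw [tk1_hl] at k3
      rw [tk1_hl, tk1_jump] at k2
      have := arith 6 4 (2 * x + 2) b.A (by norm_num) (by norm_num) h6 (by push_cast at k2 ⊢; linarith) k3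
      unfold tok
      simp only
      have e : ((4 : ℕ) : ℤ) * (2 * x + 2) = ((4 * (2 * x + 2).toNat : ℕ) : ℤ) := by
        push_cast
        rw [Int.toNat_of_nonneg (by omega)]
      rw [e, Int.toNat_natCast] at this
      exact this

end Pool.Agent.FS.SKEL
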