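import Pool.Agent.Lib_helper74.FS.Arch3

/-!
Module FS_SKEL, part 5: the weighted count of the skeletons of arches.
-/

set_option autoImplicit false

namespace Pool.Agent.FS.SKEL

open Finset Filter Topology MeasureTheory
open Pool.Agent.Lib27 Pool.Agent.SapR Pool.Agent.Gap Pool.Agent.AreaLaw Pool.Agent.FL

lemma asm_count (h : HG_Stmt) (r : ℕ) (hr : 10 ≤ r) (x : ℤ) (hx : 1 ≤ x) (m : ℕ)
    (N : Wd × Wd → Multiset Sk)
    (hN : ∀ p : Wd × Wd, p ∈ allowed r x → hl p ≤ m → ASk r (x + jump p) (m - hl p) (N p))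
    (s τ ρ : ℝ) (hs : 0 < s) (hτ : 0 ≤ τ) (hρ : 0 < ρ)
    (hyp : ∑ p ∈ Pc r, ρ ^ hl p * s ^ (hl p - htn p) ≤ 1 + (1 - τ) * (ρ ^ 6 * (s ^ 2 + s ^ 3))) :
    ρ ^ m * ms (fun a => s ^ (m - a.H) * ((1 + s) * τ) ^ a.l.length) (asm r x m N) ≤
      ∑ m' ∈ range (m + 1), cf r s ρ m' := by
  classical
  have h1 := tk1_mem r hr x hx
  have h2 := tk2_mem r hr x hx
  have hc0 : ∀ m', 0 ≤ cf r s ρ m' := fun m' => cf_nonneg r s ρ m' hs hρ
  set K : ℝ := ∑ m' ∈ range m, cf r s ρ m' with hK
  have hK0 : 0 ≤ K := Finset.sum_nonneg fun m' _ => hc0 m'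
  have hinner : ∀ p ∈ allowed r x, hl p ≤ m →
      ρ ^ (m - hl p) * ms (fun a => s ^ (m - hl p - a.H) * ((1 + s) * τ) ^ a.l.length) (N p) ≤
        K := by
    intro p hp hpm
    have hlen := KW.len_hl ((M41.mem_allowed _ _ _).1 hp).1
    refine ((hN p hp hpm).count s τ ρ hs hτ hρ hyp).trans ?_
    apply Finset.sum_le_sum_of_subset_of_nonneg
    · intro a ha
      rw [mem_range] at *
      omega
    · intro a _ _
      exact hc0 a
  -- caps
  have hcap : ρ ^ m * ms (fun a => s ^ (m - a.H) * ((1 + s) * τ) ^ a.l.length)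
      ((CapSet r x (2 * m)).val.map capSk) ≤ cf r s ρ m := by
    rw [ms_val, Finset.mul_sum]
    unfold capSk
    simp only [List.length_nil, pow_zero, mul_one]
    unfold cf
    by_cases hxm : x ≤ m
    · exact Finset.single_le_sum (f := fun x : ℤ => ∑ T ∈ CapSet r x (2 * m),
        ρ ^ m * s ^ (m - hgt T)) (fun x _ => Finset.sum_nonneg fun T _ => by positivity)
        (mem_Icc.2 ⟨hx, hxm⟩)
    · rw [M41.CapSet_empty H66.k5cap r x (2 * m) hx (by push_cast; omega), Finset.sum_empty]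
      exact Finset.sum_nonneg fun x _ => Finset.sum_nonneg fun T _ => by positivity
  -- other pieces
  have hoth : ∀ p ∈ oth r x m, ρ ^ m * ms (fun a => s ^ (m - a.H) * ((1 + s) * τ) ^ a.l.length)
      ((N p).map (shf x p)) ≤ ρ ^ hl p * s ^ (hl p - htn p) * K := by
    intro p hp
    unfold oth at hp
    rw [mem_filter] at hp
    obtain ⟨hp, -, hpm⟩ := hp
    have hp1 := ((M41.mem_allowed _ _ _).1 hp).1
    have h3 := h.2.2 r p hp1
    rw [ms_map]
    have e1 : ms (fun a => s ^ (m - (shf x p a).H) * ((1 + s) * τ) ^ (shf x p a).l.length) (N p) =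
        s ^ (hl p - htn p) *
          ms (fun a => s ^ (m - hl p - a.H) * ((1 + s) * τ) ^ a.l.length) (N p) := by
      rw [← ms_mul]
      apply ms_congr
      intro a ha
      have h4 := (hN p hp hpm).H_le a ha
      unfold shf
      simp only
      rw [← mul_assoc, ← pow_add]
      congr 2
      omega
    rw [e1]
    have e2 : ρ ^ m = ρ ^ hl p * ρ ^ (m - hl p) := by
      rw [← pow_add]; congr 1; omega
    rw [e2]
    have e3 := mul_le_mul_of_nonneg_left (hinner p hp hpm)
      (show 0 ≤ ρ ^ hl p * s ^ (hl p - htn p) by positivity)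
    refine le_trans (le_of_eq ?_) e3
    ring
  -- tokens
  have htok : ρ ^ m * ms (fun a => s ^ (m - a.H) * ((1 + s) * τ) ^ a.l.length)
      (if 6 ≤ m then (N tk1).map (tok x) else 0) ≤ τ * (ρ ^ 6 * (s ^ 2 + s ^ 3)) * K := by
    split_ifs with h6
    · have hN1 := hN tk1 h1 (by rw [tk1_hl]; exact h6)
      have hi := hinner tk1 h1 (by rw [tk1_hl]; exact h6)
      rw [tk1_hl] at hi
      rw [ms_map]
      have e1 : ms (fun a => s ^ (m - (tok x a).H) * ((1 + s) * τ) ^ (tok x a).l.length)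
          (N tk1) = s ^ 2 * ((1 + s) * τ) *
            ms (fun a => s ^ (m - 6 - a.H) * ((1 + s) * τ) ^ a.l.length) (N tk1) := by
        rw [← ms_mul]
        apply ms_congr
        intro a ha
        have h4 := hN1.H_le a ha
        rw [tk1_hl] at h4
        unfold tok
        simp only [List.length_cons]
        rw [show m - (a.H + 4) = 2 + (m - 6 - a.H) by omega, pow_add, pow_succ]
        ring
      rw [e1]
      have e2 : ρ ^ m = ρ ^ 6 * ρ ^ (m - 6) := by
        rw [← pow_add]; congr 1; omega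
      rw [e2]
      have e3 := mul_le_mul_of_nonneg_left hi
        (show 0 ≤ ρ ^ 6 * (s ^ 2 * ((1 + s) * τ)) by positivity)
      refine le_trans (le_of_eq ?_) (e3.trans (le_of_eq ?_)) <;> ring
    · rw [ms_zero, mul_zero]
      positivity
  -- total weight
  have hW : ∑ p ∈ oth r x m, ρ ^ hl p * s ^ (hl p - htn p) + τ * (ρ ^ 6 * (s ^ 2 + s ^ 3)) ≤ 1 := by
    have hP1 := ((M41.mem_allowed _ _ _).1 h1).1
    have hP2 := ((M41.mem_allowed _ _ _).1 h2).1
    have e1 : ∑ p ∈ oth r x m, ρ ^ hl p * s ^ (hl p - htn p) ≤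
        ∑ p ∈ (Pc r).filter (fun p => ¬ (p = tk1 ∨ p = tk2)), ρ ^ hl p * s ^ (hl p - htn p) := by
      apply Finset.sum_le_sum_of_subset_of_nonneg
      · intro p hp
        unfold oth at hp
        rw [mem_filter] at hp
        rw [mem_filter]
        refine ⟨((M41.mem_allowed _ _ _).1 hp.1).1, ?_⟩
        rintro (h5 | h5)
        · exact hp.2.1.1 h5
        · exact hp.2.1.2 h5
      · intro p _ _
        positivity
    have e2 := Finset.sum_filter_add_sum_filter_not (Pc r) (fun p => p = tk1 ∨ p = tk2)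
      (fun p => ρ ^ hl p * s ^ (hl p - htn p))
    have e3 : (Pc r).filter (fun p => p = tk1 ∨ p = tk2) = {tk1, tk2} := by
      ext p
      rw [mem_filter, mem_insert, mem_singleton]
      constructor
      · exact fun h => h.2
      · rintro (rfl | rfl)
        · exact ⟨hP1, Or.inl rfl⟩
        · exact ⟨hP2, Or.inr rfl⟩
    rw [e3, sum_pair tk_ne, tk1_hl, tk2_hl, tk1_htn, tk2_htn] at e2
    rw [show (6 : ℕ) - 4 = 2 from rfl, show (6 : ℕ) - 3 = 3 from rfl] at e2
    linarith
  have htot : ρ ^ m * ms (fun a => s ^ (m - a.H) * ((1 + s) * τ) ^ a.l.length) (asm r x m N) =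
      ρ ^ m * ms (fun a => s ^ (m - a.H) * ((1 + s) * τ) ^ a.l.length)
        ((CapSet r x (2 * m)).val.map capSk) +
      ∑ p ∈ oth r x m, ρ ^ m * ms (fun a => s ^ (m - a.H) * ((1 + s) * τ) ^ a.l.length)
        ((N p).map (shf x p)) +
      ρ ^ m * ms (fun a => s ^ (m - a.H) * ((1 + s) * τ) ^ a.l.length)
        (if 6 ≤ m then (N tk1).map (tok x) else 0) := by
    unfold asm
    rw [ms_add, ms_add, ms_sum, mul_add, mul_add, mul_sum]
  rw [htot, Finset.sum_range_succ]
  have e4 := Finset.sum_le_sum hoth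
  rw [← Finset.sum_mul] at e4
  have e5 := mul_le_mul_of_nonneg_right hW hK0
  rw [one_mul, add_mul] at e5
  linarith

/-- skeletons of arches -/
theorem ars (h : HG_Stmt) (r : ℕ) (hr : 10 ≤ r) (m : ℕ) : ∀ x : ℤ, 1 ≤ x →
    ∃ M : Multiset Sk, ASk r x m M := by
  classical
  induction m using Nat.strong_induction_on with
  | _ m ih =>
    intro x hx
    have hex : ∀ p : Wd × Wd, ∃ M : Multiset Sk, p ∈ allowed r x → hl p ≤ m →
        ASk r (x + jump p) (m - hl p) M := by
      intro p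
      by_cases hp : p ∈ allowed r x ∧ hl p ≤ m
      · have hp1 := ((M41.mem_allowed _ _ _).1 hp.1)
        have hlen := KW.len_hl hp1.1
        obtain ⟨M, hM⟩ := ih (m - hl p) (by omega) (x + jump p) hp1.2.2.1
        exact ⟨M, fun _ _ => hM⟩
      · exact ⟨0, fun h1 h2 => absurd ⟨h1, h2⟩ hp⟩
    choose N hN using hex
    obtain ⟨i1, i2, i3⟩ := asm_inv h r hr x hx m N hN
    obtain ⟨i4, i5⟩ := asm_inv2 r hr x hx m h N hN
    exact ⟨asm r x m N, asm_repr h r hr x hx m N hN, i1, i2, i4, i3, i5,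
      fun s τ ρ hs hτ hρ hyp => asm_count h r hr x hx m N hN s τ ρ hs hτ hρ hyp⟩

end Pool.Agent.FS.SKEL
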