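import Pool.Agent.Lib_helper89.FL.KW

/-!
# Polygons with fixed span (MP_f6626d_co): definitions

Canonical polygon words are indexed by `q = (x, M, T, w) ∈ Omn n`; `sp q` is their span, `arq n q`
the integer area functional of `Lib_helper41`, `dq q` the shoelace sum, `wtq n s q = s ^ (n - sp q)`.
-/

set_option autoImplicit false

namespace Pool.Agent.FS

open Finset Filter Topology MeasureTheory
open Pool.Agent.Lib27 Pool.Agent.SapR Pool.Agent.Gap Pool.Agent.AreaLaw Pool.Agent.FL

/-- indices of the canonical polygon words -/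
abbrev QI : Type := (_ : ℤ) × (_ : ℕ) × (Wd × Wd)

/-- canonical polygon words of half perimeter `n` -/
noncomputable abbrev Omn (n : ℕ) : Finset QI := M41.Om (2 * n - 1) n

/-- span -/
noncomputable def sp (q : QI) : ℕ := hgt q.2.2.2 + hgt q.2.2.1

/-- integer area functional -/
noncomputable def arq (n : ℕ) (q : QI) : ℕ := M41.Ar (2 * n - 1) q.2.2.2

/-- shoelace sum -/
def dq (q : QI) : ℤ := dbl 0 q.2.2.2 + dbl 0 q.2.2.1

/-- the scale of the area -/
noncomputable def sc (n : ℕ) : ℝ := (n : ℝ) * Real.sqrt n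

/-- rescaled area functional -/
noncomputable def ra (n : ℕ) (q : QI) : ℝ := (arq n q : ℝ) / sc n

/-- total weight -/
noncomputable def Zq (n : ℕ) (s : ℝ) : ℝ := ∑ q ∈ Omn n, wtq n s q

/-- weighted sum of `φ (ra q)` over the words of span `h` -/
noncomputable def U (n : ℕ) (s : ℝ) (h : ℕ) (φ : ℝ → ℝ) : ℝ :=
  ∑ q ∈ (Omn n).filter (fun q => sp q = h), wtq n s q * φ (ra n q)

/-- critical weight -/
def Crit (n : ℕ) (s rho : ℝ) : Prop :=
  0 < rho ∧ ∑ p ∈ Pc (2 * n - 1), rho ^ hl p * s ^ (hl p - htn p) = 1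

/-- the mean of the span under the force `f` is within distance `1` of `h` -/
def Cen (n : ℕ) (f h : ℝ) : Prop :=
  |∑ s ∈ SAP n, Real.exp (f * span n s) * ((span n s : ℝ) - h)| ≤ forceZ f n

/-- the two classes: span equal to `h` (`b = true`), span at least `h` (`b = false`) -/
def inC (b : Bool) (h k : ℕ) : Prop := (b = true ∧ k = h) ∨ (b = false ∧ h ≤ k)

/-- Laplace transform of the rescaled area functional -/
noncomputable def lapQ (n : ℕ) (s lam : ℝ) : ℝ :=
  (∑ q ∈ Omn n, wtq n s q * Real.exp (-(lam * ra n q))) / Zq n s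

/-! ### sums over subsets of the entries of a list -/

/-- sum over the subsets of the positions of the list of a function of the number of positions
and of the sum of their entries -/
noncomputable def rs : List ℕ → (ℕ → ℕ → ℝ) → ℝ
  | [], F => F 0 0
  | (y :: l), F => rs l F + rs l (fun j t => F (j + 1) (t + y))

@[simp] lemma rs_nil (F : ℕ → ℕ → ℝ) : rs [] F = F 0 0 := rfl

@[simp] lemma rs_cons (y : ℕ) (l : List ℕ) (F : ℕ → ℕ → ℝ) :
    rs (y :: l) F = rs l F + rs l (fun j t => F (j + 1) (t + y)) := rfl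

lemma rs_add (l : List ℕ) (F G : ℕ → ℕ → ℝ) :
    rs l (fun j t => F j t + G j t) = rs l F + rs l G := by
  induction l generalizing F G with
  | nil => rfl
  | cons y l ih =>
    simp only [rs_cons]
    rw [ih, ih]
    ring

lemma rs_mul (l : List ℕ) (c : ℝ) (F : ℕ → ℕ → ℝ) :
    rs l (fun j t => c * F j t) = c * rs l F := by
  induction l generalizing F with
  | nil => rfl
  | cons y l ih =>
    simp only [rs_cons]
    rw [ih, ih]
    ring

/-- monotonicity; only the values at `j ≤ length`, `t ≤ sum` matter -/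
lemma rs_mono (l : List ℕ) (F G : ℕ → ℕ → ℝ)
    (h : ∀ j t : ℕ, j ≤ l.length → t ≤ l.sum → F j t ≤ G j t) : rs l F ≤ rs l G := by
  induction l generalizing F G with
  | nil => exact h 0 0 le_rfl le_rfl
  | cons y l ih =>
    simp only [rs_cons]
    refine add_le_add (ih _ _ fun j t hj ht => h j t ?_ ?_) (ih _ _ fun j t hj ht => h _ _ ?_ ?_)
    · simp only [List.length_cons]; omega
    · simp only [List.sum_cons]; omega
    · simp only [List.length_cons]; omega
    · simp only [List.sum_cons]; omega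

lemma rs_congr (l : List ℕ) (F G : ℕ → ℕ → ℝ)
    (h : ∀ j t : ℕ, j ≤ l.length → t ≤ l.sum → F j t = G j t) : rs l F = rs l G :=
  le_antisymm (rs_mono l F G fun j t hj ht => (h j t hj ht).le)
    (rs_mono l G F fun j t hj ht => (h j t hj ht).ge)

lemma rs_zero (l : List ℕ) : rs l (fun _ _ => 0) = 0 := by
  have := rs_mul l 0 (fun _ _ => 0)
  simpa using this

lemma rs_nonneg (l : List ℕ) (F : ℕ → ℕ → ℝ)
    (h : ∀ j t : ℕ, j ≤ l.length → t ≤ l.sum → 0 ≤ F j t) : 0 ≤ rs l F := by
  rw [← rs_zero l]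
  exact rs_mono l _ _ h

/-- the empty subset -/
lemma rs_ge_zero (l : List ℕ) (F : ℕ → ℕ → ℝ)
    (h : ∀ j t : ℕ, j ≤ l.length → t ≤ l.sum → 0 ≤ F j t) : F 0 0 ≤ rs l F := by
  induction l generalizing F with
  | nil => exact le_rfl
  | cons y l ih =>
    simp only [rs_cons]
    have h1 := ih F fun j t hj ht => h j t (by simp only [List.length_cons]; omega)
      (by simp only [List.sum_cons]; omega)
    have h2 := rs_nonneg l (fun j t => F (j + 1) (t + y)) fun j t hj ht => h _ _
      (by simp only [List.length_cons]; omega) (by simp only [List.sum_cons]; omega)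
    linarith

/-- binomial weights, extended by zero -/
noncomputable def bp (k : ℕ) (p : ℝ) (j : ℤ) : ℝ :=
  if 0 ≤ j ∧ j ≤ k then (k.choose j.toNat : ℝ) * p ^ j.toNat * (1 - p) ^ (k - j.toNat) else 0

/-! ### skeletons -/

/-- the token of height 4 -/
def tk1 : Wd × Wd := ([0, 0, 3, 0, 0, 3, 0, 0], [2, 2, 2, 2])

/-- the token of height 3 -/
def tk2 : Wd × Wd := ([0, 0, 3, 0, 3, 0, 3, 0, 1], [2, 2, 2])

/-- difference of the area offsets of the tokens -/
def dlt : ℤ := off tk2 - off tk1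

/-- a skeleton: list of the numbers `y = 2 x + 2` (`x` the lower gap) of the tokens, and the
height, area functional and shoelace sum of the word in which all tokens are of the first kind.
Replacing `j` tokens with total `t` by the second kind changes them to `H - j`, `A - t`,
`L - t + dlt * j`. -/
structure Sk where
  l : List ℕ
  H : ℕ
  A : ℕ
  L : ℤ

/-- generating function of the caps -/
noncomputable def capK (n : ℕ) (s ρ : ℝ) : ℝ :=
  ∑ m ∈ range (n + 1), ∑ x ∈ Icc (1 : ℤ) m, ∑ T ∈ CapSet (2 * n - 1) x (2 * m),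
    ρ ^ m * s ^ (m - hgt T)

/-- the family `σ` of skeletons describes the canonical polygon words -/
structure IsSkel (n k : ℕ) (σ : Fin k → Sk) : Prop where
  repr : ∀ F : ℤ → ℤ → ℤ → ℝ, ∑ q ∈ Omn n, F (sp q) (arq n q) (dq q) =
    ∑ i, rs (σ i).l (fun j t => F ((σ i).H - j) ((σ i).A - t) ((σ i).L - t + dlt * j))
  len_le : ∀ i, (σ i).l.length ≤ (σ i).H
  H_le : ∀ i, (σ i).H ≤ n
  y_le : ∀ i, ∀ y ∈ (σ i).l, y ≤ 2 * n + 2
  sum_le : ∀ i, 4 * (σ i).l.sum ≤ (σ i).A
  A_le : ∀ i, (σ i).A ≤ 2 * n ^ 2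
  count : ∀ s τ ρ : ℝ, 0 < s → 0 ≤ τ → 0 < ρ →
    ∑ p ∈ Pc (2 * n - 1), ρ ^ hl p * s ^ (hl p - htn p) ≤
      1 + (1 - τ) * (ρ ^ 6 * (s ^ 2 + s ^ 3)) →
    ρ ^ n * ∑ i, s ^ (n - (σ i).H) * ((1 + s) * τ) ^ (σ i).l.length ≤ (capK n s ρ) ^ 2

/-- weight of a skeleton (sum of the weights of its words) -/
noncomputable def vsk (n : ℕ) (s : ℝ) (a : Sk) : ℝ := s ^ (n - a.H) * (1 + s) ^ a.l.length

open Classical in
/-- a property of all words holds for the words in which all tokens are of the first kind -/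
lemma IsSkel.all {n k : ℕ} {σ : Fin k → Sk} (h : IsSkel n k σ) (Q : ℤ → ℤ → ℤ → Prop)
    (hQ : ∀ q ∈ Omn n, Q (sp q) (arq n q) (dq q)) (i : Fin k) :
    Q (σ i).H (σ i).A (σ i).L := by
  by_contra hc
  have h1 := h.repr (fun a b c => if Q a b c then 0 else 1)
  have h2 : ∑ q ∈ Omn n, (if Q (sp q) (arq n q) (dq q) then (0 : ℝ) else 1) = 0 := by
    refine Finset.sum_eq_zero fun q hq => ?_
    rw [if_pos (hQ q hq)]
  rw [h2] at h1
  have h3 : ∀ j ∈ (univ : Finset (Fin k)), 0 ≤ rs (σ j).l (fun a t =>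
      if Q ((σ j).H - a) ((σ j).A - t) ((σ j).L - t + dlt * a) then (0 : ℝ) else 1) := by
    intro j _
    refine rs_nonneg _ _ fun a t _ _ => ?_
    split_ifs <;> norm_num
  have h4 := (Finset.sum_eq_zero_iff_of_nonneg h3).1 h1.symm i (Finset.mem_univ i)
  have h5 := rs_ge_zero (σ i).l (fun a t =>
      if Q ((σ i).H - a) ((σ i).A - t) ((σ i).L - t + dlt * a) then (0 : ℝ) else 1) (by
    intro a t _ _
    split_ifs <;> norm_num)
  simp only [Nat.cast_zero, sub_zero, mul_zero, add_zero] at h5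
  rw [if_neg hc, h4] at h5
  linarith

end Pool.Agent.FS
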