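import Pool.Agent.Lib_helper74.FS.Stmts

/-!
# Module FS_IND: asymptotic independence (from FS_MGF)
-/

set_option autoImplicit false

namespace Pool.Agent.FS

open Finset Filter Topology

namespace IND

/-- uniform approximation by a polynomial in `exp (-a)`, up to `a / R` -/
lemma approx (φ : ℝ → ℝ) (hφ : Continuous φ) (hb : ∀ x, |φ x| ≤ 1) (R ε : ℝ) (hR : 0 < R)
    (hε : 0 < ε) : ∃ p : Polynomial ℝ, ∀ a : ℝ, 0 ≤ a →
      |φ a - p.eval (Real.exp (-a))| ≤ ε + a / R := by
  set χ : ℝ → ℝ := fun a => max 0 (min 1 (R + 1 - a)) with hχ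
  have hχc : Continuous χ := by fun_prop
  have hpos : ∀ u : ℝ, 0 < max u (Real.exp (-(R + 1))) := fun u =>
    lt_max_of_lt_right (Real.exp_pos _)
  set F : ℝ → ℝ := fun u => φ (-Real.log (max u (Real.exp (-(R + 1))))) *
    χ (-Real.log (max u (Real.exp (-(R + 1))))) with hF
  have hlog : Continuous fun u : ℝ => -Real.log (max u (Real.exp (-(R + 1)))) := by
    refine Continuous.neg (Continuous.log (by fun_prop) fun u => (hpos u).ne')
  have hFc : Continuous F := (hφ.comp hlog).mul (hχc.comp hlog)
  obtain ⟨p, hp⟩ := exists_polynomial_near_of_continuousOn 0 1 F hFc.continuousOn ε hε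
  refine ⟨p, fun a ha => ?_⟩
  have hu : Real.exp (-a) ∈ Set.Icc (0 : ℝ) 1 :=
    ⟨(Real.exp_pos _).le, Real.exp_le_one_iff.2 (by linarith)⟩
  have h1 := hp _ hu
  have h2 : F (Real.exp (-a)) = φ a * χ a := by
    rcases le_or_gt a (R + 1) with h | h
    · have h3 : max (Real.exp (-a)) (Real.exp (-(R + 1))) = Real.exp (-a) :=
        max_eq_left (Real.exp_le_exp.2 (by linarith))
      simp only [hF, h3, Real.log_exp, neg_neg]
    · have h3 : max (Real.exp (-a)) (Real.exp (-(R + 1))) = Real.exp (-(R + 1)) :=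
        max_eq_right (Real.exp_le_exp.2 (by linarith))
      have h4 : χ (R + 1) = 0 := by simp [hχ]
      have h5 : χ a = 0 := by
        simp only [hχ]
        exact max_eq_left (le_trans (min_le_right _ _) (by linarith))
      simp only [hF, h3, Real.log_exp, neg_neg, h4, h5, mul_zero]
  have h3 : |φ a - φ a * χ a| ≤ a / R := by
    have h4 : φ a - φ a * χ a = φ a * (1 - χ a) := by ring
    rw [h4, abs_mul]
    rcases le_or_gt a R with h | h
    · have h5 : χ a = 1 := by
        simp only [hχ]
        rw [min_eq_left (by linarith)]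
        norm_num
      rw [h5]
      simp only [sub_self, abs_zero, mul_zero]
      positivity
    · have h5 : 0 ≤ χ a := le_max_left _ _
      have h6 : χ a ≤ 1 := max_le zero_le_one (min_le_left _ _)
      have h7 : |1 - χ a| ≤ 1 := by rw [abs_le]; constructor <;> linarith
      have h8 : 1 ≤ a / R := by rw [le_div_iff₀ hR]; linarith
      calc |φ a| * |1 - χ a| ≤ 1 * 1 := mul_le_mul (hb a) h7 (abs_nonneg _) zero_le_one
        _ ≤ a / R := by linarith
  have h4 : φ a - p.eval (Real.exp (-a)) =
      (φ a - φ a * χ a) - (p.eval (Real.exp (-a)) - F (Real.exp (-a))) := by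
    rw [h2]; ring
  rw [h4]
  calc |(φ a - φ a * χ a) - (p.eval (Real.exp (-a)) - F (Real.exp (-a)))|
      ≤ |φ a - φ a * χ a| + |p.eval (Real.exp (-a)) - F (Real.exp (-a))| := abs_sub _ _
    _ ≤ ε + a / R := by linarith

variable {α : ℕ → Type} (P : ∀ n, Finset (α n)) (w X A : ∀ n, α n → ℝ)

/-- the covariance -/
noncomputable def D (g f : ℝ → ℝ) (n : ℕ) : ℝ :=
  ∑ x ∈ P n, w n x * (g (X n x) * f (A n x)) -
    (∑ x ∈ P n, w n x * g (X n x)) * ∑ x ∈ P n, w n x * f (A n x)

lemma D_add (g f f' : ℝ → ℝ) (n : ℕ) :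
    D P w X A g (fun a => f a + f' a) n = D P w X A g f n + D P w X A g f' n := by
  have e1 : ∑ x ∈ P n, w n x * (g (X n x) * (f (A n x) + f' (A n x))) =
      ∑ x ∈ P n, w n x * (g (X n x) * f (A n x)) +
      ∑ x ∈ P n, w n x * (g (X n x) * f' (A n x)) := by
    rw [← Finset.sum_add_distrib]
    exact Finset.sum_congr rfl fun x _ => by ring
  have e2 : ∑ x ∈ P n, w n x * (f (A n x) + f' (A n x)) =
      ∑ x ∈ P n, w n x * f (A n x) + ∑ x ∈ P n, w n x * f' (A n x) := by
    rw [← Finset.sum_add_distrib]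
    exact Finset.sum_congr rfl fun x _ => by ring
  simp only [D, e1, e2]
  ring

lemma D_mul (g f : ℝ → ℝ) (c : ℝ) (n : ℕ) :
    D P w X A g (fun a => c * f a) n = c * D P w X A g f n := by
  have e1 : ∑ x ∈ P n, w n x * (g (X n x) * (c * f (A n x))) =
      c * ∑ x ∈ P n, w n x * (g (X n x) * f (A n x)) := by
    rw [Finset.mul_sum]
    exact Finset.sum_congr rfl fun x _ => by ring
  have e2 : ∑ x ∈ P n, w n x * (c * f (A n x)) = c * ∑ x ∈ P n, w n x * f (A n x) := by
    rw [Finset.mul_sum]
    exact Finset.sum_congr rfl fun x _ => by ring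
  simp only [D, e1, e2]
  ring

lemma poly (g : ℝ → ℝ)
    (h : ∀ j : ℕ, Tendsto (D P w X A g fun a => Real.exp (-((j : ℝ) * a))) atTop (𝓝 0))
    (p : Polynomial ℝ) :
    Tendsto (D P w X A g fun a => p.eval (Real.exp (-a))) atTop (𝓝 0) := by
  induction p using Polynomial.induction_on' with
  | add p q hp hq =>
    have e : (D P w X A g fun a => (p + q).eval (Real.exp (-a))) = fun n =>
        D P w X A g (fun a => p.eval (Real.exp (-a))) n +
        D P w X A g (fun a => q.eval (Real.exp (-a))) n := by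
      funext n
      rw [← D_add]
      simp only [Polynomial.eval_add]
    rw [e]
    simpa using hp.add hq
  | monomial j c =>
    have e : (D P w X A g fun a => (Polynomial.monomial j c).eval (Real.exp (-a))) = fun n =>
        c * D P w X A g (fun a => Real.exp (-((j : ℝ) * a))) n := by
      funext n
      rw [← D_mul]
      congr 1
      funext a
      rw [Polynomial.eval_monomial, ← Real.exp_nat_mul]
      congr 2
      ring
    rw [e]
    simpa using (h j).const_mul c

end IND

open IND in
theorem IND_thm (hMGF : MGF_Stmt) : IND_Stmt := by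
  intro α P w X A hw hA hP hX hAC hcov g φ hg hφ hgb hφb
  classical
  -- step 1: exponentials
  have h1 : ∀ lam : ℝ, 0 ≤ lam →
      Tendsto (D P w X A g fun a => Real.exp (-(lam * a))) atTop (𝓝 0) := by
    intro lam hlam
    set m : ℕ → ℝ := fun n => ∑ x ∈ P n, w n x * Real.exp (-(lam * A n x)) with hm
    set c : ∀ n, α n → ℝ := fun n x =>
      if ∑ y ∈ P n, w n y = 1 then Real.exp (-(lam * A n x)) - m n else 0 with hc
    have hcb : ∀ n x, |c n x| ≤ 1 := by
      intro n x
      by_cases hn : ∑ y ∈ P n, w n y = 1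
      · have e0 : c n x = Real.exp (-(lam * A n x)) - m n := by simp only [hc, if_pos hn]
        have e1 : 0 ≤ m n := Finset.sum_nonneg fun y _ => mul_nonneg (hw n y) (Real.exp_pos _).le
        have e2 : m n ≤ 1 := by
          rw [← hn]
          refine Finset.sum_le_sum fun y _ => ?_
          have : Real.exp (-(lam * A n y)) ≤ 1 :=
            Real.exp_le_one_iff.2 (by have := mul_nonneg hlam (hA n y); linarith)
          exact mul_le_of_le_one_right (hw n y) this
        have e3 : 0 ≤ Real.exp (-(lam * A n x)) := (Real.exp_pos _).le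
        have e4 : Real.exp (-(lam * A n x)) ≤ 1 :=
          Real.exp_le_one_iff.2 (by have := mul_nonneg hlam (hA n x); linarith)
        rw [e0, abs_le]
        constructor <;> linarith
      · have e0 : c n x = 0 := by simp only [hc, if_neg hn]
        rw [e0]; simp
    have key : ∀ f : ℝ → ℝ, ∀ᶠ n in atTop, ∑ x ∈ P n, w n x * (f (X n x) * c n x) =
        D P w X A f (fun a => Real.exp (-(lam * a))) n := by
      intro f
      filter_upwards [hP] with n hn
      have e : ∀ x ∈ P n, w n x * (f (X n x) * c n x) =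
          w n x * (f (X n x) * Real.exp (-(lam * A n x))) - w n x * f (X n x) * m n := by
        intro x _
        simp only [hc, if_pos hn]
        ring
      rw [Finset.sum_congr rfl e, Finset.sum_sub_distrib, ← Finset.sum_mul]
      simp only [D, hm]
    have h2 := hMGF α P w X c hw hcb hP hX (fun t => by
      refine (hcov t lam hlam).congr' ?_
      filter_upwards [key fun y => Real.exp (t * y)] with n hn
      rw [hn]
      simp only [D]) g hg hgb
    refine h2.congr' ?_
    exact key g
  -- step 2: general functions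
  obtain ⟨C, hC⟩ := hAC
  have hpoly := poly P w X A g fun j => h1 j (Nat.cast_nonneg j)
  change Tendsto (D P w X A g φ) atTop (𝓝 0)
  rw [Metric.tendsto_atTop]
  intro δ hδ
  have hC0 : 0 < |C| + 1 := by positivity
  set R : ℝ := 8 * (|C| + 1) / δ with hR
  have hRpos : 0 < R := by positivity
  obtain ⟨p, hp⟩ := approx φ hφ hφb R (δ / 8) hRpos (by positivity)
  have hp2 := hpoly p
  rw [Metric.tendsto_atTop] at hp2
  obtain ⟨N, hN⟩ := hp2 (δ / 4) (by positivity)
  have hev := hP.and hC
  rw [Filter.eventually_atTop] at hev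
  obtain ⟨N', hN'⟩ := hev
  refine ⟨max N N', fun n hn => ?_⟩
  have hn1 := hN n (le_trans (le_max_left _ _) hn)
  obtain ⟨hs, hAn⟩ := hN' n (le_trans (le_max_right _ _) hn)
  rw [Real.dist_eq, sub_zero] at hn1 ⊢
  set r : ℝ → ℝ := fun a => φ a - p.eval (Real.exp (-a)) with hr
  have e1 : D P w X A g φ n = D P w X A g (fun a => p.eval (Real.exp (-a))) n +
      D P w X A g r n := by
    rw [← D_add]
    congr 1
    funext a
    simp only [hr]
    ring
  -- bound of the rest
  have e2 : ∑ x ∈ P n, w n x * |r (A n x)| ≤ δ / 4 := by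
    calc ∑ x ∈ P n, w n x * |r (A n x)| ≤ ∑ x ∈ P n, w n x * (δ / 8 + A n x / R) :=
          Finset.sum_le_sum fun x _ => mul_le_mul_of_nonneg_left (hp _ (hA n x)) (hw n x)
      _ = (∑ x ∈ P n, w n x) * (δ / 8) + (∑ x ∈ P n, w n x * A n x) / R := by
          rw [Finset.sum_mul, Finset.sum_div, ← Finset.sum_add_distrib]
          exact Finset.sum_congr rfl fun x _ => by ring
      _ ≤ 1 * (δ / 8) + (|C| + 1) / R := by
          rw [hs]
          have : (∑ x ∈ P n, w n x * A n x) ≤ |C| + 1 := by
            have := le_abs_self C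
            linarith
          have := div_le_div_of_nonneg_right this hRpos.le
          linarith
      _ = δ / 4 := by
          rw [hR]
          field_simp
          ring
  have e3 : |∑ x ∈ P n, w n x * (g (X n x) * r (A n x))| ≤ δ / 4 := by
    refine le_trans (Finset.abs_sum_le_sum_abs _ _) (le_trans (Finset.sum_le_sum fun x _ => ?_) e2)
    rw [abs_mul, abs_mul, abs_of_nonneg (hw n x)]
    refine mul_le_mul_of_nonneg_left ?_ (hw n x)
    exact mul_le_of_le_one_left (abs_nonneg _) (hgb _)
  have e4 : |∑ x ∈ P n, w n x * r (A n x)| ≤ δ / 4 := by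
    refine le_trans (Finset.abs_sum_le_sum_abs _ _) (le_trans (Finset.sum_le_sum fun x _ => ?_) e2)
    rw [abs_mul, abs_of_nonneg (hw n x)]
  have e5 : |∑ x ∈ P n, w n x * g (X n x)| ≤ 1 := by
    rw [← hs]
    refine le_trans (Finset.abs_sum_le_sum_abs _ _) (Finset.sum_le_sum fun x _ => ?_)
    rw [abs_mul, abs_of_nonneg (hw n x)]
    exact mul_le_of_le_one_right (hw n x) (hgb _)
  have e6 : |D P w X A g r n| ≤ δ / 2 := by
    simp only [D]
    calc |∑ x ∈ P n, w n x * (g (X n x) * r (A n x)) -
          (∑ x ∈ P n, w n x * g (X n x)) * ∑ x ∈ P n, w n x * r (A n x)|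
        ≤ |∑ x ∈ P n, w n x * (g (X n x) * r (A n x))| +
          |(∑ x ∈ P n, w n x * g (X n x)) * ∑ x ∈ P n, w n x * r (A n x)| := abs_sub _ _
      _ ≤ δ / 4 + 1 * (δ / 4) := by
          refine add_le_add e3 ?_
          rw [abs_mul]
          exact mul_le_mul e5 e4 (abs_nonneg _) zero_le_one
      _ = δ / 2 := by ring
  rw [e1]
  calc |D P w X A g (fun a => p.eval (Real.exp (-a))) n + D P w X A g r n|
      ≤ |D P w X A g (fun a => p.eval (Real.exp (-a))) n| + |D P w X A g r n| := abs_add_le _ _
    _ < δ := by linarith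

end Pool.Agent.FS
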