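import Pool.Agent.Lib_helper74.FS.Stmts

/-!
# Module FS_MGF: from exponential moments to weak convergence
-/

set_option autoImplicit false

namespace Pool.Agent.FS.MGF

open Finset Filter Topology

/-- linear functionals on functions, with bounded exponential moments -/
structure Fam (L : ℕ → (ℝ → ℝ) → ℝ) : Prop where
  add : ∀ n f g, L n (fun x => f x + g x) = L n f + L n g
  smul : ∀ n (a : ℝ) f, L n (fun x => a * f x) = a * L n f
  bd : ∀ T : ℝ, ∃ C : ℝ, 0 ≤ C ∧ ∀ᶠ n in atTop, ∀ (f : ℝ → ℝ) (e : ℝ),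
    (∀ x, |f x| ≤ e * (Real.exp (T * x) + Real.exp (-(T * x)))) → |L n f| ≤ C * e
  ex : ∀ t : ℝ, Tendsto (fun n => L n (fun x => Real.exp (t * x))) atTop (𝓝 0)

variable {L : ℕ → (ℝ → ℝ) → ℝ}

def V (L : ℕ → (ℝ → ℝ) → ℝ) (f : ℝ → ℝ) : Prop := Tendsto (fun n => L n f) atTop (𝓝 0)

theorem Fam.V_add (h : Fam L) {f g : ℝ → ℝ} (hf : V L f) (hg : V L g) :
    V L (fun x => f x + g x) := by
  have := Tendsto.add hf hg
  rw [add_zero] at this
  exact this.congr fun n => (h.add n f g).symm

theorem Fam.V_smul (h : Fam L) (a : ℝ) {f : ℝ → ℝ} (hf : V L f) : V L (fun x => a * f x) := by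
  have := Tendsto.const_mul a hf
  rw [mul_zero] at this
  exact this.congr fun n => (h.smul n a f).symm

theorem Fam.V_zero (h : Fam L) : V L (fun _ => 0) := by
  have h1 := h.V_smul 0 (h.ex 0)
  simpa using h1

theorem Fam.V_sum (h : Fam L) {ι : Type} (s : Finset ι) (F : ι → ℝ → ℝ)
    (hF : ∀ i ∈ s, V L (F i)) : V L (fun x => ∑ i ∈ s, F i x) := by
  classical
  induction s using Finset.induction_on with
  | empty => simpa using h.V_zero
  | insert a s ha ih =>
    have h1 := h.V_add (hF a (mem_insert_self a s)) (ih fun i hi => hF i (mem_insert_of_mem hi))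
    refine cast (congrArg (V L) ?_) h1
    funext x
    rw [sum_insert ha]

/-- closure under weighted uniform limits -/
theorem Fam.V_closed (h : Fam L) (T : ℝ) (f : ℝ → ℝ)
    (hf : ∀ e : ℝ, 0 < e → ∃ g, V L g ∧
      ∀ x, |f x - g x| ≤ e * (Real.exp (T * x) + Real.exp (-(T * x)))) : V L f := by
  obtain ⟨C, hC, hbd⟩ := h.bd T
  unfold V
  rw [Metric.tendsto_atTop']
  intro δ hδ
  obtain ⟨g, hg, hfg⟩ := hf (δ / (2 * (C + 1))) (by positivity)
  have h1 : ∀ᶠ n in atTop, |L n g| < δ / 2 := by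
    have := (Metric.tendsto_nhds.1 hg) (δ / 2) (by positivity)
    simpa [Real.dist_eq] using this
  obtain ⟨N, hN⟩ := (hbd.and h1).exists_forall_of_atTop
  refine ⟨N, fun n hn => ?_⟩
  obtain ⟨h2, h3⟩ := hN n hn.le
  have h4 := h2 _ _ hfg
  have h5 : L n f = L n (fun x => f x - g x) + L n g := by
    rw [← h.add]
    congr 1
    funext x
    ring
  rw [Real.dist_eq, sub_zero, h5]
  have h6 : C * (δ / (2 * (C + 1))) ≤ δ / 2 := by
    rw [mul_div_assoc', div_le_div_iff₀ (by positivity) (by positivity)]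
    nlinarith
  calc |L n (fun x => f x - g x) + L n g| ≤ |L n (fun x => f x - g x)| + |L n g| := abs_add_le _ _
    _ < δ / 2 + δ / 2 := by linarith
    _ = δ := by ring

/-! ### elementary estimates -/

theorem exp_abs_le (y : ℝ) : Real.exp |y| ≤ Real.exp y + Real.exp (-y) := by
  rcases abs_cases y with ⟨h, _⟩ | ⟨h, _⟩ <;> rw [h]
  · linarith [Real.exp_pos (-y)]
  · linarith [Real.exp_pos y]

theorem pow_le_exp (y : ℝ) (hy : 0 ≤ y) (m : ℕ) : y ^ m ≤ m.factorial * Real.exp y := by
  have h := Real.pow_div_factorial_le_exp y hy m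
  rw [div_le_iff₀ (by positivity)] at h
  linarith

theorem exp_diff (y : ℝ) : |Real.exp y - 1 - y| ≤ y ^ 2 * Real.exp |y| := by
  have h := Complex.norm_exp_sub_sum_le_norm_mul_exp (y : ℂ) 2
  rw [Finset.sum_range_succ, Finset.sum_range_succ, Finset.sum_range_zero] at h
  simp only [Nat.factorial, pow_zero, pow_one, Nat.cast_one, div_one, zero_add,
    Complex.norm_real, Real.norm_eq_abs, sq_abs] at h
  have h2 : Complex.exp (y : ℂ) - (1 + (y : ℂ) / ((1 * 1 : ℕ) : ℂ)) =
      ((Real.exp y - 1 - y : ℝ) : ℂ) := by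
    push_cast
    ring
  have h3 : ‖((Real.exp y - 1 - y : ℝ) : ℂ)‖ ≤ y ^ 2 * Real.exp |y| := by
    rw [← h2]
    simpa using h
  rwa [Complex.norm_real, Real.norm_eq_abs] at h3

theorem tail_le (y : ℝ) (hy : 0 ≤ y) (K : ℕ) :
    Real.exp y - ∑ m ∈ range K, y ^ m / m.factorial ≤ (1 / 2 : ℝ) ^ K * Real.exp (2 * y) := by
  have h1 : HasSum (fun m : ℕ => y ^ m / m.factorial) (Real.exp y) := by
    rw [Real.exp_eq_exp_ℝ]
    exact NormedSpace.expSeries_div_hasSum_exp y
  have h2 : HasSum (fun m : ℕ => (2 * y) ^ m / m.factorial) (Real.exp (2 * y)) := by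
    rw [Real.exp_eq_exp_ℝ]
    exact NormedSpace.expSeries_div_hasSum_exp (2 * y)
  have h3 : HasSum (fun m : ℕ => if m ∈ range K then y ^ m / m.factorial else 0)
      (∑ m ∈ range K, y ^ m / m.factorial) := by
    have h0 : HasSum (fun m : ℕ => if m ∈ range K then y ^ m / m.factorial else 0)
        (∑ m ∈ range K, if m ∈ range K then y ^ m / m.factorial else 0) :=
      hasSum_sum_of_ne_finset_zero (fun b hb => if_neg hb)
    rwa [sum_congr rfl fun m hm => if_pos hm] at h0
  refine hasSum_le (fun m => ?_) (h1.sub h3) (h2.mul_left ((1 / 2 : ℝ) ^ K))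
  have hpos : 0 ≤ y ^ m / m.factorial := by positivity
  by_cases hm : m ∈ range K
  · simp only [hm, if_true, sub_self]
    positivity
  · simp only [hm, if_false, sub_zero]
    rw [mem_range, not_lt] at hm
    obtain ⟨j, rfl⟩ := Nat.exists_eq_add_of_le hm
    have h4 : (1 / 2 : ℝ) ^ K * ((2 * y) ^ (K + j) / (K + j).factorial) =
        2 ^ j * (y ^ (K + j) / (K + j).factorial) := by
      rw [mul_pow, pow_add 2, div_pow, one_pow]
      field_simp
    rw [h4]
    have h5 : (1 : ℝ) ≤ 2 ^ j := one_le_pow₀ (by norm_num)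
    nlinarith

/-! ### moments -/

theorem Fam.V_mom (h : Fam L) (m : ℕ) : ∀ t : ℝ, V L (fun x => x ^ m * Real.exp (t * x)) := by
  induction m with
  | zero =>
    intro t
    have h0 := h.ex t
    simpa [V] using h0
  | succ m ih =>
    intro t
    refine h.V_closed (|t| + 2) _ fun e he => ?_
    set s : ℝ := min 1 (e / (m + 2).factorial) with hs
    have hs0 : 0 < s := lt_min one_pos (by positivity)
    have hs1 : s ≤ 1 := min_le_left _ _
    have hs2 : s * (m + 2).factorial ≤ e := by
      have : s ≤ e / (m + 2).factorial := min_le_right _ _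
      rwa [le_div_iff₀ (by positivity)] at this
    refine ⟨fun x => s⁻¹ * (x ^ m * Real.exp ((t + s) * x)) +
      (-s⁻¹) * (x ^ m * Real.exp (t * x)), h.V_add (h.V_smul _ (ih _)) (h.V_smul _ (ih _)),
      fun x => ?_⟩
    have h1 : x ^ (m + 1) * Real.exp (t * x) - (s⁻¹ * (x ^ m * Real.exp ((t + s) * x)) +
        (-s⁻¹) * (x ^ m * Real.exp (t * x))) =
        -(s⁻¹ * (x ^ m * Real.exp (t * x)) * (Real.exp (s * x) - 1 - s * x)) := by
      rw [add_mul t s x, Real.exp_add]
      field_simp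
      ring
    rw [h1, abs_neg, abs_mul, abs_mul, abs_mul, abs_inv, abs_of_pos hs0, abs_pow,
      abs_of_pos (Real.exp_pos _)]
    have h2 := exp_diff (s * x)
    have h3 : s⁻¹ * (|x| ^ m * Real.exp (t * x)) * |Real.exp (s * x) - 1 - s * x| ≤
        s⁻¹ * (|x| ^ m * Real.exp (t * x)) * ((s * x) ^ 2 * Real.exp |s * x|) :=
      mul_le_mul_of_nonneg_left h2 (by positivity)
    refine h3.trans ?_
    have h4 : s⁻¹ * (|x| ^ m * Real.exp (t * x)) * ((s * x) ^ 2 * Real.exp |s * x|) =
        s * (|x| ^ (m + 2) * (Real.exp (t * x) * Real.exp |s * x|)) := by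
      rw [pow_add, sq_abs]
      field_simp
    rw [h4]
    have h5 : |x| ^ (m + 2) ≤ (m + 2).factorial * Real.exp |x| := pow_le_exp _ (abs_nonneg x) _
    have h6 : Real.exp (t * x) * Real.exp |s * x| ≤ Real.exp ((|t| + 1) * |x|) := by
      rw [← Real.exp_add]
      refine Real.exp_le_exp.2 ?_
      have h7 : t * x ≤ |t| * |x| := by
        rw [← abs_mul]
        exact le_abs_self _
      have h8 : |s * x| ≤ |x| := by
        rw [abs_mul, abs_of_pos hs0]
        exact mul_le_of_le_one_left (abs_nonneg x) hs1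
      linarith
    calc s * (|x| ^ (m + 2) * (Real.exp (t * x) * Real.exp |s * x|))
        ≤ s * (((m + 2).factorial * Real.exp |x|) * Real.exp ((|t| + 1) * |x|)) := by
          gcongr
      _ = (s * (m + 2).factorial) * Real.exp (|(|t| + 2) * x|) := by
          rw [abs_mul (|t| + 2) x, abs_of_nonneg (by positivity : (0 : ℝ) ≤ |t| + 2)]
          have : (|t| + 2) * |x| = |x| + (|t| + 1) * |x| := by ring
          rw [this, Real.exp_add]
          ring
      _ ≤ e * Real.exp (|(|t| + 2) * x|) := by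
          gcongr
      _ ≤ e * (Real.exp ((|t| + 2) * x) + Real.exp (-((|t| + 2) * x))) :=
          mul_le_mul_of_nonneg_left (exp_abs_le _) he.le

theorem Fam.V_cos (h : Fam L) (u b : ℝ) : V L (fun x => Real.cos (u * x + b)) := by
  refine h.V_closed (2 * u) _ fun e he => ?_
  obtain ⟨K, hK⟩ := exists_pow_lt_of_lt_one he (by norm_num : (1 / 2 : ℝ) < 1)
  set a : ℕ → ℝ := fun k =>
    (Complex.exp (b * Complex.I) * ((u * Complex.I) ^ k / k.factorial)).re with ha
  refine ⟨fun x => ∑ k ∈ range K, a k * (x ^ k * Real.exp (0 * x)),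
    h.V_sum _ _ fun k _ => h.V_smul _ (h.V_mom k 0), fun x => ?_⟩
  have h1 : Real.cos (u * x + b) - ∑ k ∈ range K, a k * (x ^ k * Real.exp (0 * x)) =
      (Complex.exp (b * Complex.I) * (Complex.exp (u * x * Complex.I) -
        ∑ k ∈ range K, (u * x * Complex.I) ^ k / k.factorial)).re := by
    rw [mul_sub, Complex.sub_re, ← Complex.exp_add]
    congr 1
    · rw [← add_mul]
      have : ((b : ℂ) + u * x) = ((u * x + b : ℝ) : ℂ) := by push_cast; ring
      rw [this, Complex.exp_ofReal_mul_I_re]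
    · rw [mul_sum, Complex.re_sum]
      refine sum_congr rfl fun k _ => ?_
      have h2 : Complex.exp (b * Complex.I) * ((u * x * Complex.I) ^ k / k.factorial) =
          ((x ^ k : ℝ) : ℂ) *
            (Complex.exp (b * Complex.I) * ((u * Complex.I) ^ k / k.factorial)) := by
        push_cast
        rw [mul_right_comm (u : ℂ) x Complex.I, mul_pow _ (x : ℂ)]
        ring
      rw [h2, Complex.re_ofReal_mul, zero_mul, Real.exp_zero, mul_one, mul_comm]
  rw [h1]
  refine (Complex.abs_re_le_norm _).trans ?_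
  rw [norm_mul, Complex.norm_exp_ofReal_mul_I, one_mul]
  refine (Complex.norm_exp_sub_sum_le_exp_norm_sub_sum _ _).trans ?_
  have h3 : ‖(u * x * Complex.I : ℂ)‖ = |u * x| := by
    rw [norm_mul, Complex.norm_I, mul_one, ← Complex.ofReal_mul, Complex.norm_real,
      Real.norm_eq_abs]
  rw [h3]
  refine (tail_le _ (abs_nonneg _) K).trans ?_
  have h4 : 2 * |u * x| = |2 * u * x| := by
    rw [mul_assoc, abs_mul 2, abs_two]
  rw [h4]
  exact mul_le_mul hK.le (exp_abs_le _) (Real.exp_pos _).le he.le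

theorem Fam.V_sin_pow (h : Fam L) (θ : ℝ) (m : ℕ) :
    ∀ u b : ℝ, V L (fun x => Real.sin (θ * x) ^ m * Real.cos (u * x + b)) := by
  induction m with
  | zero =>
    intro u b
    simpa using h.V_cos u b
  | succ m ih =>
    intro u b
    have h1 := h.V_add (h.V_smul (1 / 2) (ih (θ + u) (b - Real.pi / 2)))
      (h.V_smul (1 / 2) (ih (θ - u) (-b - Real.pi / 2)))
    refine cast (congrArg (V L) ?_) h1
    funext x
    have h2 : Real.cos ((θ + u) * x + (b - Real.pi / 2)) = Real.sin (θ * x + (u * x + b)) := by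
      rw [← Real.cos_sub_pi_div_two]
      congr 1
      ring
    have h3 : Real.cos ((θ - u) * x + (-b - Real.pi / 2)) = Real.sin (θ * x - (u * x + b)) := by
      rw [← Real.cos_sub_pi_div_two]
      congr 1
      ring
    rw [h2, h3, Real.sin_add, Real.sin_sub]
    ring

theorem Fam.V_poly_sin (h : Fam L) (θ : ℝ) (p : Polynomial ℝ) :
    V L (fun x => p.eval (Real.sin (θ * x))) := by
  have h1 := h.V_sum (range (p.natDegree + 1))
    (fun k x => p.coeff k * (Real.sin (θ * x) ^ k * Real.cos (0 * x + 0)))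
    (fun k _ => h.V_smul _ (h.V_sin_pow θ k 0 0))
  refine cast (congrArg (V L) ?_) h1
  funext x
  rw [Polynomial.eval_eq_sum_range]
  simp

theorem Fam.V_cont (h : Fam L) (g : ℝ → ℝ) (hg : Continuous g) (hb : ∀ x, |g x| ≤ 1) : V L g := by
  refine h.V_closed 1 _ fun e he => ?_
  obtain ⟨R, hR0, hR⟩ : ∃ R : ℝ, 0 < R ∧ (2 + e) ≤ e * Real.exp R := by
    refine ⟨max 1 (Real.log ((2 + e) / e)), by positivity, ?_⟩
    have h1 : (2 + e) / e ≤ Real.exp (max 1 (Real.log ((2 + e) / e))) := by
      rw [← Real.log_le_iff_le_exp (by positivity)]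
      exact le_max_right _ _
    rw [div_le_iff₀ he] at h1
    linarith
  set ψ : ℝ → ℝ := fun s => g ((2 * R / Real.pi) * Real.arcsin s) with hψ
  have hψc : Continuous ψ := hg.comp (continuous_const.mul Real.continuous_arcsin)
  obtain ⟨p, hp⟩ := exists_polynomial_near_of_continuousOn (-1) 1 ψ hψc.continuousOn e he
  set θ : ℝ := Real.pi / (2 * R) with hθ
  refine ⟨fun x => p.eval (Real.sin (θ * x)), h.V_poly_sin θ p, fun x => ?_⟩
  have hsin : Real.sin (θ * x) ∈ Set.Icc (-1 : ℝ) 1 := Real.sin_mem_Icc _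
  have h1 := hp _ hsin
  rw [one_mul]
  rcases le_or_gt |x| R with hx | hx
  · have h2 : ψ (Real.sin (θ * x)) = g x := by
      have hθR : |θ * x| ≤ Real.pi / 2 := by
        rw [abs_mul, abs_of_pos (by positivity : 0 < θ), hθ, div_mul_eq_mul_div,
          div_le_div_iff₀ (by positivity) (by norm_num)]
        nlinarith [Real.pi_pos]
      rw [abs_le] at hθR
      simp only [hψ]
      rw [Real.arcsin_sin hθR.1 hθR.2, hθ]
      congr 1
      have := Real.pi_pos.ne'
      field_simp
    rw [h2] at h1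
    rw [abs_sub_comm]
    have h3 : 1 ≤ Real.exp x + Real.exp (-x) := by
      have := exp_abs_le x
      have := Real.one_le_exp (abs_nonneg x)
      linarith
    nlinarith
  · have h2 : |ψ (Real.sin (θ * x))| ≤ 1 := hb _
    have h3 : |g x - p.eval (Real.sin (θ * x))| ≤ 2 + e := by
      have h4 : |p.eval (Real.sin (θ * x))| ≤ 1 + e := by
        have := abs_sub_abs_le_abs_sub (p.eval (Real.sin (θ * x))) (ψ (Real.sin (θ * x)))
        linarith
      have := abs_sub (g x) (p.eval (Real.sin (θ * x)))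
      linarith [hb x]
    refine h3.trans (hR.trans (mul_le_mul_of_nonneg_left ?_ he.le))
    exact (Real.exp_le_exp.2 hx.le).trans (exp_abs_le x)

/-- the signed laws -/
theorem fam_of (α : ℕ → Type) (P : ∀ n, Finset (α n)) (w X c : ∀ n, α n → ℝ)
    (hw : ∀ n x, 0 ≤ w n x) (hc : ∀ n x, |c n x| ≤ 1)
    (hmgf : ∀ t : ℝ, ∃ C : ℝ, ∀ᶠ n in atTop, ∑ x ∈ P n, w n x * Real.exp (t * X n x) ≤ C)
    (h0 : ∀ t : ℝ, Tendsto (fun n => ∑ x ∈ P n, w n x * (Real.exp (t * X n x) * c n x)) atTop
      (𝓝 0)) :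
    Fam (fun n f => ∑ x ∈ P n, w n x * (f (X n x) * c n x)) where
  add n f g := by
    rw [← sum_add_distrib]
    exact sum_congr rfl fun x _ => by ring
  smul n a f := by
    rw [mul_sum]
    exact sum_congr rfl fun x _ => by ring
  ex t := h0 t
  bd T := by
    obtain ⟨C1, h1⟩ := hmgf T
    obtain ⟨C2, h2⟩ := hmgf (-T)
    refine ⟨|C1| + |C2|, by positivity, ?_⟩
    filter_upwards [h1, h2] with n h1 h2 f e hf
    have he : 0 ≤ e := by
      by_contra hneg
      rw [not_le] at hneg
      have h3 := (abs_nonneg _).trans (hf 0)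
      have h4 : e * (Real.exp (T * 0) + Real.exp (-(T * 0))) < 0 :=
        mul_neg_of_neg_of_pos hneg (by positivity)
      linarith
    calc |∑ x ∈ P n, w n x * (f (X n x) * c n x)|
        ≤ ∑ x ∈ P n, |w n x * (f (X n x) * c n x)| := abs_sum_le_sum_abs _ _
      _ ≤ ∑ x ∈ P n, (e * (w n x * Real.exp (T * X n x)) +
            e * (w n x * Real.exp (-T * X n x))) := by
          refine sum_le_sum fun x _ => ?_
          rw [abs_mul, abs_mul, abs_of_nonneg (hw n x)]
          have h3 : |f (X n x)| * |c n x| ≤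
              e * (Real.exp (T * X n x) + Real.exp (-(T * X n x))) :=
            (mul_le_of_le_one_right (abs_nonneg _) (hc n x)).trans (hf _)
          have h4 := mul_le_mul_of_nonneg_left h3 (hw n x)
          rw [neg_mul]
          linarith
      _ = e * (∑ x ∈ P n, w n x * Real.exp (T * X n x)) +
            e * (∑ x ∈ P n, w n x * Real.exp (-T * X n x)) := by
          rw [sum_add_distrib, mul_sum, mul_sum]
      _ ≤ e * |C1| + e * |C2| := add_le_add
          (mul_le_mul_of_nonneg_left (h1.trans (le_abs_self _)) he)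
          (mul_le_mul_of_nonneg_left (h2.trans (le_abs_self _)) he)
      _ = (|C1| + |C2|) * e := by ring

end Pool.Agent.FS.MGF

/-- FS_MGF -/
theorem Pool.Agent.FS.MGF_thm : Pool.Agent.FS.MGF_Stmt := by
  intro α P w X c hw hc _ hmgf h0 g hg hb
  exact (Pool.Agent.FS.MGF.fam_of α P w X c hw hc hmgf h0).V_cont g hg hb
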