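import Pool.Agent.Lib_helper74.FS.Arch4

/-!
Module FS_SKEL, part 6: skeletons of the canonical polygon words.
-/

set_option autoImplicit false

namespace Pool.Agent.FS.SKEL

open Finset Filter Topology MeasureTheory
open Pool.Agent.Lib27 Pool.Agent.SapR Pool.Agent.Gap Pool.Agent.AreaLaw Pool.Agent.FL

/-- every multiset is given by a family indexed by `Fin k` -/
lemma exists_fin (M : Multiset Sk) : ∃ (k : ℕ) (σ : Fin k → Sk), (∀ i, σ i ∈ M) ∧
    ∀ g : Sk → ℝ, ms g M = ∑ i, g (σ i) := by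
  induction M using Quot.inductionOn with
  | _ l =>
    refine ⟨l.length, fun i => l[i], fun i => ?_, fun g => ?_⟩
    · exact Multiset.mem_coe.2 (List.getElem_mem _)
    · unfold ms
      have h1 : (Multiset.map g (Quot.mk _ l)).sum = (l.map g).sum := by
        change (Multiset.map g (l : Multiset Sk)).sum = _
        rw [Multiset.map_coe, Multiset.sum_coe]
      rw [h1]
      exact (Fin.sum_univ_fun_getElem l g).symm

/-- shift by the closing cap -/
def clo (T : Wd) (a : Sk) : Sk := ⟨a.l, a.H + hgt T, a.A, a.L + dbl 0 T⟩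

/-- skeletons of the canonical polygon words -/
noncomputable def pol (r n : ℕ) (N : ℤ → ℕ → Multiset Sk) : Multiset Sk :=
  ∑ x ∈ Icc (1 : ℤ) r, ∑ M ∈ range (r + 2), ∑ T ∈ CapSet r x M, (N x (n - M / 2)).map (clo T)

lemma mem_pol {r n : ℕ} {N : ℤ → ℕ → Multiset Sk} {a : Sk} (h : a ∈ pol r n N) :
    ∃ (x : ℤ) (M : ℕ) (T : Wd) (b : Sk), 1 ≤ x ∧ M ≤ r + 1 ∧ T ∈ CapSet r x M ∧
      b ∈ N x (n - M / 2) ∧ a = clo T b := by
  unfold pol at h
  rw [Multiset.mem_sum] at h
  obtain ⟨x, hx, h⟩ := h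
  rw [Multiset.mem_sum] at h
  obtain ⟨M, hM, h⟩ := h
  rw [Multiset.mem_sum] at h
  obtain ⟨T, hT, h⟩ := h
  rw [Multiset.mem_map] at h
  obtain ⟨b, hb, rfl⟩ := h
  rw [mem_Icc] at hx
  rw [mem_range] at hM
  exact ⟨x, M, T, b, hx.1, by omega, hT, hb, rfl⟩

theorem SKEL_aux (h : HG_Stmt) (n : ℕ) (hn : 6 ≤ n) : ∃ (k : ℕ) (σ : Fin k → Sk),
    IsSkel n k σ := by
  classical
  obtain ⟨r, hr⟩ : ∃ r, r = 2 * n - 1 := ⟨_, rfl⟩
  have hr10 : 10 ≤ r := by omega
  have hex : ∀ (x : ℤ) (m : ℕ), ∃ M : Multiset Sk, 1 ≤ x → ASk r x m M := by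
    intro x m
    by_cases hx : 1 ≤ x
    · obtain ⟨M, hM⟩ := ars h r hr10 m x hx
      exact ⟨M, fun _ => hM⟩
    · exact ⟨0, fun h => absurd h hx⟩
  choose N hN using hex
  obtain ⟨k, σ, hmem, hsum⟩ := exists_fin (pol r n N)
  have hcapT : ∀ (x : ℤ) (M : ℕ) (T : Wd), 1 ≤ x → T ∈ CapSet r x M →
      M = 2 * (M / 2) ∧ x ≤ (M / 2 : ℕ) ∧ M ≤ 2 * n ∧ hgt T ≤ M / 2 := by
    intro x M T hx hT
    obtain ⟨h1, h2, h3, h4⟩ := H66.k5cap.1 r x M T hx hT
    have hT' := (M41.mem_CapSet _ _ _ _).1 hT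
    have h5 := h.2.1 x T hx hT'.2.1
    rw [hT'.1] at h5
    rw [Nat.even_iff] at h1
    refine ⟨by omega, by omega, by omega, by omega⟩
  refine ⟨k, σ, ⟨?_, ?_, ?_, ?_, ?_, ?_, ?_⟩⟩
  · intro F
    have e0 : ∑ i, rs (σ i).l (fun j t => F ((σ i).H - j) ((σ i).A - t) ((σ i).L - t + dlt * j)) =
        ms (ev F) (pol r n N) := (hsum (ev F)).symm
    rw [e0]
    unfold pol
    rw [ms_sum]
    unfold Omn M41.Om
    rw [← hr, sum_sigma]
    apply sum_congr rfl
    intro x hx
    rw [mem_Icc] at hx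
    rw [ms_sum, sum_sigma]
    apply sum_congr rfl
    intro M hM
    rw [ms_sum, sum_product]
    apply sum_congr rfl
    intro T hT
    obtain ⟨c1, c2, c3, c4⟩ := hcapT x M T hx.1 hT
    rw [ms_map]
    have e1 := (hN x (n - M / 2) hx.1).repr (fun a b c => F (a + hgt T) b (c + dbl 0 T))
    rw [show 2 * (n - M / 2) = 2 * n - M by omega] at e1
    have e2 : ms (fun a => ev F (clo T a)) (N x (n - M / 2)) =
        ms (ev (fun a b c => F (a + hgt T) b (c + dbl 0 T))) (N x (n - M / 2)) := by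
      apply ms_congr
      intro a _
      unfold ev clo
      apply rs_congr
      intro j t _ _
      push_cast
      congr 1 <;> ring
    rw [e2, ← e1]
    apply sum_congr rfl
    intro w _
    unfold sp arq dq
    rw [← hr]
    push_cast
    rfl
  · intro i
    obtain ⟨x, M, T, b, hx, hM, hT, hb, hab⟩ := mem_pol (hmem i)
    rw [hab]
    have := (hN x (n - M / 2) hx).len_le b hb
    unfold clo
    simp only
    omega
  · intro i
    obtain ⟨x, M, T, b, hx, hM, hT, hb, hab⟩ := mem_pol (hmem i)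
    rw [hab]
    obtain ⟨c1, c2, c3, c4⟩ := hcapT x M T hx hT
    have := (hN x (n - M / 2) hx).H_le b hb
    unfold clo
    simp only
    omega
  · intro i y hy
    obtain ⟨x, M, T, b, hx, hM, hT, hb, hab⟩ := mem_pol (hmem i)
    rw [hab] at hy
    unfold clo at hy
    simp only at hy
    have := (hN x (n - M / 2) hx).y_le b hb y hy
    omega
  · intro i
    obtain ⟨x, M, T, b, hx, hM, hT, hb, hab⟩ := mem_pol (hmem i)
    rw [hab]
    exact (hN x (n - M / 2) hx).sum_le b hb
  · intro i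
    obtain ⟨x, M, T, b, hx, hM, hT, hb, hab⟩ := mem_pol (hmem i)
    rw [hab]
    refine ((hN x (n - M / 2) hx).A_le b hb).trans ?_
    have : n - M / 2 ≤ n := Nat.sub_le _ _
    exact Nat.mul_le_mul_left 2 (Nat.pow_le_pow_left this 2)
  · intro s τ ρ hs hτ hρ hyp
    rw [← hr] at hyp
    have hc0 : ∀ m', 0 ≤ cf r s ρ m' := fun m' => cf_nonneg r s ρ m' hs hρ
    have hK : capK n s ρ = ∑ m ∈ range (n + 1), cf r s ρ m := by
      unfold capK cf
      rw [← hr]
    set K : ℝ := ∑ m ∈ range (n + 1), cf r s ρ m with hKdef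
    have hK0 : 0 ≤ K := Finset.sum_nonneg fun m _ => hc0 m
    rw [hK, ← hsum (fun a => s ^ (n - a.H) * ((1 + s) * τ) ^ a.l.length)]
    unfold pol
    rw [ms_sum, mul_sum]
    have hterm : ∀ x ∈ Icc (1 : ℤ) r, ρ ^ n * ms (fun a => s ^ (n - a.H) *
        ((1 + s) * τ) ^ a.l.length) (∑ M ∈ range (r + 2), ∑ T ∈ CapSet r x M,
          (N x (n - M / 2)).map (clo T)) ≤
        ∑ M ∈ range (r + 2), ∑ T ∈ CapSet r x M, ρ ^ (M / 2) * s ^ (M / 2 - hgt T) * K := by
      intro x hx
      rw [mem_Icc] at hx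
      rw [ms_sum, mul_sum]
      apply sum_le_sum
      intro M _
      rw [ms_sum, mul_sum]
      apply sum_le_sum
      intro T hT
      obtain ⟨c1, c2, c3, c4⟩ := hcapT x M T hx.1 hT
      have e1 : ms (fun a => s ^ (n - a.H) * ((1 + s) * τ) ^ a.l.length)
          ((N x (n - M / 2)).map (clo T)) = s ^ (M / 2 - hgt T) *
          ms (fun a => s ^ (n - M / 2 - a.H) * ((1 + s) * τ) ^ a.l.length)
            (N x (n - M / 2)) := by
        rw [ms_map, ← ms_mul]
        apply ms_congr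
        intro a ha
        have h4 := (hN x (n - M / 2) hx.1).H_le a ha
        unfold clo
        simp only
        rw [← mul_assoc, ← pow_add]
        congr 2
        omega
      have e2 : ρ ^ n = ρ ^ (M / 2) * ρ ^ (n - M / 2) := by
        rw [← pow_add]; congr 1; omega
      have e3 := (hN x (n - M / 2) hx.1).count s τ ρ hs hτ hρ hyp
      have e4 : ∑ m' ∈ range (n - M / 2 + 1), cf r s ρ m' ≤ K := by
        apply Finset.sum_le_sum_of_subset_of_nonneg
        · intro a ha
          rw [mem_range] at *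
          omega
        · intro a _ _
          exact hc0 a
      rw [e1, e2]
      have e5 := mul_le_mul_of_nonneg_left (e3.trans e4)
        (show 0 ≤ ρ ^ (M / 2) * s ^ (M / 2 - hgt T) by positivity)
      refine le_trans (le_of_eq ?_) e5
      ring
    refine (Finset.sum_le_sum hterm).trans ?_
    simp only [← Finset.sum_mul]
    rw [pow_two]
    refine mul_le_mul_of_nonneg_right ?_ hK0
    -- sum over the caps
    rw [sum_comm]
    have hodd : ∀ M ∈ range (r + 2), M % 2 = 1 → ∑ x ∈ Icc (1 : ℤ) r, ∑ T ∈ CapSet r x M,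
        ρ ^ (M / 2) * s ^ (M / 2 - hgt T) = 0 := by
      intro M _ hM
      apply sum_eq_zero
      intro x hx
      rw [mem_Icc] at hx
      rw [M41.CapSet_empty H66.k5cap r x M hx.1 (Or.inl hM), sum_empty]
    have e6 : ∑ M ∈ range (r + 2), ∑ x ∈ Icc (1 : ℤ) r, ∑ T ∈ CapSet r x M,
        ρ ^ (M / 2) * s ^ (M / 2 - hgt T) =
        ∑ M ∈ (range (r + 2)).filter (fun M => M % 2 = 0), ∑ x ∈ Icc (1 : ℤ) r,
          ∑ T ∈ CapSet r x M, ρ ^ (M / 2) * s ^ (M / 2 - hgt T) := by
      rw [Finset.sum_filter]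
      apply sum_congr rfl
      intro M hM
      by_cases h2 : M % 2 = 0
      · rw [if_pos h2]
      · rw [if_neg h2]
        exact hodd M hM (by omega)
    rw [e6]
    have e7 : ∑ M ∈ (range (r + 2)).filter (fun M => M % 2 = 0), ∑ x ∈ Icc (1 : ℤ) r,
          ∑ T ∈ CapSet r x M, ρ ^ (M / 2) * s ^ (M / 2 - hgt T) ≤
        ∑ M ∈ (range (r + 2)).filter (fun M => M % 2 = 0), cf r s ρ (M / 2) := by
      apply sum_le_sum
      intro M hM
      rw [mem_filter, mem_range] at hM
      unfold cf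
      have hM2 : 2 * (M / 2) = M := by omega
      rw [hM2]
      have hsub : ∑ x ∈ Icc (1 : ℤ) r, ∑ T ∈ CapSet r x M, ρ ^ (M / 2) * s ^ (M / 2 - hgt T) ≤
          ∑ x ∈ (Icc (1 : ℤ) r).filter (fun x : ℤ => x ≤ ((M / 2 : ℕ) : ℤ)), ∑ T ∈ CapSet r x M,
            ρ ^ (M / 2) * s ^ (M / 2 - hgt T) := by
        rw [Finset.sum_filter]
        apply sum_le_sum
        intro x hx
        rw [mem_Icc] at hx
        by_cases hxM : x ≤ ((M / 2 : ℕ) : ℤ)
        · rw [if_pos hxM]
        · rw [if_neg hxM, M41.CapSet_empty H66.k5cap r x M hx.1 (by right; left; omega),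
            sum_empty]
      refine hsub.trans ?_
      apply Finset.sum_le_sum_of_subset_of_nonneg
      · intro x hx
        rw [mem_filter, mem_Icc] at hx
        rw [mem_Icc]
        exact ⟨hx.1.1, hx.2⟩
      · intro x _ _
        exact Finset.sum_nonneg fun T _ => by positivity
    refine e7.trans ?_
    rw [hKdef]
    have hinj : Set.InjOn (fun M => M / 2) (((range (r + 2)).filter (fun M => M % 2 = 0) :
        Finset ℕ) : Set ℕ) := by
      intro a ha b hb hab
      rw [mem_coe, mem_filter] at ha hb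
      simp only at hab
      omega
    rw [← Finset.sum_image (f := fun m => cf r s ρ m) hinj]
    apply Finset.sum_le_sum_of_subset_of_nonneg
    · intro m hm
      rw [mem_image] at hm
      obtain ⟨M, hM, rfl⟩ := hm
      rw [mem_filter, mem_range] at hM
      rw [mem_range]
      omega
    · intro m _ _
      exact hc0 m

end Pool.Agent.FS.SKEL

namespace Pool.Agent.FS

open Pool.Agent.FL

/-- FS_SKEL -/
theorem SKEL_thm (h : HG_Stmt) : SKEL_Stmt := fun n hn => SKEL.SKEL_aux h n hn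

end Pool.Agent.FS
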