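import Pool.Agent.Lib_helper74.FS.Stmts
import Pool.Agent.Lib_helper89.FL.ZBound

/-!
Module FS_ZB: critical weight, tails and total weight.
-/

set_option autoImplicit false

namespace Pool.Agent.FS

open Finset Filter Topology MeasureTheory
open Pool.Agent.Lib27 Pool.Agent.SapR Pool.Agent.Gap Pool.Agent.AreaLaw Pool.Agent.FL

/-- FS_ZB -/
theorem ZB_thm (hMG : MG_Stmt) (hMG2 : MGI2_Stmt) (hKW : KW_Stmt) (hLT : GLT_Stmt)
    (oLT1 : Gap.LT1_Stmt) (oM2 : Gap.M2_Stmt) (oBAL : Gap.BAL_Stmt) : ZB_Stmt := by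
  intro s1 h0 h1
  obtain ⟨C1, hC1, N1, hZ⟩ := Z_bound hMG hMG2 hKW hLT oLT1 oM2 oBAL s1 h0 h1
  obtain ⟨C, θ, hC, hθ, hθ1, N0, hT⟩ := hMG s1 h0 h1
  refine ⟨max C C1, θ, lt_max_of_lt_left hC, hθ, hθ1, max (max N0 N1) 1, fun n hn s hs hs1 => ?_⟩
  have hn0 : N0 ≤ n := (le_max_left _ _).trans ((le_max_left _ _).trans hn)
  have hn1 : N1 ≤ n := (le_max_right _ _).trans ((le_max_left _ _).trans hn)
  have hn2 : 1 ≤ n := (le_max_right _ _).trans hn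
  obtain ⟨rho, hr, hcr, hl, hu⟩ := hZ n hn1 s hs hs1
  have h3 := hMG2.2 n s rho hn2 hs (hs1.trans h1.le) hr hcr
  refine ⟨rho, ⟨hr, hcr⟩, (hT n s rho hn0 hs hs1 hr hcr).mono (le_max_left _ _) hθ, h3.1, h3.2,
    ?_, ?_⟩
  · refine le_trans ?_ hl
    exact inv_anti₀ hC1 (le_max_right _ _)
  · exact hu.trans (le_max_right _ _)

end Pool.Agent.FS
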