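import Pool.Agent.Lib_helper89.FL.Main
import Pool.Agent.Lib_helper74.FS.Final
import Pool.Agent.Lib_helper74.FS.ZB
import Pool.Agent.Lib_helper74.FS.SKEL
import Pool.Agent.Lib_helper74.FS.BIN
import Pool.Agent.Lib_helper74.FS.SMP
import Pool.Agent.Lib_helper74.FS.MGF
import Pool.Agent.Lib_helper74.FS.IND
import Pool.Agent.Lib_helper74.FS.CDF
import Pool.Agent.Lib_helper74.FS.DIAG
import Pool.Agent.Lib_helper74.FS.CHOICE
import Pool.Agent.Lib_helper74.FS.ARM
import Pool.Agent.Lib_helper74.FS.PARC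
import Pool.Agent.Lib_helper74.FS.LAPC
import Pool.Agent.Lib_helper74.FS.KBIG
import Pool.Agent.Lib_helper74.FS.LOC
import Pool.Agent.Lib_helper74.FS.SAPC

/-!
The final theorem from the modules EXPM, EQ, CLS.
-/

set_option autoImplicit false

namespace Pool.Agent.FS

open Finset Filter Topology MeasureTheory
open Pool.Agent.Lib27 Pool.Agent.SapR Pool.Agent.Gap Pool.Agent.AreaLaw Pool.Agent.FL

theorem zb_main : ZB_Stmt := by
  obtain ⟨oLT, oLT1, oM2, oBAL, oST, oSUP, oW⟩ := old_gap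
  exact ZB_thm mg_main mgi2 (kw hg) glt_main oLT1 oM2 oBAL

/-- the second moment bound -/
theorem gm2_main : GM2_Stmt := by
  have hC2 : GC2_Stmt := gc2
  have hC : GC_Stmt := GC.gc hC2
  have hRE' : GRE_Stmt := gre hC
  have hSUP : GSUP_Stmt := gsup hC hRE'
  have hW : GW_Stmt := gw hC hSUP
  exact gm2 hC2 hRE' hSUP hW

theorem arm_main : ARM_Stmt := by
  obtain ⟨oLT, oLT1, oM2, oBAL, oST, oSUP, oW⟩ := old_gap
  exact ARM_thm mg_main mgi2 (kw hg) (near hg) glt_main gm2_main oLT1 oM2 oBAL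

theorem lapc_main : LAPC_Stmt := by
  obtain ⟨oLT, oLT1, oM2, oBAL, oST, oSUP, oW⟩ := old_gap
  exact LAPC_thm (PARC_thm zb_main hg) glt_main hg mg_main mgi2 oLT1 oM2 oBAL

theorem loc_main : LOC_Stmt :=
  LOC_thm (SKEL_thm hg) (KBIG_thm zb_main) BIN_thm SMP_thm arm_main

theorem force_main : ∃ μ : Measure ℝ, IsProbabilityMeasure μ ∧
    (∀ x : ℝ, μ {x} = 0 →
      Tendsto (fun n : ℕ => areaCdf n (Staircase n) x) atTop (𝓝 (μ (Set.Iic x)).toReal)) ∧
    FORCE_Stmt μ := by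
  obtain ⟨μ, hμ, hst, e, he, hl, hF⟩ := main
  refine ⟨μ, hμ, hst, fun a ha f hf x hx => hF f ?_ x hx⟩
  filter_upwards [hl.eventually (gt_mem_nhds ha)] with n hn
  exact hn.le.trans (hf n)

/-- the final theorem from the class averages -/
theorem main_of (hCLS : CLS_Stmt) : FINAL_FS_Stmt := by
  obtain ⟨μ, hμ, hst, hF⟩ := force_main
  exact FINAL_of CDF_thm DIAG_thm CHOICE_thm
    (SAPC_thm hCLS zb_main (tr K1H.k1h) hg) μ hμ hst hF

end Pool.Agent.FS
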