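import Pool.Agent.Lib_helper74.FS.Stmts

/-!
# FS_PARC : the three parameters of the kernels are Lipschitz in `s`
-/

set_option autoImplicit false

namespace Pool.Agent.FS.PARC

open Finset Filter Topology
open Pool.Agent.Lib27 Pool.Agent.SapR Pool.Agent.Gap Pool.Agent.AreaLaw Pool.Agent.FL

/-- weight of a piece -/
noncomputable def W (s rho : ℝ) (p : Wd × Wd) : ℝ := rho ^ hl p * s ^ (hl p - htn p)

lemma W_pos {s rho : ℝ} (hs : 0 < s) (hr : 0 < rho) (p : Wd × Wd) : 0 < W s rho p :=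
  mul_pos (pow_pos hr _) (pow_pos hs _)

lemma nonempty_of {n : ℕ} {s a : ℝ} (h1 : Crit n s a) : (Pc (2 * n - 1)).Nonempty := by
  by_contra hE
  rw [Finset.not_nonempty_iff_eq_empty] at hE
  have := h1.2
  rw [hE] at this
  simp at this

lemma crit_le {n : ℕ} {s s' a b : ℝ} (hs : 0 < s) (hss : s ≤ s') (h1 : Crit n s a)
    (h2 : Crit n s' b) : b ≤ a := by
  by_contra hab
  rw [not_le] at hab
  have : ∑ p ∈ Pc (2 * n - 1), a ^ hl p * s ^ (hl p - htn p) <
      ∑ p ∈ Pc (2 * n - 1), b ^ hl p * s' ^ (hl p - htn p) := by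
    refine Finset.sum_lt_sum_of_nonempty (nonempty_of h1) fun p hp => ?_
    refine mul_lt_mul ?_ (pow_le_pow_left₀ hs.le hss _) (pow_pos hs _) (pow_pos h2.1 _).le
    exact pow_lt_pow_left₀ hab h1.1.le (by have := (KW.len_hl hp).2.1; omega)
  rw [h1.2, h2.2] at this
  exact lt_irrefl _ this

lemma crit_le' {n : ℕ} {s s' a b : ℝ} (hs : 0 < s) (hss : s ≤ s') (h1 : Crit n s a)
    (h2 : Crit n s' b) : a ≤ b * (s' / s) := by
  by_contra hab
  rw [not_le] at hab
  have ht : 1 ≤ s' / s := by rwa [le_div_iff₀ hs, one_mul]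
  have h0 : 0 < b * (s' / s) := mul_pos h2.1 (by linarith)
  have : ∑ p ∈ Pc (2 * n - 1), b ^ hl p * s' ^ (hl p - htn p) <
      ∑ p ∈ Pc (2 * n - 1), a ^ hl p * s ^ (hl p - htn p) := by
    refine Finset.sum_lt_sum_of_nonempty (nonempty_of h1) fun p hp => ?_
    have e1 : b ^ hl p * s' ^ (hl p - htn p) ≤ (b * (s' / s)) ^ hl p * s ^ (hl p - htn p) := by
      have e2 : s' ^ (hl p - htn p) = (s' / s) ^ (hl p - htn p) * s ^ (hl p - htn p) := by
        rw [← mul_pow, div_mul_cancel₀ _ hs.ne']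
      rw [e2, mul_pow, mul_assoc]
      refine mul_le_mul_of_nonneg_left ?_ (pow_pos h2.1 _).le
      refine mul_le_mul_of_nonneg_right ?_ (pow_pos hs _).le
      exact pow_le_pow_right₀ ht (Nat.sub_le _ _)
    refine e1.trans_lt (mul_lt_mul_of_pos_right ?_ (pow_pos hs _))
    exact pow_lt_pow_left₀ hab h0.le (by have := (KW.len_hl hp).2.1; omega)
  rw [h1.2, h2.2] at this
  exact lt_irrefl _ this

/-- change of the weight of a piece -/
lemma W_diff {n : ℕ} {s s' a b : ℝ} (hs : 0 < s) (hss : s ≤ s') (h1 : Crit n s a)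
    (h2 : Crit n s' b) (p : Wd × Wd) :
    |W s' b p - W s a p| ≤ W s a p * ((hl p : ℝ) * (s' / s - 1) * (s' / s) ^ hl p) := by
  set t := s' / s with ht
  have ht1 : 1 ≤ t := by rwa [ht, le_div_iff₀ hs, one_mul]
  have hb := h2.1
  have ha := h1.1
  have hba := crit_le hs hss h1 h2
  have hab := crit_le' hs hss h1 h2
  rw [← ht] at hab
  have es : s' = t * s := by rw [ht, div_mul_cancel₀ _ hs.ne']
  have hp := W_pos hs ha p
  have hpow : t ^ hl p - 1 ≤ (hl p : ℝ) * (t - 1) * t ^ hl p := by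
    have h3 : ∀ m : ℕ, t ^ m - 1 ≤ (m : ℝ) * (t - 1) * t ^ m := by
      intro m
      induction m with
      | zero => simp
      | succ m ih =>
        have h4 : 0 ≤ (m : ℝ) * (t - 1) * t ^ m :=
          mul_nonneg (mul_nonneg (Nat.cast_nonneg _) (by linarith)) (by positivity)
        have h5 : (1 : ℝ) ≤ t ^ (m + 1) := one_le_pow₀ ht1
        have h6 : t ^ m ≤ t ^ (m + 1) := pow_le_pow_right₀ ht1 (Nat.le_succ _)
        push_cast
        have h7 : t ^ (m + 1) - 1 = (t ^ m - 1) + (t - 1) * t ^ m := by ring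
        rw [h7]
        have h8 : (m : ℝ) * (t - 1) * t ^ m ≤ (m : ℝ) * (t - 1) * t ^ (m + 1) :=
          mul_le_mul_of_nonneg_left h6 (mul_nonneg (Nat.cast_nonneg _) (by linarith))
        have h9 : (t - 1) * t ^ m ≤ (t - 1) * t ^ (m + 1) :=
          mul_le_mul_of_nonneg_left h6 (by linarith)
        nlinarith
    exact h3 _
  -- upper bound
  have hu : W s' b p ≤ W s a p * t ^ hl p := by
    unfold W
    rw [es, mul_pow]
    have e1 : b ^ hl p ≤ a ^ hl p := pow_le_pow_left₀ hb.le hba _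
    have e2 : t ^ (hl p - htn p) ≤ t ^ hl p := pow_le_pow_right₀ ht1 (Nat.sub_le _ _)
    calc b ^ hl p * (t ^ (hl p - htn p) * s ^ (hl p - htn p))
        ≤ a ^ hl p * (t ^ hl p * s ^ (hl p - htn p)) := by
          refine mul_le_mul e1 ?_ (by positivity) (by positivity)
          exact mul_le_mul_of_nonneg_right e2 (by positivity)
      _ = _ := by ring
  have hl' : W s a p ≤ W s' b p * t ^ hl p := by
    unfold W
    have e1 : a ^ hl p ≤ b ^ hl p * t ^ hl p := by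
      rw [← mul_pow]
      exact pow_le_pow_left₀ ha.le hab _
    have e2 : s ^ (hl p - htn p) ≤ s' ^ (hl p - htn p) := pow_le_pow_left₀ hs.le hss _
    calc a ^ hl p * s ^ (hl p - htn p)
        ≤ (b ^ hl p * t ^ hl p) * s' ^ (hl p - htn p) := by
          refine mul_le_mul e1 e2 (by positivity) (by positivity)
      _ = _ := by ring
  have hT : (1 : ℝ) ≤ t ^ hl p := one_le_pow₀ ht1
  have hq : 0 < W s' b p := W_pos (hs.trans_le hss) hb p
  have key : |W s' b p - W s a p| ≤ W s a p * (t ^ hl p - 1) := by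
    rw [abs_le]
    constructor
    · by_contra hcon
      rw [not_le] at hcon
      have h5 : W s' b p < W s a p * (2 - t ^ hl p) := by nlinarith
      have h6 : W s a p < W s a p * (2 - t ^ hl p) * t ^ hl p :=
        hl'.trans_lt (mul_lt_mul_of_pos_right h5 (by positivity))
      nlinarith [mul_pos hp hp, sq_nonneg (t ^ hl p - 1)]
    · linarith
  exact key.trans (mul_le_mul_of_nonneg_left hpow hp.le)

/-- grouping of the pieces by half length, height and jump -/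
lemma group (h : HG_Stmt) (r : ℕ) (f : ℕ → ℕ → ℤ → ℝ) :
    ∑ p ∈ Pc r, f (hl p) (htn p) (jump p) = ∑ i ∈ KW.SS r,
      ∑ d ∈ Icc (-((r + 2 : ℕ) : ℤ)) (r + 2 : ℕ), f i.1 i.2 d * ((M41.PcT r i d).card : ℝ) := by
  classical
  have hmap : ∀ p ∈ Pc r, (((hl p, htn p), jump p) : (ℕ × ℕ) × ℤ) ∈
      KW.SS r ×ˢ Icc (-((r + 2 : ℕ) : ℤ)) (r + 2 : ℕ) := by
    intro p hp
    rw [mem_product]
    exact KW.piece_mem h hp
  rw [← sum_fiberwise_of_maps_to hmap, sum_product]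
  apply sum_congr rfl
  intro i _
  apply sum_congr rfl
  intro d _
  have hfib : (Pc r).filter (fun p => (((hl p, htn p), jump p) : (ℕ × ℕ) × ℤ) = (i, d)) =
      M41.PcT r i d := by
    ext p
    rw [mem_filter, M41.mem_PcT]
    constructor
    · rintro ⟨h1, h2⟩
      rw [Prod.mk.injEq, Prod.ext_iff] at h2
      simp only at h2
      obtain ⟨⟨a, b⟩, c⟩ := h2
      have := KW.len_hl h1
      have := KW.ht_eq h1
      refine ⟨h1, by omega, by omega, c⟩
    · rintro ⟨h1, h2, h3, h4⟩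
      refine ⟨h1, ?_⟩
      have := KW.len_hl h1
      have := KW.ht_eq h1
      rw [Prod.mk.injEq, Prod.ext_iff]
      simp only
      refine ⟨⟨by omega, by omega⟩, h4⟩
  have e : ∀ p ∈ (Pc r).filter (fun p => (((hl p, htn p), jump p) : (ℕ × ℕ) × ℤ) = (i, d)),
      f (hl p) (htn p) (jump p) = f i.1 i.2 d := by
    intro p hp
    rw [mem_filter, Prod.mk.injEq, Prod.ext_iff] at hp
    simp only at hp
    rw [hp.2.1.1, hp.2.1.2, hp.2.2]
  rw [sum_congr rfl e, sum_const, hfib, nsmul_eq_mul, mul_comm]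

lemma mbar_eq (h : HG_Stmt) (r : ℕ) (s : ℝ) (hs : 0 < s) : (KW.kern r s hs).mbar =
    ∑ p ∈ Pc r, (hl p : ℝ) * W s (KW.kern r s hs).rho p := by
  unfold W
  rw [KW.group h r (fun a b => (a : ℝ) * ((KW.kern r s hs).rho ^ a * s ^ (a - b)))]
  unfold GapKernel.mbar
  refine sum_congr rfl fun i _ => ?_
  rw [KW.kern_tot]
  ring

lemma hbar_eq (h : HG_Stmt) (r : ℕ) (s : ℝ) (hs : 0 < s) : (KW.kern r s hs).hbar =
    ∑ p ∈ Pc r, (htn p : ℝ) * W s (KW.kern r s hs).rho p := by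
  unfold W
  rw [KW.group h r (fun a b => (b : ℝ) * ((KW.kern r s hs).rho ^ a * s ^ (a - b)))]
  unfold GapKernel.hbar
  refine sum_congr rfl fun i _ => ?_
  rw [KW.kern_tot]
  ring

lemma sig2_eq (h : HG_Stmt) (r : ℕ) (s : ℝ) (hs : 0 < s) : (KW.kern r s hs).sig2 =
    ∑ p ∈ Pc r, ((jump p : ℤ) : ℝ) ^ 2 * W s (KW.kern r s hs).rho p := by
  unfold W
  rw [group h r (fun a b d => ((d : ℤ) : ℝ) ^ 2 * ((KW.kern r s hs).rho ^ a * s ^ (a - b)))]
  unfold GapKernel.sig2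
  refine sum_congr rfl fun i _ => ?_
  rw [mul_sum]
  refine sum_congr rfl fun d _ => ?_
  show (KW.kern r s hs).rho ^ i.1 * ((d : ℝ) ^ 2 * (s ^ (i.1 - i.2) *
    ((M41.PcT r i d).card : ℝ))) = _
  ring

/-- the main estimate -/
lemma main {C θ : ℝ} (hC : 0 < C) (hθ : 0 < θ) (hθ1 : θ < 1) {s0 : ℝ} (hs0 : 0 < s0) :
    ∃ C' : ℝ, 0 < C' ∧ ∀ (n : ℕ) (s s' a b : ℝ), s0 ≤ s → s ≤ s' →
      s' - s ≤ s0 * (1 - θ) / 2 → Crit n s a → Crit n s' b → Tails C θ n s a →
      ∀ f : Wd × Wd → ℝ, (∀ p ∈ Pc (2 * n - 1), |f p| ≤ 4 * (hl p : ℝ) ^ 2) →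
      |∑ p ∈ Pc (2 * n - 1), f p * W s' b p - ∑ p ∈ Pc (2 * n - 1), f p * W s a p| ≤
        C' * (s' - s) := by
  set q : ℝ := θ * (1 + (1 - θ) / 2) with hq
  have hq0 : 0 < q := by
    rw [hq]
    exact mul_pos hθ (by linarith)
  have hq1 : q < 1 := by
    rw [hq]
    nlinarith
  have hsum : Summable (fun m : ℕ => (m : ℝ) ^ 3 * q ^ m) :=
    summable_pow_mul_geometric_of_norm_lt_one 3 (by
      rw [Real.norm_eq_abs, abs_of_pos hq0]
      exact hq1)
  set K : ℝ := ∑' m : ℕ, (m : ℝ) ^ 3 * q ^ m with hK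
  have hK0 : 0 ≤ K := tsum_nonneg fun m => by positivity
  refine ⟨4 * C * K / s0 + 1, by positivity, ?_⟩
  intro n s s' a b hs hss hd h1 h2 hT f hf
  have hspos : 0 < s := hs0.trans_le hs
  set t := s' / s with ht
  have ht1 : 1 ≤ t := by rwa [ht, le_div_iff₀ hspos, one_mul]
  have htd : t - 1 ≤ (s' - s) / s0 := by
    have : t - 1 = (s' - s) / s := by
      rw [ht, sub_div, div_self hspos.ne']
    rw [this]
    exact div_le_div_of_nonneg_left (by linarith) hs0 hs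
  have ht2 : t ≤ 1 + (1 - θ) / 2 := by
    have : (s' - s) / s0 ≤ (1 - θ) / 2 := by
      rw [div_le_iff₀ hs0]
      linarith
    linarith
  have hmaps : ∀ p ∈ Pc (2 * n - 1), hl p ∈ range (2 * n + 2) := by
    intro p hp
    have := (KW.len_hl hp).2.2
    rw [mem_range]
    omega
  have step1 : |∑ p ∈ Pc (2 * n - 1), f p * W s' b p - ∑ p ∈ Pc (2 * n - 1), f p * W s a p| ≤
      ∑ p ∈ Pc (2 * n - 1), 4 * (t - 1) * ((hl p : ℝ) ^ 3 * t ^ hl p * W s a p) := by
    rw [← sum_sub_distrib]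
    refine (abs_sum_le_sum_abs _ _).trans (sum_le_sum fun p hp => ?_)
    rw [← mul_sub, abs_mul]
    calc |f p| * |W s' b p - W s a p|
        ≤ (4 * (hl p : ℝ) ^ 2) * (W s a p * ((hl p : ℝ) * (s' / s - 1) * (s' / s) ^ hl p)) :=
          mul_le_mul (hf p hp) (W_diff hspos hss h1 h2 p) (abs_nonneg _) (by positivity)
      _ = _ := by rw [← ht]; ring
  have step2 : ∑ p ∈ Pc (2 * n - 1), (hl p : ℝ) ^ 3 * t ^ hl p * W s a p ≤ C * K := by
    rw [← sum_fiberwise_of_maps_to hmaps]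
    have h5 : ∀ m ∈ range (2 * n + 2), ∑ p ∈ (Pc (2 * n - 1)).filter (fun p => hl p = m),
        (hl p : ℝ) ^ 3 * t ^ hl p * W s a p ≤ C * ((m : ℝ) ^ 3 * q ^ m) := by
      intro m _
      have h6 : ∑ p ∈ (Pc (2 * n - 1)).filter (fun p => hl p = m),
          (hl p : ℝ) ^ 3 * t ^ hl p * W s a p = (m : ℝ) ^ 3 * t ^ m *
            ∑ p ∈ (Pc (2 * n - 1)).filter (fun p => hl p = m), a ^ m * s ^ (m - htn p) := by
        rw [mul_sum]
        refine sum_congr rfl fun p hp => ?_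
        rw [mem_filter] at hp
        unfold W
        rw [hp.2]
      rw [h6]
      calc (m : ℝ) ^ 3 * t ^ m *
            ∑ p ∈ (Pc (2 * n - 1)).filter (fun p => hl p = m), a ^ m * s ^ (m - htn p)
          ≤ (m : ℝ) ^ 3 * t ^ m * (C * θ ^ m) :=
            mul_le_mul_of_nonneg_left (hT.1 m) (by positivity)
        _ = C * ((m : ℝ) ^ 3 * (θ * t) ^ m) := by rw [mul_pow]; ring
        _ ≤ C * ((m : ℝ) ^ 3 * q ^ m) := by
            refine mul_le_mul_of_nonneg_left ?_ hC.le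
            refine mul_le_mul_of_nonneg_left ?_ (by positivity)
            refine pow_le_pow_left₀ (by positivity) ?_ _
            rw [hq]
            exact mul_le_mul_of_nonneg_left ht2 hθ.le
    refine (sum_le_sum h5).trans ?_
    rw [← mul_sum]
    refine mul_le_mul_of_nonneg_left ?_ hC.le
    exact hsum.sum_le_tsum _ fun m _ => by positivity
  rw [← mul_sum] at step1
  refine step1.trans ?_
  calc 4 * (t - 1) * ∑ p ∈ Pc (2 * n - 1), (hl p : ℝ) ^ 3 * t ^ hl p * W s a p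
      ≤ 4 * (t - 1) * (C * K) := mul_le_mul_of_nonneg_left step2 (by linarith)
    _ ≤ 4 * ((s' - s) / s0) * (C * K) := by
        refine mul_le_mul_of_nonneg_right ?_ (by positivity)
        linarith
    _ = (4 * C * K / s0) * (s' - s) := by ring
    _ ≤ (4 * C * K / s0 + 1) * (s' - s) := by
        refine mul_le_mul_of_nonneg_right ?_ (by linarith)
        linarith

end Pool.Agent.FS.PARC

namespace Pool.Agent.FS

open Finset Filter Topology
open Pool.Agent.Lib27 Pool.Agent.SapR Pool.Agent.Gap Pool.Agent.AreaLaw Pool.Agent.FL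

theorem PARC_thm (hZB : ZB_Stmt) (hHG : HG_Stmt) : PARC_Stmt := by
  intro s0 s1 h0 h01 h1
  obtain ⟨C, θ, hC, hθ, hθ1, N, hN⟩ := hZB s1 (h0.trans_le h01) h1
  obtain ⟨C', hC', hmain⟩ := PARC.main hC hθ hθ1 h0
  refine ⟨C', s0 * (1 - θ) / 2, hC', by
    have : 0 < 1 - θ := by linarith
    positivity, max N 1, ?_⟩
  intro n hn s s' hs hs' h2 h3 h4 h5
  have hn1 : N ≤ n := (le_max_left _ _).trans hn
  obtain ⟨a, ha1, ha2, -⟩ := hN n hn1 s hs (h3.trans h4)
  have hk : Crit n s (KW.kern (2 * n - 1) s hs).rho :=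
    ⟨(KW.kern (2 * n - 1) s hs).rho_pos, KW.kern_crit hHG _ s hs⟩
  have hk' : Crit n s' (KW.kern (2 * n - 1) s' hs').rho :=
    ⟨(KW.kern (2 * n - 1) s' hs').rho_pos, KW.kern_crit hHG _ s' hs'⟩
  have e : a = (KW.kern (2 * n - 1) s hs).rho :=
    le_antisymm (PARC.crit_le hs le_rfl hk ha1) (PARC.crit_le hs le_rfl ha1 hk)
  rw [e] at ha2
  have key := hmain n s s' _ _ h2 h3 h5 hk hk' ha2
  refine ⟨?_, ?_, ?_⟩
  · rw [PARC.mbar_eq hHG, PARC.mbar_eq hHG]
    refine key (fun p => (hl p : ℝ)) fun p hp => ?_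
    have h6 : (1 : ℝ) ≤ hl p := by exact_mod_cast (KW.len_hl hp).2.1
    rw [abs_of_nonneg (by linarith)]
    nlinarith
  · rw [PARC.hbar_eq hHG, PARC.hbar_eq hHG]
    refine key (fun p => (htn p : ℝ)) fun p hp => ?_
    have h6 : (1 : ℝ) ≤ hl p := by exact_mod_cast (KW.len_hl hp).2.1
    have h7 : (htn p : ℝ) ≤ hl p := by exact_mod_cast (hHG.2.2 _ p hp).2
    have h8 : (0 : ℝ) ≤ htn p := Nat.cast_nonneg _
    rw [abs_of_nonneg h8]
    nlinarith
  · rw [PARC.sig2_eq hHG, PARC.sig2_eq hHG]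
    refine key (fun p => ((jump p : ℤ) : ℝ) ^ 2) fun p hp => ?_
    have h6 : |jump p| ≤ 2 * (hl p : ℤ) := KW.jump_le hp (KW.len_hl hp).1
    have h7 : |((jump p : ℤ) : ℝ)| ≤ 2 * (hl p : ℝ) := by exact_mod_cast h6
    rw [abs_of_nonneg (sq_nonneg _), ← sq_abs]
    have h8 : (0 : ℝ) ≤ |((jump p : ℤ) : ℝ)| := abs_nonneg _
    nlinarith

end Pool.Agent.FS
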