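import Pool.Agent.Lib_helper74.FS.Stmts

/-!
Module FS_SKEL, part 1: the two tokens.
-/

set_option autoImplicit false

namespace Pool.Agent.FS.SKEL

open Finset Filter Topology MeasureTheory
open Pool.Agent.Lib27 Pool.Agent.SapR Pool.Agent.Gap Pool.Agent.AreaLaw Pool.Agent.FL

lemma tk_ne : tk1 ≠ tk2 := by decide

lemma tk1_hl : hl tk1 = 6 := by decide
lemma tk2_hl : hl tk2 = 6 := by decide
lemma tk1_ht : ht tk1 = 4 := by decide
lemma tk2_ht : ht tk2 = 3 := by decide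
lemma tk1_htn : htn tk1 = 4 := by decide
lemma tk2_htn : htn tk2 = 3 := by decide
lemma tk1_jump : jump tk1 = 2 := by decide
lemma tk2_jump : jump tk2 = 2 := by decide

lemma tk1_free : FreePiece tk1.1 tk1.2 := by
  refine ⟨?_, ?_⟩
  · unfold StripPair; decide
  · intro k h1 h2
    have h3 : lev (ep 0 tk1.1) = 4 := by decide
    rw [h3] at h2 ⊢
    have : k = 1 ∨ k = 2 ∨ k = 3 := by omega
    rcases this with rfl | rfl | rfl <;> decide

lemma tk2_free : FreePiece tk2.1 tk2.2 := by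
  refine ⟨?_, ?_⟩
  · unfold StripPair; decide
  · intro k h1 h2
    have h3 : lev (ep 0 tk2.1) = 3 := by decide
    rw [h3] at h2 ⊢
    have : k = 1 ∨ k = 2 := by omega
    rcases this with rfl | rfl <;> decide

lemma tk1_mem (r : ℕ) (hr : 10 ≤ r) (x : ℤ) (hx : 1 ≤ x) : tk1 ∈ allowed r x := by
  rw [M41.mem_allowed, M41.mem_Pc]
  refine ⟨⟨tk1_free, ?_⟩, hx, ?_, ?_⟩
  · have : tk1.1.length + tk1.2.length = 12 := by decide
    omega
  · rw [tk1_jump]; omega
  · intro v h1 h2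
    have h3 : ∀ v ∈ vt 0 tk1.1, v.2 ≤ 0 := by decide
    have h4 := h3 v h1
    rw [tk1_jump] at h2
    have h5 : ep 0 tk1.1 = (6, -2) := by decide
    rw [h5] at h2
    unfold tk1 at h2
    simp [dv, Prod.ext_iff] at h2
    omega

lemma tk2_mem (r : ℕ) (hr : 10 ≤ r) (x : ℤ) (hx : 1 ≤ x) : tk2 ∈ allowed r x := by
  rw [M41.mem_allowed, M41.mem_Pc]
  refine ⟨⟨tk2_free, ?_⟩, hx, ?_, ?_⟩
  · have : tk2.1.length + tk2.2.length = 12 := by decide
    omega
  · rw [tk2_jump]; omega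
  · intro v h1 h2
    have h3 : ∀ v ∈ vt 0 tk2.1, v.2 ≤ 0 := by decide
    have h4 := h3 v h1
    rw [tk2_jump] at h2
    have h5 : ep 0 tk2.1 = (5, -2) := by decide
    rw [h5] at h2
    unfold tk2 at h2
    simp [dv, Prod.ext_iff] at h2
    omega

end Pool.Agent.FS.SKEL
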